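import Mathlib

set_option autoImplicit false

namespace Pool.Agent.Helper10.Miss

section ring

variable {R : Type*} [CommRing R]

theorem qbin_step (x : R) (T : ℕ → R)
    (hT : ∀ k, T (k + 1) * (1 - x ^ (k + 1)) = (2 * x ^ (k + 1) - x) * T k) (L m : ℕ) (hL : x * T L = 0) :
    (1 + x ^ (m + 1)) * ∑ k ∈ Finset.range (L + 1), x ^ (m * k) * T k =
      (1 + 2 * x ^ (m + 1)) * ∑ k ∈ Finset.range (L + 1), x ^ ((m + 1) * k) * T k := by
  have h1 : ∀ n : ℕ, (1 + x ^ (m + 1)) * ∑ k ∈ Finset.range (n + 1), x ^ (m * k) * T k =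
      (1 + 2 * x ^ (m + 1)) * (∑ k ∈ Finset.range (n + 1), x ^ ((m + 1) * k) * T k) +
        x ^ (m * (n + 1)) * (1 - 2 * x ^ n) * (x * T n) := by
    intro n
    induction n with
    | zero =>
      simp only [zero_add, Finset.sum_range_one, mul_zero, pow_zero, one_mul, mul_one]
      ring
    | succ n ih =>
      rw [Finset.sum_range_succ, mul_add, ih, Finset.sum_range_succ _ (n + 1)]
      have := hT n
      have e : x ^ (m * (n + 1)) * (T (n + 1) * (1 - x ^ (n + 1))) =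
          x ^ (m * (n + 1)) * ((2 * x ^ (n + 1) - x) * T n) := by rw [this]
      linear_combination e
  rw [h1 L, hL, mul_zero, add_zero]

theorem qbin (x : R) (T : ℕ → R) (hT0 : T 0 = 1)
    (hT : ∀ k, T (k + 1) * (1 - x ^ (k + 1)) = (2 * x ^ (k + 1) - x) * T k) (L M : ℕ) (hL : x * T L = 0)
    (hM : x ^ M = 0) :
    (∏ m ∈ Finset.range M, (1 + x ^ (m + 1))) * (∑ k ∈ Finset.range (L + 1), T k) =
      ∏ m ∈ Finset.range M, (1 + 2 * x ^ (m + 1)) := by
  have h1 : ∀ m : ℕ, (∏ i ∈ Finset.range m, (1 + x ^ (i + 1))) * (∑ k ∈ Finset.range (L + 1), T k) =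
      (∏ i ∈ Finset.range m, (1 + 2 * x ^ (i + 1))) * ∑ k ∈ Finset.range (L + 1), x ^ (m * k) * T k := by
    intro m
    induction m with
    | zero => simp
    | succ m ih =>
      rw [Finset.prod_range_succ, mul_right_comm, ih, Finset.prod_range_succ]
      have := qbin_step x T hT L m hL
      linear_combination (∏ i ∈ Finset.range m, (1 + 2 * x ^ (i + 1))) * this
  rw [h1 M]
  have h2 : ∑ k ∈ Finset.range (L + 1), x ^ (M * k) * T k = 1 := by
    rw [Finset.sum_range_succ']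
    rw [Finset.sum_eq_zero]
    · simp [hT0]
    · intro k _
      rw [pow_mul, hM, zero_pow (by omega), zero_mul]
  rw [h2, mul_one]

theorem odd_identity_ring (K : ℕ) (z : R) :
    (∏ i ∈ Finset.range K, (1 - z ^ (2 * i + 1))) * (∏ j ∈ Finset.range (2 * K), (1 + z ^ (j + 1))) *
      (∏ i ∈ Finset.range K, (1 - z ^ (2 * i + 2))) = ∏ i ∈ Finset.range (2 * K), (1 - z ^ (2 * i + 2)) := by
  have h1 : ∀ M : ℕ, (∏ j ∈ Finset.range M, (1 + z ^ (j + 1))) * (∏ j ∈ Finset.range M, (1 - z ^ (j + 1))) =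
      ∏ i ∈ Finset.range M, (1 - z ^ (2 * i + 2)) := by
    intro M
    rw [← Finset.prod_mul_distrib]
    apply Finset.prod_congr rfl
    intro i _
    ring
  have h2 : ∀ K : ℕ, ∏ j ∈ Finset.range (2 * K), (1 - z ^ (j + 1)) =
      (∏ i ∈ Finset.range K, (1 - z ^ (2 * i + 1))) * ∏ i ∈ Finset.range K, (1 - z ^ (2 * i + 2)) := by
    intro K
    induction K with
    | zero => simp
    | succ K ih =>
      rw [show 2 * (K + 1) = 2 * K + 1 + 1 by ring, Finset.prod_range_succ, Finset.prod_range_succ, ih,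
        Finset.prod_range_succ, Finset.prod_range_succ]
      ring
  rw [← h1 (2 * K), h2 K]
  ring

theorem odd_inv (K : ℕ) (z : R) (hz : z ^ (2 * K) = 0) :
    (∏ i ∈ Finset.range K, (1 - z ^ (2 * i + 1))) * (∏ j ∈ Finset.range (2 * K), (1 + z ^ (j + 1))) = 1 := by
  have hunit : IsUnit (∏ i ∈ Finset.range K, (1 - z ^ (2 * i + 2))) := by
    apply Finset.prod_induction _ IsUnit (fun _ _ => IsUnit.mul) isUnit_one
    intro i _
    apply IsNilpotent.isUnit_one_sub
    refine ⟨2 * K, ?_⟩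
    rw [← pow_mul, mul_comm, pow_mul, hz, zero_pow (by omega)]
  apply hunit.mul_right_cancel
  rw [odd_identity_ring, one_mul, ← Finset.prod_range_mul_prod_Ico (fun i => 1 - z ^ (2 * i + 2)) (show K ≤ 2 * K by omega)]
  have : ∏ i ∈ Finset.Ico K (2 * K), (1 - z ^ (2 * i + 2)) = 1 := by
    apply Finset.prod_eq_one
    intro i hi
    rw [Finset.mem_Ico] at hi
    have : z ^ (2 * i + 2) = 0 := by
      obtain ⟨k, hk⟩ := Nat.exists_eq_add_of_le (show 2 * K ≤ 2 * i + 2 by omega)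
      rw [hk, pow_add, hz, zero_mul]
    rw [this, sub_zero]
  rw [this, mul_one]

/-- sum of the terms is the product -/
theorem qbin_prod (K : ℕ) (x : R) (T : ℕ → R) (hT0 : T 0 = 1)
    (hT : ∀ k, T (k + 1) * (1 - x ^ (k + 1)) = (2 * x ^ (k + 1) - x) * T k) (L : ℕ) (hL : x * T L = 0)
    (hM : x ^ (2 * K) = 0) :
    (∑ k ∈ Finset.range (L + 1), T k) =
      (∏ m ∈ Finset.range (2 * K), (1 + 2 * x ^ (m + 1))) * ∏ i ∈ Finset.range K, (1 - x ^ (2 * i + 1)) := by
  rw [← qbin x T hT0 hT L (2 * K) hL hM]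
  have h := odd_inv K x hM
  linear_combination (-(∑ k ∈ Finset.range (L + 1), T k)) * h

end ring

end Pool.Agent.Helper10.Miss
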