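import Pool.Agent.Helper10.Miss.MissDefs
import Pool.Agent.Helper10.Miss.QBin

set_option autoImplicit false

namespace Pool.Agent.Helper10.Miss

open Finset PowerSeries
open scoped PowerSeries.WithPiTopology

theorem sup_mem_or (s : Multiset ℕ) : s = 0 ∨ s.sup ∈ s := by
  induction s using Multiset.induction_on with
  | empty => left; rfl
  | cons a s ih =>
    right
    rw [Multiset.sup_cons]
    rcases le_total a s.sup with h | h
    · rw [sup_eq_right.2 h]
      rcases ih with rfl | h2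
      · simp at h
        subst h
        simp
      · exact Multiset.mem_cons_of_mem h2
    · rw [sup_eq_left.2 h]
      exact Multiset.mem_cons_self a s

theorem missing_add {n : ℕ} (p : n.Partition) (hn : 1 ≤ n) :
    missing p + p.parts.toFinset.card = largest p ∧ 1 ≤ largest p ∧ largest p ≤ n := by
  have hp : p.parts ≠ 0 := by
    intro h
    have := p.parts_sum
    rw [h] at this
    simp at this
    omega
  have hmem : largest p ∈ p.parts := (sup_mem_or p.parts).resolve_left hp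
  have h1 : 1 ≤ largest p := p.parts_pos hmem
  refine ⟨?_, h1, Nat.Partition.le_of_mem_parts hmem⟩
  have e1 : (Finset.Ico 1 (largest p)).filter (fun i => i ∉ p.parts) =
      (Finset.Icc 1 (largest p)).filter (fun i => ¬ i ∈ p.parts) := by
    ext i
    simp only [Finset.mem_filter, Finset.mem_Ico, Finset.mem_Icc]
    constructor
    · rintro ⟨h, h2⟩
      exact ⟨⟨h.1, h.2.le⟩, h2⟩
    · rintro ⟨h, h2⟩
      refine ⟨⟨h.1, lt_of_le_of_ne h.2 ?_⟩, h2⟩
      rintro rfl
      exact h2 hmem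
  have e2 : p.parts.toFinset = (Finset.Icc 1 (largest p)).filter (fun i => i ∈ p.parts) := by
    ext i
    simp only [Finset.mem_filter, Finset.mem_Icc, Multiset.mem_toFinset]
    constructor
    · intro h
      exact ⟨⟨p.parts_pos h, Multiset.le_sup h⟩, h⟩
    · rintro ⟨_, h⟩
      exact h
  have e3 := Finset.card_filter_add_card_filter_not (s := Finset.Icc 1 (largest p)) (fun i => i ∈ p.parts)
  unfold missing
  rw [e1, e2, add_comm, e3]
  simp

/-- the weights: `-1` for each distinct part, parts are at most `ℓ` -/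
def wt (ℓ : ℕ) (i _c : ℕ) : ℤ := if i ≤ ℓ then -1 else 0

theorem wt_prod {n : ℕ} (p : n.Partition) (ℓ : ℕ) :
    p.parts.toFinsupp.prod (wt ℓ) = if largest p ≤ ℓ then (-1) ^ p.parts.toFinset.card else 0 := by
  unfold Finsupp.prod
  rw [Multiset.toFinsupp_support]
  unfold wt
  split_ifs with h
  · rw [Finset.prod_congr rfl (g := fun _ => (-1 : ℤ))]
    · simp
    · intro i hi
      rw [if_pos]
      exact (Multiset.le_sup (Multiset.mem_toFinset.1 hi)).trans h
  · have hne : p.parts ≠ 0 := by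
      intro h0
      unfold largest at h
      rw [h0] at h
      simp at h
    have hmem : largest p ∈ p.parts := (sup_mem_or p.parts).resolve_left hne
    exact Finset.prod_eq_zero (Multiset.mem_toFinset.2 hmem) (if_neg h)

/-- coefficient of the generating function -/
noncomputable def Rl (ℓ : ℕ) : PowerSeries ℤ := Nat.Partition.genFun (wt ℓ)

theorem Rl_zero : Rl 0 = 1 := by
  ext n
  unfold Rl
  rw [Nat.Partition.coeff_genFun, PowerSeries.coeff_one]
  simp_rw [wt_prod]
  split_ifs with h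
  · subst h
    simp [largest]
  · apply Finset.sum_eq_zero
    intro p _
    have := missing_add p (by omega)
    rw [if_neg (by omega)]

theorem geom_factor (i : ℕ) : (1 + ∑' j : ℕ, (-1 : ℤ) • (X : PowerSeries ℤ) ^ ((i + 1) * (j + 1))) * (1 - X ^ (i + 1)) =
    1 - 2 * X ^ (i + 1) := by
  have hs : Summable fun j : ℕ => (-1 : ℤ) • (X : PowerSeries ℤ) ^ ((i + 1) * (j + 1)) :=
    Nat.Partition.summable_genFun_term (fun _ _ => (-1 : ℤ)) i
  have h1 := hs.tsum_eq_zero_add
  have h2 : ∑' j : ℕ, (-1 : ℤ) • (X : PowerSeries ℤ) ^ ((i + 1) * (j + 1 + 1)) =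
      X ^ (i + 1) * ∑' j : ℕ, (-1 : ℤ) • (X : PowerSeries ℤ) ^ ((i + 1) * (j + 1)) := by
    rw [← hs.tsum_mul_left]
    congr 1
    ext1 j
    rw [mul_smul_comm, ← pow_add]
    congr 2
    ring
  rw [h2] at h1
  simp only [zero_add, mul_one] at h1
  set S := ∑' j : ℕ, (-1 : ℤ) • (X : PowerSeries ℤ) ^ ((i + 1) * (j + 1)) with hS
  have h3 : (-1 : ℤ) • (X : PowerSeries ℤ) ^ (i + 1) = -X ^ (i + 1) := by simp
  rw [h3] at h1
  linear_combination h1

theorem Rl_prod (ℓ : ℕ) : Rl ℓ = ∏ i ∈ Finset.range ℓ,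
    (1 + ∑' j : ℕ, (-1 : ℤ) • (X : PowerSeries ℤ) ^ ((i + 1) * (j + 1))) := by
  have h1 := Nat.Partition.hasProd_genFun (wt ℓ)
  have h2 : HasProd (fun i ↦ 1 + ∑' j, wt ℓ (i + 1) (j + 1) • (X : PowerSeries ℤ) ^ ((i + 1) * (j + 1)))
      (∏ i ∈ Finset.range ℓ, (1 + ∑' j, wt ℓ (i + 1) (j + 1) • (X : PowerSeries ℤ) ^ ((i + 1) * (j + 1)))) := by
    apply hasProd_prod_of_ne_finset_one
    intro i hi
    have : ∀ j, wt ℓ (i + 1) (j + 1) = 0 := by
      intro j
      unfold wt
      rw [if_neg]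
      rw [Finset.mem_range] at hi
      omega
    simp [this]
  unfold Rl
  rw [h1.unique h2]
  apply Finset.prod_congr rfl
  intro i hi
  congr 2
  ext1 j
  unfold wt
  rw [if_pos]
  rw [Finset.mem_range] at hi
  omega

theorem Rl_succ (ℓ : ℕ) : Rl (ℓ + 1) * (1 - X ^ (ℓ + 1)) = Rl ℓ * (1 - 2 * X ^ (ℓ + 1)) := by
  rw [Rl_prod (ℓ + 1), Finset.prod_range_succ, mul_assoc, geom_factor, ← Rl_prod]

/-- the terms -/
noncomputable def Tk : ℕ → PowerSeries ℤ
  | 0 => 1
  | k + 1 => (-1) ^ (k + 1) * (Rl (k + 1) - Rl k)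

theorem one_sub_ne (k : ℕ) : (1 - X ^ (k + 1) : PowerSeries ℤ) ≠ 0 := by
  intro h
  have := congrArg (PowerSeries.constantCoeff) h
  simp at this

theorem Tk_mul (k : ℕ) : Tk (k + 1) * (1 - X ^ (k + 1)) = (-1) ^ k * X ^ (k + 1) * Rl k := by
  have h := Rl_succ k
  show (-1) ^ (k + 1) * (Rl (k + 1) - Rl k) * (1 - X ^ (k + 1)) = (-1) ^ k * X ^ (k + 1) * Rl k
  rw [pow_succ]
  linear_combination (-(-1) ^ k) * h

theorem Tk_rec (k : ℕ) : Tk (k + 1) * (1 - X ^ (k + 1)) = (2 * X ^ (k + 1) - X) * Tk k := by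
  rcases k with _ | k
  · rw [Tk_mul, Rl_zero]
    show (-1 : PowerSeries ℤ) ^ 0 * X ^ (0 + 1) * 1 = (2 * X ^ (0 + 1) - X) * 1
    ring
  · apply mul_right_cancel₀ (one_sub_ne k)
    rw [Tk_mul, mul_assoc (2 * X ^ (k + 1 + 1) - X), Tk_mul k]
    have h := Rl_succ k
    rw [mul_assoc, h]
    ring

theorem Tk_dvd (k : ℕ) : (X : PowerSeries ℤ) ^ k ∣ Tk k := by
  rcases k with _ | k
  · simp
  · have hu : IsUnit (1 - X ^ (k + 1) : PowerSeries ℤ) := by
      rw [PowerSeries.isUnit_iff_constantCoeff]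
      simp
    rw [← hu.dvd_mul_right, Tk_mul]
    exact ⟨(-1) ^ k * Rl k, by ring⟩

theorem PP_coe_dvd (N K : ℕ) (hK : N + 1 ≤ 2 * K) (P : PowerSeries ℤ)
    (hP : P = (∏ m ∈ Finset.range (2 * K), (1 + 2 * (X : PowerSeries ℤ) ^ (m + 1))) *
      ∏ i ∈ Finset.range K, (1 - (X : PowerSeries ℤ) ^ (2 * i + 1))) :
    (X : PowerSeries ℤ) ^ (N + 1) ∣ (∑ k ∈ Finset.range (N + 1), Tk k) - P := by
  let I : Ideal (PowerSeries ℤ) := Ideal.span {X ^ (N + 1)}
  have hx : (Ideal.Quotient.mk I X) ^ (N + 1) = 0 := by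
    rw [← map_pow, Ideal.Quotient.eq_zero_iff_mem]
    exact Ideal.mem_span_singleton_self _
  have h := qbin_prod K (Ideal.Quotient.mk I X) (fun k => Ideal.Quotient.mk I (Tk k)) (by
      show Ideal.Quotient.mk I (Tk 0) = 1
      exact map_one _) (by
      intro k
      have := congrArg (Ideal.Quotient.mk I) (Tk_rec k)
      simpa only [map_mul, map_sub, map_pow, map_one, map_ofNat] using this) N (by
      rw [← map_mul, Ideal.Quotient.eq_zero_iff_mem, Ideal.mem_span_singleton]
      obtain ⟨w, hw⟩ := Tk_dvd N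
      exact ⟨w, by rw [hw]; ring⟩) (by
      obtain ⟨k, hk⟩ := Nat.exists_eq_add_of_le hK
      rw [hk, pow_add, hx, zero_mul])
  rw [← Ideal.mem_span_singleton]
  change _ ∈ I
  rw [← Ideal.Quotient.eq_zero_iff_mem, map_sub, sub_eq_zero, hP]
  rw [map_sum, h]
  simp only [map_mul, map_prod, map_add, map_sub, map_pow, map_one, map_ofNat]

theorem coeff_Tk_sum (n N : ℕ) (hn : 1 ≤ n) (hN : n ≤ N) :
    PowerSeries.coeff n (∑ k ∈ Finset.range (N + 1), Tk k) = ∑ p : n.Partition, (-1 : ℤ) ^ missing p := by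
  rw [Finset.sum_range_succ', map_add]
  have h0 : PowerSeries.coeff n (Tk 0) = 0 := by
    show PowerSeries.coeff n (1 : PowerSeries ℤ) = 0
    rw [PowerSeries.coeff_one, if_neg (by omega)]
  rw [h0, add_zero, map_sum]
  have h1 : ∀ k, PowerSeries.coeff n (Tk (k + 1)) = ∑ p : n.Partition,
      if largest p = k + 1 then (-1 : ℤ) ^ missing p else 0 := by
    intro k
    have e : Tk (k + 1) = PowerSeries.C ((-1 : ℤ) ^ (k + 1)) * (Rl (k + 1) - Rl k) := by
      show (-1) ^ (k + 1) * (Rl (k + 1) - Rl k) = _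
      simp
    rw [e, PowerSeries.coeff_C_mul, map_sub]
    unfold Rl
    rw [Nat.Partition.coeff_genFun, Nat.Partition.coeff_genFun, ← Finset.sum_sub_distrib, Finset.mul_sum]
    apply Finset.sum_congr rfl
    intro p _
    rw [wt_prod, wt_prod]
    obtain ⟨m1, m2, m3⟩ := missing_add p hn
    rcases lt_trichotomy (largest p) (k + 1) with h | h | h
    · rw [if_pos (by omega), if_pos (by omega), if_neg (by omega)]
      ring
    · rw [if_pos (by omega), if_neg (by omega), if_pos h, sub_zero]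
      rw [← h, ← m1, pow_add]
      have : ((-1 : ℤ) ^ p.parts.toFinset.card) * (-1) ^ p.parts.toFinset.card = 1 := by
        rw [← pow_add, ← two_mul, pow_mul]; simp
      linear_combination ((-1 : ℤ) ^ missing p) * this
    · rw [if_neg (by omega), if_neg (by omega), if_neg (by omega)]
      ring
  simp_rw [h1]
  rw [Finset.sum_comm]
  apply Finset.sum_congr rfl
  intro p _
  obtain ⟨m1, m2, m3⟩ := missing_add p hn
  rw [Finset.sum_eq_single (largest p - 1)]
  · rw [if_pos (by omega)]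
  · intro k _ hk
    rw [if_neg (by omega)]
  · intro h
    exact absurd (Finset.mem_range.2 (by omega)) h

theorem Me_sub_Mo (n : ℕ) : ((Me n : ℕ) : ℤ) - (Mo n : ℕ) = ∑ p : n.Partition, (-1 : ℤ) ^ missing p := by
  unfold Me Mo
  rw [Finset.card_filter, Finset.card_filter]
  push_cast
  rw [← Finset.sum_sub_distrib]
  apply Finset.sum_congr rfl
  intro p _
  rcases Nat.even_or_odd (missing p) with h | h
  · rw [if_pos h, if_neg (Nat.not_odd_iff_even.2 h), h.neg_one_pow]
    rfl
  · rw [if_neg (Nat.not_even_iff_odd.2 h), if_pos h, h.neg_one_pow]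
    rfl

end Pool.Agent.Helper10.Miss
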