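import Pool.Agent.Helper10.Miss.Lower

set_option autoImplicit false

namespace Pool.Agent.Helper10.Miss

open MeasureTheory Set

theorem Dl_approx (y : ℝ) (hy : |y| ≤ 1 / 2) (N : ℕ) (hN : 1 ≤ N) :
    |Dl y - ∑ n ∈ Finset.range N, (-1 : ℝ) ^ (n + 1) * y ^ n / (n : ℝ) ^ 2| ≤ 2 * |y| ^ N / (N : ℝ) ^ 2 := by
  have hs := hasSum_Dl y (by linarith)
  have h1 := hs.summable.sum_add_tsum_nat_add N
  rw [hs.tsum_eq] at h1
  have h2 : Dl y - ∑ n ∈ Finset.range N, (-1 : ℝ) ^ (n + 1) * y ^ n / (n : ℝ) ^ 2 =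
      ∑' n : ℕ, (-1 : ℝ) ^ (n + N + 1) * y ^ (n + N) / ((n + N : ℕ) : ℝ) ^ 2 := by
    rw [← h1]; ring
  rw [h2]
  have hN0 : (0 : ℝ) < N := by exact_mod_cast hN
  have hgeo : HasSum (fun n : ℕ => (|y| ^ N / (N : ℝ) ^ 2) * |y| ^ n) ((|y| ^ N / (N : ℝ) ^ 2) * (1 - |y|)⁻¹) :=
    (hasSum_geometric_of_lt_one (abs_nonneg _) (by linarith)).mul_left _
  have hb : ∀ n : ℕ, ‖(-1 : ℝ) ^ (n + N + 1) * y ^ (n + N) / ((n + N : ℕ) : ℝ) ^ 2‖ ≤
      (|y| ^ N / (N : ℝ) ^ 2) * |y| ^ n := by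
    intro n
    rw [norm_div, norm_mul, norm_pow, norm_neg, norm_one, one_pow, one_mul, norm_pow, norm_pow,
      Real.norm_natCast, Real.norm_eq_abs, pow_add, div_mul_eq_mul_div, mul_comm (|y| ^ N)]
    gcongr
    linarith
  refine (tsum_of_norm_bounded hgeo hb).trans ?_
  have h3 : (1 - |y|)⁻¹ ≤ 2 := by
    rw [inv_le_comm₀ (by linarith) (by norm_num)]
    linarith
  calc (|y| ^ N / (N : ℝ) ^ 2) * (1 - |y|)⁻¹ ≤ (|y| ^ N / (N : ℝ) ^ 2) * 2 := by gcongr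
    _ = _ := by ring

theorem Dl_half : 0.44841 ≤ Dl (1 / 2) ∧ Dl (1 / 2) ≤ 0.44842 := by
  have h := Dl_approx (1 / 2) (by norm_num [abs_of_pos]) 12 (by norm_num)
  rw [abs_le, abs_of_pos (show (0 : ℝ) < 1 / 2 by norm_num)] at h
  simp [Finset.sum_range_succ] at h
  norm_num at h ⊢
  constructor <;> linarith [h.1, h.2]

theorem Dl_mhalf : -0.58225 ≤ Dl (-1 / 2) ∧ Dl (-1 / 2) ≤ -0.58223 := by
  have h := Dl_approx (-1 / 2) (by norm_num [abs_of_neg]) 12 (by norm_num)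
  rw [abs_le, abs_of_neg (show (-1 / 2 : ℝ) < 0 by norm_num)] at h
  simp [Finset.sum_range_succ] at h
  norm_num at h ⊢
  constructor <;> linarith [h.1, h.2]

theorem Dl_quarter : 0.2358 ≤ Dl (1 / 4) ∧ Dl (1 / 4) ≤ 0.236 := by
  have h := Dl_approx (1 / 4) (by norm_num [abs_of_pos]) 6 (by norm_num)
  rw [abs_le, abs_of_pos (show (0 : ℝ) < 1 / 4 by norm_num)] at h
  simp [Finset.sum_range_succ] at h
  norm_num at h ⊢
  constructor <;> linarith [h.1, h.2]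

theorem Dl_16 : 0.0615 ≤ Dl (1 / 16) ∧ Dl (1 / 16) ≤ 0.0616 := by
  have h := Dl_approx (1 / 16) (by norm_num [abs_of_pos]) 4 (by norm_num)
  rw [abs_le, abs_of_pos (show (0 : ℝ) < 1 / 16 by norm_num)] at h
  simp [Finset.sum_range_succ] at h
  norm_num at h ⊢
  constructor <;> linarith [h.1, h.2]

theorem Dl_one : Dl 1 = Real.pi ^ 2 / 12 := by
  have h := sumcos_alt 0 (by simp [Real.pi_pos.le])
  have h2 := (hasSum_Dl 1 (by simp))
  have h3 := h.neg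
  have : Dl 1 = -(0 ^ 2 / 4 - Real.pi ^ 2 / 12) := by
    refine h2.unique ?_
    convert! h3 using 1
    ext n
    simp
    ring
  rw [this]; ring

/-- the constants -/
noncomputable def A1c : ℝ := Real.pi ^ 2 / 12
noncomputable def A2c : ℝ := Real.log 2 ^ 2 / 2 + Real.pi ^ 2 / 6 - Dl (1 / 2)
noncomputable def A4c : ℝ := Real.log 4 ^ 2 / 2 + Real.pi ^ 2 / 6 - Dl (1 / 4)
noncomputable def A16c : ℝ := Real.log 16 ^ 2 / 2 + Real.pi ^ 2 / 6 - Dl (1 / 16)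
noncomputable def Am2c (θ : ℝ) : ℝ := Real.log 2 ^ 2 / 2 - Real.pi ^ 2 / 3 + Real.pi * (θ * Real.log 2) - Dl (-1 / 2)

theorem pi_sq_bd : 9.8696 < Real.pi ^ 2 ∧ Real.pi ^ 2 < 9.8697 := by
  have h1 := Real.pi_gt_d6
  have h2 := Real.pi_lt_d6
  norm_num at h1 h2 ⊢
  constructor <;> nlinarith

theorem log2_sq_bd : 0.48045 < Real.log 2 ^ 2 ∧ Real.log 2 ^ 2 < 0.48046 := by
  have h1 := Real.log_two_gt_d9
  have h2 := Real.log_two_lt_d9
  norm_num at h1 h2 ⊢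
  constructor <;> nlinarith

theorem A1c_bd : 0.82246 < A1c ∧ A1c < 0.82248 := by
  have h := pi_sq_bd
  unfold A1c
  norm_num at h ⊢
  constructor <;> linarith [h.1, h.2]

theorem A2c_bd : 1.4367 < A2c ∧ A2c < 1.43678 := by
  have h := pi_sq_bd
  have h2 := log2_sq_bd
  have h3 := Dl_half
  unfold A2c
  norm_num at h h2 h3 ⊢
  constructor <;> linarith [h.1, h.2, h2.1, h2.2, h3.1, h3.2]

theorem A4c_bd : A4c < 2.3701 := by
  have h := pi_sq_bd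
  have h2 := log2_sq_bd
  have h3 := Dl_quarter
  have e : Real.log 4 = 2 * Real.log 2 := by
    rw [show (4 : ℝ) = 2 ^ 2 by norm_num, Real.log_pow]; norm_num
  unfold A4c
  rw [e]
  norm_num at h h2 h3 ⊢
  nlinarith [h.1, h.2, h2.1, h2.2, h3.1, h3.2]

theorem A16c_bd : A16c < 5.4272 := by
  have h := pi_sq_bd
  have h2 := log2_sq_bd
  have h3 := Dl_16
  have e : Real.log 16 = 4 * Real.log 2 := by
    rw [show (16 : ℝ) = 2 ^ 4 by norm_num, Real.log_pow]; norm_num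
  unfold A16c
  rw [e]
  norm_num at h h2 h3 ⊢
  nlinarith [h.1, h.2, h2.1, h2.2, h3.1, h3.2]

theorem norm_sp_sq (t φ : ℝ) : ‖sp t φ‖ ^ 2 = t ^ 2 + φ ^ 2 := by
  rw [← Complex.normSq_eq_norm_sq, Complex.normSq_apply]
  simp
  ring

/-- cosine sum of logs -/
noncomputable def GG (c t φ : ℝ) (K : ℕ) : ℝ :=
  ∑ j ∈ Finset.range K, Real.log ‖Zf (c : ℂ) (sp t φ) ((j : ℝ) + 1)‖

theorem tail_bd (c t : ℝ) (K : ℕ) (hc : 0 ≤ c) (ht : 0 < t) (ht1 : t ≤ 1 / 20)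
    (hK : Real.exp (-(K * t)) ≤ t ^ 4) :
    3 / 2 * c * Real.exp (-(K * t)) * (1 / t + 1 / 2) ≤ c * t / 100 := by
  have h1 : 1 / t + 1 / 2 ≤ 2 / t := by
    have : (1 : ℝ) / 2 ≤ 1 / t := by
      rw [div_le_div_iff₀ (by norm_num) ht]; linarith
    have : 2 / t = 1 / t + 1 / t := by ring
    linarith
  have h2 : 0 ≤ Real.exp (-(K * t)) := (Real.exp_pos _).le
  calc 3 / 2 * c * Real.exp (-(K * t)) * (1 / t + 1 / 2) ≤ 3 / 2 * c * t ^ 4 * (2 / t) := by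
        gcongr
    _ = c * t * (3 * t ^ 2) := by field_simp
    _ ≤ c * t * (1 / 100) := by
        apply mul_le_mul_of_nonneg_left _ (by positivity)
        nlinarith
    _ = _ := by ring

theorem half_bd (c t : ℝ) (K : ℕ) (hc : 0 ≤ c) (hc2 : c ≤ 16) (ht : 0 < t) (ht1 : t ≤ 1 / 20)
    (hK : Real.exp (-(K * t)) ≤ t ^ 4) : c * Real.exp (-(K * t)) ≤ 1 / 2 := by
  have h1 : t ^ 4 ≤ (1 / 20) ^ 4 := pow_le_pow_left₀ ht.le ht1 4
  have h2 : 0 ≤ Real.exp (-(K * t)) := (Real.exp_pos _).le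
  norm_num at h1
  nlinarith

theorem exact_1 (t φ : ℝ) (K : ℕ) (ht : 0 < t) (ht1 : t ≤ 1 / 20) (hφ : |φ| ≤ 8 * t)
    (hK : Real.exp (-(K * t)) ≤ t ^ 4) :
    |GG 1 t φ K + Real.log 2 / 2 - t / (t ^ 2 + φ ^ 2) * A1c| ≤ 3.5 * (t ^ 2 + φ ^ 2) / t + t / 100 := by
  have hlow := lower_a t φ ht hφ
  have hne : ∀ x, 0 ≤ x → Zf ((1 : ℝ) : ℂ) (sp t φ) x ≠ 0 := fun x hx =>
    norm_ne_zero_iff.1 (lt_of_lt_of_le (by norm_num) (hlow x hx)).ne'
  have hJ := J_pos 1 0 t φ le_rfl (by simp) ht (by simp [Real.pi_pos.le]) hne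
  have hls := logsum ((1 : ℝ) : ℂ) (sp t φ) 0.16 K (by norm_num) ht (fun x hx => hlow x hx)
    (by
      have := half_bd 1 t K (by norm_num) (by norm_num) ht ht1 hK
      simpa using this)
  rw [hJ] at hls
  have e1 : (0 : ℝ) ^ 2 / 2 + Real.pi ^ 2 / 6 - Dl (1 / 1) = A1c := by
    rw [div_one, Dl_one, A1c]; ring
  have e2 : ‖(1 : ℂ) + ((1 : ℝ) : ℂ)‖ = 2 := by norm_num
  rw [e1, e2, norm_sp_sq] at hls
  refine hls.trans ?_
  have htail := tail_bd 1 t K (by norm_num) ht ht1 hK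
  simp only [Complex.norm_real, norm_one, sp_re, one_mul] at htail ⊢
  norm_num at htail ⊢
  refine add_le_add ?_ (by linarith)
  have h5 : 0 ≤ t ^ 2 + φ ^ 2 := by positivity
  rw [div_le_div_iff₀ (by positivity) ht]
  have h6 : (t ^ 2 + φ ^ 2) / (16 / 625 : ℝ) * (1 + t) * t = (t ^ 2 + φ ^ 2) * t * ((1 + t) * (625 / 16)) := by ring
  nlinarith [mul_nonneg h5 ht.le]

theorem exact_2 (t φ : ℝ) (K : ℕ) (ht : 0 < t) (ht1 : t ≤ 1 / 20) (hφ : |φ| ≤ 3.5 * t)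
    (hK : Real.exp (-(K * t)) ≤ t ^ 4) :
    |GG 2 t φ K + Real.log 3 / 2 - t / (t ^ 2 + φ ^ 2) * A2c| ≤ 120 * t := by
  have hlow := lower_b t φ ht hφ
  have hne : ∀ x, 0 ≤ x → Zf ((2 : ℝ) : ℂ) (sp t φ) x ≠ 0 := fun x hx =>
    norm_ne_zero_iff.1 (lt_of_lt_of_le (by norm_num) (hlow x hx)).ne'
  have hlog2 := Real.log_two_gt_d9
  have hlog2' := Real.log_two_lt_d9
  have hpi := Real.pi_gt_three
  have hψ : |φ * (Real.log 2 / t)| ≤ Real.pi := by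
    rw [abs_mul, abs_div, abs_of_pos ht, abs_of_pos (show 0 < Real.log 2 by linarith)]
    calc |φ| * (Real.log 2 / t) ≤ 3.5 * t * (Real.log 2 / t) := by gcongr
      _ = 3.5 * Real.log 2 := by field_simp
      _ ≤ Real.pi := by norm_num at *; linarith
  have hJ := J_pos 2 (Real.log 2) t φ (by linarith) (Real.exp_log (by norm_num)).symm ht hψ hne
  have hls := logsum ((2 : ℝ) : ℂ) (sp t φ) 0.14 K (by norm_num) ht (fun x hx => hlow x hx)
    (by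
      have := half_bd 2 t K (by norm_num) (by norm_num) ht ht1 hK
      simpa using this)
  rw [hJ] at hls
  have e2 : ‖(1 : ℂ) + ((2 : ℝ) : ℂ)‖ = 3 := by norm_num
  rw [e2, norm_sp_sq] at hls
  refine hls.trans ?_
  have htail := tail_bd 2 t K (by norm_num) ht ht1 hK
  have hφ2 : φ ^ 2 ≤ 12.25 * t ^ 2 := by
    have := pow_le_pow_left₀ (abs_nonneg φ) hφ 2
    rw [sq_abs] at this
    norm_num at this ⊢
    linarith
  simp only [Complex.norm_real, sp_re] at htail ⊢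
  have e3 : ‖(2 : ℝ)‖ = 2 := by norm_num
  rw [e3]
  have h1 : 2 * (t ^ 2 + φ ^ 2) / 0.14 ^ 2 * (1 + t) / (12 * t) ≤ 119 * t := by
    rw [div_le_iff₀ (by positivity)]
    have h2 : 2 * (t ^ 2 + φ ^ 2) / 0.14 ^ 2 ≤ 2 * (13.25 * t ^ 2) / 0.14 ^ 2 := by
      gcongr
      linarith
    calc 2 * (t ^ 2 + φ ^ 2) / 0.14 ^ 2 * (1 + t) ≤ 2 * (13.25 * t ^ 2) / 0.14 ^ 2 * (1 + 1 / 20) := by
          gcongr
      _ ≤ 119 * t * (12 * t) := by
          norm_num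
          nlinarith [sq_nonneg t]
  linarith


theorem exact_m2 (t φ : ℝ) (K : ℕ) (ht : 0 < t) (ht1 : t ≤ 1 / 20) (hφ1 : 0.4 * t ≤ φ) (hφ : φ ≤ 3.5 * t)
    (hK : Real.exp (-(K * t)) ≤ t ^ 4) :
    |GG (-2) t φ K - t / (t ^ 2 + φ ^ 2) * Am2c (φ / t)| ≤ 75 * t := by
  have hlow := lower_c t φ ht hφ1 hφ
  have hφ0 : 0 ≤ φ := le_trans (by positivity) hφ1
  have hne : ∀ x, 0 ≤ x → Zf ((-2 : ℝ) : ℂ) (sp t φ) x ≠ 0 := fun x hx =>
    norm_ne_zero_iff.1 (lt_of_lt_of_le (by norm_num) (hlow x hx)).ne'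
  have hlog2 := Real.log_two_gt_d9
  have hlog2' := Real.log_two_lt_d9
  have hpi := Real.pi_gt_three
  have hψ : φ * (Real.log 2 / t) ≤ 2 * Real.pi := by
    have hl : 0 < Real.log 2 := by linarith
    calc φ * (Real.log 2 / t) ≤ 3.5 * t * (Real.log 2 / t) := by gcongr
      _ = 3.5 * Real.log 2 := by field_simp
      _ ≤ 2 * Real.pi := by norm_num at *; linarith
  have hJ := J_neg (-2) (Real.log 2) t φ (by linarith) (by rw [Real.exp_log (by norm_num)]) ht hφ0 hψ hne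
  have hls := logsum ((-2 : ℝ) : ℂ) (sp t φ) 0.18 K (by norm_num) ht (fun x hx => hlow x hx)
    (by
      have := half_bd 2 t K (by norm_num) (by norm_num) ht ht1 hK
      simpa using this)
  rw [hJ] at hls
  have e2 : Real.log ‖(1 : ℂ) + ((-2 : ℝ) : ℂ)‖ = 0 := by
    have : ‖(1 : ℂ) + ((-2 : ℝ) : ℂ)‖ = 1 := by norm_num
    rw [this, Real.log_one]
  have e3 : Real.log 2 ^ 2 / 2 - Real.pi ^ 2 / 3 + Real.pi * (φ * Real.log 2 / t) - Dl (1 / -2) =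
      Am2c (φ / t) := by
    unfold Am2c
    rw [show (1 : ℝ) / -2 = -1 / 2 by norm_num]
    ring
  rw [e2, e3, norm_sp_sq] at hls
  have e4 : GG (-2) t φ K = (∑ j ∈ Finset.range K, Real.log ‖Zf ((-2 : ℝ) : ℂ) (sp t φ) ((j : ℝ) + 1)‖) + 0 / 2 := by
    unfold GG; ring
  rw [e4]
  refine hls.trans ?_
  have htail := tail_bd 2 t K (by norm_num) ht ht1 hK
  have hφ2 : φ ^ 2 ≤ 12.25 * t ^ 2 := by
    have := pow_le_pow_left₀ hφ0 hφ 2
    norm_num at this ⊢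
    linarith
  simp only [Complex.norm_real, sp_re] at htail ⊢
  have e3 : ‖(-2 : ℝ)‖ = 2 := by norm_num
  rw [e3]
  have h1 : 2 * (t ^ 2 + φ ^ 2) / 0.18 ^ 2 * (1 + t) / (12 * t) ≤ 74 * t := by
    rw [div_le_iff₀ (by positivity)]
    have h2 : 2 * (t ^ 2 + φ ^ 2) / 0.18 ^ 2 ≤ 2 * (13.25 * t ^ 2) / 0.18 ^ 2 := by
      gcongr
      linarith
    calc 2 * (t ^ 2 + φ ^ 2) / 0.18 ^ 2 * (1 + t) ≤ 2 * (13.25 * t ^ 2) / 0.18 ^ 2 * (1 + 1 / 20) := by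
          gcongr
      _ ≤ 74 * t * (12 * t) := by
          norm_num
          nlinarith [sq_nonneg t]
  linarith

theorem exact_real (c L t : ℝ) (K : ℕ) (hL : 0 ≤ L) (hcL : c = Real.exp L) (hc : c ≤ 16)
    (ht : 0 < t) (ht1 : t ≤ 1 / 20) (hK : Real.exp (-(K * t)) ≤ t ^ 4) :
    |GG c t 0 K + Real.log (1 + c) / 2 - 1 / t * (L ^ 2 / 2 + Real.pi ^ 2 / 6 - Dl (1 / c))| ≤ c * t / 10 := by
  have hc0 : 0 < c := by rw [hcL]; exact Real.exp_pos _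
  have hlow : ∀ x : ℝ, 0 ≤ x → 1 ≤ ‖Zf (c : ℂ) (sp t 0) x‖ := fun x hx =>
    lb_one c t 0 x (by simp [hc0.le])
  have hne : ∀ x, 0 ≤ x → Zf (c : ℂ) (sp t 0) x ≠ 0 := fun x hx =>
    norm_ne_zero_iff.1 (lt_of_lt_of_le (by norm_num) (hlow x hx)).ne'
  have hJ := J_pos c L t 0 hL hcL ht (by simp [Real.pi_pos.le]) hne
  have hls := logsum (c : ℂ) (sp t 0) 1 K (by norm_num) ht (fun x hx => hlow x hx)
    (by
      have := half_bd c t K hc0.le hc ht ht1 hK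
      simpa [abs_of_pos hc0] using this)
  rw [hJ] at hls
  have e2 : ‖(1 : ℂ) + (c : ℂ)‖ = 1 + c := by
    rw [← Complex.ofReal_one, ← Complex.ofReal_add, Complex.norm_real, Real.norm_eq_abs,
      abs_of_pos (by linarith)]
  have e3 : t / (t ^ 2 + 0 ^ 2) = 1 / t := by field_simp; ring
  rw [e2, norm_sp_sq, e3] at hls
  refine hls.trans ?_
  have htail := tail_bd c t K hc0.le ht ht1 hK
  simp only [Complex.norm_real, sp_re] at htail ⊢
  have e3 : ‖c‖ = c := by rw [Real.norm_eq_abs, abs_of_pos hc0]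
  rw [e3]
  have h1 : c * (t ^ 2 + 0 ^ 2) / 1 ^ 2 * (1 + t) / (12 * t) ≤ c * t * (9 / 100) := by
    rw [div_le_iff₀ (by positivity)]
    have : 0 ≤ c * t ^ 2 := by positivity
    nlinarith
  linarith

theorem exact_C (c L t φ : ℝ) (K : ℕ) (hL : 0 ≤ L) (hL1 : L ≤ 1) (hcL : c = Real.exp L) (hc : c ≤ 2)
    (ht : 0 < t) (ht1 : t ≤ 1 / 20) (hφ : |φ| ≤ t / 2) (hK : Real.exp (-(K * t)) ≤ t ^ 4) :
    ‖(∑ j ∈ Finset.range K, Complex.log (Zf (c : ℂ) (sp t φ) ((j : ℝ) + 1))) + Complex.log (1 + c) / 2 -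
      ((L ^ 2 / 2 + Real.pi ^ 2 / 6 - Dl (1 / c) : ℝ) : ℂ) / sp t φ‖ ≤ c * t / 5 := by
  have hc0 : 0 < c := by rw [hcL]; exact Real.exp_pos _
  have hre := lower_e c t φ hc0.le hc ht hφ
  have hsl : ∀ x, 0 ≤ x → Zf (c : ℂ) (sp t φ) x ∈ Complex.slitPlane := by
    intro x hx
    rw [Complex.mem_slitPlane_iff]
    left
    exact lt_of_lt_of_le (by norm_num) (hre x hx)
  have hlow : ∀ x : ℝ, 0 ≤ x → 0.9 ≤ ‖Zf (c : ℂ) (sp t φ) x‖ := fun x hx =>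
    (hre x hx).trans ((le_abs_self _).trans (Complex.abs_re_le_norm _))
  have hψ : |φ * (L / t)| ≤ 1 := by
    rw [abs_mul, abs_div, abs_of_pos ht, abs_of_nonneg hL]
    calc |φ| * (L / t) ≤ t / 2 * (1 / t) := by gcongr
      _ = 1 / 2 := by field_simp
      _ ≤ 1 := by norm_num
  have hJ := J_complex c L t φ hL hcL ht hψ hsl
  have hls := logsumC (c : ℂ) (sp t φ) 0.9 K (by norm_num) ht (fun x hx => hlow x hx) hsl
    (by
      have := half_bd c t K hc0.le (by linarith) ht ht1 hK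
      simpa [abs_of_pos hc0] using this)
  rw [hJ, norm_sp_sq] at hls
  refine hls.trans ?_
  have htail := tail_bd c t K hc0.le ht ht1 hK
  simp only [Complex.norm_real, sp_re] at htail ⊢
  have e3 : ‖c‖ = c := by rw [Real.norm_eq_abs, abs_of_pos hc0]
  rw [e3]
  have hφ2 : φ ^ 2 ≤ t ^ 2 / 4 := by
    have := pow_le_pow_left₀ (abs_nonneg φ) hφ 2
    rw [sq_abs] at this
    linarith
  have h1 : c * (t ^ 2 + φ ^ 2) / 0.9 ^ 2 * (1 + t) / (12 * t) ≤ c * t * (14 / 100) := by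
    rw [div_le_iff₀ (by positivity)]
    have h2 : c * (t ^ 2 + φ ^ 2) / 0.9 ^ 2 ≤ c * (5 / 4 * t ^ 2) / 0.9 ^ 2 := by
      gcongr
      linarith
    calc c * (t ^ 2 + φ ^ 2) / 0.9 ^ 2 * (1 + t) ≤ c * (5 / 4 * t ^ 2) / 0.9 ^ 2 * (1 + 1 / 20) := by
          gcongr
      _ ≤ c * t * (14 / 100) * (12 * t) := by
          have : 0 ≤ c * t ^ 2 := by positivity
          norm_num
          nlinarith
  have h3 : 0 ≤ c * t := by positivity
  linarith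

end Pool.Agent.Helper10.Miss
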