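import Pool.Agent.Helper10.Miss.MainPos

set_option autoImplicit false

namespace Pool.Agent.Helper10.Miss

open MeasureTheory Set

theorem int_cos (m : ℤ) : ∫ φ in (0 : ℝ)..Real.pi, Real.cos (m * φ) = if m = 0 then Real.pi else 0 := by
  by_cases h : m = 0
  · subst h
    simp
  · rw [if_neg h]
    have hm : (m : ℝ) ≠ 0 := by exact_mod_cast h
    rw [intervalIntegral.integral_comp_mul_left (fun x => Real.cos x) hm, integral_cos]
    simp [Real.sin_int_mul_pi]

theorem fourier (p : Polynomial ℤ) (n : ℕ) (t : ℝ) :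
    ∫ φ in (0 : ℝ)..Real.pi, ((Polynomial.aeval (Complex.exp (-(sp t φ))) p) *
      Complex.exp (((-((n : ℝ) * φ) : ℝ) : ℂ) * Complex.I)).re = Real.pi * (p.coeff n : ℝ) * Real.exp (-(n * t)) := by
  have h1 : ∀ φ : ℝ, ((Polynomial.aeval (Complex.exp (-(sp t φ))) p) *
      Complex.exp (((-((n : ℝ) * φ) : ℝ) : ℂ) * Complex.I)).re =
      ∑ k ∈ Finset.range (p.natDegree + n + 1), (p.coeff k : ℝ) * Real.exp (-(k * t)) * Real.cos (((k : ℤ) - (n : ℤ) : ℤ) * φ) := by
    intro φ
    rw [Polynomial.aeval_eq_sum_range' (n := p.natDegree + n + 1) (by omega)]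
    rw [Finset.sum_mul, Complex.re_sum]
    apply Finset.sum_congr rfl
    intro k _
    rw [← Complex.exp_nat_mul, zsmul_eq_mul, mul_assoc, ← Complex.exp_add]
    have e : ((p.coeff k : ℤ) : ℂ) = (((p.coeff k : ℤ) : ℝ) : ℂ) := by push_cast; rfl
    rw [e, Complex.re_ofReal_mul, Complex.exp_re]
    have e1 : ((k : ℂ) * -(sp t φ) + ((-((n : ℝ) * φ) : ℝ) : ℂ) * Complex.I).re = -(k * t) := by
      simp [Complex.add_re, Complex.mul_re]
    have e2 : ((k : ℂ) * -(sp t φ) + ((-((n : ℝ) * φ) : ℝ) : ℂ) * Complex.I).im = (((k : ℤ) - (n : ℤ) : ℤ) : ℝ) * φ := by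
      simp [Complex.add_im, Complex.mul_im]
      ring
    rw [e1, e2]
    ring
  simp_rw [h1]
  rw [intervalIntegral.integral_finsetSum]
  · rw [Finset.sum_eq_single n]
    · rw [intervalIntegral.integral_const_mul, int_cos]
      simp
      ring
    · intro k _ hk
      rw [intervalIntegral.integral_const_mul, int_cos, if_neg (by omega), mul_zero]
    · intro h
      exact absurd (Finset.mem_range.2 (by omega)) h
  · intro k _
    apply Continuous.intervalIntegrable
    fun_prop

/-- the truncated product as an integer polynomial -/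
noncomputable def PP (K : ℕ) : Polynomial ℤ :=
  (∏ j ∈ Finset.range (2 * K), (1 + 2 * Polynomial.X ^ (j + 1))) *
    ∏ i ∈ Finset.range K, (1 - Polynomial.X ^ (2 * i + 1))

theorem aeval_PP (K : ℕ) (z : ℂ) : Polynomial.aeval z (PP K) = PK K z := by
  unfold PP PK
  have h2 : (Polynomial.aeval z) (2 : Polynomial ℤ) = 2 := map_ofNat _ 2
  simp [map_mul, map_prod, h2]

theorem PP_pos (K n : ℕ) (hn : 20000 ≤ n) (hK : n ≤ K) : 0 < (PP K).coeff n := by
  have hAb := Ac_bd
  have hA0 : 0 < Ac := by have := hAb.1; norm_num at this; linarith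
  have hn' : (20000 : ℝ) ≤ n := by exact_mod_cast hn
  have hK' : (n : ℝ) ≤ K := by exact_mod_cast hK
  obtain ⟨t, ht0, ht⟩ : ∃ t : ℝ, 0 < t ∧ (n : ℝ) * t ^ 2 = Ac := by
    refine ⟨Real.sqrt (Ac / n), Real.sqrt_pos.2 (by positivity), ?_⟩
    rw [Real.sq_sqrt (by positivity)]
    field_simp
  have ht1 : t ≤ 1 / 180 := by
    by_contra hcon
    push Not at hcon
    have h1 : (1 / 180 : ℝ) ^ 2 < t ^ 2 := pow_lt_pow_left₀ hcon (by norm_num) two_ne_zero
    norm_num at h1 hAb
    nlinarith [hAb.2]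
  obtain ⟨u, hu0, hu⟩ : ∃ u : ℝ, 0 < u ∧ u ^ 2 = n * t := by
    refine ⟨Real.sqrt (n * t), Real.sqrt_pos.2 (by positivity), Real.sq_sqrt (by positivity)⟩
  have hKt : Real.exp (-((2 * K : ℕ) * t)) ≤ t ^ 4 := by
    have h1 : 0.3 * (1 / t) * 4 ≤ (2 * K : ℕ) * t := by
      push_cast
      have h2 : (n : ℝ) * t = Ac / t := by rw [← ht]; field_simp
      have h3 : 0.614 * (1 / t) ≤ Ac / t := by
        rw [mul_one_div]
        apply div_le_div_of_nonneg_right _ ht0.le
        norm_num at hAb ⊢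
        linarith [hAb.1]
      have h4 : (n : ℝ) * t ≤ K * t := mul_le_mul_of_nonneg_right hK' ht0.le
      have h5 : 0 < 1 / t := by positivity
      norm_num at *
      nlinarith
    have h2 : 1 / t ≤ Real.exp (0.3 * (1 / t)) := by
      have h3 := Real.quadratic_le_exp_of_nonneg (x := 0.3 * (1 / t)) (by positivity)
      have h4 : 180 ≤ 1 / t := by
        rw [le_div_iff₀ ht0]; linarith
      norm_num at *
      nlinarith
    calc Real.exp (-((2 * K : ℕ) * t)) ≤ Real.exp (-(0.3 * (1 / t) * 4)) := by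
          apply Real.exp_le_exp.2; linarith
      _ = ((Real.exp (0.3 * (1 / t))) ^ 4)⁻¹ := by
          rw [Real.exp_neg, ← Real.exp_nat_mul]
          congr 2
          push_cast; ring
      _ ≤ ((1 / t) ^ 4)⁻¹ := by
          apply inv_anti₀ (by positivity)
          exact pow_le_pow_left₀ (by positivity) h2 4
      _ = t ^ 4 := by field_simp
  have hpos := FF_integral_pos K n t u ht0 ht1 hu0 hKt (by rw [hu, ← ht]; ring) hu.symm
  have hf := fourier (PP K) n t
  simp_rw [aeval_PP] at hf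
  unfold FF at hpos
  rw [hf] at hpos
  have hexp := Real.exp_pos (-(n * t))
  have hpi := Real.pi_pos
  have h1 : 0 < Real.pi * ((PP K).coeff n : ℝ) := pos_of_mul_pos_left hpos hexp.le
  have h2 : (0 : ℝ) < ((PP K).coeff n : ℝ) := pos_of_mul_pos_right h1 hpi.le
  exact_mod_cast h2

end Pool.Agent.Helper10.Miss
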