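import Pool.Agent.Helper10.Miss.Split

set_option autoImplicit false

namespace Pool.Agent.Helper10.Miss

open Set

/-- the exponential smallness condition scales -/
theorem hK_scale (t : ℝ) (M : ℕ) (k : ℝ) (hk : 1 ≤ k) (ht : 0 < t)
    (hK : Real.exp (-(M * t)) ≤ t ^ 4) : Real.exp (-(M * (k * t))) ≤ (k * t) ^ 4 := by
  have h1 : Real.exp (-(M * (k * t))) ≤ Real.exp (-(M * t)) := by
    apply Real.exp_le_exp.2
    have : (0 : ℝ) ≤ M := Nat.cast_nonneg M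
    have h2 : 0 ≤ M * t := by positivity
    nlinarith
  have h2 : t ^ 4 ≤ (k * t) ^ 4 := by
    apply pow_le_pow_left₀ ht.le
    nlinarith
  linarith

theorem hK_half (t : ℝ) (K : ℕ) (ht : 0 < t)
    (hK : Real.exp (-((2 * K : ℕ) * t)) ≤ t ^ 4) : Real.exp (-(K * (2 * t))) ≤ (2 * t) ^ 4 := by
  have h1 : Real.exp (-(K * (2 * t))) = Real.exp (-((2 * K : ℕ) * t)) := by
    congr 1; push_cast; ring
  rw [h1]
  refine hK.trans ?_
  apply pow_le_pow_left₀ ht.le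
  linarith

theorem t4_le (t : ℝ) (ht : 0 < t) (ht1 : t ≤ 1 / 180) : t ^ 4 ≤ t * (1 / 5000000) ∧ t ^ 3 ≤ t * (1 / 30000) ∧ t ^ 2 ≤ t * (1 / 180) := by
  have h1 : t ^ 3 ≤ (1 / 180) ^ 3 := pow_le_pow_left₀ ht.le ht1 3
  have h2 : t ^ 2 ≤ (1 / 180) ^ 2 := pow_le_pow_left₀ ht.le ht1 2
  norm_num at h1 h2
  refine ⟨?_, ?_, ?_⟩
  · have : t ^ 4 = t * t ^ 3 := by ring
    rw [this]
    apply mul_le_mul_of_nonneg_left _ ht.le
    linarith
  · have : t ^ 3 = t * t ^ 2 := by ring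
    rw [this]
    apply mul_le_mul_of_nonneg_left _ ht.le
    linarith
  · have : t ^ 2 = t * t := by ring
    rw [this]
    apply mul_le_mul_of_nonneg_left ht1 ht.le

theorem log5_lower : 1.609 ≤ Real.log 5 := by
  rw [Real.le_log_iff_exp_le (by norm_num)]
  have h1 : Real.exp 1.609 = Real.exp 1 * Real.exp 0.609 := by rw [← Real.exp_add]; norm_num
  have h2 := Real.exp_one_lt_d9
  have h3 : Real.exp 0.609 ≤ 1.8388 := by
    have := Real.exp_bound' (show (0 : ℝ) ≤ 0.609 by norm_num) (by norm_num) (n := 8) (by norm_num)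
    simp [Finset.sum_range_succ, Nat.factorial] at this
    norm_num at this ⊢
    linarith
  rw [h1]
  have h4 := Real.exp_pos (1 : ℝ)
  have h5 := Real.exp_pos (0.609 : ℝ)
  norm_num at *
  nlinarith

theorem N_gen (t φ : ℝ) (K : ℕ) (ht : 0 < t) (ht1 : t ≤ 1 / 180)
    (hs1 : 0 < Real.sin (φ / 2) ^ 2) (hs2 : 0 < Real.sin φ ^ 2)
    (hK : Real.exp (-((2 * K : ℕ) * t)) ≤ t ^ 4)
    (hne : ∀ j ∈ Finset.range (2 * K), Zf ((2 : ℝ) : ℂ) (sp t φ) ((j : ℝ) + 1) ≠ 0) :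
    GG 2 t φ (2 * K) ≤ 0.4379 / t - 0.53 + 1.225 * t / (4 * Real.sin (φ / 2) ^ 2) +
      0.564 * t / (4 * Real.sin φ ^ 2) := by
  obtain ⟨ht4, ht3, ht2⟩ := t4_le t ht ht1
  have h1 : GG 2 t φ (2 * K) ≤ GG 4 (2 * t) 0 (2 * K) / 2 + Sm 1 t (Real.log 2) φ (2 * K) / 2
      - 0.1125 * (Sm 2 t (Real.log 2) 0 (2 * K) + Sm 2 t (Real.log 2) (2 * φ) (2 * K))
      + 0.01875 * (3 * Sm 3 t (Real.log 2) φ (2 * K) + Sm 3 t (Real.log 2) (3 * φ) (2 * K)) := by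
    unfold GG Sm
    have hf : ∀ j ∈ Finset.range (2 * K), Real.log ‖Zf ((2 : ℝ) : ℂ) (sp t φ) ((j : ℝ) + 1)‖ ≤
        Real.log ‖Zf ((4 : ℝ) : ℂ) (sp (2 * t) 0) ((j : ℝ) + 1)‖ / 2 +
        (sc (((j + 1 : ℕ) : ℝ) * t - Real.log 2) ^ 1 * Real.cos (((j + 1 : ℕ) : ℝ) * φ)) / 2
        - 0.1125 * (sc (((j + 1 : ℕ) : ℝ) * t - Real.log 2) ^ 2 * Real.cos (((j + 1 : ℕ) : ℝ) * 0)
          + sc (((j + 1 : ℕ) : ℝ) * t - Real.log 2) ^ 2 * Real.cos (((j + 1 : ℕ) : ℝ) * (2 * φ)))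
        + 0.01875 * (3 * (sc (((j + 1 : ℕ) : ℝ) * t - Real.log 2) ^ 3 * Real.cos (((j + 1 : ℕ) : ℝ) * φ))
          + sc (((j + 1 : ℕ) : ℝ) * t - Real.log 2) ^ 3 * Real.cos (((j + 1 : ℕ) : ℝ) * (3 * φ))) := by
      intro j hj
      have := factor_N t φ ((j : ℝ) + 1) (hne j hj)
      rw [mul_zero, Real.cos_zero]
      push_cast at this ⊢
      linarith
    refine (Finset.sum_le_sum hf).trans (le_of_eq ?_)
    rw [Finset.sum_add_distrib, Finset.sum_sub_distrib, Finset.sum_add_distrib, ← Finset.sum_div,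
      ← Finset.sum_div, ← Finset.mul_sum, ← Finset.mul_sum, Finset.sum_add_distrib,
      Finset.sum_add_distrib, ← Finset.mul_sum]
  have h3 : Sm 3 t (Real.log 2) (3 * φ) (2 * K) ≤ Sm 3 t (Real.log 2) 0 (2 * K) := by
    unfold Sm
    apply Finset.sum_le_sum
    intro j _
    rw [mul_zero, Real.cos_zero]
    apply mul_le_mul_of_nonneg_left (Real.cos_le_one _)
    have := sc_pos (((j + 1 : ℕ) : ℝ) * t - Real.log 2)
    positivity
  have ht1' : t ≤ 1 := by linarith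
  have hS1 := S1_upper t φ (2 * K) ht ht1' hs1 hK
  have hS3 := S3_upper t φ (2 * K) ht ht1' hs1 hK
  have hS2 := S2_lower t (2 * φ) (2 * K) ht (by rw [show 2 * φ / 2 = φ by ring]; exact hs2) hK
  rw [show 2 * φ / 2 = φ by ring] at hS2
  have hS20 := S20_lower t (2 * K) ht hK
  have hS30 := S30_upper t (2 * K) ht ht1' hK
  have hG4 := (abs_le.1 (exact_real 4 (Real.log 4) (2 * t) (2 * K) (Real.log_nonneg (by norm_num))
    (Real.exp_log (by norm_num)).symm (by norm_num) (by linarith) (by linarith)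
    (hK_scale t (2 * K) 2 (by norm_num) ht hK))).2
  have hA4 := A4c_bd
  unfold A4c at hA4
  have hG4' : GG 4 (2 * t) 0 (2 * K) ≤ 1.18505 / t - 0.8045 + 0.8 * t := by
    have e1 : (1 : ℝ) + 4 = 5 := by norm_num
    rw [e1] at hG4
    have hl5 := log5_lower
    have e2 : 1 / (2 * t) * (Real.log 4 ^ 2 / 2 + Real.pi ^ 2 / 6 - Dl (1 / 4)) ≤ 1.18505 / t := by
      rw [div_mul_eq_mul_div, one_mul, div_le_div_iff₀ (by positivity) ht]
      nlinarith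
    linarith
  have hinv : 180 ≤ 1 / t := by
    rw [le_div_iff₀ ht]; linarith
  set u := 1 / (4 * Real.sin (φ / 2) ^ 2) with hu
  set w := 1 / (4 * Real.sin φ ^ 2) with hw
  have hu0 : 0 < u := by positivity
  have hw0 : 0 < w := by positivity
  have f1 : (1.9094 * t + 8 * t ^ 4) / (4 * Real.sin (φ / 2) ^ 2) ≤ 1.9095 * t * u := by
    rw [div_eq_mul_one_div, ← hu]
    apply mul_le_mul_of_nonneg_right _ hu0.le
    linarith
  have f3 : (4.8 * t + 8 * t ^ 4) / (4 * Real.sin (φ / 2) ^ 2) ≤ 4.801 * t * u := by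
    rw [div_eq_mul_one_div, ← hu]
    apply mul_le_mul_of_nonneg_right _ hu0.le
    linarith
  have f2 : (5.011 * t + 8 * t ^ 4) / (4 * Real.sin φ ^ 2) ≤ 5.012 * t * w := by
    rw [div_eq_mul_one_div, ← hw]
    apply mul_le_mul_of_nonneg_right _ hw0.le
    linarith
  have g1 : 1.225 * t / (4 * Real.sin (φ / 2) ^ 2) = 1.225 * (t * u) := by
    rw [div_eq_mul_one_div, ← hu]; ring
  have g2 : 0.564 * t / (4 * Real.sin φ ^ 2) = 0.564 * (t * w) := by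
    rw [div_eq_mul_one_div, ← hw]; ring
  rw [g1, g2]
  have htu : 0 < t * u := by positivity
  have htw : 0 < t * w := by positivity
  have i1 : 1.6 / t = 1.6 * (1 / t) := by ring
  have i2 : 1.3526 / t = 1.3526 * (1 / t) := by ring
  have i3 : 1.18505 / t = 1.18505 * (1 / t) := by ring
  have i4 : 0.4379 / t = 0.4379 * (1 / t) := by ring
  rw [i1] at hS20
  rw [i2] at hS30
  rw [i3] at hG4'
  rw [i4]
  have j1 : 1.9095 * t * u = 1.9095 * (t * u) := by ring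
  have j2 : 4.801 * t * u = 4.801 * (t * u) := by ring
  have j3 : 5.012 * t * w = 5.012 * (t * w) := by ring
  rw [j1] at f1
  rw [j2] at f3
  rw [j3] at f2
  norm_num at *
  nlinarith


theorem O_start (t φ : ℝ) (K : ℕ) (ht : 0 < t) (ht1 : t ≤ 1 / 180)
    (hK : Real.exp (-((2 * K : ℕ) * t)) ≤ t ^ 4) :
    OG (-1) t φ K ≤ 0.10282 / t + 0.6 * t - OS 1 t 0 φ K / 2 - 0.075 * (OS 2 t 0 0 K + OS 2 t 0 (2 * φ) K) := by
  have h1 : OG (-1) t φ K ≤ OG 1 (2 * t) 0 K / 2 - OS 1 t 0 φ K / 2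
      - 0.075 * (OS 2 t 0 0 K + OS 2 t 0 (2 * φ) K) := by
    unfold OG OS
    have hf : ∀ i ∈ Finset.range K, Real.log ‖Zf ((-1 : ℝ) : ℂ) (sp t φ) (((2 * i + 1 : ℕ) : ℝ))‖ ≤
        Real.log ‖Zf ((1 : ℝ) : ℂ) (sp (2 * t) 0) (((2 * i + 1 : ℕ) : ℝ))‖ / 2 -
        (sc (((2 * i + 1 : ℕ) : ℝ) * t - 0) ^ 1 * Real.cos (((2 * i + 1 : ℕ) : ℝ) * φ)) / 2
        - 0.075 * (sc (((2 * i + 1 : ℕ) : ℝ) * t - 0) ^ 2 * Real.cos (((2 * i + 1 : ℕ) : ℝ) * 0)
          + sc (((2 * i + 1 : ℕ) : ℝ) * t - 0) ^ 2 * Real.cos (((2 * i + 1 : ℕ) : ℝ) * (2 * φ))) := by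
      intro i _
      have := factor_O t φ (((2 * i + 1 : ℕ) : ℝ)) (Zm1_ne t φ _ ht (by positivity))
      rw [mul_zero, Real.cos_zero, sub_zero, pow_one]
      linarith
    refine (Finset.sum_le_sum hf).trans (le_of_eq ?_)
    rw [Finset.sum_sub_distrib, Finset.sum_sub_distrib, ← Finset.sum_div,
      ← Finset.sum_div, ← Finset.mul_sum, Finset.sum_add_distrib]
  have h2 := GG_split 1 (2 * t) 0 K
  have hG1 := abs_le.1 (exact_real 1 0 (2 * t) (2 * K) le_rfl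
    (by simp) (by norm_num) (by linarith) (by linarith) (hK_scale t (2 * K) 2 (by norm_num) ht hK))
  have hK2 : Real.exp (-(K * (2 * (2 * t)))) ≤ (2 * (2 * t)) ^ 4 :=
    hK_half (2 * t) K (by linarith) (hK_scale t (2 * K) 2 (by norm_num) ht hK)
  have hG2 := abs_le.1 (exact_real 1 0 (2 * (2 * t)) K le_rfl
    (by simp) (by norm_num) (by linarith) (by linarith) hK2)
  rw [show 2 * (0 : ℝ) = 0 by norm_num] at h2
  have eA : (0 : ℝ) ^ 2 / 2 + Real.pi ^ 2 / 6 - Dl (1 / 1) = A1c := by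
    rw [div_one, Dl_one, A1c]; ring
  rw [eA] at hG1 hG2
  have hA := A1c_bd
  have e1 : 1 / (2 * t) * A1c = A1c / 2 * (1 / t) := by field_simp
  have e2 : 1 / (2 * (2 * t)) * A1c = A1c / 4 * (1 / t) := by field_simp; ring
  rw [e1] at hG1
  rw [e2] at hG2
  have e3 : 0.10282 / t = 0.10282 * (1 / t) := by ring
  rw [e3]
  have hi : 0 < 1 / t := by positivity
  have hA2 : A1c * (1 / t) ≤ 0.82248 * (1 / t) := mul_le_mul_of_nonneg_right hA.2.le hi.le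
  norm_num at *
  have hi2 : 0 < t⁻¹ := inv_pos.2 ht
  linarith [hG1.1, hG1.2, hG2.1, hG2.2]

theorem OS1_lower (t φ : ℝ) (K : ℕ) (ht : 0 < t) (ht1 : t ≤ 1 / 180)
    (hs1 : 0 < Real.sin (φ / 2) ^ 2) (hs2 : 0 < Real.sin φ ^ 2)
    (hK : Real.exp (-((2 * K : ℕ) * t)) ≤ t ^ 4) :
    -(1.334 * t / (4 * Real.sin (φ / 2) ^ 2)) - 2.69 * t / (4 * Real.sin φ ^ 2) ≤ OS 1 t 0 φ K := by
  obtain ⟨ht4, ht3, ht2⟩ := t4_le t ht ht1
  have h := Sm_split 1 t 0 φ K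
  have h1 := O1_lower t φ (2 * K) ht hs1 hK
  have h2 := O1_upper (2 * t) (2 * φ) K (by linarith) (by linarith)
    (by rw [show 2 * φ / 2 = φ by ring]; exact hs2) (hK_half t K ht hK)
  rw [show 2 * φ / 2 = φ by ring] at h2
  have f1 : (4 / 3 * t + 4 * t ^ 4) / (4 * Real.sin (φ / 2) ^ 2) ≤ 1.334 * t / (4 * Real.sin (φ / 2) ^ 2) := by
    apply div_le_div_of_nonneg_right _ (by positivity)
    linarith
  have f2 : ((2 * t) ^ 2 + 4 / 3 * (2 * t) + 4 * (2 * t) ^ 4) / (4 * Real.sin φ ^ 2) ≤ 2.69 * t / (4 * Real.sin φ ^ 2) := by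
    apply div_le_div_of_nonneg_right _ (by positivity)
    have e1 : (2 * t) ^ 2 = 4 * t ^ 2 := by ring
    have e2 : (2 * t) ^ 4 = 16 * t ^ 4 := by ring
    rw [e1, e2]
    linarith
  linarith

theorem OS2_lower (t φ : ℝ) (K : ℕ) (ht : 0 < t) (ht1 : t ≤ 1 / 180)
    (hs2 : 0 < Real.sin φ ^ 2) (hs4 : 0 < Real.sin (2 * φ) ^ 2)
    (hK : Real.exp (-((2 * K : ℕ) * t)) ≤ t ^ 4) :
    -(2.667 * t / (4 * Real.sin φ ^ 2)) - 5.38 * t / (4 * Real.sin (2 * φ) ^ 2) ≤ OS 2 t 0 (2 * φ) K := by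
  obtain ⟨ht4, ht3, ht2⟩ := t4_le t ht ht1
  have h := Sm_split 2 t 0 (2 * φ) K
  have h1 := O2_lower t (2 * φ) (2 * K) ht (by rw [show 2 * φ / 2 = φ by ring]; exact hs2) hK
  rw [show 2 * φ / 2 = φ by ring] at h1
  have h2 := O2_upper (2 * t) (2 * (2 * φ)) K (by linarith) (by linarith)
    (by rw [show 2 * (2 * φ) / 2 = 2 * φ by ring]; exact hs4) (hK_half t K ht hK)
  rw [show 2 * (2 * φ) / 2 = 2 * φ by ring] at h2
  have f1 : (8 / 3 * t + 4 * t ^ 4) / (4 * Real.sin φ ^ 2) ≤ 2.667 * t / (4 * Real.sin φ ^ 2) := by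
    apply div_le_div_of_nonneg_right _ (by positivity)
    linarith
  have f2 : (2 * (2 * t) ^ 2 + 8 / 3 * (2 * t) + 4 * (2 * t) ^ 4) / (4 * Real.sin (2 * φ) ^ 2) ≤
      5.38 * t / (4 * Real.sin (2 * φ) ^ 2) := by
    apply div_le_div_of_nonneg_right _ (by positivity)
    have e1 : (2 * t) ^ 2 = 4 * t ^ 2 := by ring
    have e2 : (2 * t) ^ 4 = 16 * t ^ 4 := by ring
    rw [e1, e2]
    linarith
  linarith

theorem OS20_lower (t : ℝ) (K : ℕ) (ht : 0 < t) (ht1 : t ≤ 1 / 180)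
    (hK : Real.exp (-((2 * K : ℕ) * t)) ≤ t ^ 4) :
    0.5 / t - 2.1 * t ≤ OS 2 t 0 0 K := by
  obtain ⟨ht4, ht3, ht2⟩ := t4_le t ht ht1
  have h := Sm_split 2 t 0 0 K
  have h1 := (O20 t (2 * K) ht hK).1
  have h2 := (O20 (2 * t) K (by linarith) (hK_half t K ht hK)).2
  rw [show 2 * (0 : ℝ) = 0 by norm_num] at h
  have e1 : 1 / (2 * t) = 0.5 * (1 / t) := by field_simp; norm_num
  have e2 : 0.5 / t = 0.5 * (1 / t) := by ring
  have e3 : (2 * t) ^ 4 = 16 * t ^ 4 := by ring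
  rw [e1, e3] at h2
  rw [e2]
  have e4 : 2 / 3 * t * (1 + t) = 2 / 3 * t + 2 / 3 * t ^ 2 := by ring
  have e5 : 2 / 3 * (2 * t) * (1 + 2 * t) = 4 / 3 * t + 8 / 3 * t ^ 2 := by ring
  rw [e4] at h1
  rw [e5] at h2
  norm_num at *
  linarith

theorem OS20_sym (t φ : ℝ) (K : ℕ) : -(OS 2 t 0 0 K) ≤ OS 2 t 0 (2 * φ) K := by
  unfold OS
  rw [← Finset.sum_neg_distrib]
  apply Finset.sum_le_sum
  intro i _
  rw [mul_zero, Real.cos_zero]
  have h := Real.neg_one_le_cos (((2 * i + 1 : ℕ) : ℝ) * (2 * φ))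
  have h2 : 0 ≤ sc (((2 * i + 1 : ℕ) : ℝ) * t - 0) ^ 2 := sq_nonneg _
  nlinarith

theorem O_gen1 (t φ : ℝ) (K : ℕ) (ht : 0 < t) (ht1 : t ≤ 1 / 180)
    (hs1 : 0 < Real.sin (φ / 2) ^ 2) (hs2 : 0 < Real.sin φ ^ 2) (hs4 : 0 < Real.sin (2 * φ) ^ 2)
    (hK : Real.exp (-((2 * K : ℕ) * t)) ≤ t ^ 4) :
    OG (-1) t φ K ≤ 0.06532 / t + 0.01 + 0.667 * t / (4 * Real.sin (φ / 2) ^ 2)
      + 1.546 * t / (4 * Real.sin φ ^ 2) + 0.404 * t / (4 * Real.sin (2 * φ) ^ 2) := by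
  have h0 := O_start t φ K ht ht1 hK
  have h1 := OS1_lower t φ K ht ht1 hs1 hs2 hK
  have h2 := OS2_lower t φ K ht ht1 hs2 hs4 hK
  have h3 := OS20_lower t K ht ht1 hK
  set u := 1 / (4 * Real.sin (φ / 2) ^ 2) with hu
  set w := 1 / (4 * Real.sin φ ^ 2) with hw
  set v := 1 / (4 * Real.sin (2 * φ) ^ 2) with hv
  have hu0 : 0 < u := by positivity
  have hw0 : 0 < w := by positivity
  have hv0 : 0 < v := by positivity
  have d1 : ∀ c : ℝ, c * t / (4 * Real.sin (φ / 2) ^ 2) = c * (t * u) := by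
    intro c; rw [div_eq_mul_one_div, ← hu]; ring
  have d2 : ∀ c : ℝ, c * t / (4 * Real.sin φ ^ 2) = c * (t * w) := by
    intro c; rw [div_eq_mul_one_div, ← hw]; ring
  have d3 : ∀ c : ℝ, c * t / (4 * Real.sin (2 * φ) ^ 2) = c * (t * v) := by
    intro c; rw [div_eq_mul_one_div, ← hv]; ring
  have d4 : ∀ c : ℝ, c / t = c * (1 / t) := by intro c; ring
  rw [d1, d2] at h1
  rw [d2, d3] at h2
  rw [d4] at h0 h3
  rw [d1, d2, d3, d4]
  have htu : 0 < t * u := by positivity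
  have htw : 0 < t * w := by positivity
  have htv : 0 < t * v := by positivity
  have hi : 0 < 1 / t := by positivity
  norm_num at *
  linarith

theorem O_gen2 (t φ : ℝ) (K : ℕ) (ht : 0 < t) (ht1 : t ≤ 1 / 180)
    (hs1 : 0 < Real.sin (φ / 2) ^ 2) (hs2 : 0 < Real.sin φ ^ 2)
    (hK : Real.exp (-((2 * K : ℕ) * t)) ≤ t ^ 4) :
    OG (-1) t φ K ≤ 0.10282 / t + 0.01 + 0.667 * t / (4 * Real.sin (φ / 2) ^ 2)
      + 1.346 * t / (4 * Real.sin φ ^ 2) := by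
  have h0 := O_start t φ K ht ht1 hK
  have h1 := OS1_lower t φ K ht ht1 hs1 hs2 hK
  have h3 := OS20_sym t φ K
  set u := 1 / (4 * Real.sin (φ / 2) ^ 2) with hu
  set w := 1 / (4 * Real.sin φ ^ 2) with hw
  have hu0 : 0 < u := by positivity
  have hw0 : 0 < w := by positivity
  have d1 : ∀ c : ℝ, c * t / (4 * Real.sin (φ / 2) ^ 2) = c * (t * u) := by
    intro c; rw [div_eq_mul_one_div, ← hu]; ring
  have d2 : ∀ c : ℝ, c * t / (4 * Real.sin φ ^ 2) = c * (t * w) := by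
    intro c; rw [div_eq_mul_one_div, ← hw]; ring
  have d4 : ∀ c : ℝ, c / t = c * (1 / t) := by intro c; ring
  rw [d1, d2] at h1
  rw [d4] at h0
  rw [d1, d2, d4]
  have htu : 0 < t * u := by positivity
  have htw : 0 < t * w := by positivity
  have hi : 0 < 1 / t := by positivity
  norm_num at *
  linarith

end Pool.Agent.Helper10.Miss
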