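import Mathlib

set_option autoImplicit false

namespace Pool.Agent.Helper10.Miss

open MeasureTheory Set

/-- termwise integration on a half line -/
theorem hasSum_int_log_Ioi (c s : ℂ) (hs : 0 < s.re) (a : ℝ)
    (h : ‖c‖ * Real.exp (-(a * s.re)) ≤ 1) :
    HasSum (fun n : ℕ => (-1 : ℂ) ^ (n + 1) * (c ^ n * Complex.exp (-(n * a) * s)) / ((n : ℂ) ^ 2 * s))
      (∫ x in Ioi a, Complex.log (1 + c * Complex.exp (-(x * s)))) := by
  have hs0 : s ≠ 0 := by rintro rfl; simp at hs
  set F : ℕ → ℝ → ℂ := fun n x => (-1) ^ (n + 1) * (c * Complex.exp (-(x * s))) ^ n / n with hF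
  have hF' : ∀ n x, F n x = ((-1) ^ (n + 1) * c ^ n / n) * Complex.exp ((-(n * s)) * x) := by
    intro n x
    simp only [hF]
    rw [mul_pow, ← Complex.exp_nat_mul]
    rw [show (n : ℂ) * -((x : ℂ) * s) = (-(n * s)) * x by ring]
    ring
  have hnorm : ∀ n x, ‖F n x‖ = (‖c‖ ^ n / n) * Real.exp ((-(n * s.re)) * x) := by
    intro n x
    rw [hF' n x, norm_mul, norm_div, norm_mul, norm_pow, norm_pow, norm_neg, norm_one, one_pow,
      one_mul, Complex.norm_exp, Complex.norm_natCast]
    congr 2
    simp
  have hint : ∀ n, Integrable (F n) (volume.restrict (Ioi a)) := by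
    intro n
    rcases Nat.eq_zero_or_pos n with rfl | hn
    · have : F 0 = fun _ => 0 := by
        ext x; simp [hF]
      rw [this]
      exact integrable_zero _ _ _
    · have hre : (-((n : ℂ) * s)).re < 0 := by
        have : (0 : ℝ) < n := by exact_mod_cast hn
        simp
        positivity
      have := (integrableOn_exp_mul_complex_Ioi hre a).const_mul ((-1) ^ (n + 1) * c ^ n / n)
      have e : F n = fun x : ℝ => ((-1) ^ (n + 1) * c ^ n / n) * Complex.exp ((-(n * s)) * x) := by
        ext x; exact hF' n x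
      rw [e]
      exact this
  have hval : ∀ n, ∫ x in Ioi a, F n x =
      (-1 : ℂ) ^ (n + 1) * (c ^ n * Complex.exp (-(n * a) * s)) / ((n : ℂ) ^ 2 * s) := by
    intro n
    rcases Nat.eq_zero_or_pos n with rfl | hn
    · simp [hF]
    · have hn' : (0 : ℝ) < n := by exact_mod_cast hn
      have hre : (-((n : ℂ) * s)).re < 0 := by
        simp
        positivity
      have e : F n = fun x : ℝ => ((-1) ^ (n + 1) * c ^ n / n) * Complex.exp ((-(n * s)) * x) := by
        ext x; exact hF' n x
      rw [e, MeasureTheory.integral_const_mul, integral_exp_mul_complex_Ioi hre]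
      have hn0 : (n : ℂ) ≠ 0 := by exact_mod_cast hn.ne'
      rw [show -((n : ℂ) * s) * (a : ℂ) = -(n * a) * s by ring]
      field_simp
  have hsum : Summable fun n => ∫ x in Ioi a, ‖F n x‖ := by
    have hb : ∀ n : ℕ, ‖∫ x in Ioi a, ‖F n x‖‖ ≤ (1 / (n : ℝ) ^ 2) * (1 / s.re) := by
      intro n
      rcases Nat.eq_zero_or_pos n with rfl | hn
      · simp [hF]
      · have hn' : (0 : ℝ) < n := by exact_mod_cast hn
        have hre : (-((n : ℝ) * s.re)) < 0 := by
          have := mul_pos hn' hs
          linarith
        simp_rw [hnorm]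
        rw [MeasureTheory.integral_const_mul, integral_exp_mul_Ioi hre, norm_mul, norm_div, norm_div,
          norm_neg, norm_neg, Real.norm_eq_abs, Real.norm_eq_abs, Real.norm_eq_abs, Real.norm_eq_abs,
          abs_of_nonneg (by positivity : (0 : ℝ) ≤ ‖c‖ ^ n), abs_of_pos hn', abs_of_pos (Real.exp_pos _),
          abs_of_pos (mul_pos hn' hs)]
        have h1 : ‖c‖ ^ n * Real.exp (-(n * s.re) * a) ≤ 1 := by
          have : Real.exp (-(n * s.re) * a) = Real.exp (-(a * s.re)) ^ n := by
            rw [← Real.exp_nat_mul]; ring_nf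
          rw [this, ← mul_pow]
          exact pow_le_one₀ (by positivity) h
        have : ‖c‖ ^ n / n * (Real.exp (-(n * s.re) * a) / (n * s.re)) =
            (‖c‖ ^ n * Real.exp (-(n * s.re) * a)) * (1 / (n : ℝ) ^ 2 * (1 / s.re)) := by
          field_simp
        rw [this]
        exact mul_le_of_le_one_left (by positivity) h1
    refine Summable.of_norm_bounded ?_ hb
    exact (Real.summable_one_div_nat_pow.2 one_lt_two).mul_right _
  have := hasSum_integral_of_summable_integral_norm hint hsum
  convert! this using 1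
  · ext n
    exact (hval n).symm
  · apply setIntegral_congr_fun measurableSet_Ioi
    intro x hx
    have hz : ‖c * Complex.exp (-(x * s))‖ < 1 := by
      by_cases hc : c = 0
      · simp [hc]
      · rw [norm_mul, Complex.norm_exp]
        have hcp : 0 < ‖c‖ := norm_pos_iff.2 hc
        refine lt_of_lt_of_le ?_ h
        apply mul_lt_mul_of_pos_left _ hcp
        apply Real.exp_lt_exp.2
        simp
        have : a < x := hx
        nlinarith
    exact (Complex.hasSum_taylorSeries_log hz).tsum_eq.symm

/-- termwise integration on a bounded interval, growing exponential -/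
theorem hasSum_int_log_head (c s : ℂ) (hs : 0 < s.re) (a : ℝ) (ha : 0 ≤ a)
    (h : ‖c‖ * Real.exp (a * s.re) ≤ 1) :
    HasSum (fun n : ℕ => (-1 : ℂ) ^ (n + 1) * (c ^ n * (Complex.exp ((n * a) * s) - 1)) / ((n : ℂ) ^ 2 * s))
      (∫ x in (0 : ℝ)..a, Complex.log (1 + c * Complex.exp (x * s))) := by
  have hs0 : s ≠ 0 := by rintro rfl; simp at hs
  rw [intervalIntegral.integral_of_le ha, integral_Ioc_eq_integral_Ioo]
  set F : ℕ → ℝ → ℂ := fun n x => (-1) ^ (n + 1) * (c * Complex.exp (x * s)) ^ n / n with hF
  have hF' : ∀ n x, F n x = ((-1) ^ (n + 1) * c ^ n / n) * Complex.exp ((n * s) * x) := by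
    intro n x
    simp only [hF]
    rw [mul_pow, ← Complex.exp_nat_mul]
    rw [show (n : ℂ) * ((x : ℂ) * s) = (n * s) * x by ring]
    ring
  have hnorm : ∀ n x, ‖F n x‖ = (‖c‖ ^ n / n) * Real.exp ((n * s.re) * x) := by
    intro n x
    rw [hF' n x, norm_mul, norm_div, norm_mul, norm_pow, norm_pow, norm_neg, norm_one, one_pow,
      one_mul, Complex.norm_exp, Complex.norm_natCast]
    congr 2
    simp
  have hcont : ∀ n, Continuous (F n) := by
    intro n
    have e : F n = fun x : ℝ => ((-1) ^ (n + 1) * c ^ n / n) * Complex.exp ((n * s) * x) := by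
      ext x; exact hF' n x
    rw [e]
    fun_prop
  have hint : ∀ n, Integrable (F n) (volume.restrict (Ioo 0 a)) := by
    intro n
    exact ((hcont n).integrableOn_Icc (a := 0) (b := a)).mono_set Ioo_subset_Icc_self
  have hval : ∀ n, ∫ x in Ioo 0 a, F n x =
      (-1 : ℂ) ^ (n + 1) * (c ^ n * (Complex.exp ((n * a) * s) - 1)) / ((n : ℂ) ^ 2 * s) := by
    intro n
    rcases Nat.eq_zero_or_pos n with rfl | hn
    · simp [hF]
    · have hn0 : (n : ℂ) ≠ 0 := by exact_mod_cast hn.ne'
      have e : F n = fun x : ℝ => ((-1) ^ (n + 1) * c ^ n / n) * Complex.exp ((n * s) * x) := by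
        ext x; exact hF' n x
      rw [e, MeasureTheory.integral_const_mul, ← integral_Ioc_eq_integral_Ioo,
        ← intervalIntegral.integral_of_le ha, integral_exp_mul_complex (mul_ne_zero hn0 hs0)]
      rw [show ((n : ℂ) * s) * (a : ℂ) = (n * a) * s by ring]
      simp only [Complex.ofReal_zero, mul_zero, Complex.exp_zero]
      field_simp
  have hsum : Summable fun n => ∫ x in Ioo 0 a, ‖F n x‖ := by
    have hb : ∀ n : ℕ, ‖∫ x in Ioo 0 a, ‖F n x‖‖ ≤ (1 / (n : ℝ) ^ 2) * (1 / s.re) := by
      intro n
      rcases Nat.eq_zero_or_pos n with rfl | hn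
      · simp [hF]
      · have hn' : (0 : ℝ) < n := by exact_mod_cast hn
        have hns : 0 < (n : ℝ) * s.re := mul_pos hn' hs
        simp_rw [hnorm]
        rw [MeasureTheory.integral_const_mul, ← integral_Ioc_eq_integral_Ioo,
          ← intervalIntegral.integral_of_le ha]
        have hi : ∫ x in (0 : ℝ)..a, Real.exp (n * s.re * x) =
            (Real.exp (n * s.re * a) - 1) / (n * s.re) := by
          rw [intervalIntegral.integral_comp_mul_left (fun x => Real.exp x) hns.ne']
          simp
          field_simp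
        rw [hi]
        have h1 : ‖c‖ ^ n * Real.exp (n * s.re * a) ≤ 1 := by
          have : Real.exp (n * s.re * a) = Real.exp (a * s.re) ^ n := by
            rw [← Real.exp_nat_mul]; ring_nf
          rw [this, ← mul_pow]
          exact pow_le_one₀ (by positivity) h
        have h2 : 1 ≤ Real.exp (n * s.re * a) := Real.one_le_exp (by positivity)
        rw [Real.norm_eq_abs, abs_of_nonneg (by
          apply mul_nonneg (by positivity)
          apply div_nonneg (by linarith) hns.le)]
        have h3 : ‖c‖ ^ n * (Real.exp (n * s.re * a) - 1) ≤ 1 := by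
          have : 0 ≤ ‖c‖ ^ n := by positivity
          nlinarith
        have : ‖c‖ ^ n / n * ((Real.exp (n * s.re * a) - 1) / (n * s.re)) =
            (‖c‖ ^ n * (Real.exp (n * s.re * a) - 1)) * (1 / (n : ℝ) ^ 2 * (1 / s.re)) := by
          field_simp
        rw [this]
        exact mul_le_of_le_one_left (by positivity) h3
    refine Summable.of_norm_bounded ?_ hb
    exact (Real.summable_one_div_nat_pow.2 one_lt_two).mul_right _
  have := hasSum_integral_of_summable_integral_norm hint hsum
  convert! this using 1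
  · ext n
    exact (hval n).symm
  · apply setIntegral_congr_fun measurableSet_Ioo
    intro x hx
    have hz : ‖c * Complex.exp (x * s)‖ < 1 := by
      by_cases hc : c = 0
      · simp [hc]
      · rw [norm_mul, Complex.norm_exp]
        have hcp : 0 < ‖c‖ := norm_pos_iff.2 hc
        refine lt_of_lt_of_le ?_ h
        apply mul_lt_mul_of_pos_left _ hcp
        apply Real.exp_lt_exp.2
        simp
        have : x < a := hx.2
        nlinarith
    exact (Complex.hasSum_taylorSeries_log hz).tsum_eq.symm

end Pool.Agent.Helper10.Miss
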