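import Pool.Agent.Helper10.Miss.IntLog

set_option autoImplicit false

namespace Pool.Agent.Helper10.Miss

open MeasureTheory Set

theorem integrableOn_of_exp {E : Type*} [NormedAddCommGroup E] (f : ℝ → E) (a R C b : ℝ)
    (hb : 0 < b) (haR : a ≤ R) (hf : ContinuousOn f (Ici a))
    (h : ∀ x, R ≤ x → ‖f x‖ ≤ C * Real.exp (-(b * x))) : IntegrableOn f (Ioi a) := by
  rw [← Ioc_union_Ioi_eq_Ioi haR]
  apply IntegrableOn.union
  · exact (hf.mono (fun x hx => hx.1)).integrableOn_Icc.mono_set Ioc_subset_Icc_self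
  · have h1 : IntegrableOn (fun x : ℝ => C * Real.exp ((-b) * x)) (Ioi R) :=
      (integrableOn_exp_mul_Ioi (by linarith) R).const_mul C
    refine Integrable.mono' h1 ?_ ?_
    · exact (hf.mono (fun x (hx : R < x) => le_trans haR hx.le)).aestronglyMeasurable measurableSet_Ioi
    · refine (ae_restrict_iff' measurableSet_Ioi).2 (Filter.Eventually.of_forall fun x hx => ?_)
      have := h x (le_of_lt hx)
      simpa [neg_mul] using this

theorem slit_of_norm_le {z : ℂ} (h : ‖z‖ ≤ 1) (h1 : 1 + z ≠ 0) : 1 + z ∈ Complex.slitPlane := by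
  rw [Complex.mem_slitPlane_iff]
  left
  have h2 : z.re ^ 2 + z.im ^ 2 ≤ 1 := by
    have := Complex.sq_norm z
    rw [Complex.normSq_apply] at this
    nlinarith [norm_nonneg z]
  have h3 : -1 ≤ z.re := by nlinarith [sq_nonneg z.im]
  rcases h3.lt_or_eq with h4 | h4
  · simp; linarith
  · exfalso
    apply h1
    have : z.im = 0 := by
      have : z.im ^ 2 ≤ 0 := by rw [← h4] at h2; linarith
      nlinarith
    apply Complex.ext <;> simp [← h4, this]

/-- `1 + c exp(-x s)` -/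
noncomputable def Zf (c s : ℂ) (x : ℝ) : ℂ := 1 + c * Complex.exp (-(x * s))

theorem Zf_cont (c s : ℂ) : Continuous (Zf c s) := by
  unfold Zf; fun_prop

theorem norm_term (c s : ℂ) (x : ℝ) :
    ‖c * Complex.exp (-(x * s))‖ = ‖c‖ * Real.exp (-(x * s.re)) := by
  rw [norm_mul, Complex.norm_exp]; simp

/-- tail bound for the logarithm -/
theorem log_tail (c s : ℂ) (x : ℝ) (h : ‖c‖ * Real.exp (-(x * s.re)) ≤ 1 / 2) :
    ‖Complex.log (Zf c s x)‖ ≤ (3 / 2) * ‖c‖ * Real.exp (-(x * s.re)) := by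
  rw [mul_assoc, ← norm_term]
  apply Complex.norm_log_one_add_half_le_self
  rwa [norm_term]

theorem logn_tail (c s : ℂ) (x : ℝ) (h : ‖c‖ * Real.exp (-(x * s.re)) ≤ 1 / 2) :
    |Real.log ‖Zf c s x‖| ≤ (3 / 2) * ‖c‖ * Real.exp (-(x * s.re)) := by
  refine le_trans ?_ (log_tail c s x h)
  rw [← Complex.log_re]
  exact Complex.abs_re_le_norm _

theorem exists_tail (c s : ℂ) (hs : 0 < s.re) (a : ℝ) :
    ∃ R, a ≤ R ∧ ∀ x, R ≤ x → ‖c‖ * Real.exp (-(x * s.re)) ≤ 1 / 2 := by
  have h1 : Filter.Tendsto (fun x : ℝ => ‖c‖ * Real.exp (-(x * s.re))) Filter.atTop (nhds (‖c‖ * 0)) := by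
    apply Filter.Tendsto.const_mul
    apply Real.tendsto_exp_neg_atTop_nhds_zero.comp
    exact Filter.tendsto_id.atTop_mul_const hs
  rw [mul_zero] at h1
  have h2 := h1.eventually (ge_mem_nhds (show (0 : ℝ) < 1 / 2 by norm_num))
  obtain ⟨R, hR⟩ := Filter.eventually_atTop.1 h2
  exact ⟨max a R, le_max_left _ _, fun x hx => hR x (le_trans (le_max_right _ _) hx)⟩

theorem integrable_logn (c s : ℂ) (hs : 0 < s.re) (a : ℝ) (h : ∀ x, a ≤ x → Zf c s x ≠ 0) :
    IntegrableOn (fun x => Real.log ‖Zf c s x‖) (Ioi a) := by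
  obtain ⟨R, haR, hR⟩ := exists_tail c s hs a
  apply integrableOn_of_exp _ a R (3 / 2 * ‖c‖) s.re hs haR
  · intro x hx
    apply ContinuousAt.continuousWithinAt
    apply ContinuousAt.log
    · exact (Zf_cont c s).norm.continuousAt
    · exact norm_ne_zero_iff.2 (h x hx)
  · intro x hx
    have := logn_tail c s x (hR x hx)
    rw [mul_comm s.re x]
    exact this

theorem integrable_log (c s : ℂ) (hs : 0 < s.re) (a : ℝ)
    (h : ∀ x, a ≤ x → Zf c s x ∈ Complex.slitPlane) :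
    IntegrableOn (fun x => Complex.log (Zf c s x)) (Ioi a) := by
  obtain ⟨R, haR, hR⟩ := exists_tail c s hs a
  apply integrableOn_of_exp _ a R (3 / 2 * ‖c‖) s.re hs haR
  · intro x hx
    apply ContinuousAt.continuousWithinAt
    exact ContinuousAt.clog (Zf_cont c s).continuousAt (h x hx)
  · intro x hx
    have := log_tail c s x (hR x hx)
    rw [mul_comm s.re x]
    exact this

theorem bern2 (x : ℝ) :
    (Polynomial.map (algebraMap ℚ ℝ) (Polynomial.bernoulli 2)).eval x = x ^ 2 - x + 1 / 6 := by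
  simp [Polynomial.bernoulli, Finset.sum_range_succ, bernoulli_one, bernoulli_two]
  ring

/-- cosine sums -/
theorem sumcos (y : ℝ) (h0 : 0 ≤ y) (h1 : y ≤ 2 * Real.pi) :
    HasSum (fun n : ℕ => Real.cos (n * y) / (n : ℝ) ^ 2)
      (Real.pi ^ 2 / 6 - Real.pi * y / 2 + y ^ 2 / 4) := by
  have hpi := Real.pi_pos
  have hx : y / (2 * Real.pi) ∈ Icc (0 : ℝ) 1 := by
    constructor
    · positivity
    · rw [div_le_one (by positivity)]; exact h1
  have := hasSum_one_div_nat_pow_mul_cos (k := 1) one_ne_zero hx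
  convert! this using 1
  · ext n
    rw [show 2 * Real.pi * n * (y / (2 * Real.pi)) = n * y by field_simp]
    simp
    ring
  · rw [show 2 * 1 = 2 by norm_num, bern2]
    norm_num [Nat.factorial]
    field_simp
    ring

theorem sumcos_alt (y : ℝ) (h : |y| ≤ Real.pi) :
    HasSum (fun n : ℕ => (-1 : ℝ) ^ n * Real.cos (n * y) / (n : ℝ) ^ 2)
      (y ^ 2 / 4 - Real.pi ^ 2 / 12) := by
  rw [abs_le] at h
  have := sumcos (y + Real.pi) (by linarith) (by linarith)
  convert! this using 1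
  · ext n
    rw [mul_add, Real.cos_add_nat_mul_pi]
  · ring

/-- the dilogarithm-type constant `∑ (-1)^(n+1) y^n / n^2` -/
noncomputable def Dl (y : ℝ) : ℝ := ∑' n : ℕ, (-1 : ℝ) ^ (n + 1) * y ^ n / (n : ℝ) ^ 2

theorem hasSum_Dl (y : ℝ) (hy : |y| ≤ 1) :
    HasSum (fun n : ℕ => (-1 : ℝ) ^ (n + 1) * y ^ n / (n : ℝ) ^ 2) (Dl y) := by
  apply Summable.hasSum
  refine Summable.of_norm_bounded (g := fun n : ℕ => 1 / (n : ℝ) ^ 2)
    (Real.summable_one_div_nat_pow.2 one_lt_two) ?_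
  intro n
  rw [norm_div, norm_mul, norm_pow, norm_neg, norm_one, one_pow, one_mul, norm_pow, norm_pow,
    Real.norm_natCast]
  gcongr
  exact pow_le_one₀ (norm_nonneg _) hy

end Pool.Agent.Helper10.Miss
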