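import Pool.Agent.Helper10.Miss.IntLog2

set_option autoImplicit false

namespace Pool.Agent.Helper10.Miss

open MeasureTheory Set

/-- the point `s = t - i φ` -/
noncomputable def sp (t φ : ℝ) : ℂ := ⟨t, -φ⟩

@[simp] theorem sp_re (t φ : ℝ) : (sp t φ).re = t := rfl
@[simp] theorem sp_im (t φ : ℝ) : (sp t φ).im = -φ := rfl

theorem J_series (c L σ t φ : ℝ) (hσ : σ = 1 ∨ σ = -1) (hL : 0 ≤ L) (hc : c = σ * Real.exp L)
    (ht : 0 < t) (hne : ∀ x, 0 ≤ x → Zf c (sp t φ) x ≠ 0) :
    HasSum (fun n : ℕ => ((-1 : ℝ) ^ (n + 1) * (2 * σ ^ n * Real.cos (n * (φ * (L / t))) - (1 / c) ^ n)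
      / (n : ℝ) ^ 2) * (t / (t ^ 2 + φ ^ 2)))
      ((∫ x in Ioi (0 : ℝ), Real.log ‖Zf c (sp t φ) x‖) - L ^ 2 / (2 * t)) := by
  set s := sp t φ with hs
  have hsre : s.re = t := rfl
  have hs0 : s ≠ 0 := by
    intro h
    have : s.re = 0 := by rw [h]; rfl
    rw [hsre] at this; linarith
  set a := L / t with ha
  have ha0 : 0 ≤ a := div_nonneg hL ht.le
  have hat : a * t = L := by rw [ha]; field_simp
  have habs : ‖(c : ℂ)‖ = Real.exp L := by
    rw [Complex.norm_real, hc, norm_mul, Real.norm_eq_abs, Real.norm_eq_abs, abs_of_pos (Real.exp_pos _)]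
    rcases hσ with rfl | rfl <;> simp
  have hc0 : c ≠ 0 := by
    intro h
    rw [h] at habs
    simp at habs
    exact (Real.exp_pos L).ne habs
  have hcc0 : (c : ℂ) ≠ 0 := by exact_mod_cast hc0
  -- tail
  have hT := hasSum_int_log_Ioi (c : ℂ) s (by rw [hsre]; exact ht) a (by
    rw [habs, ← Real.exp_add, hsre, hat]; simp)
  have hTre : ∫ x in Ioi a, Real.log ‖Zf c s x‖ =
      (∫ x in Ioi a, Complex.log (1 + (c : ℂ) * Complex.exp (-(x * s)))).re := by
    have hi : IntegrableOn (fun x => Complex.log (Zf c s x)) (Ioi a) := by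
      apply integrable_log _ _ (by rw [hsre]; exact ht)
      intro x hx
      apply slit_of_norm_le
      · rw [norm_term, habs, ← Real.exp_add, hsre]
        rw [Real.exp_le_one_iff]
        nlinarith
      · exact hne x (ha0.trans hx)
    have := integral_re (𝕜 := ℂ) hi
    simp only [RCLike.re_to_complex, Complex.log_re] at this
    exact this
  -- head
  have hH := hasSum_int_log_head ((1 / c : ℝ) : ℂ) s (by rw [hsre]; exact ht) a ha0 (by
    rw [Complex.norm_real, norm_div, norm_one, ← Complex.norm_real, habs, hsre, hat]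
    rw [one_div, inv_mul_cancel₀ (Real.exp_pos _).ne'])
  have hnormexp : ∀ x : ℝ, ‖Complex.exp (x * s)‖ = Real.exp (x * t) := by
    intro x
    rw [Complex.norm_exp]; simp [hsre]
  have hfac : ∀ x : ℝ, Zf c s x = ((c : ℂ) * Complex.exp (-(x * s))) *
      (1 + ((1 / c : ℝ) : ℂ) * Complex.exp (x * s)) := by
    intro x
    unfold Zf
    have : Complex.exp (-(x * s)) * Complex.exp (x * s) = 1 := by
      rw [← Complex.exp_add]; simp
    push_cast
    field_simp
    linear_combination -this
  have hne2 : ∀ x : ℝ, 0 ≤ x → 1 + ((1 / c : ℝ) : ℂ) * Complex.exp (x * s) ≠ 0 := by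
    intro x hx h0
    apply hne x hx
    rw [hfac, h0, mul_zero]
  have hHcont : ContinuousOn (fun x : ℝ => Complex.log (1 + ((1 / c : ℝ) : ℂ) * Complex.exp (x * s)))
      (Icc 0 a) := by
    intro x hx
    apply ContinuousAt.continuousWithinAt
    apply ContinuousAt.clog
    · fun_prop
    · apply slit_of_norm_le
      · rw [norm_mul, hnormexp, Complex.norm_real, norm_div, norm_one, ← Complex.norm_real, habs,
          one_div, ← Real.exp_neg, ← Real.exp_add, Real.exp_le_one_iff]
        nlinarith [hx.2]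
      · exact hne2 x hx.1
  have hHre : ∫ x in (0 : ℝ)..a, Real.log ‖1 + ((1 / c : ℝ) : ℂ) * Complex.exp (x * s)‖ =
      (∫ x in (0 : ℝ)..a, Complex.log (1 + ((1 / c : ℝ) : ℂ) * Complex.exp (x * s))).re := by
    have hi : IntervalIntegrable (fun x : ℝ => Complex.log (1 + ((1 / c : ℝ) : ℂ) * Complex.exp (x * s)))
        volume 0 a := by
      apply ContinuousOn.intervalIntegrable
      rwa [uIcc_of_le ha0]
    rw [intervalIntegral.integral_of_le ha0, intervalIntegral.integral_of_le ha0]
    have hi2 := (intervalIntegrable_iff_integrableOn_Ioc_of_le ha0).1 hi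
    have := integral_re (𝕜 := ℂ) hi2
    simp only [RCLike.re_to_complex, Complex.log_re] at this
    exact this
  have hHead : ∫ x in (0 : ℝ)..a, Real.log ‖Zf c s x‖ = L ^ 2 / (2 * t) +
      (∫ x in (0 : ℝ)..a, Complex.log (1 + ((1 / c : ℝ) : ℂ) * Complex.exp (x * s))).re := by
    rw [← hHre]
    have h1 : ∀ x ∈ uIcc 0 a, Real.log ‖Zf c s x‖ = (L - x * t) +
        Real.log ‖1 + ((1 / c : ℝ) : ℂ) * Complex.exp (x * s)‖ := by
      intro x hx
      rw [uIcc_of_le ha0] at hx
      rw [hfac, norm_mul, Real.log_mul, norm_term, habs, ← Real.exp_add, Real.log_exp, hsre]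
      · ring
      · rw [norm_term, habs]; positivity
      · exact norm_ne_zero_iff.2 (hne2 x hx.1)
    rw [intervalIntegral.integral_congr h1, intervalIntegral.integral_add]
    · congr 1
      rw [intervalIntegral.integral_sub (by simp) (by
        apply Continuous.intervalIntegrable; fun_prop)]
      simp
      rw [ha]
      field_simp
      ring
    · apply Continuous.intervalIntegrable; fun_prop
    · apply ContinuousOn.intervalIntegrable
      rw [uIcc_of_le ha0]
      intro x hx
      apply ContinuousAt.continuousWithinAt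
      apply ContinuousAt.log
      · fun_prop
      · exact norm_ne_zero_iff.2 (hne2 x hx.1)
  have hsplit : ∫ x in Ioi (0 : ℝ), Real.log ‖Zf c s x‖ =
      (∫ x in (0 : ℝ)..a, Real.log ‖Zf c s x‖) + ∫ x in Ioi a, Real.log ‖Zf c s x‖ := by
    have hi := integrable_logn c s (by rw [hsre]; exact ht) 0 hne
    rw [intervalIntegral.integral_interval_add_Ioi hi (hi.mono_set (Ioi_subset_Ioi ha0))]
  rw [hsplit, hHead, hTre]
  have hsum := (hT.add hH)
  have hre := (Complex.hasSum_iff _ _).1 hsum
  convert! hre.1 using 1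
  · ext n
    rcases Nat.eq_zero_or_pos n with rfl | hn
    · simp
    have hn0 : (n : ℂ) ≠ 0 := by exact_mod_cast hn.ne'
    -- rho^n
    have e1 : (c : ℂ) ^ n * Complex.exp (-(n * a) * s) =
        (σ : ℂ) ^ n * Complex.exp ((n * (φ * a) : ℝ) * Complex.I) := by
      rw [hc]
      push_cast
      rw [mul_pow, ← Complex.exp_nat_mul, mul_assoc, ← Complex.exp_add]
      congr 2
      apply Complex.ext
      · simp [hsre]
        rw [← hat]; ring
      · simp [hs]
        ring
    have e2 : ((1 / c : ℝ) : ℂ) ^ n * Complex.exp (n * a * s) =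
        (σ : ℂ) ^ n * Complex.exp (-(n * (φ * a) : ℝ) * Complex.I) := by
      have hσσ : (σ : ℂ) ^ n * (σ : ℂ) ^ n = 1 := by
        rcases hσ with rfl | rfl
        · simp
        · rw [← mul_pow]; simp
      have hσ0 : (σ : ℂ) ^ n ≠ 0 := by
        intro h; rw [h] at hσσ; simp at hσσ
      have h1 : ((c : ℂ) ^ n * Complex.exp (-(n * a) * s)) *
          (((1 / c : ℝ) : ℂ) ^ n * Complex.exp (n * a * s)) = 1 := by
        have : Complex.exp (-(n * a) * s) * Complex.exp (n * a * s) = 1 := by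
          rw [← Complex.exp_add]; simp
        push_cast
        rw [div_pow, one_pow]
        have hcn : (c : ℂ) ^ n ≠ 0 := pow_ne_zero _ hcc0
        have hcc : (c : ℂ) ^ n * (1 / (c : ℂ) ^ n) = 1 := by field_simp
        linear_combination (Complex.exp (-(n * a) * s) * Complex.exp (n * a * s)) * hcc + this
      rw [e1] at h1
      have h2 : Complex.exp ((n * (φ * a) : ℝ) * Complex.I) * Complex.exp (-(n * (φ * a) : ℝ) * Complex.I) = 1 := by
        rw [← Complex.exp_add]; simp
      have hE : Complex.exp ((n * (φ * a) : ℝ) * Complex.I) ≠ 0 := Complex.exp_ne_zero _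
      apply mul_left_cancel₀ (mul_ne_zero hσ0 hE)
      rw [h1]
      linear_combination (-1 : ℂ) * hσσ - ((σ : ℂ) ^ n * (σ : ℂ) ^ n) * h2
    have e3 : Complex.exp ((n * (φ * a) : ℝ) * Complex.I) + Complex.exp (-(n * (φ * a) : ℝ) * Complex.I)
        = ((2 * Real.cos (n * (φ * a)) : ℝ) : ℂ) := by
      push_cast
      rw [Complex.cos]
      ring
    have e4 : (-1 : ℂ) ^ (n + 1) * ((c : ℂ) ^ n * Complex.exp (-(n * a) * s)) / ((n : ℂ) ^ 2 * s) +
        (-1 : ℂ) ^ (n + 1) * (((1 / c : ℝ) : ℂ) ^ n * (Complex.exp ((n * a) * s) - 1)) / ((n : ℂ) ^ 2 * s)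
        = (((-1 : ℝ) ^ (n + 1) * (2 * σ ^ n * Real.cos (n * (φ * a)) - (1 / c) ^ n)
      / (n : ℝ) ^ 2 : ℝ) : ℂ) * s⁻¹ := by
      have e5 : (c : ℂ) ^ n * Complex.exp (-(n * a) * s) +
          ((1 / c : ℝ) : ℂ) ^ n * (Complex.exp ((n * a) * s) - 1) =
          ((2 * σ ^ n * Real.cos (n * (φ * a)) - (1 / c) ^ n : ℝ) : ℂ) := by
        rw [mul_sub, e1, e2, mul_one]
        push_cast at e3 ⊢
        linear_combination (σ : ℂ) ^ n * e3
      rw [← add_div, ← mul_add, e5]
      push_cast
      rw [div_mul_eq_div_div, div_eq_mul_inv _ s]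
    rw [e4, Complex.re_ofReal_mul, Complex.inv_re, Complex.normSq_apply]
    congr 1
    simp [hs]
    ring
  · simp only [Complex.add_re]
    ring

end Pool.Agent.Helper10.Miss
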