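import Pool.Agent.Helper10.Miss.IntLog3

set_option autoImplicit false

namespace Pool.Agent.Helper10.Miss

open MeasureTheory Set

theorem J_pos (c L t φ : ℝ) (hL : 0 ≤ L) (hc : c = Real.exp L)
    (ht : 0 < t) (hφ : |φ * (L / t)| ≤ Real.pi) (hne : ∀ x, 0 ≤ x → Zf c (sp t φ) x ≠ 0) :
    ∫ x in Ioi (0 : ℝ), Real.log ‖Zf c (sp t φ) x‖ =
      (t / (t ^ 2 + φ ^ 2)) * (L ^ 2 / 2 + Real.pi ^ 2 / 6 - Dl (1 / c)) := by
  have h1 := J_series c L 1 t φ (Or.inl rfl) hL (by rw [hc, one_mul]) ht hne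
  have hcpos : 0 < c := by rw [hc]; exact Real.exp_pos _
  have hc1 : 1 ≤ c := by rw [hc]; exact Real.one_le_exp hL
  have h2 := (sumcos_alt (φ * (L / t)) hφ).mul_left (-2 : ℝ)
  have h3 := hasSum_Dl (1 / c) (by
    rw [abs_of_pos (by positivity), div_le_one hcpos]; exact hc1)
  have h4 := (h2.sub h3).mul_right (t / (t ^ 2 + φ ^ 2))
  have h5 : (∫ x in Ioi (0 : ℝ), Real.log ‖Zf c (sp t φ) x‖) - L ^ 2 / (2 * t) =
      (-2 * ((φ * (L / t)) ^ 2 / 4 - Real.pi ^ 2 / 12) - Dl (1 / c)) * (t / (t ^ 2 + φ ^ 2)) := by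
    refine h1.unique ?_
    convert! h4 using 1
    ext n
    rw [one_pow]
    ring
  have h6 : L ^ 2 / (2 * t) = (t / (t ^ 2 + φ ^ 2)) * (L ^ 2 / 2 + (φ * (L / t)) ^ 2 / 2) := by
    have : t ^ 2 + φ ^ 2 ≠ 0 := by positivity
    field_simp
  have : ∫ x in Ioi (0 : ℝ), Real.log ‖Zf c (sp t φ) x‖ = L ^ 2 / (2 * t) +
      (-2 * ((φ * (L / t)) ^ 2 / 4 - Real.pi ^ 2 / 12) - Dl (1 / c)) * (t / (t ^ 2 + φ ^ 2)) := by
    linarith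
  rw [this, h6]
  ring

theorem J_neg (c L t φ : ℝ) (hL : 0 ≤ L) (hc : c = -Real.exp L)
    (ht : 0 < t) (hφ : 0 ≤ φ) (hφ2 : φ * (L / t) ≤ 2 * Real.pi)
    (hne : ∀ x, 0 ≤ x → Zf c (sp t φ) x ≠ 0) :
    ∫ x in Ioi (0 : ℝ), Real.log ‖Zf c (sp t φ) x‖ =
      (t / (t ^ 2 + φ ^ 2)) * (L ^ 2 / 2 - Real.pi ^ 2 / 3 + Real.pi * (φ * L / t) - Dl (1 / c)) := by
  have h1 := J_series c L (-1) t φ (Or.inr rfl) hL (by rw [hc]; ring) ht hne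
  have hcneg : c < 0 := by rw [hc]; linarith [Real.exp_pos L]
  have hc1 : 1 ≤ |c| := by rw [hc, abs_neg, abs_of_pos (Real.exp_pos _)]; exact Real.one_le_exp hL
  have h2 := (sumcos (φ * (L / t)) (by positivity) hφ2).mul_left (-2 : ℝ)
  have h3 := hasSum_Dl (1 / c) (by
    rw [abs_div, abs_one, div_le_one (by linarith)]; exact hc1)
  have h4 := (h2.sub h3).mul_right (t / (t ^ 2 + φ ^ 2))
  have h5 : (∫ x in Ioi (0 : ℝ), Real.log ‖Zf c (sp t φ) x‖) - L ^ 2 / (2 * t) =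
      (-2 * (Real.pi ^ 2 / 6 - Real.pi * (φ * (L / t)) / 2 + (φ * (L / t)) ^ 2 / 4) - Dl (1 / c)) *
        (t / (t ^ 2 + φ ^ 2)) := by
    refine h1.unique ?_
    convert! h4 using 1
    ext n
    have : (-1 : ℝ) ^ (n + 1) * (-1) ^ n = -1 := by
      rw [pow_succ, mul_assoc, mul_comm (-1 : ℝ), ← mul_assoc, ← mul_pow]; simp
    linear_combination (2 * Real.cos (n * (φ * (L / t))) / n ^ 2 * (t / (t ^ 2 + φ ^ 2))) * this
  have h6 : L ^ 2 / (2 * t) = (t / (t ^ 2 + φ ^ 2)) * (L ^ 2 / 2 + (φ * (L / t)) ^ 2 / 2) := by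
    have : t ^ 2 + φ ^ 2 ≠ 0 := by positivity
    field_simp
  have : ∫ x in Ioi (0 : ℝ), Real.log ‖Zf c (sp t φ) x‖ = L ^ 2 / (2 * t) +
      (-2 * (Real.pi ^ 2 / 6 - Real.pi * (φ * (L / t)) / 2 + (φ * (L / t)) ^ 2 / 4) - Dl (1 / c)) *
        (t / (t ^ 2 + φ ^ 2)) := by
    linarith
  rw [this, h6]
  ring

end Pool.Agent.Helper10.Miss
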