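import Pool.Agent.Helper10.Miss.IntLog4

set_option autoImplicit false

namespace Pool.Agent.Helper10.Miss

open MeasureTheory Set

theorem term_eq (c L t φ : ℝ) (hc : c = Real.exp L) (ht : 0 < t) (n : ℕ) :
    (-1 : ℂ) ^ (n + 1) * ((c : ℂ) ^ n * Complex.exp (-(n * (L / t : ℝ)) * sp t φ)) / ((n : ℂ) ^ 2 * sp t φ) +
        (-1 : ℂ) ^ (n + 1) * (((1 / c : ℝ) : ℂ) ^ n * (Complex.exp ((n * (L / t : ℝ)) * sp t φ) - 1)) /
          ((n : ℂ) ^ 2 * sp t φ)
        = (((-1 : ℝ) ^ (n + 1) * (2 * Real.cos (n * (φ * (L / t))) - (1 / c) ^ n)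
      / (n : ℝ) ^ 2 : ℝ) : ℂ) * (sp t φ)⁻¹ := by
  set s := sp t φ with hs
  have hsre : s.re = t := rfl
  set a := L / t with ha
  have hat : a * t = L := by rw [ha]; field_simp
  have hc0 : c ≠ 0 := by rw [hc]; exact (Real.exp_pos _).ne'
  have hcc0 : (c : ℂ) ≠ 0 := by exact_mod_cast hc0
  have e1 : (c : ℂ) ^ n * Complex.exp (-(n * a) * s) =
      Complex.exp ((n * (φ * a) : ℝ) * Complex.I) := by
    rw [hc]
    push_cast
    rw [← Complex.exp_nat_mul, ← Complex.exp_add]
    congr 1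
    apply Complex.ext
    · simp [hsre]
      rw [← hat]; ring
    · simp [hs]
      ring
  have e2 : ((1 / c : ℝ) : ℂ) ^ n * Complex.exp (n * a * s) =
      Complex.exp (-(n * (φ * a) : ℝ) * Complex.I) := by
    have h1 : ((c : ℂ) ^ n * Complex.exp (-(n * a) * s)) *
        (((1 / c : ℝ) : ℂ) ^ n * Complex.exp (n * a * s)) = 1 := by
      have : Complex.exp (-(n * a) * s) * Complex.exp (n * a * s) = 1 := by
        rw [← Complex.exp_add]; simp
      push_cast
      rw [div_pow, one_pow]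
      have hcn : (c : ℂ) ^ n ≠ 0 := pow_ne_zero _ hcc0
      have hcc : (c : ℂ) ^ n * (1 / (c : ℂ) ^ n) = 1 := by field_simp
      linear_combination (Complex.exp (-(n * a) * s) * Complex.exp (n * a * s)) * hcc + this
    rw [e1] at h1
    have h2 : Complex.exp ((n * (φ * a) : ℝ) * Complex.I) * Complex.exp (-(n * (φ * a) : ℝ) * Complex.I) = 1 := by
      rw [← Complex.exp_add]; simp
    exact mul_left_cancel₀ (Complex.exp_ne_zero _) (h1.trans h2.symm)
  have e3 : Complex.exp ((n * (φ * a) : ℝ) * Complex.I) + Complex.exp (-(n * (φ * a) : ℝ) * Complex.I)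
      = ((2 * Real.cos (n * (φ * a)) : ℝ) : ℂ) := by
    push_cast
    rw [Complex.cos]
    ring
  have e5 : (c : ℂ) ^ n * Complex.exp (-(n * a) * s) +
      ((1 / c : ℝ) : ℂ) ^ n * (Complex.exp ((n * a) * s) - 1) =
      ((2 * Real.cos (n * (φ * a)) - (1 / c) ^ n : ℝ) : ℂ) := by
    rw [mul_sub, e1, e2, mul_one]
    push_cast at e3 ⊢
    linear_combination e3
  rw [← add_div, ← mul_add, e5]
  push_cast
  rw [div_mul_eq_div_div, div_eq_mul_inv _ s]

theorem J_complex (c L t φ : ℝ) (hL : 0 ≤ L) (hc : c = Real.exp L)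
    (ht : 0 < t) (hφ : |φ * (L / t)| ≤ 1) (hne : ∀ x, 0 ≤ x → Zf c (sp t φ) x ∈ Complex.slitPlane) :
    ∫ x in Ioi (0 : ℝ), Complex.log (Zf c (sp t φ) x) =
      ((L ^ 2 / 2 + Real.pi ^ 2 / 6 - Dl (1 / c) : ℝ) : ℂ) / sp t φ := by
  set s := sp t φ with hs
  have hsre : s.re = t := rfl
  have hs0 : s ≠ 0 := by
    intro h
    have : s.re = 0 := by rw [h]; rfl
    rw [hsre] at this; linarith
  set a := L / t with ha
  have ha0 : 0 ≤ a := div_nonneg hL ht.le
  have hat : a * t = L := by rw [ha]; field_simp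
  have hcpos : 0 < c := by rw [hc]; exact Real.exp_pos _
  have hc1 : 1 ≤ c := by rw [hc]; exact Real.one_le_exp hL
  have habs : ‖(c : ℂ)‖ = Real.exp L := by
    rw [Complex.norm_real, hc, Real.norm_eq_abs, abs_of_pos (Real.exp_pos _)]
  have hcc0 : (c : ℂ) ≠ 0 := by exact_mod_cast hcpos.ne'
  have hT := hasSum_int_log_Ioi (c : ℂ) s (by rw [hsre]; exact ht) a (by
    rw [habs, ← Real.exp_add, hsre, hat]; simp)
  have hH := hasSum_int_log_head ((1 / c : ℝ) : ℂ) s (by rw [hsre]; exact ht) a ha0 (by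
    rw [Complex.norm_real, norm_div, norm_one, ← Complex.norm_real, habs, hsre, hat]
    rw [one_div, inv_mul_cancel₀ (Real.exp_pos _).ne'])
  have hnormexp : ∀ x : ℝ, ‖Complex.exp (x * s)‖ = Real.exp (x * t) := by
    intro x
    rw [Complex.norm_exp]; simp [hsre]
  have hcexp : (c : ℂ) = Complex.exp L := by rw [hc]; push_cast; rfl
  have hfac : ∀ x : ℝ, Zf c s x = Complex.exp (L - x * s) *
      (1 + ((1 / c : ℝ) : ℂ) * Complex.exp (x * s)) := by
    intro x
    unfold Zf
    have : Complex.exp (-(x * s)) * Complex.exp (x * s) = 1 := by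
      rw [← Complex.exp_add]; simp
    rw [sub_eq_add_neg (L : ℂ), Complex.exp_add, ← hcexp]
    push_cast
    field_simp
    linear_combination -this
  have hne2 : ∀ x : ℝ, 0 ≤ x → 1 + ((1 / c : ℝ) : ℂ) * Complex.exp (x * s) ≠ 0 := by
    intro x hx h0
    apply Complex.slitPlane_ne_zero (hne x hx)
    rw [hfac, h0, mul_zero]
  have hnle : ∀ x : ℝ, x ≤ a → ‖((1 / c : ℝ) : ℂ) * Complex.exp (x * s)‖ ≤ 1 := by
    intro x hx
    rw [norm_mul, hnormexp, Complex.norm_real, norm_div, norm_one, ← Complex.norm_real, habs,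
      one_div, ← Real.exp_neg, ← Real.exp_add, Real.exp_le_one_iff]
    nlinarith
  have hHcont : ContinuousOn (fun x : ℝ => Complex.log (1 + ((1 / c : ℝ) : ℂ) * Complex.exp (x * s)))
      (Icc 0 a) := by
    intro x hx
    apply ContinuousAt.continuousWithinAt
    apply ContinuousAt.clog
    · fun_prop
    · exact slit_of_norm_le (hnle x hx.2) (hne2 x hx.1)
  have hHead : ∫ x in (0 : ℝ)..a, Complex.log (Zf c s x) = (L * a - s * a ^ 2 / 2) +
      (∫ x in (0 : ℝ)..a, Complex.log (1 + ((1 / c : ℝ) : ℂ) * Complex.exp (x * s))) := by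
    have h1 : ∀ x ∈ uIcc 0 a, Complex.log (Zf c s x) = ((L : ℂ) - x * s) +
        Complex.log (1 + ((1 / c : ℝ) : ℂ) * Complex.exp (x * s)) := by
      intro x hx
      rw [uIcc_of_le ha0] at hx
      have him : ((L : ℂ) - x * s).im = x * φ := by simp [hs]
      have hxφ : |x * φ| ≤ 1 := by
        have : |x * φ| ≤ |φ * a| := by
          rw [abs_mul, abs_mul, mul_comm |φ|, abs_of_nonneg hx.1, abs_of_nonneg ha0]
          exact mul_le_mul_of_nonneg_right hx.2 (abs_nonneg _)
        exact this.trans hφ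
      have hpi := Real.pi_gt_three
      rw [abs_le] at hxφ
      have hlog : Complex.log (Complex.exp ((L : ℂ) - x * s)) = (L : ℂ) - x * s := by
        apply Complex.log_exp
        · rw [him]; linarith
        · rw [him]; linarith
      have harg : Complex.arg (Complex.exp ((L : ℂ) - x * s)) = x * φ := by
        rw [← Complex.log_im, hlog, him]
      have harg2 : |Complex.arg (1 + ((1 / c : ℝ) : ℂ) * Complex.exp (x * s))| ≤ Real.pi / 2 := by
        rw [Complex.abs_arg_le_pi_div_two_iff]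
        have := Complex.abs_re_le_norm (((1 / c : ℝ) : ℂ) * Complex.exp (x * s))
        have h2 := (abs_le.1 (this.trans (hnle x hx.2))).1
        rw [Complex.add_re, Complex.one_re]
        linarith
      rw [abs_le] at harg2
      rw [hfac, (Complex.log_mul_eq_add_log_iff (Complex.exp_ne_zero _) (hne2 x hx.1)).2, hlog]
      rw [harg]
      constructor <;> linarith [harg2.1, harg2.2]
    rw [intervalIntegral.integral_congr h1, intervalIntegral.integral_add]
    · congr 1
      rw [intervalIntegral.integral_sub (by simp) (by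
        apply Continuous.intervalIntegrable; fun_prop)]
      have hid : (∫ x in (0 : ℝ)..a, (x : ℂ)) = ((∫ x in (0 : ℝ)..a, x : ℝ) : ℂ) :=
        intervalIntegral.integral_ofReal
      rw [intervalIntegral.integral_mul_const, hid, integral_id]
      simp
      ring
    · apply Continuous.intervalIntegrable; fun_prop
    · apply ContinuousOn.intervalIntegrable
      rwa [uIcc_of_le ha0]
  have hsplit : ∫ x in Ioi (0 : ℝ), Complex.log (Zf c s x) =
      (∫ x in (0 : ℝ)..a, Complex.log (Zf c s x)) + ∫ x in Ioi a, Complex.log (Zf c s x) := by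
    have hi := integrable_log c s (by rw [hsre]; exact ht) 0 hne
    rw [intervalIntegral.integral_interval_add_Ioi hi (hi.mono_set (Ioi_subset_Ioi ha0))]
  have hsum := (hT.add hH)
  have h7 := ((sumcos_alt (φ * a) (hφ.trans (by linarith [Real.pi_gt_three]))).mul_left (-2 : ℝ)).sub
    (hasSum_Dl (1 / c) (by rw [abs_of_pos (by positivity), div_le_one hcpos]; exact hc1))
  have h8 : HasSum (fun n : ℕ => (((-1 : ℝ) ^ (n + 1) * (2 * Real.cos (n * (φ * a)) - (1 / c) ^ n)
      / (n : ℝ) ^ 2 : ℝ) : ℂ) * s⁻¹)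
      (((-2 * ((φ * a) ^ 2 / 4 - Real.pi ^ 2 / 12) - Dl (1 / c) : ℝ) : ℂ) * s⁻¹) := by
    apply HasSum.mul_right
    rw [Complex.hasSum_ofReal]
    convert! h7 using 1
    ext n
    ring
  have h9 : (∫ x in Ioi a, Complex.log (1 + (c : ℂ) * Complex.exp (-(x * s)))) +
      (∫ x in (0 : ℝ)..a, Complex.log (1 + ((1 / c : ℝ) : ℂ) * Complex.exp (x * s))) =
      ((-2 * ((φ * a) ^ 2 / 4 - Real.pi ^ 2 / 12) - Dl (1 / c) : ℝ) : ℂ) * s⁻¹ := by
    refine hsum.unique ?_
    convert! h8 using 1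
    ext n
    exact term_eq c L t φ hc ht n
  rw [hsplit, hHead]
  have h10 : ∫ x in Ioi a, Complex.log (Zf c s x) =
    ∫ x in Ioi a, Complex.log (1 + (c : ℂ) * Complex.exp (-(x * s))) := rfl
  rw [h10, add_assoc, add_comm (∫ x in (0 : ℝ)..a, Complex.log (1 + ((1 / c : ℝ) : ℂ) * Complex.exp (x * s))),
    h9]
  have h11 : (a : ℂ) * s = L - (φ * a) * Complex.I := by
    apply Complex.ext
    · simp [hs, hat]
    · simp [hs]; ring
  rw [div_eq_mul_inv _ s]
  have hss : s * s⁻¹ = 1 := mul_inv_cancel₀ hs0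
  have h12 : (L : ℂ) * a - s * a ^ 2 / 2 = (L * (a * s) - (a * s) ^ 2 / 2) * s⁻¹ := by
    linear_combination (-(L : ℂ) * a + s * a ^ 2 / 2) * hss
  rw [h12, h11]
  push_cast
  linear_combination (-(φ : ℂ) ^ 2 * a ^ 2 / 2 * s⁻¹) * Complex.I_sq

end Pool.Agent.Helper10.Miss
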