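import Pool.Agent.Helper10.Miss.KronDefs

set_option autoImplicit false

namespace Pool.Agent.Helper10.Miss

set_option maxRecDepth 100000 in
theorem big : chk 712 20000 200 142 35 3 = true := by decide +kernel

end Pool.Agent.Helper10.Miss
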