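import Mathlib.Data.Nat.Basic

set_option autoImplicit false

/-! Kernel-friendly arithmetic: Kronecker substitution `q ↦ 2^b`. -/

namespace Pool.Agent.Helper10.Miss

def Gk (b e K : Nat) : Nat :=
  Nat.div (Nat.sub (Nat.pow 2 (Nat.mul (Nat.mul b e) (Nat.add (Nat.div K e) 1))) 1) (Nat.sub (Nat.pow 2 (Nat.mul b e)) 1)

def nxt (b c : Nat) (neg : Bool) (e K U : Nat) : Nat :=
  bif neg then Nat.sub (Nat.pow 2 (Nat.mul b K)) (Nat.mod (Nat.mul (Nat.mul U c) (Gk b e K)) (Nat.pow 2 (Nat.mul b K)))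
  else Nat.mod (Nat.mul (Nat.mul U c) (Gk b e K)) (Nat.pow 2 (Nat.mul b K))

def lp (b d c : Nat) (neg : Bool) : Nat → Nat → Nat → Nat → Nat → Nat → Nat
  | 0, _, _, _, _, S => S
  | f + 1, k, K, sh, U, S =>
    lp b d c neg f (Nat.add k 1) (Nat.sub K (Nat.add (Nat.mul d k) 1)) (Nat.add sh (Nat.mul b (Nat.add (Nat.mul d k) 1)))
      (nxt b c neg (Nat.mul d (Nat.add k 1)) (Nat.sub K (Nat.add (Nat.mul d k) 1)) U)
      (Nat.add S (Nat.shiftLeft (nxt b c neg (Nat.mul d (Nat.add k 1)) (Nat.sub K (Nat.add (Nat.mul d k) 1)) U)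
        (Nat.add sh (Nat.mul b (Nat.add (Nat.mul d k) 1)))))

def geo (b m : Nat) : Nat := Nat.div (Nat.sub (Nat.pow 2 (Nat.mul b m)) 1) (Nat.sub (Nat.pow 2 b) 1)

/-- the number whose base `2^b` digits are checked -/
def dig (b N fA fB z s : Nat) : Nat :=
  Nat.mod (Nat.add (Nat.mul (lp b 1 2 false fA 0 (Nat.add N 1) 0 1 1) (lp b 2 1 true fB 0 (Nat.add N 1) 0 1 1))
    (Nat.add (Nat.mul s (geo b z)) (Nat.sub (Nat.pow 2 (Nat.mul b (Nat.add N 1))) (Nat.shiftLeft (geo b (Nat.sub (Nat.add N 1) z)) (Nat.mul b z)))))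
    (Nat.pow 2 (Nat.mul b (Nat.add N 1)))

def chk (b N fA fB z s : Nat) : Bool :=
  Nat.beq (Nat.land (dig b N fA fB z s) (Nat.shiftLeft (geo b (Nat.add N 1)) (Nat.sub b 1))) 0

end Pool.Agent.Helper10.Miss
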