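import Pool.Agent.Helper10.Miss.KronRing
import Pool.Agent.Helper10.Miss.Fourier

set_option autoImplicit false

namespace Pool.Agent.Helper10.Miss

theorem digits (b : ℕ) (hb : 1 ≤ b) : ∀ (N : ℕ) (d : ℕ → ℤ) (D : ℕ),
    (∀ i, i < N → |d i| < 2 ^ (b - 1)) →
    (((2 : ℤ) ^ (b * N)) ∣ (D : ℤ) - ∑ i ∈ Finset.range N, d i * 2 ^ (b * i)) →
    (∀ i, i < N → D.testBit (b * i + (b - 1)) = false) → ∀ i, i < N → 0 ≤ d i := by
  intro N
  induction N with
  | zero => intro d D _ _ _ i hi; omega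
  | succ N ih =>
    intro d D hd hdvd hbit
    obtain ⟨b', rfl⟩ := Nat.exists_eq_add_of_le' hb
    rw [Nat.add_sub_cancel] at hd hbit
    have hmod : D % 2 ^ (b' + 1) < 2 ^ b' := by
      have h0 := hbit 0 (by omega)
      rw [mul_zero, zero_add] at h0
      have h1 : D % 2 ^ (b' + 1) = D % 2 ^ b' := by
        rw [Nat.testBit_eq_decide_div_mod_eq] at h0
        have h2 : D / 2 ^ b' % 2 = 0 := by
          have := of_decide_eq_false h0
          omega
        rw [pow_succ, Nat.mod_mul, h2]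
        simp
      rw [h1]
      exact Nat.mod_lt _ (by positivity)
    have hsum : ∑ i ∈ Finset.range (N + 1), d i * (2 : ℤ) ^ ((b' + 1) * i) =
        d 0 + 2 ^ (b' + 1) * ∑ i ∈ Finset.range N, d (i + 1) * (2 : ℤ) ^ ((b' + 1) * i) := by
      rw [Finset.sum_range_succ', Finset.mul_sum]
      simp only [mul_zero, pow_zero, mul_one]
      rw [add_comm]
      congr 1
      apply Finset.sum_congr rfl
      intro i _
      rw [Nat.mul_succ, pow_add]
      ring
    have hD : (D : ℤ) = (D % 2 ^ (b' + 1) : ℕ) + 2 ^ (b' + 1) * (D / 2 ^ (b' + 1) : ℕ) := by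
      have := Nat.mod_add_div D (2 ^ (b' + 1))
      exact_mod_cast this.symm
    rw [hsum] at hdvd
    have hd0 : (2 : ℤ) ^ (b' + 1) ∣ (D % 2 ^ (b' + 1) : ℕ) - d 0 := by
      have h1 : (2 : ℤ) ^ (b' + 1) ∣ (2 : ℤ) ^ ((b' + 1) * (N + 1)) := by
        apply pow_dvd_pow
        nlinarith
      have h2 := h1.trans hdvd
      have h3 : (D : ℤ) - (d 0 + 2 ^ (b' + 1) * ∑ i ∈ Finset.range N, d (i + 1) * (2 : ℤ) ^ ((b' + 1) * i)) =
          ((D % 2 ^ (b' + 1) : ℕ) - d 0) + 2 ^ (b' + 1) * ((D / 2 ^ (b' + 1) : ℕ) -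
            ∑ i ∈ Finset.range N, d (i + 1) * (2 : ℤ) ^ ((b' + 1) * i)) := by
        nth_rewrite 1 [hD]
        ring
      rw [h3] at h2
      exact (dvd_add_left (dvd_mul_right _ _)).1 h2
    have hd0' := hd 0 (by omega)
    have heq : ((D % 2 ^ (b' + 1) : ℕ) : ℤ) = d 0 := by
      have h1 : ((D % 2 ^ (b' + 1) : ℕ) : ℤ) < 2 ^ b' := by exact_mod_cast hmod
      have h2 : (0 : ℤ) ≤ ((D % 2 ^ (b' + 1) : ℕ) : ℤ) := by positivity
      have h3 := abs_lt.1 hd0'
      have h4 : (2 : ℤ) ^ (b' + 1) = 2 * 2 ^ b' := by ring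
      have h5 : |((D % 2 ^ (b' + 1) : ℕ) : ℤ) - d 0| < 2 ^ (b' + 1) := by
        rw [h4, abs_lt]
        constructor <;> linarith [h3.1, h3.2]
      have h6 := Int.eq_zero_of_abs_lt_dvd hd0 h5
      linarith
    intro i hi
    rcases i with _ | i
    · rw [← heq]; positivity
    · apply ih (fun i => d (i + 1)) (D / 2 ^ (b' + 1)) (fun i hi => hd (i + 1) (by omega)) _ _ i (by omega)
      · have h3 : (D : ℤ) - (d 0 + 2 ^ (b' + 1) * ∑ i ∈ Finset.range N, d (i + 1) * (2 : ℤ) ^ ((b' + 1) * i)) =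
          2 ^ (b' + 1) * ((D / 2 ^ (b' + 1) : ℕ) -
            ∑ i ∈ Finset.range N, d (i + 1) * (2 : ℤ) ^ ((b' + 1) * i)) := by
          rw [← heq]
          nth_rewrite 1 [hD]
          ring
        rw [h3, Nat.mul_succ, pow_add, mul_comm ((2 : ℤ) ^ ((b' + 1) * N))] at hdvd
        exact (mul_dvd_mul_iff_left (by positivity)).1 hdvd
      · intro i hi
        rw [Nat.testBit_div_two_pow]
        have := hbit (i + 1) (by omega)
        rw [Nat.mul_succ] at this
        rw [Nat.add_sub_cancel]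
        rw [← this]
        congr 1
        ring

theorem mask_bit (b : ℕ) (hb : 1 ≤ b) : ∀ N i : ℕ, i < N →
    (∑ j ∈ Finset.range N, (2 ^ b) ^ j).testBit (b * i) = true := by
  intro N
  induction N with
  | zero => intro i hi; omega
  | succ N ih =>
    intro i hi
    rw [Finset.sum_range_succ, add_comm, ← pow_mul]
    rcases Nat.lt_succ_iff_lt_or_eq.1 hi with h | h
    · rw [Nat.testBit_two_pow_add_gt (Nat.mul_lt_mul_of_pos_left h hb)]
      exact ih i h
    · subst h
      rw [Nat.testBit_two_pow_add_eq]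
      have h1 : ∑ j ∈ Finset.range i, (2 ^ b) ^ j < 2 ^ (b * i) := by
        have h2 : 2 ≤ 2 ^ b := by
          calc 2 = 2 ^ 1 := by norm_num
            _ ≤ 2 ^ b := Nat.pow_le_pow_right (by norm_num) hb
        have := Nat.geomSum_lt (n := i) (s := Finset.range i) h2 (by simp)
        rwa [← pow_mul] at this
      rw [Nat.testBit_lt_two_pow h1]
      rfl

theorem land_bits (b N D : ℕ) (hb : 1 ≤ b)
    (h : Nat.land D (Nat.shiftLeft (geo b (N + 1)) (b - 1)) = 0) :
    ∀ i, i < N + 1 → D.testBit (b * i + (b - 1)) = false := by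
  intro i hi
  have h1 : (D &&& (geo b (N + 1) <<< (b - 1))).testBit (b * i + (b - 1)) = false := by
    have : D &&& (geo b (N + 1) <<< (b - 1)) = 0 := h
    rw [this]; simp
  rw [Nat.testBit_and, Nat.testBit_shiftLeft, geo_eq b (N + 1) hb, Nat.add_sub_cancel,
    mask_bit b hb (N + 1) i hi] at h1
  simpa using h1

theorem sum_pow_le (t : ℝ) (ht : 0 < t) (m : ℕ) : ∑ j ∈ Finset.range m, Real.exp (-t) ^ (j + 1) ≤ 1 / t := by
  set r := Real.exp (-t) with hr
  have hr0 : 0 < r := Real.exp_pos _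
  have hr1 : r < 1 := by rw [hr, Real.exp_lt_one_iff]; linarith
  have h7 : r ≤ 1 / (1 + t) := by
    rw [hr, Real.exp_neg, inv_eq_one_div]
    apply one_div_le_one_div_of_le (by linarith)
    linarith [Real.add_one_le_exp t]
  have h6 : (1 - r)⁻¹ ≤ (1 + t) / t := by
    rw [inv_le_comm₀ (by linarith) (by positivity), inv_div]
    have : t / (1 + t) = 1 - 1 / (1 + t) := by field_simp; ring
    linarith
  have h5 : ∑ i ∈ Finset.range m, r ^ i ≤ (1 - r)⁻¹ := by
    rw [← tsum_geometric_of_lt_one hr0.le hr1]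
    exact (summable_geometric_of_lt_one hr0.le hr1).sum_le_tsum _ (fun i _ => pow_nonneg hr0.le i)
  have h8 : ∑ j ∈ Finset.range m, r ^ (j + 1) = r * ∑ j ∈ Finset.range m, r ^ j := by
    rw [Finset.mul_sum]
    apply Finset.sum_congr rfl
    intro j _
    ring
  rw [h8]
  calc r * ∑ j ∈ Finset.range m, r ^ j ≤ 1 / (1 + t) * ((1 + t) / t) := by
        apply mul_le_mul h7 (h5.trans h6) (Finset.sum_nonneg fun i _ => by positivity) (by positivity)
    _ = _ := by field_simp

theorem norm_PK_le (K : ℕ) (t φ : ℝ) (ht : 0 < t) : ‖PK K (Complex.exp (-(sp t φ)))‖ ≤ Real.exp (3 / t) := by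
  unfold PK
  rw [norm_mul, norm_prod, norm_prod]
  set r := Real.exp (-t) with hr
  have hr0 : 0 < r := Real.exp_pos _
  have hr1 : r < 1 := by rw [hr, Real.exp_lt_one_iff]; linarith
  have h1 : ∏ j ∈ Finset.range (2 * K), ‖1 + 2 * Complex.exp (-(sp t φ)) ^ (j + 1)‖ ≤ Real.exp (2 / t) := by
    calc ∏ j ∈ Finset.range (2 * K), ‖1 + 2 * Complex.exp (-(sp t φ)) ^ (j + 1)‖ ≤
        ∏ j ∈ Finset.range (2 * K), Real.exp (2 * r ^ (j + 1)) := by
          apply Finset.prod_le_prod (fun _ _ => norm_nonneg _)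
          intro j _
          refine (norm_add_le _ _).trans ?_
          rw [norm_mul, norm_pow, norm_exp_sp, norm_one, Complex.norm_ofNat]
          have := Real.add_one_le_exp (2 * r ^ (j + 1))
          linarith
      _ = Real.exp (2 * ∑ j ∈ Finset.range (2 * K), r ^ (j + 1)) := by
          rw [← Real.exp_sum, Finset.mul_sum]
      _ ≤ _ := by
          apply Real.exp_le_exp.2
          have := sum_pow_le t ht (2 * K)
          have e : 2 / t = 2 * (1 / t) := by ring
          rw [e]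
          exact mul_le_mul_of_nonneg_left this (by norm_num)
  have h2 : ∏ j ∈ Finset.range K, ‖1 - Complex.exp (-(sp t φ)) ^ (2 * j + 1)‖ ≤ Real.exp (1 / t) := by
    calc ∏ j ∈ Finset.range K, ‖1 - Complex.exp (-(sp t φ)) ^ (2 * j + 1)‖ ≤
        ∏ j ∈ Finset.range K, Real.exp (r ^ (j + 1)) := by
          apply Finset.prod_le_prod (fun _ _ => norm_nonneg _)
          intro j _
          refine (norm_sub_le _ _).trans ?_
          rw [norm_pow, norm_exp_sp, norm_one]
          have h3 := Real.add_one_le_exp (r ^ (j + 1))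
          have h4 : Real.exp (-t) ^ (2 * j + 1) ≤ r ^ (j + 1) := pow_le_pow_of_le_one hr0.le hr1.le (by omega)
          linarith
      _ = Real.exp (∑ j ∈ Finset.range K, r ^ (j + 1)) := by
          rw [← Real.exp_sum]
      _ ≤ _ := by
          apply Real.exp_le_exp.2
          exact sum_pow_le t ht K
  calc (∏ j ∈ Finset.range (2 * K), ‖1 + 2 * Complex.exp (-(sp t φ)) ^ (j + 1)‖) *
      ∏ j ∈ Finset.range K, ‖1 - Complex.exp (-(sp t φ)) ^ (2 * j + 1)‖ ≤ Real.exp (2 / t) * Real.exp (1 / t) :=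
        mul_le_mul h1 h2 (Finset.prod_nonneg fun _ _ => norm_nonneg _) (Real.exp_pos _).le
    _ = _ := by rw [← Real.exp_add]; congr 1; ring

theorem coeff_bound (K i : ℕ) (t : ℝ) (ht : 0 < t) : |((PP K).coeff i : ℝ)| ≤ Real.exp (i * t + 3 / t) := by
  have hf := fourier (PP K) i t
  have h1 : ‖∫ φ in (0 : ℝ)..Real.pi, ((Polynomial.aeval (Complex.exp (-(sp t φ))) (PP K)) *
      Complex.exp (((-((i : ℝ) * φ) : ℝ) : ℂ) * Complex.I)).re‖ ≤ Real.exp (3 / t) * |Real.pi - 0| := by
    apply intervalIntegral.norm_integral_le_of_norm_le_const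
    intro φ _
    rw [Real.norm_eq_abs]
    refine (Complex.abs_re_le_norm _).trans ?_
    rw [norm_mul, Complex.norm_exp_ofReal_mul_I, mul_one, aeval_PP]
    exact norm_PK_le K t φ ht
  rw [hf, Real.norm_eq_abs, abs_mul, abs_mul, sub_zero, abs_of_pos Real.pi_pos, abs_of_pos (Real.exp_pos _)] at h1
  have hpi := Real.pi_pos
  have h2 : |((PP K).coeff i : ℝ)| * Real.exp (-(i * t)) ≤ Real.exp (3 / t) := by
    have : Real.pi * (|((PP K).coeff i : ℝ)| * Real.exp (-(i * t))) ≤ Real.pi * Real.exp (3 / t) := by linarith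
    exact le_of_mul_le_mul_left this hpi
  rw [Real.exp_add]
  calc |((PP K).coeff i : ℝ)| = (|((PP K).coeff i : ℝ)| * Real.exp (-(i * t))) * Real.exp (i * t) := by
        rw [mul_assoc, ← Real.exp_add]; simp
    _ ≤ Real.exp (3 / t) * Real.exp (i * t) := mul_le_mul_of_nonneg_right h2 (Real.exp_pos _).le
    _ = _ := mul_comm _ _

end Pool.Agent.Helper10.Miss
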