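import Pool.Agent.Helper10.Miss.KronSound
import Pool.Agent.Helper10.Miss.KronCheck

set_option autoImplicit false

namespace Pool.Agent.Helper10.Miss

theorem PP_small (i : ℕ) (h1 : 35 ≤ i) (h2 : i ≤ 20000) : 0 < (PP 20000).coeff i := by
  have hA : 20000 + 1 ≤ (200 + 1) + 1 * (200 * (200 + 1) / 2) := by norm_num
  have hB : 20000 + 1 ≤ (142 + 1) + 2 * (142 * (142 + 1) / 2) := by norm_num
  exact chk_sound 712 20000 200 142 35 3 20000 (by norm_num) (by norm_num) (by norm_num) hA hB
    (fun i hi => coeff_small 20000 i (by omega)) big i h1 (by omega)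

end Pool.Agent.Helper10.Miss
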