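import Mathlib
import Pool.Agent.Helper10.Miss.KronDefs

set_option autoImplicit false

namespace Pool.Agent.Helper10.Miss

section ring

variable {R : Type*} [CommRing R]

theorem euler_step (y Q : R) (T : ℕ → R) (hT : ∀ k, T (k + 1) * (1 - Q ^ (k + 1)) = y * Q ^ k * T k)
    (L : ℕ) (hL : T (L + 1) = 0) (m : ℕ) :
    ∑ k ∈ Finset.range (L + 1), Q ^ (m * k) * T k =
      (1 + y * Q ^ m) * ∑ k ∈ Finset.range (L + 1), Q ^ ((m + 1) * k) * T k := by
  have h1 : ∀ n : ℕ, (1 + y * Q ^ m) * ∑ k ∈ Finset.range (n + 1), Q ^ ((m + 1) * k) * T k =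
      (∑ k ∈ Finset.range (n + 1), Q ^ (m * k) * T k) + Q ^ (m * (n + 1)) * (T (n + 1) * (1 - Q ^ (n + 1))) := by
    intro n
    induction n with
    | zero =>
      have := hT 0
      simp only [zero_add, Finset.sum_range_one, mul_zero, pow_zero, one_mul, mul_one, pow_one] at this ⊢
      rw [this]; ring
    | succ n ih =>
      rw [Finset.sum_range_succ, mul_add, ih, Finset.sum_range_succ _ (n + 1), hT (n + 1)]
      ring
  rw [h1 L, hL]
  ring

theorem euler_prod (y Q : R) (T : ℕ → R) (hT0 : T 0 = 1)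
    (hT : ∀ k, T (k + 1) * (1 - Q ^ (k + 1)) = y * Q ^ k * T k)
    (L : ℕ) (hL : T (L + 1) = 0) (M : ℕ) (hM : Q ^ M = 0) :
    ∑ k ∈ Finset.range (L + 1), T k = ∏ i ∈ Finset.range M, (1 + y * Q ^ i) := by
  have h1 : ∀ m : ℕ, ∑ k ∈ Finset.range (L + 1), T k =
      (∏ i ∈ Finset.range m, (1 + y * Q ^ i)) * ∑ k ∈ Finset.range (L + 1), Q ^ (m * k) * T k := by
    intro m
    induction m with
    | zero => simp
    | succ m ih =>
      rw [ih, euler_step y Q T hT L hL m, Finset.prod_range_succ]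
      ring
  rw [h1 M]
  have h2 : ∑ k ∈ Finset.range (L + 1), Q ^ (M * k) * T k = 1 := by
    rw [Finset.sum_range_succ']
    rw [Finset.sum_eq_zero]
    · simp [hT0]
    · intro k _
      rw [pow_mul, hM, zero_pow (by omega), zero_mul]
  rw [h2, mul_one]

theorem geo_eq (b m : ℕ) (hb : 1 ≤ b) : geo b m = ∑ i ∈ Finset.range m, (2 ^ b) ^ i := by
  have h2 : 2 ≤ 2 ^ b := by
    calc 2 = 2 ^ 1 := by norm_num
      _ ≤ 2 ^ b := Nat.pow_le_pow_right (by norm_num) hb
  rw [Nat.geomSum_eq h2, ← pow_mul]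
  rfl

theorem Gk_eq (b e K : ℕ) (hb : 1 ≤ b) (he : 1 ≤ e) : Gk b e K = ∑ i ∈ Finset.range (K / e + 1), (2 ^ (b * e)) ^ i := by
  have h2 : 2 ≤ 2 ^ (b * e) := by
    calc 2 = 2 ^ 1 := by norm_num
      _ ≤ 2 ^ (b * e) := Nat.pow_le_pow_right (by norm_num) (Nat.mul_pos hb he)
  rw [Nat.geomSum_eq h2, ← pow_mul]
  rfl

theorem mod_cast_zero (a m sh : ℕ) (h : (2 : R) ^ sh * (2 : R) ^ m = 0) :
    (2 : R) ^ sh * ((a % 2 ^ m : ℕ) : R) = 2 ^ sh * (a : R) := by
  have h1 : ((a % 2 ^ m + 2 ^ m * (a / 2 ^ m) : ℕ) : R) = (a : R) := by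
    rw [Nat.mod_add_div]
  rw [← h1]
  push_cast
  rw [mul_add, ← mul_assoc (2 ^ sh : R) (2 ^ m), h]
  ring

theorem nxt_spec (b c : ℕ) (neg : Bool) (e K U sh B : ℕ) (hb : 1 ≤ b) (he : 1 ≤ e)
    (hR : (2 : R) ^ B = 0) (hB : B ≤ sh + b * K) :
    (2 : R) ^ sh * ((nxt b c neg e K U : ℕ) : R) * (1 - ((2 : R) ^ b) ^ e) =
      2 ^ sh * ((if neg then -(c : R) else (c : R)) * (U : R)) := by
  have h0 : ∀ m, B ≤ m → (2 : R) ^ m = 0 := by
    intro m hm
    obtain ⟨k, rfl⟩ := Nat.exists_eq_add_of_le hm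
    rw [pow_add, hR, zero_mul]
  have hz : (2 : R) ^ sh * (2 : R) ^ (b * K) = 0 := by
    rw [← pow_add]; exact h0 _ hB
  have hG : ((Gk b e K : ℕ) : R) * (1 - ((2 : R) ^ b) ^ e) = 1 - ((2 : R) ^ (b * e)) ^ (K / e + 1) := by
    rw [Gk_eq b e K hb he]
    push_cast
    rw [← pow_mul, geom_sum_mul_neg]
  have hz2 : (2 : R) ^ sh * ((2 : R) ^ (b * e)) ^ (K / e + 1) = 0 := by
    rw [← pow_mul, ← pow_add]
    apply h0
    refine hB.trans (Nat.add_le_add_left ?_ _)
    have : K ≤ e * (K / e + 1) := (Nat.lt_mul_div_succ K (by omega)).le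
    calc b * K ≤ b * (e * (K / e + 1)) := Nat.mul_le_mul_left _ this
      _ = _ := by ring
  have hv : (2 : R) ^ sh * ((U * c * Gk b e K : ℕ) : R) * (1 - ((2 : R) ^ b) ^ e) = 2 ^ sh * ((c : R) * (U : R)) := by
    push_cast
    calc (2 : R) ^ sh * ((U : R) * (c : R) * ((Gk b e K : ℕ) : R)) * (1 - ((2 : R) ^ b) ^ e) =
        (2 ^ sh * ((U : R) * (c : R))) * (((Gk b e K : ℕ) : R) * (1 - ((2 : R) ^ b) ^ e)) := by ring
      _ = 2 ^ sh * ((c : R) * (U : R)) - ((2 : R) ^ sh * ((2 : R) ^ (b * e)) ^ (K / e + 1)) * ((U : R) * (c : R)) := by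
        rw [hG]; ring
      _ = _ := by rw [hz2]; ring
  cases neg with
  | false =>
    have e1 : nxt b c false e K U = (U * c * Gk b e K) % 2 ^ (b * K) := rfl
    rw [e1, mod_cast_zero _ _ _ hz, hv]
    simp
  | true =>
    have e1 : nxt b c true e K U = 2 ^ (b * K) - (U * c * Gk b e K) % 2 ^ (b * K) := rfl
    rw [e1, Nat.cast_sub (Nat.mod_lt _ (by positivity)).le, mul_sub ((2 : R) ^ sh), mod_cast_zero _ _ _ hz, sub_mul, hv]
    push_cast
    rw [hz]
    simp

theorem lp_spec (b N d c : ℕ) (neg : Bool) (hb : 1 ≤ b) (hd : 1 ≤ d) (hR : (2 : R) ^ (b * (N + 1)) = 0)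
    (T : ℕ → R)
    (hT : ∀ k, T (k + 1) * (1 - ((2 : R) ^ b) ^ (d * (k + 1))) =
      (if neg then -(c : R) else (c : R)) * ((2 : R) ^ b) ^ (d * k + 1) * T k)
    (hunit : ∀ k, IsUnit (1 - ((2 : R) ^ b) ^ (d * (k + 1)))) :
    ∀ (f k K sh U S e : ℕ), sh = b * e → N + 1 ≤ e + K → (2 : R) ^ sh * (U : R) = T k →
      (S : R) = ∑ j ∈ Finset.range (k + 1), T j →
      ((lp b d c neg f k K sh U S : ℕ) : R) = ∑ j ∈ Finset.range (k + f + 1), T j := by
  intro f
  induction f with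
  | zero =>
    intro k K sh U S e _ _ _ hS
    simpa [lp] using hS
  | succ f ih =>
    intro k K sh U S e hsh hK hU hS
    have e1 : lp b d c neg (f + 1) k K sh U S =
        lp b d c neg f (k + 1) (K - (d * k + 1)) (sh + b * (d * k + 1))
          (nxt b c neg (d * (k + 1)) (K - (d * k + 1)) U)
          (S + Nat.shiftLeft (nxt b c neg (d * (k + 1)) (K - (d * k + 1)) U) (sh + b * (d * k + 1))) := rfl
    rw [e1]
    have hU' : (2 : R) ^ (sh + b * (d * k + 1)) * ((nxt b c neg (d * (k + 1)) (K - (d * k + 1)) U : ℕ) : R) = T (k + 1) := by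
      apply (hunit k).mul_right_cancel
      rw [nxt_spec (R := R) b c neg (d * (k + 1)) (K - (d * k + 1)) U (sh + b * (d * k + 1)) (b * (N + 1)) hb
        (Nat.mul_pos hd (by omega)) hR ?_]
      · rw [hT k, ← hU, pow_add, pow_mul (2 : R) b (d * k + 1)]
        ring
      · rw [hsh, ← Nat.mul_add, ← Nat.mul_add]
        apply Nat.mul_le_mul_left
        omega
    have h2 := ih (k + 1) (K - (d * k + 1)) (sh + b * (d * k + 1))
      (nxt b c neg (d * (k + 1)) (K - (d * k + 1)) U)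
      (S + Nat.shiftLeft (nxt b c neg (d * (k + 1)) (K - (d * k + 1)) U) (sh + b * (d * k + 1)))
      (e + (d * k + 1)) (by rw [hsh]; ring) (by omega) hU' (by
        rw [Nat.cast_add, hS, Finset.sum_range_succ _ (k + 1), ← hU']
        have e2 : Nat.shiftLeft (nxt b c neg (d * (k + 1)) (K - (d * k + 1)) U) (sh + b * (d * k + 1)) =
            nxt b c neg (d * (k + 1)) (K - (d * k + 1)) U * 2 ^ (sh + b * (d * k + 1)) := Nat.shiftLeft_eq _ _
        rw [e2]
        push_cast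
        ring)
    rw [h2]
    congr 2
    ring

/-- The computed number represents the product. -/
theorem lp_prod (b N d c : ℕ) (neg : Bool) (hb : 1 ≤ b) (hd : 1 ≤ d) (hR : (2 : R) ^ (b * (N + 1)) = 0)
    (f M : ℕ) (hf : N + 1 ≤ (f + 1) + d * (f * (f + 1) / 2)) (hM : N + 1 ≤ d * M) :
    ((lp b d c neg f 0 (N + 1) 0 1 1 : ℕ) : R) =
      ∏ i ∈ Finset.range M, (1 + (if neg then -(c : R) else (c : R)) * ((2 : R) ^ b) ^ (d * i + 1)) := by
  set X : R := (2 : R) ^ b with hX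
  have hXN : ∀ m, N + 1 ≤ m → X ^ m = 0 := by
    intro m hm
    obtain ⟨k, rfl⟩ := Nat.exists_eq_add_of_le hm
    rw [hX, ← pow_mul, mul_add, pow_add, hR, zero_mul]
  have hunit : ∀ k, IsUnit (1 - X ^ (d * (k + 1))) := by
    intro k
    apply IsNilpotent.isUnit_one_sub
    refine ⟨N + 1, ?_⟩
    rw [← pow_mul]
    apply hXN
    have : 1 ≤ d * (k + 1) := Nat.mul_pos hd (by omega)
    nlinarith
  set c' : R := (if neg then -(c : R) else (c : R)) with hc'
  let T : ℕ → R := fun k => Nat.rec 1 (fun k t => c' * X ^ (d * k + 1) * t * Ring.inverse (1 - X ^ (d * (k + 1)))) k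
  have hT0 : T 0 = 1 := rfl
  have hTs : ∀ k, T (k + 1) = c' * X ^ (d * k + 1) * T k * Ring.inverse (1 - X ^ (d * (k + 1))) := fun k => rfl
  have hT : ∀ k, T (k + 1) * (1 - X ^ (d * (k + 1))) = c' * X ^ (d * k + 1) * T k := by
    intro k
    rw [hTs, mul_assoc, Ring.inverse_mul_cancel _ (hunit k), mul_one]
  have hspec := lp_spec (R := R) b N d c neg hb hd hR T hT hunit f 0 (N + 1) 0 1 1 0 (by simp) (by omega)
    (by simp [hT0]) (by simp [hT0])
  rw [hspec, zero_add]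
  have hw : ∀ k, ∃ w, T k = X ^ (k + d * (k * (k - 1) / 2)) * w := by
    intro k
    induction k with
    | zero => exact ⟨1, by simp [hT0]⟩
    | succ k ih =>
      obtain ⟨w, hw⟩ := ih
      refine ⟨c' * w * Ring.inverse (1 - X ^ (d * (k + 1))), ?_⟩
      rw [hTs, hw]
      have e : k + 1 + d * ((k + 1) * (k + 1 - 1) / 2) = (d * k + 1) + (k + d * (k * (k - 1) / 2)) := by
        have h1 : (k + 1) * (k + 1 - 1) / 2 = k + k * (k - 1) / 2 := by
          rw [Nat.add_sub_cancel]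
          rcases k with _ | k
          · rfl
          · rw [Nat.add_sub_cancel]
            have : (k + 1 + 1) * (k + 1) = (k + 1) * k + (k + 1) * 2 := by ring
            rw [this, Nat.add_mul_div_right _ _ (by norm_num)]
            ring
        rw [h1]; ring
      rw [e, pow_add]
      ring
  have hTL : T (f + 1) = 0 := by
    obtain ⟨w, hw⟩ := hw (f + 1)
    rw [hw, hXN, zero_mul]
    rw [Nat.add_sub_cancel, mul_comm (f + 1) f]
    exact hf
  rw [euler_prod (c' * X) (X ^ d) T hT0 (fun k => by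
    rw [← pow_mul X d (k + 1), hT k, ← pow_mul X d k, pow_succ X]; ring) f hTL M (by rw [← pow_mul]; exact hXN _ hM)]
  apply Finset.prod_congr rfl
  intro i _
  rw [← pow_mul X d i, pow_succ X]
  ring

end ring

end Pool.Agent.Helper10.Miss
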