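import Pool.Agent.Helper10.Miss.KronDigits

set_option autoImplicit false

namespace Pool.Agent.Helper10.Miss

theorem eval2_PP {R : Type*} [CommRing R] (K : ℕ) (x : R) : (PP K).eval₂ (Int.castRingHom R) x =
    (∏ j ∈ Finset.range (2 * K), (1 + 2 * x ^ (j + 1))) * ∏ i ∈ Finset.range K, (1 - x ^ (2 * i + 1)) := by
  unfold PP
  simp [Polynomial.eval₂_mul, Polynomial.eval₂_finsetProd, Polynomial.eval₂_add, Polynomial.eval₂_pow,
    Polynomial.eval₂_sub]

theorem eval2_trunc {R : Type*} [CommRing R] (p : Polynomial ℤ) (x : R) (N : ℕ) (hx : x ^ (N + 1) = 0) :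
    p.eval₂ (Int.castRingHom R) x = ∑ i ∈ Finset.range (N + 1), ((p.coeff i : ℤ) : R) * x ^ i := by
  rw [Polynomial.eval₂_eq_sum_range' (n := p.natDegree + (N + 1) + 1) _ (by omega)]
  rw [show p.natDegree + (N + 1) + 1 = (N + 1) + (p.natDegree + 1) by ring, Finset.sum_range_add]
  rw [Finset.sum_eq_zero (s := Finset.range (p.natDegree + 1)), add_zero]
  · rfl
  · intro i _
    rw [pow_add, hx]
    simp

theorem geo_le (b N z : ℕ) (hb : 1 ≤ b) (hz : z ≤ N + 1) :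
    geo b (N + 1 - z) * 2 ^ (b * z) ≤ 2 ^ (b * (N + 1)) := by
  rw [geo_eq b _ hb]
  have h22 : 2 ≤ 2 ^ b := by
    calc 2 = 2 ^ 1 := by norm_num
      _ ≤ 2 ^ b := Nat.pow_le_pow_right (by norm_num) hb
  have := Nat.geomSum_lt (n := N + 1 - z) (s := Finset.range (N + 1 - z)) h22 (by simp)
  calc (∑ i ∈ Finset.range (N + 1 - z), (2 ^ b) ^ i) * 2 ^ (b * z) ≤ (2 ^ b) ^ (N + 1 - z) * 2 ^ (b * z) :=
        Nat.mul_le_mul_right _ this.le
    _ = 2 ^ (b * (N + 1)) := by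
        rw [← pow_mul, ← pow_add, ← Nat.mul_add]
        congr 2
        omega

theorem sum_const_split {R : Type*} [CommRing R] (x : R) (s z m : ℕ) :
    ∑ i ∈ Finset.range (z + m), (((if i < z then (s : ℤ) else -1) : ℤ) : R) * x ^ i =
      (s : R) * (∑ i ∈ Finset.range z, x ^ i) - (∑ i ∈ Finset.range m, x ^ i) * x ^ z := by
  rw [Finset.sum_range_add, sub_eq_add_neg]
  congr 1
  · rw [Finset.mul_sum]
    apply Finset.sum_congr rfl
    intro i hi
    rw [if_pos (Finset.mem_range.1 hi)]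
    simp
  · rw [Finset.sum_mul, ← Finset.sum_neg_distrib]
    apply Finset.sum_congr rfl
    intro i hi
    rw [if_neg (by omega), pow_add]
    push_cast
    ring

theorem dig_eq {R : Type*} [CommRing R] (b N fA fB z s K : ℕ) (hb : 1 ≤ b) (hz : z ≤ N + 1) (hK : N + 1 ≤ 2 * K)
    (hA : N + 1 ≤ (fA + 1) + 1 * (fA * (fA + 1) / 2)) (hB : N + 1 ≤ (fB + 1) + 2 * (fB * (fB + 1) / 2))
    (hR : (2 : R) ^ (b * (N + 1)) = 0) :
    ((dig b N fA fB z s : ℕ) : R) = ∑ i ∈ Finset.range (N + 1),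
      (((PP K).coeff i + (if i < z then (s : ℤ) else -1) : ℤ) : R) * ((2 : R) ^ b) ^ i := by
  have hXN : ((2 : R) ^ b) ^ (N + 1) = 0 := by rw [← pow_mul]; exact hR
  have h1 := lp_prod (R := R) b N 1 2 false hb le_rfl hR fA (2 * K) hA (by omega)
  have h2 := lp_prod (R := R) b N 2 1 true hb (by omega) hR fB K hB hK
  have h3 := eval2_PP (R := R) K ((2 : R) ^ b)
  rw [eval2_trunc _ _ N hXN] at h3
  have hzN : z + (N + 1 - z) = N + 1 := by omega
  have hle := geo_le b N z hb hz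
  have e1 : dig b N fA fB z s = ((lp b 1 2 false fA 0 (N + 1) 0 1 1) * (lp b 2 1 true fB 0 (N + 1) 0 1 1) +
    (s * geo b z + (2 ^ (b * (N + 1)) - Nat.shiftLeft (geo b (N + 1 - z)) (b * z)))) % 2 ^ (b * (N + 1)) := rfl
  have e2 : Nat.shiftLeft (geo b (N + 1 - z)) (b * z) = geo b (N + 1 - z) * 2 ^ (b * z) := Nat.shiftLeft_eq _ _
  have e0 := mod_cast_zero (R := R) ((lp b 1 2 false fA 0 (N + 1) 0 1 1) * (lp b 2 1 true fB 0 (N + 1) 0 1 1) +
    (s * geo b z + (2 ^ (b * (N + 1)) - Nat.shiftLeft (geo b (N + 1 - z)) (b * z)))) (b * (N + 1)) 0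
    (by rw [hR, mul_zero])
  rw [pow_zero, one_mul, one_mul, ← e1] at e0
  rw [e0, e2, Nat.cast_add, Nat.cast_mul, h1, h2, Nat.cast_add, Nat.cast_sub hle,
    geo_eq b _ hb, geo_eq b _ hb]
  have e3 : (∏ i ∈ Finset.range (2 * K), (1 + (if false = true then -((2 : ℕ) : R) else ((2 : ℕ) : R)) * ((2 : R) ^ b) ^ (1 * i + 1))) *
      ∏ i ∈ Finset.range K, (1 + (if true = true then -((1 : ℕ) : R) else ((1 : ℕ) : R)) * ((2 : R) ^ b) ^ (2 * i + 1)) =
      ∑ i ∈ Finset.range (N + 1), (((PP K).coeff i : ℤ) : R) * ((2 : R) ^ b) ^ i := by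
    rw [h3]
    congr 1
    · apply Finset.prod_congr rfl
      intro i _
      rw [one_mul]
      simp
    · apply Finset.prod_congr rfl
      intro i _
      simp
      ring
  rw [e3]
  have e5 : ∑ i ∈ Finset.range (N + 1), (((PP K).coeff i + (if i < z then (s : ℤ) else -1) : ℤ) : R) * ((2 : R) ^ b) ^ i =
      (∑ i ∈ Finset.range (N + 1), (((PP K).coeff i : ℤ) : R) * ((2 : R) ^ b) ^ i) +
      ∑ i ∈ Finset.range (N + 1), (((if i < z then (s : ℤ) else -1) : ℤ) : R) * ((2 : R) ^ b) ^ i := by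
    rw [← Finset.sum_add_distrib]
    apply Finset.sum_congr rfl
    intro i _
    rw [Int.cast_add]
    ring
  have e6 := sum_const_split ((2 : R) ^ b) s z (N + 1 - z)
  rw [hzN] at e6
  rw [e5, e6, ← pow_mul (2 : R) b z]
  push_cast
  rw [hR]
  ring

theorem chk_sound (b N fA fB z s K : ℕ) (hb : 1 ≤ b) (hz : z ≤ N + 1) (hK : N + 1 ≤ 2 * K)
    (hA : N + 1 ≤ (fA + 1) + 1 * (fA * (fA + 1) / 2)) (hB : N + 1 ≤ (fB + 1) + 2 * (fB * (fB + 1) / 2))
    (hc : ∀ i, i < N + 1 → |(PP K).coeff i| + s + 1 < 2 ^ (b - 1))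
    (h : chk b N fA fB z s = true) : ∀ i, z ≤ i → i < N + 1 → 0 < (PP K).coeff i := by
  have hland : Nat.land (dig b N fA fB z s) (Nat.shiftLeft (geo b (N + 1)) (b - 1)) = 0 := Nat.eq_of_beq_eq_true h
  have hbits := land_bits b N _ hb hland
  have hR : (2 : ZMod (2 ^ (b * (N + 1)))) ^ (b * (N + 1)) = 0 := by
    have := ZMod.natCast_self (2 ^ (b * (N + 1)))
    push_cast at this
    exact this
  have hdig := dig_eq (R := ZMod (2 ^ (b * (N + 1)))) b N fA fB z s K hb hz hK hA hB hR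
  set d : ℕ → ℤ := fun i => (PP K).coeff i + (if i < z then (s : ℤ) else -1) with hd
  have hdvd : ((2 : ℤ) ^ (b * (N + 1))) ∣ ((dig b N fA fB z s : ℕ) : ℤ) -
      ∑ i ∈ Finset.range (N + 1), d i * 2 ^ (b * i) := by
    have h5 : (((∑ i ∈ Finset.range (N + 1), d i * 2 ^ (b * i) : ℤ)) : ZMod (2 ^ (b * (N + 1)))) =
        (((dig b N fA fB z s : ℕ) : ℤ) : ZMod (2 ^ (b * (N + 1)))) := by
      rw [Int.cast_natCast, hdig, Int.cast_sum]
      apply Finset.sum_congr rfl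
      intro i _
      rw [Int.cast_mul, Int.cast_pow, Int.cast_ofNat, ← pow_mul (2 : ZMod (2 ^ (b * (N + 1))))]
    have h6 := (ZMod.intCast_eq_intCast_iff_dvd_sub _ _ _).1 h5
    push_cast at h6
    exact h6
  have hfin := digits b hb (N + 1) d (dig b N fA fB z s) (by
    intro i hi
    have := hc i hi
    refine lt_of_le_of_lt ?_ this
    rw [hd]
    beta_reduce
    refine (abs_add_le _ _).trans ?_
    rw [add_assoc]
    apply add_le_add le_rfl
    split_ifs
    · rw [abs_of_nonneg (by positivity)]; linarith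
    · rw [abs_neg, abs_one]; have : (0 : ℤ) ≤ s := by positivity
      linarith) hdvd hbits
  intro i hzi hi
  have := hfin i hi
  rw [hd] at this
  simp only [if_neg (not_lt.2 hzi)] at this
  linarith

theorem coeff_small (K i : ℕ) (hi : i ≤ 20000) : |(PP K).coeff i| + (3 : ℕ) + 1 < 2 ^ (712 - 1) := by
  have h := coeff_bound K i (1 / 82) (by norm_num)
  have hi' : (i : ℝ) ≤ 20000 := by exact_mod_cast hi
  have h2 : Real.exp (i * (1 / 82) + 3 / (1 / 82)) ≤ 2 ^ 708 := by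
    have e : (2 : ℝ) ^ 708 = Real.exp (708 * Real.log 2) := by
      rw [mul_comm, Real.exp_mul, Real.exp_log (by norm_num)]
      norm_num
    rw [e]
    apply Real.exp_le_exp.2
    have h3 := Real.log_two_gt_d9
    norm_num at h3 ⊢
    linarith
  have h3 : ((|(PP K).coeff i| : ℤ) : ℝ) ≤ (((2 : ℤ) ^ 708 : ℤ) : ℝ) := by
    rw [Int.cast_abs, Int.cast_pow, Int.cast_ofNat]
    exact h.trans h2
  have h4 : |(PP K).coeff i| ≤ 2 ^ 708 := by
    have := Int.cast_le.1 h3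
    exact this
  have h5 : (2 : ℤ) ^ (712 - 1) = 8 * 2 ^ 708 := by
    rw [show 712 - 1 = 3 + 708 by norm_num, pow_add]
    norm_num
  have h6 : (1 : ℤ) ≤ 2 ^ 708 := one_le_pow₀ (by norm_num)
  rw [h5]
  generalize (2 : ℤ) ^ 708 = P at h4 h6 ⊢
  push_cast
  linarith

end Pool.Agent.Helper10.Miss
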