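import Mathlib

set_option autoImplicit false

namespace Pool.Agent.Helper10.Miss

open MeasureTheory intervalIntegral Set

variable {E : Type*} [NormedAddCommGroup E] [NormedSpace ℝ E] [CompleteSpace E]

/-- one interval of the trapezoidal rule -/
theorem trap_one (f f' f'' : ℝ → E) (a b C : ℝ) (hab : a ≤ b)
    (hm : AEStronglyMeasurable f volume)
    (hf : ∀ x ∈ Icc a b, HasDerivAt f (f' x) x) (hf' : ∀ x ∈ Icc a b, HasDerivAt f' (f'' x) x)
    (hC : ∀ x ∈ Icc a b, ‖f'' x‖ ≤ C) :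
    ‖((b - a) / 2) • (f a + f b) - ∫ x in a..b, f x‖ ≤ C * (b - a) ^ 3 / 12 := by
  have hcont : ContinuousOn f (Icc a b) := fun x hx => (hf x hx).continuousAt.continuousWithinAt
  -- g(t) = (t-a)/2 (f a + f t) - ∫_a^t f
  have hg : ∀ t ∈ Icc a b, HasDerivAt (fun t => ((t - a) / 2) • (f a + f t) - ∫ x in a..t, f x)
      ((1 / 2 : ℝ) • (f a + f t) + ((t - a) / 2) • f' t - f t) t := by
    intro t ht
    have h1 : HasDerivAt (fun t : ℝ => (t - a) / 2) (1 / 2) t := by
      simpa using ((hasDerivAt_id t).sub_const a).div_const 2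
    have h2 : HasDerivAt (fun t => f a + f t) (f' t) t := by
      simpa using (hf t ht).const_add (f a)
    have h3 := h1.smul h2
    have h4 : HasDerivAt (fun t => ∫ x in a..t, f x) (f t) t :=
      integral_hasDerivAt_right
        ((hcont.mono (by rw [uIcc_of_le ht.1]; exact Icc_subset_Icc le_rfl ht.2)).intervalIntegrable)
        (hm.stronglyMeasurableAtFilter) (hf t ht).continuousAt
    refine (h3.sub h4).congr_deriv ?_
    abel
  have hg' : ∀ t ∈ Icc a b, HasDerivAt (fun t => (1 / 2 : ℝ) • (f a + f t) + ((t - a) / 2) • f' t - f t)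
      (((t - a) / 2) • f'' t) t := by
    intro t ht
    have h1 : HasDerivAt (fun t : ℝ => (t - a) / 2) (1 / 2) t := by
      simpa using ((hasDerivAt_id t).sub_const a).div_const 2
    have h2 : HasDerivAt (fun t => f a + f t) (f' t) t := by
      simpa using (hf t ht).const_add (f a)
    have h3 := ((h2.const_smul (1 / 2 : ℝ)).add (h1.smul (hf' t ht))).sub (hf t ht)
    refine h3.congr_deriv ?_
    have : f' t = (1 / 2 : ℝ) • f' t + (1 / 2 : ℝ) • f' t := by
      rw [← add_smul]; norm_num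
    nth_rewrite 3 [this]
    abel
  have key : ∀ (φ φ' : ℝ → E), (∀ x ∈ Icc a b, HasDerivAt φ (φ' x) x) → φ a = 0 → ∀ (c : ℝ) (n : ℕ),
      (∀ t ∈ Icc a b, ‖φ' t‖ ≤ c * (t - a) ^ n) →
      ∀ t ∈ Icc a b, ‖φ t‖ ≤ c / (n + 1) * (t - a) ^ (n + 1) := by
    intro φ φ' h h0 c n hb t ht
    have hB (x : ℝ) : HasDerivAt (fun y => c / (n + 1) * (y - a) ^ (n + 1)) (c * (x - a) ^ n) x := by
      refine ((((hasDerivAt_id x).sub_const a).pow (n + 1)).const_mul (c / (n + 1))).congr_deriv ?_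
      have : (n : ℝ) + 1 ≠ 0 := by positivity
      simp only [id, Nat.add_sub_cancel, mul_one]
      push_cast
      field_simp
    simpa using image_norm_le_of_norm_deriv_right_le_deriv_boundary
      (fun x hx => (h x hx).continuousAt.continuousWithinAt)
      (fun x hx => (h x (Ico_subset_Icc_self hx)).hasDerivWithinAt)
      (by simp [h0]) hB (fun x hx => hb x (Ico_subset_Icc_self hx)) ht
  have b2 : ∀ t ∈ Icc a b, ‖((t - a) / 2) • f'' t‖ ≤ (C / 2) * (t - a) ^ 1 := by
    intro t ht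
    rw [norm_smul, Real.norm_eq_abs, abs_of_nonneg (by linarith [ht.1])]
    have := mul_le_mul_of_nonneg_left (hC t ht) (show 0 ≤ (t - a) / 2 by linarith [ht.1])
    nlinarith [this]
  have b1 := key _ _ hg' (by
    simp only [sub_self, zero_div, zero_smul, add_zero]
    rw [← two_smul ℝ (f a), smul_smul]
    norm_num) _ _ b2
  have b0 := key _ _ hg (by simp) _ _ b1 b ⟨hab, le_rfl⟩
  refine b0.trans (le_of_eq ?_)
  norm_num
  ring

/-- trapezoidal sum with step one, exponentially decaying second derivative -/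
theorem trap_sum (f f' f'' : ℝ → E) (K : ℕ) (M t : ℝ) (ht : 0 < t) (hM : 0 ≤ M)
    (hm : AEStronglyMeasurable f volume)
    (hf : ∀ x, 0 ≤ x → HasDerivAt f (f' x) x) (hf' : ∀ x, 0 ≤ x → HasDerivAt f' (f'' x) x)
    (hC : ∀ x, 0 ≤ x → ‖f'' x‖ ≤ M * Real.exp (-(t * x))) :
    ‖(∑ j ∈ Finset.range K, f ((j : ℝ) + 1)) + (1 / 2 : ℝ) • f 0 - (1 / 2 : ℝ) • f K
      - ∫ x in (0 : ℝ)..K, f x‖ ≤ M * (1 + t) / (12 * t) := by
  have hint : ∀ a b : ℝ, 0 ≤ a → a ≤ b → IntervalIntegrable f volume a b := by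
    intro a b ha hab
    apply ContinuousOn.intervalIntegrable
    rw [uIcc_of_le hab]
    exact fun x hx => (hf x (ha.trans hx.1)).continuousAt.continuousWithinAt
  have h1 : ∀ K : ℕ, ‖(∑ j ∈ Finset.range K, f ((j : ℝ) + 1)) + (1 / 2 : ℝ) • f 0 -
      (1 / 2 : ℝ) • f K - ∫ x in (0 : ℝ)..K, f x‖ ≤
      ∑ j ∈ Finset.range K, (M / 12) * Real.exp (-t) ^ j := by
    intro K
    induction K with
    | zero => simp
    | succ K ih =>
      rw [Finset.sum_range_succ, Finset.sum_range_succ]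
      have hK0 : (0 : ℝ) ≤ K := Nat.cast_nonneg K
      have h2 := trap_one f f' f'' K (K + 1) (M * Real.exp (-(t * K))) (by linarith) hm
        (fun x hx => hf x (hK0.trans hx.1)) (fun x hx => hf' x (hK0.trans hx.1)) (by
        intro x hx
        have hx0 : 0 ≤ x := le_trans (Nat.cast_nonneg K) hx.1
        refine (hC x hx0).trans ?_
        apply mul_le_mul_of_nonneg_left _ hM
        apply Real.exp_le_exp.2
        nlinarith [hx.1])
      have h3 : (∫ x in (0 : ℝ)..((K + 1 : ℕ) : ℝ), f x) =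
          (∫ x in (0 : ℝ)..K, f x) + ∫ x in (K : ℝ)..(K + 1), f x := by
        rw [intervalIntegral.integral_add_adjacent_intervals
          (hint _ _ le_rfl hK0) (hint _ _ hK0 (by linarith))]
        norm_num
      rw [h3]
      have h4 : (∑ x ∈ Finset.range K, f ((x : ℝ) + 1)) + f ((K : ℝ) + 1) + (1 / 2 : ℝ) • f 0 -
          (1 / 2 : ℝ) • f ((K + 1 : ℕ) : ℝ) -
          ((∫ x in (0 : ℝ)..K, f x) + ∫ x in (K : ℝ)..(K + 1), f x) =
          ((∑ j ∈ Finset.range K, f ((j : ℝ) + 1)) + (1 / 2 : ℝ) • f 0 -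
          (1 / 2 : ℝ) • f K - ∫ x in (0 : ℝ)..K, f x) +
          ((((K : ℝ) + 1 - K) / 2) • (f K + f (K + 1)) - ∫ x in (K : ℝ)..(K + 1), f x) := by
        have e1 : ((K + 1 : ℕ) : ℝ) = (K : ℝ) + 1 := by push_cast; ring
        have e2 : f ((K : ℝ) + 1) = (1 / 2 : ℝ) • f ((K : ℝ) + 1) + (1 / 2 : ℝ) • f ((K : ℝ) + 1) := by
          rw [← add_smul]; norm_num
        have e3 : ((K : ℝ) + 1 - K) / 2 = 1 / 2 := by ring
        rw [e1, e3, smul_add]
        nth_rewrite 1 [e2]
        abel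
      rw [h4]
      refine (norm_add_le _ _).trans (add_le_add ih (h2.trans (le_of_eq ?_)))
      have e4 : Real.exp (-(t * K)) = Real.exp (-t) ^ K := by
        rw [← Real.exp_nat_mul]; ring_nf
      rw [e4]
      ring
  refine (h1 K).trans ?_
  rw [← Finset.mul_sum]
  have hr0 : 0 ≤ Real.exp (-t) := (Real.exp_pos _).le
  have hr1 : Real.exp (-t) < 1 := by rw [Real.exp_lt_one_iff]; linarith
  have h5 : ∑ j ∈ Finset.range K, Real.exp (-t) ^ j ≤ (1 - Real.exp (-t))⁻¹ := by
    rw [← tsum_geometric_of_lt_one hr0 hr1]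
    exact (summable_geometric_of_lt_one hr0 hr1).sum_le_tsum _ (fun i _ => pow_nonneg hr0 i)
  have h6 : (1 - Real.exp (-t))⁻¹ ≤ (1 + t) / t := by
    rw [inv_le_comm₀ (by linarith) (by positivity), inv_div]
    have h7 : Real.exp (-t) ≤ 1 / (1 + t) := by
      rw [Real.exp_neg, inv_eq_one_div]
      apply one_div_le_one_div_of_le (by linarith)
      linarith [Real.add_one_le_exp t]
    have : t / (1 + t) = 1 - 1 / (1 + t) := by field_simp; ring
    linarith
  calc M / 12 * ∑ j ∈ Finset.range K, Real.exp (-t) ^ j ≤ M / 12 * ((1 + t) / t) := by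
        apply mul_le_mul_of_nonneg_left (h5.trans h6) (by positivity)
    _ = M * (1 + t) / (12 * t) := by field_simp

end Pool.Agent.Helper10.Miss
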