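import Pool.Agent.Helper10.Miss.IntLog5
import Pool.Agent.Helper10.Miss.Trap

set_option autoImplicit false

namespace Pool.Agent.Helper10.Miss

open MeasureTheory Set

noncomputable def D1 (c s : ℂ) (x : ℝ) : ℂ := -(c * s * Complex.exp (-(x * s))) / Zf c s x
noncomputable def D2 (c s : ℂ) (x : ℝ) : ℂ := c * s ^ 2 * Complex.exp (-(x * s)) / (Zf c s x) ^ 2

theorem hasDerivAt_exps (s : ℂ) (x : ℝ) :
    HasDerivAt (fun x : ℝ => Complex.exp (-(x * s))) (-s * Complex.exp (-(x * s))) x := by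
  have h1 : HasDerivAt (fun x : ℝ => -((x : ℂ) * s)) (-s) x := by
    have := ((hasDerivAt_id (x : ℂ)).comp_ofReal.mul_const s).neg
    simpa using! this
  have := h1.cexp
  refine this.congr_deriv ?_
  ring

theorem hasDerivAt_Zf (c s : ℂ) (x : ℝ) :
    HasDerivAt (Zf c s) (-(c * s * Complex.exp (-(x * s)))) x := by
  have := ((hasDerivAt_exps s x).const_mul c).const_add 1
  refine this.congr_deriv ?_
  ring

theorem hasDerivAt_logn (c s : ℂ) (x : ℝ) (h : Zf c s x ≠ 0) :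
    HasDerivAt (fun x => Real.log ‖Zf c s x‖) (D1 c s x).re x := by
  have hZ := hasDerivAt_Zf c s x
  have hre : HasDerivAt (fun x => (Zf c s x).re) (-(c * s * Complex.exp (-(x * s)))).re x :=
    (Complex.reCLM.hasFDerivAt.comp_hasDerivAt x hZ)
  have him : HasDerivAt (fun x => (Zf c s x).im) (-(c * s * Complex.exp (-(x * s)))).im x :=
    (Complex.imCLM.hasFDerivAt.comp_hasDerivAt x hZ)
  have hsq : HasDerivAt (fun x => (Zf c s x).re * (Zf c s x).re + (Zf c s x).im * (Zf c s x).im) _ x :=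
    (hre.mul hre).add (him.mul him)
  have hn0 : (Zf c s x).re * (Zf c s x).re + (Zf c s x).im * (Zf c s x).im ≠ 0 := by
    rw [← Complex.normSq_apply]
    exact (Complex.normSq_pos.2 h).ne'
  have hl := (hsq.log hn0).const_mul (1 / 2)
  have heq : (fun x => Real.log ‖Zf c s x‖) = fun x => 1 / 2 *
      Real.log ((Zf c s x).re * (Zf c s x).re + (Zf c s x).im * (Zf c s x).im) := by
    ext y
    rw [← Complex.normSq_apply, Complex.normSq_eq_norm_sq, Real.log_pow]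
    push_cast; ring
  rw [heq]
  refine hl.congr_deriv ?_
  rw [D1, Complex.div_re, Complex.normSq_apply]
  field_simp
  ring

theorem hasDerivAt_D1 (c s : ℂ) (x : ℝ) (h : Zf c s x ≠ 0) :
    HasDerivAt (D1 c s) (D2 c s x) x := by
  have hZ := hasDerivAt_Zf c s x
  have hE := ((hasDerivAt_exps s x).const_mul (c * s)).neg
  have := hE.div hZ h
  refine this.congr_deriv ?_
  rw [D2]
  congr 1
  unfold Zf
  simp only [Pi.neg_apply]
  ring

theorem hasDerivAt_log (c s : ℂ) (x : ℝ) (h : Zf c s x ∈ Complex.slitPlane) :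
    HasDerivAt (fun x => Complex.log (Zf c s x)) (D1 c s x) x := by
  have := (hasDerivAt_Zf c s x).clog_real h
  exact this

theorem norm_D2_le (c s : ℂ) (m x : ℝ) (hm : 0 < m) (h : m ≤ ‖Zf c s x‖) :
    ‖D2 c s x‖ ≤ ‖c‖ * ‖s‖ ^ 2 / m ^ 2 * Real.exp (-(s.re * x)) := by
  have h0 : 0 < ‖Zf c s x‖ := hm.trans_le h
  rw [D2, norm_div, norm_mul, norm_mul, norm_pow, norm_pow, Complex.norm_exp]
  have e : (-((x : ℂ) * s)).re = -(s.re * x) := by simp; ring
  rw [e, div_mul_eq_mul_div]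
  gcongr

theorem logn_cont (c s : ℂ) (h : ∀ x, 0 ≤ x → Zf c s x ≠ 0) :
    ContinuousOn (fun x => Real.log ‖Zf c s x‖) (Ici 0) :=
  fun x hx => (hasDerivAt_logn c s x (h x hx)).continuousAt.continuousWithinAt

theorem integral_tail_logn (c s : ℂ) (hs : 0 < s.re) (K : ℝ)
    (hK : ‖c‖ * Real.exp (-(K * s.re)) ≤ 1 / 2) :
    |∫ x in Ioi K, Real.log ‖Zf c s x‖| ≤ 3 / 2 * ‖c‖ * Real.exp (-(K * s.re)) / s.re := by
  have h1 : IntegrableOn (fun x : ℝ => (3 / 2 * ‖c‖) * Real.exp ((-s.re) * x)) (Ioi K) :=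
    (integrableOn_exp_mul_Ioi (by linarith) K).const_mul _
  have h2 : ∀ x ∈ Ioi K, ‖Real.log ‖Zf c s x‖‖ ≤ (3 / 2 * ‖c‖) * Real.exp ((-s.re) * x) := by
    intro x hx
    have : ‖c‖ * Real.exp (-(x * s.re)) ≤ 1 / 2 := by
      refine le_trans ?_ hK
      apply mul_le_mul_of_nonneg_left _ (norm_nonneg _)
      apply Real.exp_le_exp.2
      have : K < x := hx
      nlinarith
    have := logn_tail c s x this
    rw [Real.norm_eq_abs]
    rw [show (-s.re) * x = -(x * s.re) by ring]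
    exact this
  have h3 := norm_integral_le_of_norm_le (μ := volume.restrict (Ioi K)) h1
    ((ae_restrict_iff' measurableSet_Ioi).2 (Filter.Eventually.of_forall h2))
  rw [MeasureTheory.integral_const_mul, integral_exp_mul_Ioi (by linarith)] at h3
  rw [Real.norm_eq_abs] at h3
  refine h3.trans (le_of_eq ?_)
  rw [show -s.re * K = -(K * s.re) by ring]
  field_simp

theorem integral_tail_log (c s : ℂ) (hs : 0 < s.re) (K : ℝ)
    (hK : ‖c‖ * Real.exp (-(K * s.re)) ≤ 1 / 2) :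
    ‖∫ x in Ioi K, Complex.log (Zf c s x)‖ ≤ 3 / 2 * ‖c‖ * Real.exp (-(K * s.re)) / s.re := by
  have h1 : IntegrableOn (fun x : ℝ => (3 / 2 * ‖c‖) * Real.exp ((-s.re) * x)) (Ioi K) :=
    (integrableOn_exp_mul_Ioi (by linarith) K).const_mul _
  have h2 : ∀ x ∈ Ioi K, ‖Complex.log (Zf c s x)‖ ≤ (3 / 2 * ‖c‖) * Real.exp ((-s.re) * x) := by
    intro x hx
    have : ‖c‖ * Real.exp (-(x * s.re)) ≤ 1 / 2 := by
      refine le_trans ?_ hK
      apply mul_le_mul_of_nonneg_left _ (norm_nonneg _)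
      apply Real.exp_le_exp.2
      have : K < x := hx
      nlinarith
    have := log_tail c s x this
    rw [show (-s.re) * x = -(x * s.re) by ring]
    exact this
  have h3 := norm_integral_le_of_norm_le (μ := volume.restrict (Ioi K)) h1
    ((ae_restrict_iff' measurableSet_Ioi).2 (Filter.Eventually.of_forall h2))
  rw [MeasureTheory.integral_const_mul, integral_exp_mul_Ioi (by linarith)] at h3
  refine h3.trans (le_of_eq ?_)
  rw [show -s.re * K = -(K * s.re) by ring]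
  field_simp

theorem logsum (c s : ℂ) (m : ℝ) (K : ℕ) (hm : 0 < m) (hs : 0 < s.re)
    (h : ∀ x, 0 ≤ x → m ≤ ‖Zf c s x‖) (hK : ‖c‖ * Real.exp (-(K * s.re)) ≤ 1 / 2) :
    |(∑ j ∈ Finset.range K, Real.log ‖Zf c s ((j : ℝ) + 1)‖) + Real.log ‖1 + c‖ / 2
      - ∫ x in Ioi (0 : ℝ), Real.log ‖Zf c s x‖| ≤
      ‖c‖ * ‖s‖ ^ 2 / m ^ 2 * (1 + s.re) / (12 * s.re) +
      3 / 2 * ‖c‖ * Real.exp (-(K * s.re)) * (1 / s.re + 1 / 2) := by
  have hne : ∀ x, 0 ≤ x → Zf c s x ≠ 0 := fun x hx => norm_ne_zero_iff.1 (hm.trans_le (h x hx)).ne'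
  have hmeas : AEStronglyMeasurable (fun x => Real.log ‖Zf c s x‖) volume := by
    apply Measurable.aestronglyMeasurable
    exact Real.measurable_log.comp (Zf_cont c s).norm.measurable
  have h1 := trap_sum (fun x => Real.log ‖Zf c s x‖) (fun x => (D1 c s x).re)
    (fun x => (D2 c s x).re) K (‖c‖ * ‖s‖ ^ 2 / m ^ 2) s.re hs (by positivity) hmeas
    (fun x hx => hasDerivAt_logn c s x (hne x hx))
    (fun x hx => (Complex.reCLM.hasFDerivAt.comp_hasDerivAt x (hasDerivAt_D1 c s x (hne x hx))))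
    (fun x hx => by
      rw [Real.norm_eq_abs]
      exact (Complex.abs_re_le_norm _).trans (norm_D2_le c s m x hm (h x hx)))
  simp only [smul_eq_mul] at h1
  have hi := integrable_logn c s hs 0 hne
  have hK0 : (0 : ℝ) ≤ K := Nat.cast_nonneg K
  have hsplit : ∫ x in Ioi (0 : ℝ), Real.log ‖Zf c s x‖ =
      (∫ x in (0 : ℝ)..K, Real.log ‖Zf c s x‖) + ∫ x in Ioi (K : ℝ), Real.log ‖Zf c s x‖ := by
    rw [intervalIntegral.integral_interval_add_Ioi hi (hi.mono_set (Ioi_subset_Ioi hK0))]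
  have h2 := integral_tail_logn c s hs K hK
  have h3 := logn_tail c s K hK
  have h0 : Zf c s 0 = 1 + c := by simp [Zf]
  rw [h0, Real.norm_eq_abs] at h1
  rw [hsplit]
  rw [abs_le] at h1 h2 h3 ⊢
  have e1 : 3 / 2 * ‖c‖ * Real.exp (-(K * s.re)) * (1 / s.re + 1 / 2) =
      3 / 2 * ‖c‖ * Real.exp (-(K * s.re)) / s.re + 3 / 2 * ‖c‖ * Real.exp (-(K * s.re)) / 2 := by
    ring
  rw [e1]
  constructor <;> linarith [h1.1, h1.2, h2.1, h2.2, h3.1, h3.2]

theorem logsumC (c s : ℂ) (m : ℝ) (K : ℕ) (hm : 0 < m) (hs : 0 < s.re)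
    (h : ∀ x, 0 ≤ x → m ≤ ‖Zf c s x‖) (hsl : ∀ x, 0 ≤ x → Zf c s x ∈ Complex.slitPlane)
    (hK : ‖c‖ * Real.exp (-(K * s.re)) ≤ 1 / 2) :
    ‖(∑ j ∈ Finset.range K, Complex.log (Zf c s ((j : ℝ) + 1))) + Complex.log (1 + c) / 2
      - ∫ x in Ioi (0 : ℝ), Complex.log (Zf c s x)‖ ≤
      ‖c‖ * ‖s‖ ^ 2 / m ^ 2 * (1 + s.re) / (12 * s.re) +
      3 / 2 * ‖c‖ * Real.exp (-(K * s.re)) * (1 / s.re + 1 / 2) := by
  have hne : ∀ x, 0 ≤ x → Zf c s x ≠ 0 := fun x hx => norm_ne_zero_iff.1 (hm.trans_le (h x hx)).ne'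
  have hmeas : AEStronglyMeasurable (fun x => Complex.log (Zf c s x)) volume := by
    apply Measurable.aestronglyMeasurable
    exact Complex.measurable_log.comp (Zf_cont c s).measurable
  have h1 := trap_sum (fun x => Complex.log (Zf c s x)) (fun x => (D1 c s x))
    (fun x => (D2 c s x)) K (‖c‖ * ‖s‖ ^ 2 / m ^ 2) s.re hs (by positivity) hmeas
    (fun x hx => hasDerivAt_log c s x (hsl x hx))
    (fun x hx => hasDerivAt_D1 c s x (hne x hx))
    (fun x hx => norm_D2_le c s m x hm (h x hx))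
  have hi := integrable_log c s hs 0 hsl
  have hK0 : (0 : ℝ) ≤ K := Nat.cast_nonneg K
  have hsplit : ∫ x in Ioi (0 : ℝ), Complex.log (Zf c s x) =
      (∫ x in (0 : ℝ)..K, Complex.log (Zf c s x)) + ∫ x in Ioi (K : ℝ), Complex.log (Zf c s x) := by
    rw [intervalIntegral.integral_interval_add_Ioi hi (hi.mono_set (Ioi_subset_Ioi hK0))]
  have h2 := integral_tail_log c s hs K hK
  have h3 := log_tail c s K hK
  have h0 : Zf c s 0 = 1 + c := by simp [Zf]
  rw [h0] at h1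
  rw [hsplit]
  have e1 : 3 / 2 * ‖c‖ * Real.exp (-(K * s.re)) * (1 / s.re + 1 / 2) =
      3 / 2 * ‖c‖ * Real.exp (-(K * s.re)) / s.re + (3 / 2 * ‖c‖ * Real.exp (-(K * s.re))) * (1 / 2) := by
    ring
  rw [e1]
  have h4 : (∑ j ∈ Finset.range K, Complex.log (Zf c s ((j : ℝ) + 1))) + Complex.log (1 + c) / 2
      - ((∫ x in (0 : ℝ)..K, Complex.log (Zf c s x)) + ∫ x in Ioi (K : ℝ), Complex.log (Zf c s x)) =
      ((∑ j ∈ Finset.range K, Complex.log (Zf c s ((j : ℝ) + 1))) + (1 / 2 : ℝ) • Complex.log (1 + c) -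
        (1 / 2 : ℝ) • Complex.log (Zf c s K) - ∫ x in (0 : ℝ)..K, Complex.log (Zf c s x))
      - (∫ x in Ioi (K : ℝ), Complex.log (Zf c s x)) + (1 / 2 : ℝ) • Complex.log (Zf c s K) := by
    simp only [Complex.real_smul]
    push_cast
    ring
  rw [h4]
  refine (norm_add_le _ _).trans ?_
  have h5 : ‖(1 / 2 : ℝ) • Complex.log (Zf c s K)‖ ≤ 3 / 2 * ‖c‖ * Real.exp (-(K * s.re)) * (1 / 2) := by
    rw [norm_smul, Real.norm_eq_abs, abs_of_pos (by norm_num : (0 : ℝ) < 1 / 2)]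
    linarith
  have h6 := (norm_sub_le ((∑ j ∈ Finset.range K, Complex.log (Zf c s ((j : ℝ) + 1))) + (1 / 2 : ℝ) • Complex.log (1 + c) -
        (1 / 2 : ℝ) • Complex.log (Zf c s K) - ∫ x in (0 : ℝ)..K, Complex.log (Zf c s x))
      (∫ x in Ioi (K : ℝ), Complex.log (Zf c s x)))
  linarith

end Pool.Agent.Helper10.Miss
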