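import Pool.Agent.Helper10.Miss.LogSum

set_option autoImplicit false

namespace Pool.Agent.Helper10.Miss

open Set

theorem exp_sp (t φ x : ℝ) : Complex.exp (-(x * sp t φ)) =
    ((Real.exp (-(x * t)) * Real.cos (x * φ) : ℝ) : ℂ) +
      ((Real.exp (-(x * t)) * Real.sin (x * φ) : ℝ) : ℂ) * Complex.I := by
  have : -((x : ℂ) * sp t φ) = ((-(x * t) : ℝ) : ℂ) + ((x * φ : ℝ) : ℂ) * Complex.I := by
    apply Complex.ext
    · simp
    · simp
  rw [this, Complex.exp_add, Complex.exp_mul_I]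
  push_cast
  ring

theorem Zf_re (c t φ x : ℝ) : (Zf c (sp t φ) x).re = 1 + c * (Real.exp (-(x * t)) * Real.cos (x * φ)) := by
  unfold Zf
  rw [exp_sp]
  simp [-Complex.ofReal_mul, -Complex.ofReal_exp, -Complex.ofReal_cos, -Complex.ofReal_sin]

theorem Zf_im (c t φ x : ℝ) : (Zf c (sp t φ) x).im = c * (Real.exp (-(x * t)) * Real.sin (x * φ)) := by
  unfold Zf
  rw [exp_sp]
  simp [-Complex.ofReal_mul, -Complex.ofReal_exp, -Complex.ofReal_cos, -Complex.ofReal_sin]

theorem normsq_Zf (c t φ x : ℝ) : ‖Zf c (sp t φ) x‖ ^ 2 =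
    1 + 2 * c * Real.exp (-(x * t)) * Real.cos (x * φ) + c ^ 2 * Real.exp (-(x * t)) ^ 2 := by
  rw [← Complex.normSq_eq_norm_sq, Complex.normSq_apply, Zf_re, Zf_im]
  have := Real.sin_sq_add_cos_sq (x * φ)
  linear_combination (c ^ 2 * Real.exp (-(x * t)) ^ 2) * this

theorem lb_of_sq (c t φ x m : ℝ) (hm : 0 ≤ m)
    (h : m ^ 2 ≤ 1 + 2 * c * Real.exp (-(x * t)) * Real.cos (x * φ) + c ^ 2 * Real.exp (-(x * t)) ^ 2) :
    m ≤ ‖Zf c (sp t φ) x‖ := by
  rw [← normsq_Zf] at h
  exact (pow_le_pow_iff_left₀ hm (norm_nonneg _) two_ne_zero).1 h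

theorem lb_one (c t φ x : ℝ) (h : 0 ≤ c * Real.cos (x * φ)) : 1 ≤ ‖Zf c (sp t φ) x‖ := by
  apply lb_of_sq _ _ _ _ _ zero_le_one
  have := (Real.exp_pos (-(x * t)))
  nlinarith [mul_nonneg this.le h, sq_nonneg (c * Real.exp (-(x * t)))]

theorem lb_sin (c t φ x m : ℝ) (hm : 0 ≤ m) (h : m ≤ |Real.sin (x * φ)|) :
    m ≤ ‖Zf c (sp t φ) x‖ := by
  apply lb_of_sq _ _ _ _ _ hm
  have h1 : m ^ 2 ≤ Real.sin (x * φ) ^ 2 := by
    rw [← sq_abs (Real.sin (x * φ))]
    exact pow_le_pow_left₀ hm h 2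
  have h2 := Real.sin_sq_add_cos_sq (x * φ)
  nlinarith [sq_nonneg (c * Real.exp (-(x * t)) + Real.cos (x * φ))]

theorem lb_small (c t φ x m : ℝ) (h : |c| * Real.exp (-(x * t)) ≤ 1 - m) :
    m ≤ ‖Zf c (sp t φ) x‖ := by
  have h1 : 1 - ‖((c : ℝ) : ℂ) * Complex.exp (-(x * sp t φ))‖ ≤ ‖Zf c (sp t φ) x‖ := by
    unfold Zf
    have := norm_sub_le (1 + (c : ℂ) * Complex.exp (-(x * sp t φ))) ((c : ℂ) * Complex.exp (-(x * sp t φ)))
    rw [add_sub_cancel_right, norm_one] at this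
    linarith
  rw [norm_term, Complex.norm_real, Real.norm_eq_abs] at h1
  simp only [sp_re] at h1
  linarith

theorem lb_big (c t φ x m : ℝ) (h : 1 + m ≤ |c| * Real.exp (-(x * t))) :
    m ≤ ‖Zf c (sp t φ) x‖ := by
  have h1 : ‖((c : ℝ) : ℂ) * Complex.exp (-(x * sp t φ))‖ - 1 ≤ ‖Zf c (sp t φ) x‖ := by
    unfold Zf
    have := norm_sub_le (1 + (c : ℂ) * Complex.exp (-(x * sp t φ))) 1
    rw [add_sub_cancel_left, norm_one] at this
    linarith
  rw [norm_term, Complex.norm_real, Real.norm_eq_abs] at h1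
  simp only [sp_re] at h1
  linarith

theorem exp_le_of (u B : ℝ) (hB : 0 < B) (h : 1 / B ≤ Real.exp u) : Real.exp (-u) ≤ B := by
  rw [Real.exp_neg]
  rw [one_div] at h
  exact inv_le_of_inv_le₀ hB h

/-- `exp u ≥ 1+u+u²/2+u³/6` for `u ≥ 0` -/
theorem exp_ge3 (u : ℝ) (hu : 0 ≤ u) : 1 + u + u ^ 2 / 2 + u ^ 3 / 6 ≤ Real.exp u := by
  have := Real.sum_le_exp_of_nonneg hu 4
  simp [Finset.sum_range_succ, Nat.factorial] at this
  linarith

theorem cos_neg_imp (α : ℝ) (h : Real.cos α < 0) : Real.pi / 2 < |α| := by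
  by_contra h1
  push Not at h1
  rw [abs_le] at h1
  have := Real.cos_nonneg_of_mem_Icc (x := α) ⟨by linarith [h1.1], h1.2⟩
  linarith

theorem lower_a (t φ : ℝ) (ht : 0 < t) (hφ : |φ| ≤ 8 * t) (x : ℝ) (hx : 0 ≤ x) :
    0.16 ≤ ‖Zf ((1 : ℝ) : ℂ) (sp t φ) x‖ := by
  rcases le_or_gt 0 (Real.cos (x * φ)) with h | h
  · linarith [lb_one 1 t φ x (by simpa using h)]
  · have h1 := cos_neg_imp _ h
    rw [abs_mul, abs_of_nonneg hx] at h1
    have hpi := Real.pi_gt_d2
    have h2 : 0.196 ≤ x * t := by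
      have : x * |φ| ≤ x * (8 * t) := mul_le_mul_of_nonneg_left hφ hx
      nlinarith
    apply lb_small
    rw [abs_one, one_mul]
    apply exp_le_of _ _ (by norm_num)
    have := Real.add_one_le_exp (x * t)
    norm_num at h2 ⊢
    linarith

theorem lower_b (t φ : ℝ) (ht : 0 < t) (hφ : |φ| ≤ 3.5 * t) (x : ℝ) (hx : 0 ≤ x) :
    0.14 ≤ ‖Zf ((2 : ℝ) : ℂ) (sp t φ) x‖ := by
  rcases le_or_gt 0 (Real.cos (x * φ)) with h | h
  · linarith [lb_one 2 t φ x (by positivity)]
  · have h1 := cos_neg_imp _ h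
    have hpi := Real.pi_gt_d2
    have hpi2 := Real.pi_lt_d2
    rcases le_or_gt |x * φ| 3 with h3 | h3
    · apply lb_sin _ _ _ _ _ (by norm_num)
      have e1 : |Real.sin (x * φ)| = Real.sin |x * φ| := by
        rw [Real.abs_sin_eq_sin_abs_of_abs_le_pi]
        linarith
      rw [e1, ← Real.sin_pi_sub]
      have h4 : 0.14 < Real.pi - |x * φ| := by linarith
      have h5 : Real.pi - |x * φ| ≤ Real.pi / 2 := by linarith
      have h6 : Real.sin 0.1415 ≤ Real.sin (Real.pi - |x * φ|) := by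
        apply Real.sin_le_sin_of_le_of_le_pi_div_two _ h5
        · have := Real.pi_gt_d4
          norm_num at *
          linarith
        · linarith
      have h7 : 0.1415 - 0.1415 ^ 3 / 6 < Real.sin 0.1415 :=
        Real.sin_gt_sub_cube (by norm_num)
      norm_num at h7 h6 ⊢
      linarith
    · rw [abs_mul, abs_of_nonneg hx] at h3
      have h2 : 0.857 ≤ x * t := by
        have : x * |φ| ≤ x * (3.5 * t) := mul_le_mul_of_nonneg_left hφ hx
        norm_num at this ⊢
        nlinarith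
      apply lb_small
      rw [show |(2 : ℝ)| = 2 by norm_num]
      have h8 : Real.exp (-(x * t)) ≤ 0.43 := by
        apply exp_le_of _ _ (by norm_num)
        have := exp_ge3 (x * t) (by positivity)
        have h9 : (0.857 : ℝ) ^ 2 ≤ (x * t) ^ 2 := pow_le_pow_left₀ (by norm_num) h2 2
        have h10 : (0.857 : ℝ) ^ 3 ≤ (x * t) ^ 3 := pow_le_pow_left₀ (by norm_num) h2 3
        norm_num at h9 h10 h2 ⊢
        linarith
      linarith

theorem lower_c (t φ : ℝ) (ht : 0 < t) (hφ : 0.4 * t ≤ φ) (hφ2 : φ ≤ 3.5 * t) (x : ℝ) (hx : 0 ≤ x) :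
    0.18 ≤ ‖Zf ((-2 : ℝ) : ℂ) (sp t φ) x‖ := by
  rcases le_or_gt (Real.cos (x * φ)) 0 with h | h
  · have := lb_one (-2) t φ x (by nlinarith)
    linarith
  · have hpi := Real.pi_gt_d2
    rcases le_or_gt (x * t) 0.5 with h1 | h1
    · apply lb_big
      rw [show |(-2 : ℝ)| = 2 by norm_num]
      have h2 : Real.exp (-(0.5 : ℝ)) ≤ Real.exp (-(x * t)) := Real.exp_le_exp.2 (by linarith)
      have h3 : 0.59 ≤ Real.exp (-(0.5 : ℝ)) := by
        have h4 : Real.exp (0.5 : ℝ) ≤ 1.6923 := by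
          have h5 : Real.exp (0.5 : ℝ) ^ 2 = Real.exp 1 := by
            rw [← Real.exp_nat_mul]; norm_num
          have h6 := Real.exp_one_lt_d9
          have h7 := Real.exp_pos (0.5 : ℝ)
          by_contra h8
          push Not at h8
          have : (1.6923 : ℝ) ^ 2 ≤ Real.exp (0.5 : ℝ) ^ 2 := pow_le_pow_left₀ (by norm_num) h8.le 2
          rw [h5] at this
          norm_num at this
          linarith
        rw [Real.exp_neg]
        have h9 := Real.exp_pos (0.5 : ℝ)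
        rw [le_inv_comm₀ (by norm_num) h9]
        norm_num at h4 ⊢
        linarith
      linarith
    · rcases le_or_gt 0.9 (x * t) with h2 | h2
      · apply lb_small
        rw [show |(-2 : ℝ)| = 2 by norm_num]
        have h8 : Real.exp (-(x * t)) ≤ 0.41 := by
          apply exp_le_of _ _ (by norm_num)
          have := exp_ge3 (x * t) (by positivity)
          have h4 := Real.sum_le_exp_of_nonneg (show 0 ≤ x * t by positivity) 5
          simp [Finset.sum_range_succ, Nat.factorial] at h4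
          have h9 : (0.9 : ℝ) ^ 2 ≤ (x * t) ^ 2 := pow_le_pow_left₀ (by norm_num) h2 2
          have h10 : (0.9 : ℝ) ^ 3 ≤ (x * t) ^ 3 := pow_le_pow_left₀ (by norm_num) h2 3
          have h11 : (0.9 : ℝ) ^ 4 ≤ (x * t) ^ 4 := pow_le_pow_left₀ (by norm_num) h2 4
          norm_num at h9 h10 h11 h2 h4 ⊢
          linarith
        linarith
      · have h3 : 0.2 ≤ x * φ := by
          have : x * (0.4 * t) ≤ x * φ := mul_le_mul_of_nonneg_left hφ hx
          norm_num at *
          nlinarith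
        have h4 : x * φ ≤ 3.15 := by
          have : x * φ ≤ x * (3.5 * t) := mul_le_mul_of_nonneg_left hφ2 hx
          norm_num at *
          nlinarith
        have h5 : x * φ < Real.pi / 2 := by
          by_contra h6
          push Not at h6
          have := Real.cos_nonpos_of_pi_div_two_le_of_le h6 (by norm_num at *; linarith)
          linarith
        apply lb_sin _ _ _ _ _ (by norm_num)
        have h6 : Real.sin 0.2 ≤ Real.sin (x * φ) := by
          apply Real.sin_le_sin_of_le_of_le_pi_div_two _ h5.le h3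
          norm_num at *
          linarith
        have h7 : 0.2 - 0.2 ^ 3 / 6 < Real.sin 0.2 :=
          Real.sin_gt_sub_cube (by norm_num)
        refine le_trans ?_ (le_abs_self _)
        norm_num at h7 h6 ⊢
        linarith

theorem lower_e (c t φ : ℝ) (hc0 : 0 ≤ c) (hc : c ≤ 2) (ht : 0 < t) (hφ : |φ| ≤ t / 2) (x : ℝ) (hx : 0 ≤ x) :
    0.9 ≤ (Zf (c : ℂ) (sp t φ) x).re := by
  rw [Zf_re]
  rcases le_or_gt 0 (Real.cos (x * φ)) with h | h
  · have := mul_nonneg hc0 (mul_nonneg (Real.exp_pos (-(x * t))).le h)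
    linarith
  · have h1 := cos_neg_imp _ h
    rw [abs_mul, abs_of_nonneg hx] at h1
    have hpi := Real.pi_gt_three
    have h2 : 3 ≤ x * t := by
      have : x * |φ| ≤ x * (t / 2) := mul_le_mul_of_nonneg_left hφ hx
      nlinarith
    have h3 : Real.exp (-(x * t)) ≤ 0.05 := by
      have h4 : Real.exp (-(x * t)) ≤ Real.exp (-(3 : ℝ)) := Real.exp_le_exp.2 (by linarith)
      refine h4.trans ?_
      have h5 : Real.exp (-(3 : ℝ)) = Real.exp (-1) ^ 3 := by
        rw [← Real.exp_nat_mul]; norm_num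
      have h6 : Real.exp (-1) < 0.3678794412 := Real.exp_neg_one_lt_d9
      have h7 := Real.exp_pos (-1)
      rw [h5]
      have : Real.exp (-1) ^ 3 ≤ 0.3678794412 ^ 3 := pow_le_pow_left₀ h7.le h6.le 3
      norm_num at this ⊢
      linarith
    have h8 : -1 ≤ Real.cos (x * φ) := Real.neg_one_le_cos _
    have h9 : -(Real.exp (-(x * t))) ≤ Real.exp (-(x * t)) * Real.cos (x * φ) := by
      nlinarith [Real.exp_pos (-(x * t))]
    have h10 : -0.05 ≤ Real.exp (-(x * t)) * Real.cos (x * φ) := by linarith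
    nlinarith

end Pool.Agent.Helper10.Miss
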