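import Pool.Agent.Helper10.Miss.Combi
import Pool.Agent.Helper10.Miss.KronFinal

set_option autoImplicit false

namespace Pool.Agent.Helper10.Miss

theorem PP_coe (K : ℕ) : ((PP K : Polynomial ℤ) : PowerSeries ℤ) =
    (∏ m ∈ Finset.range (2 * K), (1 + 2 * (PowerSeries.X : PowerSeries ℤ) ^ (m + 1))) *
      ∏ i ∈ Finset.range K, (1 - (PowerSeries.X : PowerSeries ℤ) ^ (2 * i + 1)) := by
  rw [← Polynomial.coeToPowerSeries.ringHom_apply]
  unfold PP
  rw [map_mul, map_prod, map_prod]
  congr 1
  · apply Finset.prod_congr rfl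
    intro i _
    rw [map_add, map_one, map_mul, map_pow, map_ofNat, Polynomial.coeToPowerSeries.ringHom_apply, Polynomial.coe_X]
  · apply Finset.prod_congr rfl
    intro i _
    rw [map_sub, map_one, map_pow, Polynomial.coeToPowerSeries.ringHom_apply, Polynomial.coe_X]

theorem main_coeff (n K : ℕ) (hn : 1 ≤ n) (hK : n ≤ K) : ((Me n : ℕ) : ℤ) - (Mo n : ℕ) = (PP K).coeff n := by
  have h1 := PP_coe_dvd n K (by omega) _ (PP_coe K)
  rw [PowerSeries.X_pow_dvd_iff] at h1
  have h2 := h1 n (by omega)
  rw [map_sub, sub_eq_zero, coeff_Tk_sum n n hn le_rfl, Polynomial.coeff_coe] at h2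
  rw [Me_sub_Mo, h2]

/-- For every `n > 34` there are more partitions of `n` with an even number of missing integers
than with an odd number of missing integers. -/
theorem main (n : ℕ) (hn : 34 < n) : Mo n < Me n := by
  have h : 0 < ((Me n : ℕ) : ℤ) - (Mo n : ℕ) := by
    rcases le_or_gt n 20000 with h1 | h1
    · rw [main_coeff n 20000 (by omega) h1]
      exact PP_small n (by omega) h1
    · rw [main_coeff n n (by omega) le_rfl]
      exact PP_pos n n h1.le le_rfl
  omega

end Pool.Agent.Helper10.Miss
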