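import Pool.Agent.Helper10.Miss.Minor3

set_option autoImplicit false

namespace Pool.Agent.Helper10.Miss

open MeasureTheory Set

noncomputable def Ac : ℝ := A2c - A1c

theorem Ac_bd : 0.61422 < Ac ∧ Ac < 0.61432 := by
  have h1 := A1c_bd
  have h2 := A2c_bd
  unfold Ac
  norm_num at h1 h2 ⊢
  constructor <;> linarith [h1.1, h1.2, h2.1, h2.2]

theorem prod_eq_exp_log (c t φ : ℝ) (K : ℕ)
    (h : ∀ j ∈ Finset.range K, Zf (c : ℂ) (sp t φ) ((j : ℝ) + 1) ≠ 0) :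
    ∏ j ∈ Finset.range K, Zf (c : ℂ) (sp t φ) ((j + 1 : ℕ) : ℝ) =
      Complex.exp (∑ j ∈ Finset.range K, Complex.log (Zf (c : ℂ) (sp t φ) ((j : ℝ) + 1))) := by
  rw [Complex.exp_sum]
  apply Finset.prod_congr rfl
  intro j hj
  rw [Complex.exp_log (h j hj)]
  push_cast
  rfl

theorem PK_main (K : ℕ) (t φ : ℝ) (ht : 0 < t) (ht1 : t ≤ 1 / 20) (hφ : |φ| ≤ t / 2)
    (hK : Real.exp (-((2 * K : ℕ) * t)) ≤ t ^ 4) :
    ∃ E : ℂ, ‖E‖ ≤ 0.62 * t ∧ PK K (Complex.exp (-(sp t φ))) =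
      Complex.exp ((Ac : ℂ) / sp t φ - ((Real.log (3 / 2) / 2 : ℝ) : ℂ) + E) := by
  have hlog2 := Real.log_two_gt_d9
  have hlog2' := Real.log_two_lt_d9
  have h2 := exact_C 2 (Real.log 2) t φ (2 * K) (by linarith) (by linarith)
    (Real.exp_log (by norm_num)).symm le_rfl ht ht1 hφ hK
  have h1 := exact_C 1 0 t φ (2 * K) le_rfl zero_le_one
    (by simp) (by norm_num) ht ht1 hφ hK
  have hne2 : ∀ j ∈ Finset.range (2 * K), Zf ((2 : ℝ) : ℂ) (sp t φ) ((j : ℝ) + 1) ≠ 0 := by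
    intro j _ h0
    have := lower_e 2 t φ (by norm_num) le_rfl ht hφ ((j : ℝ) + 1) (by positivity)
    rw [h0] at this
    norm_num at this
  have hne1 : ∀ j ∈ Finset.range (2 * K), Zf ((1 : ℝ) : ℂ) (sp t φ) ((j : ℝ) + 1) ≠ 0 := by
    intro j _ h0
    have := lower_e 1 t φ (by norm_num) (by norm_num) ht hφ ((j : ℝ) + 1) (by positivity)
    rw [h0] at this
    norm_num at this
  have hz : ‖Complex.exp (-(sp t φ))‖ < 1 := by
    rw [norm_exp_sp, Real.exp_lt_one_iff]; linarith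
  have hid := odd_identity2 K (Complex.exp (-(sp t φ))) hz
  have e1 : ∏ i ∈ Finset.range K, (1 - Complex.exp (-(sp t φ)) ^ (2 * i + 1)) =
      ∏ i ∈ Finset.range K, Zf ((-1 : ℝ) : ℂ) (sp t φ) ((2 * i + 1 : ℕ) : ℝ) := by
    apply Finset.prod_congr rfl
    intro j _
    unfold Zf
    rw [pow_exp]
    push_cast
    ring_nf
  have e2 : ∏ j ∈ Finset.range (2 * K), (1 + Complex.exp (-(sp t φ)) ^ (j + 1)) =
      ∏ j ∈ Finset.range (2 * K), Zf ((1 : ℝ) : ℂ) (sp t φ) ((j + 1 : ℕ) : ℝ) := by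
    apply Finset.prod_congr rfl
    intro j _
    unfold Zf
    rw [pow_exp]
    push_cast
    ring_nf
  have e3 : ∏ i ∈ Finset.Ico K (2 * K), (1 - Complex.exp (-(sp t φ)) ^ (2 * i + 2)) =
      Complex.exp (∑ i ∈ Finset.Ico K (2 * K), Complex.log (1 - Complex.exp (-(sp t φ)) ^ (2 * i + 2))) := by
    rw [Complex.exp_sum]
    apply Finset.prod_congr rfl
    intro i _
    rw [Complex.exp_log (tail_ne t φ ht i)]
  rw [e1, e2, e3, prod_eq_exp_log 1 t φ (2 * K) hne1] at hid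
  have htl := tail_log_sum K t φ ht ht1 hK
  set S2 := ∑ j ∈ Finset.range (2 * K), Complex.log (Zf ((2 : ℝ) : ℂ) (sp t φ) ((j : ℝ) + 1)) with hS2
  set S1 := ∑ j ∈ Finset.range (2 * K), Complex.log (Zf ((1 : ℝ) : ℂ) (sp t φ) ((j : ℝ) + 1)) with hS1
  set T := ∑ i ∈ Finset.Ico K (2 * K), Complex.log (1 - Complex.exp (-(sp t φ)) ^ (2 * i + 2)) with hT
  have hPK : PK K (Complex.exp (-(sp t φ))) = Complex.exp (S2 + (T - S1)) := by
    rw [PK_eq, prod_eq_exp_log 2 t φ (2 * K) hne2, Complex.exp_add, Complex.exp_sub, ← hid]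
    rw [mul_div_assoc, div_self (Complex.exp_ne_zero _), mul_one]
  have c2 : Complex.log (1 + ((2 : ℝ) : ℂ)) = ((Real.log 3 : ℝ) : ℂ) := by
    rw [Complex.ofReal_log (by norm_num)]
    norm_num
  have c1 : Complex.log (1 + ((1 : ℝ) : ℂ)) = ((Real.log 2 : ℝ) : ℂ) := by
    rw [Complex.ofReal_log (by norm_num)]
    norm_num
  have d1 : (0 : ℝ) ^ 2 / 2 + Real.pi ^ 2 / 6 - Dl (1 / 1) = A1c := by
    rw [div_one, Dl_one, A1c]; ring
  have d2 : Real.log 2 ^ 2 / 2 + Real.pi ^ 2 / 6 - Dl (1 / 2) = A2c := rfl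
  rw [c2, d2] at h2
  rw [c1, d1] at h1
  refine ⟨(S2 + ((Real.log 3 : ℝ) : ℂ) / 2 - (A2c : ℂ) / sp t φ) -
    (S1 + ((Real.log 2 : ℝ) : ℂ) / 2 - (A1c : ℂ) / sp t φ) + T, ?_, ?_⟩
  · refine (norm_add_le _ _).trans ?_
    have := norm_sub_le (S2 + ((Real.log 3 : ℝ) : ℂ) / 2 - (A2c : ℂ) / sp t φ)
      (S1 + ((Real.log 2 : ℝ) : ℂ) / 2 - (A1c : ℂ) / sp t φ)
    have ht3 : 2 * t ^ 3 ≤ 0.02 * t := by
      have : t ^ 2 ≤ (1 / 20) ^ 2 := pow_le_pow_left₀ ht.le ht1 2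
      norm_num at this ⊢
      nlinarith
    norm_num at *
    linarith
  · rw [hPK]
    congr 1
    have hl : Real.log (3 / 2) = Real.log 3 - Real.log 2 := Real.log_div (by norm_num) (by norm_num)
    rw [hl]
    unfold Ac
    push_cast
    ring

end Pool.Agent.Helper10.Miss
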