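import Pool.Agent.Helper10.Miss.MainArc

set_option autoImplicit false

namespace Pool.Agent.Helper10.Miss

open MeasureTheory Set

/-- the integrand -/
noncomputable def FF (K n : ℕ) (t φ : ℝ) : ℝ :=
  (PK K (Complex.exp (-(sp t φ))) * Complex.exp (((-((n : ℝ) * φ) : ℝ) : ℂ) * Complex.I)).re

theorem FF_cont (K n : ℕ) (t : ℝ) : Continuous (FF K n t) := by
  unfold FF PK
  have h : Continuous (fun φ : ℝ => sp t φ) := by
    have : (fun φ : ℝ => sp t φ) = fun φ : ℝ => (t : ℂ) - (φ : ℂ) * Complex.I := by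
      ext φ
      apply Complex.ext <;> simp
    rw [this]
    fun_prop
  have h2 : Continuous (fun φ : ℝ => Complex.exp (-(sp t φ))) := by fun_prop
  apply Complex.continuous_re.comp
  apply Continuous.mul
  · apply Continuous.mul
    · apply continuous_finsetProd
      intro i _
      fun_prop
    · apply continuous_finsetProd
      intro i _
      fun_prop
  · fun_prop

theorem FF_formula (K n : ℕ) (t φ u : ℝ) (ht : 0 < t) (ht1 : t ≤ 1 / 20) (hφ : |φ| ≤ t / 2)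
    (hK : Real.exp (-((2 * K : ℕ) * t)) ≤ t ^ 4) (hA : Ac = u ^ 2 * t) (hn : (n : ℝ) * t = u ^ 2) :
    ∃ er ei : ℝ, |er| ≤ 0.62 * t ∧ |ei| ≤ 0.62 * t ∧ FF K n t φ =
      Real.exp (u ^ 2 * (t ^ 2 / (t ^ 2 + φ ^ 2)) - Real.log (3 / 2) / 2 + er) *
        Real.cos (u ^ 2 * φ ^ 3 / (t * (t ^ 2 + φ ^ 2)) - ei) := by
  obtain ⟨E, hE, hP⟩ := PK_main K t φ ht ht1 hφ hK
  refine ⟨E.re, E.im, (Complex.abs_re_le_norm _).trans hE, (Complex.abs_im_le_norm _).trans hE, ?_⟩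
  unfold FF
  rw [hP, ← Complex.exp_add, Complex.exp_re]
  have hpos : 0 < t ^ 2 + φ ^ 2 := by positivity
  have hre : ((Ac : ℂ) / sp t φ).re = u ^ 2 * (t ^ 2 / (t ^ 2 + φ ^ 2)) := by
    rw [Complex.div_re, Complex.normSq_apply]
    simp only [sp_re, sp_im, Complex.ofReal_re, Complex.ofReal_im]
    rw [hA]
    field_simp
    ring
  have him : ((Ac : ℂ) / sp t φ).im = u ^ 2 * t * φ / (t ^ 2 + φ ^ 2) := by
    rw [Complex.div_im, Complex.normSq_apply]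
    simp only [sp_re, sp_im, Complex.ofReal_re, Complex.ofReal_im]
    rw [hA]
    field_simp
    ring
  have hn' : (n : ℝ) * φ = u ^ 2 * φ / t := by
    rw [← hn]; field_simp
  have e1 : ((Ac : ℂ) / sp t φ - ((Real.log (3 / 2) / 2 : ℝ) : ℂ) + E + ((-((n : ℝ) * φ) : ℝ) : ℂ) * Complex.I).re =
      u ^ 2 * (t ^ 2 / (t ^ 2 + φ ^ 2)) - Real.log (3 / 2) / 2 + E.re := by
    rw [Complex.add_re, Complex.add_re, Complex.sub_re, hre, Complex.ofReal_re, Complex.re_ofReal_mul,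
      Complex.I_re]
    ring
  have e2 : ((Ac : ℂ) / sp t φ - ((Real.log (3 / 2) / 2 : ℝ) : ℂ) + E + ((-((n : ℝ) * φ) : ℝ) : ℂ) * Complex.I).im =
      -(u ^ 2 * φ ^ 3 / (t * (t ^ 2 + φ ^ 2)) - E.im) := by
    rw [Complex.add_im, Complex.add_im, Complex.sub_im, him, Complex.ofReal_im, Complex.im_ofReal_mul,
      Complex.I_im, hn']
    field_simp
    ring
  rw [e1, e2, Real.cos_neg]

theorem FF_le (K n : ℕ) (t φ u : ℝ) (ht : 0 < t) (ht1 : t ≤ 1 / 180) (hφ0 : 0 ≤ φ) (hφ : φ ≤ t / 2) (hu : 0 < u)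
    (hK : Real.exp (-((2 * K : ℕ) * t)) ≤ t ^ 4) (hA : Ac = u ^ 2 * t) (hn : (n : ℝ) * t = u ^ 2)
    (hx : 2 * (t / u) ≤ φ) :
    -(Real.exp (u ^ 2 - Real.log (3 / 2) / 2 + 0.0035) * Real.exp (-(1.6 * u / t) * φ)) ≤ FF K n t φ := by
  obtain ⟨er, ei, h1, h2, h3⟩ := FF_formula K n t φ u ht (by linarith) (by rw [abs_of_nonneg hφ0]; exact hφ) hK hA hn
  rw [h3, ← Real.exp_add]
  have hc := Real.neg_one_le_cos (u ^ 2 * φ ^ 3 / (t * (t ^ 2 + φ ^ 2)) - ei)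
  have he : Real.exp (u ^ 2 * (t ^ 2 / (t ^ 2 + φ ^ 2)) - Real.log (3 / 2) / 2 + er) ≤
      Real.exp (u ^ 2 - Real.log (3 / 2) / 2 + 0.0035 + -(1.6 * u / t) * φ) := by
    apply Real.exp_le_exp.2
    have h4 : er ≤ 0.0035 := by
      have := (abs_le.1 h1).2
      norm_num at *
      linarith
    have h5 : u ^ 2 * (t ^ 2 / (t ^ 2 + φ ^ 2)) ≤ u ^ 2 + -(1.6 * u / t) * φ := by
      have e : u ^ 2 * (t ^ 2 / (t ^ 2 + φ ^ 2)) = u ^ 2 - u ^ 2 * (φ ^ 2 / (t ^ 2 + φ ^ 2)) := by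
        field_simp
        ring
      have e2 : (1.6 * u / t) * φ ≤ u ^ 2 * (φ ^ 2 / (t ^ 2 + φ ^ 2)) := by
        have h6 : 0.8 * (φ ^ 2 / t ^ 2) ≤ φ ^ 2 / (t ^ 2 + φ ^ 2) := by
          rw [show 0.8 * (φ ^ 2 / t ^ 2) = (0.8 * φ ^ 2) / t ^ 2 by ring]
          rw [div_le_div_iff₀ (by positivity) (by positivity)]
          have : φ ^ 2 ≤ t ^ 2 / 4 := by nlinarith
          have h7 : 0 ≤ φ ^ 2 := by positivity
          norm_num
          nlinarith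
        have h8 : 2 * u * φ / t ≤ u ^ 2 * (φ ^ 2 / t ^ 2) := by
          have h9 : 2 ≤ u * φ / t := by
            rw [le_div_iff₀ ht]
            have : 2 * (t / u) * u = 2 * t := by field_simp
            nlinarith
          have e3 : u ^ 2 * (φ ^ 2 / t ^ 2) = (u * φ / t) * (u * φ / t) := by field_simp
          have e4 : 2 * u * φ / t = 2 * (u * φ / t) := by ring
          rw [e3, e4]
          exact mul_le_mul_of_nonneg_right h9 (by positivity)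
        have h10 : (1.6 * u / t) * φ = 0.8 * (2 * u * φ / t) := by norm_num; ring
        rw [h10]
        calc 0.8 * (2 * u * φ / t) ≤ 0.8 * (u ^ 2 * (φ ^ 2 / t ^ 2)) := by
              apply mul_le_mul_of_nonneg_left h8; norm_num
          _ = u ^ 2 * (0.8 * (φ ^ 2 / t ^ 2)) := by ring
          _ ≤ _ := mul_le_mul_of_nonneg_left h6 (by positivity)
      rw [e]
      linarith
    linarith
  have hp := Real.exp_pos (u ^ 2 * (t ^ 2 / (t ^ 2 + φ ^ 2)) - Real.log (3 / 2) / 2 + er)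
  nlinarith

theorem phase_bd (t φ u x : ℝ) (ht : 0 < t) (hφ0 : 0 ≤ φ) (hu : 0 < u)
    (hx : φ ≤ x * (t / u)) : 0 ≤ u ^ 2 * φ ^ 3 / (t * (t ^ 2 + φ ^ 2)) ∧
    u ^ 2 * φ ^ 3 / (t * (t ^ 2 + φ ^ 2)) ≤ x ^ 3 / u := by
  refine ⟨by positivity, ?_⟩
  have h1 : u ^ 2 * φ ^ 3 / (t * (t ^ 2 + φ ^ 2)) ≤ u ^ 2 * φ ^ 3 / (t * t ^ 2) := by
    apply div_le_div_of_nonneg_left (by positivity) (by positivity)
    apply mul_le_mul_of_nonneg_left _ ht.le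
    nlinarith [sq_nonneg φ]
  refine h1.trans ?_
  have h2 : φ ^ 3 ≤ (x * (t / u)) ^ 3 := pow_le_pow_left₀ hφ0 hx 3
  calc u ^ 2 * φ ^ 3 / (t * t ^ 2) ≤ u ^ 2 * (x * (t / u)) ^ 3 / (t * t ^ 2) := by gcongr
    _ = _ := by field_simp

theorem FF_nonneg (K n : ℕ) (t φ u : ℝ) (ht : 0 < t) (ht1 : t ≤ 1 / 180) (hφ0 : 0 ≤ φ) (hu : 10.5 ≤ u)
    (hK : Real.exp (-((2 * K : ℕ) * t)) ≤ t ^ 4) (hA : Ac = u ^ 2 * t) (hn : (n : ℝ) * t = u ^ 2)
    (hx : φ ≤ 2 * (t / u)) : 0 ≤ FF K n t φ := by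
  have hu0 : 0 < u := by norm_num at hu; linarith
  have hφ : φ ≤ t / 2 := by
    refine hx.trans ?_
    rw [mul_div_assoc', div_le_div_iff₀ hu0 (by norm_num)]
    norm_num at hu
    nlinarith
  obtain ⟨er, ei, h1, h2, h3⟩ := FF_formula K n t φ u ht (by linarith) (by rw [abs_of_nonneg hφ0]; exact hφ) hK hA hn
  rw [h3]
  obtain ⟨p1, p2⟩ := phase_bd t φ u 2 ht hφ0 hu0 hx
  have h4 : |ei| ≤ 0.0035 := by
    norm_num at *
    linarith
  have h5 : (2 : ℝ) ^ 3 / u ≤ 0.762 := by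
    rw [div_le_iff₀ hu0]
    norm_num at *
    linarith
  have h6 := abs_le.1 h4
  have hpi := Real.pi_gt_three
  apply mul_nonneg (Real.exp_pos _).le
  apply Real.cos_nonneg_of_mem_Icc
  constructor <;> norm_num at * <;> linarith [h6.1, h6.2]

theorem FF_ge (K n : ℕ) (t φ u x : ℝ) (ht : 0 < t) (ht1 : t ≤ 1 / 180) (hφ0 : 0 ≤ φ) (hu : 10.5 ≤ u)
    (hK : Real.exp (-((2 * K : ℕ) * t)) ≤ t ^ 4) (hA : Ac = u ^ 2 * t) (hn : (n : ℝ) * t = u ^ 2)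
    (hx0 : 0 ≤ x) (hx1 : x ≤ 1) (hx : φ ≤ x * (t / u)) :
    0.995 * Real.exp (u ^ 2 - x ^ 2 - Real.log (3 / 2) / 2 - 0.0035) ≤ FF K n t φ := by
  have hu0 : 0 < u := by norm_num at hu; linarith
  have hxt : x * (t / u) ≤ t / u := mul_le_of_le_one_left (by positivity) hx1
  have hφ : φ ≤ t / 2 := by
    refine (hx.trans hxt).trans ?_
    rw [div_le_div_iff₀ hu0 (by norm_num)]
    norm_num at hu
    nlinarith
  obtain ⟨er, ei, h1, h2, h3⟩ := FF_formula K n t φ u ht (by linarith) (by rw [abs_of_nonneg hφ0]; exact hφ) hK hA hn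
  rw [h3]
  obtain ⟨p1, p2⟩ := phase_bd t φ u x ht hφ0 hu0 hx
  have h4 : |ei| ≤ 0.0035 := by
    norm_num at *
    linarith
  have h4' : |er| ≤ 0.0035 := by
    norm_num at *
    linarith
  have h5 : x ^ 3 / u ≤ 0.0953 := by
    have : x ^ 3 ≤ 1 := pow_le_one₀ hx0 hx1
    rw [div_le_iff₀ hu0]
    norm_num at *
    linarith
  have h6 := abs_le.1 h4
  have h6' := abs_le.1 h4'
  have hcos : 0.995 ≤ Real.cos (u ^ 2 * φ ^ 3 / (t * (t ^ 2 + φ ^ 2)) - ei) := by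
    have h7 := Real.one_sub_sq_div_two_le_cos (x := u ^ 2 * φ ^ 3 / (t * (t ^ 2 + φ ^ 2)) - ei)
    have h8 : (u ^ 2 * φ ^ 3 / (t * (t ^ 2 + φ ^ 2)) - ei) ^ 2 ≤ 0.0988 ^ 2 := by
      apply sq_le_sq'
      · norm_num at *; linarith [h6.1, h6.2]
      · norm_num at *; linarith [h6.1, h6.2]
    norm_num at *
    linarith
  have hexp : Real.exp (u ^ 2 - x ^ 2 - Real.log (3 / 2) / 2 - 0.0035) ≤
      Real.exp (u ^ 2 * (t ^ 2 / (t ^ 2 + φ ^ 2)) - Real.log (3 / 2) / 2 + er) := by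
    apply Real.exp_le_exp.2
    have e : u ^ 2 * (t ^ 2 / (t ^ 2 + φ ^ 2)) = u ^ 2 - u ^ 2 * (φ ^ 2 / (t ^ 2 + φ ^ 2)) := by
      field_simp
      ring
    have e2 : u ^ 2 * (φ ^ 2 / (t ^ 2 + φ ^ 2)) ≤ x ^ 2 := by
      have h9 : φ ^ 2 / (t ^ 2 + φ ^ 2) ≤ φ ^ 2 / t ^ 2 := by
        apply div_le_div_of_nonneg_left (by positivity) (by positivity)
        nlinarith [sq_nonneg φ]
      have h10 : φ ^ 2 ≤ (x * (t / u)) ^ 2 := pow_le_pow_left₀ hφ0 hx 2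
      calc u ^ 2 * (φ ^ 2 / (t ^ 2 + φ ^ 2)) ≤ u ^ 2 * (φ ^ 2 / t ^ 2) := by gcongr
        _ ≤ u ^ 2 * ((x * (t / u)) ^ 2 / t ^ 2) := by gcongr
        _ = x ^ 2 := by field_simp
    rw [e]
    linarith [h6'.1, h6'.2]
  rw [mul_comm]
  exact mul_le_mul hexp hcos (by norm_num) (Real.exp_pos _).le

end Pool.Agent.Helper10.Miss
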