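import Pool.Agent.Helper10.Miss.MainInt

set_option autoImplicit false

namespace Pool.Agent.Helper10.Miss

open MeasureTheory Set

theorem int_exp_tail (c a b : ℝ) (hc : 0 < c) :
    ∫ φ in a..b, Real.exp (-c * φ) = (Real.exp (-c * a) - Real.exp (-c * b)) / c := by
  have h : ∀ x ∈ Set.uIcc a b, HasDerivAt (fun x : ℝ => -(Real.exp (-c * x)) / c) (Real.exp (-c * x)) x := by
    intro x _
    have h1 : HasDerivAt (fun x : ℝ => -c * x) (-c) x := by
      simpa using (hasDerivAt_id x).const_mul (-c)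
    have h2 := (h1.exp.neg).div_const c
    have e : -(Real.exp (-c * x) * -c) / c = Real.exp (-c * x) := by field_simp
    rw [e] at h2
    exact h2
  rw [intervalIntegral.integral_eq_sub_of_hasDerivAt h]
  · ring
  · apply Continuous.intervalIntegrable
    fun_prop

theorem final_ineq (u t : ℝ) (hu : 10.5 ≤ u) (ht : 0 < t) (hA : Ac = u ^ 2 * t) (h110 : 110 ≤ u ^ 2) :
    Real.pi * Real.exp (0.553 / t) < 0.38 * (t / u) * Real.exp (u ^ 2) := by
  have hu0 : 0 < u := by norm_num at hu; linarith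
  have hAb := Ac_bd
  have ht2 : t = Ac / u ^ 2 := by rw [hA]; field_simp
  set v := u ^ 2 with hv
  have hv0 : 0 < v := by positivity
  have hAc0 : 0 < Ac := by have := hAb.1; norm_num at this; linarith
  -- bound exponent
  have h1 : 0.553 / t ≤ 0.9004 * v := by
    rw [div_le_iff₀ ht]
    have : 0.9004 * v * t = 0.9004 * Ac := by rw [hA]; ring
    rw [this]
    norm_num at hAb ⊢
    linarith [hAb.1]
  have h2 : 0.233 / u ^ 3 ≤ 0.38 * (t / u) := by
    have : t / u = Ac / u ^ 3 := by rw [ht2, hv]; field_simp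
    rw [this, ← mul_div_assoc]
    apply div_le_div_of_nonneg_right _ (by positivity)
    norm_num at hAb ⊢
    linarith [hAb.1]
  have hpi : Real.pi < 3.1416 := by
    have := Real.pi_lt_d6
    norm_num at *
    linarith
  -- u^3 ≤ v^2/10.5
  have h3 : u ^ 3 ≤ v ^ 2 / 10.5 := by
    rw [le_div_iff₀ (by norm_num)]
    have : v ^ 2 = u ^ 3 * u := by rw [hv]; ring
    rw [this]
    exact mul_le_mul_of_nonneg_left hu (by positivity)
  -- v ≤ 110 exp(v/110 - 1)
  have h4 : v ≤ 110 * Real.exp (v / 110 - 1) := by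
    have := Real.add_one_le_exp (v / 110 - 1)
    linarith
  have h5 : v ^ 2 ≤ 12100 * Real.exp (2 * (v / 110 - 1)) := by
    have := pow_le_pow_left₀ hv0.le h4 2
    rw [mul_pow, ← Real.exp_nat_mul] at this
    norm_num at this ⊢
    exact this
  -- exp(10) ≥ 2.7^10
  have h6 : (20589 : ℝ) ≤ Real.exp 10 := by
    have h7 : Real.exp 10 = Real.exp 1 ^ 10 := by rw [← Real.exp_nat_mul]; norm_num
    rw [h7]
    have h8 : (2.7 : ℝ) ≤ Real.exp 1 := by
      have := Real.exp_one_gt_d9
      norm_num at *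
      linarith
    calc (20589 : ℝ) ≤ 2.7 ^ 10 := by norm_num
      _ ≤ _ := pow_le_pow_left₀ (by norm_num) h8 10
  have h7 : Real.exp 10 * Real.exp (2 * (v / 110 - 1)) ≤ Real.exp (0.0996 * v) := by
    rw [← Real.exp_add]
    apply Real.exp_le_exp.2
    norm_num
    linarith
  have hE2 : 0 < Real.exp (2 * (v / 110 - 1)) := Real.exp_pos _
  have h8 : 3.1416 * u ^ 3 < 0.233 * Real.exp (0.0996 * v) := by
    have a1 : 3.1416 * u ^ 3 ≤ 3.1416 * (12100 * Real.exp (2 * (v / 110 - 1)) / 10.5) := by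
      apply mul_le_mul_of_nonneg_left _ (by norm_num)
      exact h3.trans (div_le_div_of_nonneg_right h5 (by norm_num))
    have a2 : 0.233 * (20589 * Real.exp (2 * (v / 110 - 1))) ≤ 0.233 * Real.exp (0.0996 * v) := by
      apply mul_le_mul_of_nonneg_left _ (by norm_num)
      exact (mul_le_mul_of_nonneg_right h6 hE2.le).trans h7
    refine a1.trans_lt (lt_of_lt_of_le ?_ a2)
    norm_num
    linarith
  have h9 : Real.exp v = Real.exp (0.9004 * v) * Real.exp (0.0996 * v) := by
    rw [← Real.exp_add]; congr 1; norm_num; ring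
  calc Real.pi * Real.exp (0.553 / t) ≤ 3.1416 * Real.exp (0.9004 * v) := by
        apply mul_le_mul hpi.le (Real.exp_le_exp.2 h1) (Real.exp_pos _).le (by norm_num)
    _ < 0.233 * Real.exp (0.0996 * v) / u ^ 3 * Real.exp (0.9004 * v) := by
        apply mul_lt_mul_of_pos_right _ (Real.exp_pos _)
        rw [lt_div_iff₀ (by positivity)]
        exact h8
    _ = 0.233 / u ^ 3 * Real.exp v := by rw [h9]; ring
    _ ≤ _ := mul_le_mul_of_nonneg_right h2 (Real.exp_pos _).le

theorem FF_minor (K n : ℕ) (t φ : ℝ) (ht : 0 < t) (ht1 : t ≤ 1 / 180) (hφ1 : t / 2 ≤ φ) (hφ2 : φ ≤ Real.pi)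
    (hK : Real.exp (-((2 * K : ℕ) * t)) ≤ t ^ 4) : -Real.exp (0.553 / t) ≤ FF K n t φ := by
  have h := minor t φ K ht ht1 hφ1 hφ2 hK
  unfold FF
  have h2 := (abs_le.1 (Complex.abs_re_le_norm (PK K (Complex.exp (-(sp t φ))) *
    Complex.exp (((-((n : ℝ) * φ) : ℝ) : ℂ) * Complex.I)))).1
  rw [norm_mul, Complex.norm_exp_ofReal_mul_I, mul_one] at h2
  linarith

theorem FF_integral_pos (K n : ℕ) (t u : ℝ) (ht : 0 < t) (ht1 : t ≤ 1 / 180) (hu0 : 0 < u)
    (hK : Real.exp (-((2 * K : ℕ) * t)) ≤ t ^ 4) (hA : Ac = u ^ 2 * t) (hn : (n : ℝ) * t = u ^ 2) :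
    0 < ∫ φ in (0 : ℝ)..Real.pi, FF K n t φ := by
  have hAb := Ac_bd
  have hu2 : 110.5 ≤ u ^ 2 := by
    have h1 : u ^ 2 = Ac / t := by rw [hA]; field_simp
    rw [h1, le_div_iff₀ ht]
    norm_num at *
    linarith [hAb.1]
  have hu : 10.5 ≤ u := by
    by_contra hcon
    push Not at hcon
    have : u ^ 2 < 10.5 ^ 2 := pow_lt_pow_left₀ hcon hu0.le two_ne_zero
    norm_num at *
    linarith
  set δ := t / u with hδ
  have hδ0 : 0 < δ := by positivity
  have hδt : 2 * δ ≤ t / 2 := by
    rw [hδ, mul_div_assoc', div_le_div_iff₀ hu0 (by norm_num)]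
    norm_num at hu
    nlinarith
  have htpi : t / 2 ≤ Real.pi := by linarith [Real.pi_gt_three]
  have hint : ∀ a b : ℝ, IntervalIntegrable (FF K n t) volume a b :=
    fun a b => (FF_cont K n t).intervalIntegrable a b
  have hsplit : ∫ φ in (0 : ℝ)..Real.pi, FF K n t φ =
      (∫ φ in (0 : ℝ)..(δ / 2), FF K n t φ) + (∫ φ in (δ / 2)..δ, FF K n t φ) +
      (∫ φ in δ..(2 * δ), FF K n t φ) + (∫ φ in (2 * δ)..(t / 2), FF K n t φ) +
      (∫ φ in (t / 2)..Real.pi, FF K n t φ) := by
    rw [intervalIntegral.integral_add_adjacent_intervals (hint _ _) (hint _ _),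
      intervalIntegral.integral_add_adjacent_intervals (hint _ _) (hint _ _),
      intervalIntegral.integral_add_adjacent_intervals (hint _ _) (hint _ _),
      intervalIntegral.integral_add_adjacent_intervals (hint _ _) (hint _ _)]
  set L := Real.log (3 / 2) / 2 with hL
  have hE : Real.exp (-(0.0035 : ℝ)) ≥ 0.9965 := by
    have := Real.add_one_le_exp (-(0.0035 : ℝ))
    norm_num at *
    linarith
  set B := Real.exp (u ^ 2 - L) with hB
  have hB0 : 0 < B := Real.exp_pos _
  -- piece 1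
  have i1 : 0.37 * δ * B ≤ ∫ φ in (0 : ℝ)..(δ / 2), FF K n t φ := by
    have h1 : ∫ φ in (0 : ℝ)..(δ / 2), (0.74 * B) ≤ ∫ φ in (0 : ℝ)..(δ / 2), FF K n t φ := by
      apply intervalIntegral.integral_mono_on (by positivity) intervalIntegrable_const (hint _ _)
      intro φ hφ
      have h2 := FF_ge K n t φ u (1 / 2) ht ht1 hφ.1 hu hK hA hn (by norm_num) (by norm_num)
        (by have := hφ.2; linarith)
      refine le_trans ?_ h2
      have e : u ^ 2 - (1 / 2 : ℝ) ^ 2 - L - 0.0035 = (u ^ 2 - L) + -(0.2535 : ℝ) := by norm_num; ring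
      rw [e, Real.exp_add, ← hB]
      have := Real.add_one_le_exp (-(0.2535 : ℝ))
      norm_num at *
      nlinarith
    refine le_trans (le_of_eq ?_) h1
    rw [intervalIntegral.integral_const, smul_eq_mul]
    norm_num
    ring
  have i2 : 0.18 * δ * B ≤ ∫ φ in (δ / 2)..δ, FF K n t φ := by
    have h1 : ∫ φ in (δ / 2)..δ, (0.36 * B) ≤ ∫ φ in (δ / 2)..δ, FF K n t φ := by
      apply intervalIntegral.integral_mono_on (by linarith) intervalIntegrable_const (hint _ _)
      intro φ hφ
      have h2 := FF_ge K n t φ u 1 ht ht1 (by have := hφ.1; linarith) hu hK hA hn (by norm_num) (by norm_num)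
        (by have := hφ.2; linarith)
      refine le_trans ?_ h2
      have e : u ^ 2 - (1 : ℝ) ^ 2 - L - 0.0035 = (u ^ 2 - L) + (-1) + (-(0.0035 : ℝ)) := by norm_num; ring
      rw [e, Real.exp_add, Real.exp_add, ← hB]
      have h3 : 0.367 ≤ Real.exp (-1) := by
        rw [Real.exp_neg, le_inv_comm₀ (by norm_num) (Real.exp_pos _)]
        have := Real.exp_one_lt_d9
        norm_num at *
        linarith
      have h4 : 0.367 * 0.9965 ≤ Real.exp (-1) * Real.exp (-(0.0035 : ℝ)) :=
        mul_le_mul h3 hE (by norm_num) (Real.exp_pos _).le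
      have h5 : B * (0.367 * 0.9965) ≤ B * (Real.exp (-1) * Real.exp (-(0.0035 : ℝ))) :=
        mul_le_mul_of_nonneg_left h4 hB0.le
      norm_num at *
      nlinarith
    refine le_trans (le_of_eq ?_) h1
    rw [intervalIntegral.integral_const, smul_eq_mul]
    norm_num
    ring
  have i3 : 0 ≤ ∫ φ in δ..(2 * δ), FF K n t φ := by
    apply intervalIntegral.integral_nonneg (by linarith)
    intro φ hφ
    exact FF_nonneg K n t φ u ht ht1 (by have := hφ.1; linarith) hu hK hA hn (by have := hφ.2; linarith)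
  have i4 : -(0.04 * δ * B) ≤ ∫ φ in (2 * δ)..(t / 2), FF K n t φ := by
    have h1 : ∫ φ in (2 * δ)..(t / 2), -(Real.exp (u ^ 2 - L + 0.0035) * Real.exp (-(1.6 * u / t) * φ)) ≤
        ∫ φ in (2 * δ)..(t / 2), FF K n t φ := by
      apply intervalIntegral.integral_mono_on hδt _ (hint _ _)
      · intro φ hφ
        exact FF_le K n t φ u ht ht1 (by have := hφ.1; linarith) hφ.2 hu0 hK hA hn (by have := hφ.1; linarith)
      · apply Continuous.intervalIntegrable
        fun_prop
    refine le_trans ?_ h1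
    rw [intervalIntegral.integral_neg, intervalIntegral.integral_const_mul]
    rw [int_exp_tail _ _ _ (by norm_num; positivity)]
    have e1 : -(1.6 * u / t) * (2 * δ) = -3 + -(0.2 : ℝ) := by
      rw [hδ]; field_simp; norm_num
    have e2 : u ^ 2 - L + 0.0035 = (u ^ 2 - L) + 0.0035 := by ring
    rw [e1, e2, Real.exp_add, Real.exp_add, ← hB]
    have h3 : Real.exp (-3) ≤ 0.0502 := by
      have : Real.exp (-3) = (Real.exp 1 ^ 3)⁻¹ := by
        rw [Real.exp_neg, ← Real.exp_nat_mul]; norm_num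
      rw [this, inv_le_comm₀ (by positivity) (by norm_num)]
      have h8 : (2.718 : ℝ) ≤ Real.exp 1 := by
        have := Real.exp_one_gt_d9
        norm_num at *
        linarith
      calc (0.0502 : ℝ)⁻¹ ≤ 2.718 ^ 3 := by norm_num
        _ ≤ _ := pow_le_pow_left₀ (by norm_num) h8 3
    have h4 : Real.exp (-(0.2 : ℝ)) ≤ 1 := by
      rw [Real.exp_le_one_iff]; norm_num
    have h5 : Real.exp (0.0035 : ℝ) ≤ 1.01 := by
      have h9 : Real.exp (0.0035 : ℝ) = (Real.exp (-(0.0035 : ℝ)))⁻¹ := by rw [Real.exp_neg, inv_inv]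
      rw [h9, inv_le_comm₀ (Real.exp_pos _) (by norm_num)]
      refine le_trans ?_ hE
      norm_num
    have h6 : (Real.exp (-3) * Real.exp (-(0.2 : ℝ)) - Real.exp (-(1.6 * u / t) * (t / 2))) / (1.6 * u / t) ≤
        0.0502 * (δ / 1.6) := by
      have e3 : δ / 1.6 = 1 / (1.6 * u / t) := by rw [hδ]; field_simp
      rw [e3, mul_one_div]
      apply div_le_div_of_nonneg_right _ (by norm_num; positivity)
      have := Real.exp_pos (-(1.6 * u / t) * (t / 2))
      have := Real.exp_pos (-3)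
      have := Real.exp_pos (-(0.2 : ℝ))
      nlinarith
    have h7 : B * Real.exp (0.0035 : ℝ) * ((Real.exp (-3) * Real.exp (-(0.2 : ℝ)) - Real.exp (-(1.6 * u / t) * (t / 2))) / (1.6 * u / t)) ≤
        B * Real.exp (0.0035 : ℝ) * (0.0502 * (δ / 1.6)) :=
      mul_le_mul_of_nonneg_left h6 (by positivity)
    have h8 : B * Real.exp (0.0035 : ℝ) * (0.0502 * (δ / 1.6)) ≤ B * 1.01 * (0.0502 * (δ / 1.6)) := by
      gcongr
    have h9 : B * 1.01 * (0.0502 * (δ / 1.6)) ≤ 0.04 * δ * B := by
      have : 0 < δ * B := by positivity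
      norm_num
      nlinarith
    linarith
  have i5 : -(Real.pi * Real.exp (0.553 / t)) ≤ ∫ φ in (t / 2)..Real.pi, FF K n t φ := by
    have h1 : ∫ φ in (t / 2)..Real.pi, (-Real.exp (0.553 / t)) ≤ ∫ φ in (t / 2)..Real.pi, FF K n t φ := by
      apply intervalIntegral.integral_mono_on htpi intervalIntegrable_const (hint _ _)
      intro φ hφ
      exact FF_minor K n t φ ht ht1 hφ.1 hφ.2 hK
    refine le_trans ?_ h1
    rw [intervalIntegral.integral_const, smul_eq_mul]
    have := Real.exp_pos (0.553 / t)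
    nlinarith
  have hfin := final_ineq u t hu ht hA (by norm_num at *; linarith)
  have hBl : 0.75 * Real.exp (u ^ 2) ≤ B := by
    rw [hB, sub_eq_add_neg, Real.exp_add]
    have h1 : L ≤ 0.25 := by
      rw [hL]
      have := Real.log_le_sub_one_of_pos (show (0 : ℝ) < 3 / 2 by norm_num)
      norm_num at *
      linarith
    have h2 : 0.75 ≤ Real.exp (-L) := by
      have := Real.add_one_le_exp (-L)
      norm_num at *
      linarith
    rw [mul_comm]
    exact mul_le_mul_of_nonneg_left h2 (Real.exp_pos _).le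
  rw [hsplit]
  have h10 : 0.38 * δ * Real.exp (u ^ 2) ≤ 0.51 * δ * B := by
    have : 0.51 * δ * (0.75 * Real.exp (u ^ 2)) ≤ 0.51 * δ * B := by gcongr
    have h11 : 0 < δ * Real.exp (u ^ 2) := by positivity
    norm_num at *
    nlinarith
  have h12 : 0.37 * δ * B + 0.18 * δ * B - 0.04 * δ * B = 0.51 * δ * B := by norm_num; ring
  linarith

end Pool.Agent.Helper10.Miss
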