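import Pool.Agent.Helper10.Miss.Generic

set_option autoImplicit false

namespace Pool.Agent.Helper10.Miss

open Set

theorem inv_ge (t : ℝ) (ht : 0 < t) (ht1 : t ≤ 1 / 180) : 180 ≤ 1 / t := by
  rw [le_div_iff₀ ht]; linarith

/-- region (a) -/
theorem reg_a (t φ : ℝ) (K : ℕ) (ht : 0 < t) (ht1 : t ≤ 1 / 180) (hφ1 : t / 2 ≤ φ) (hφ2 : φ ≤ 3.5 * t)
    (hK : Real.exp (-((2 * K : ℕ) * t)) ≤ t ^ 4) :
    GG 2 t φ (2 * K) + OG (-1) t φ K ≤ 0.553 / t := by
  have hφ0 : 0 < φ := by linarith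
  have hφabs : |φ| = φ := abs_of_pos hφ0
  have h2 := (abs_le.1 (exact_2 t φ (2 * K) ht (by linarith) (by rw [hφabs]; exact hφ2) hK)).2
  have h1 := (abs_le.1 (exact_1 t φ (2 * K) ht (by linarith) (by rw [hφabs]; norm_num at *; linarith) hK)).1
  have h3 := (abs_le.1 (OG_exact K t φ ht (by linarith) hK (fun j _ =>
    norm_ne_zero_iff.1 (lt_of_lt_of_le (by norm_num)
      (lower_a t φ ht (by rw [hφabs]; norm_num at *; linarith) _ (by positivity))).ne'))).2
  obtain ⟨ht4, ht3, ht2⟩ := t4_le t ht ht1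
  have hA1 := A1c_bd
  have hA2 := A2c_bd
  have hlog : Real.log 2 ≤ Real.log 3 := Real.log_le_log (by norm_num) (by norm_num)
  set q := t / (t ^ 2 + φ ^ 2) with hq
  have hq0 : 0 < q := by positivity
  have hq1 : q ≤ 0.8 * (1 / t) := by
    rw [hq, mul_one_div, div_le_div_iff₀ (by positivity) ht]
    norm_num
    nlinarith
  have hs : 3.5 * (t ^ 2 + φ ^ 2) / t ≤ 46.5 * t := by
    rw [div_le_iff₀ ht]
    norm_num at *
    nlinarith
  have hq2 : q * A2c - q * A1c ≤ 0.61432 * (0.8 * (1 / t)) := by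
    have e1 : q * A2c - q * A1c = (A2c - A1c) * q := by ring
    rw [e1]
    have h4 : 0 ≤ A2c - A1c := by linarith [hA1.1, hA1.2, hA2.1, hA2.2]
    have h5 : A2c - A1c ≤ 0.61432 := by norm_num at *; linarith [hA1.1, hA1.2, hA2.1, hA2.2]
    calc (A2c - A1c) * q ≤ (A2c - A1c) * (0.8 * (1 / t)) := mul_le_mul_of_nonneg_left hq1 h4
      _ ≤ _ := mul_le_mul_of_nonneg_right h5 (by positivity)
  have hi := inv_ge t ht ht1
  have e2 : 0.553 / t = 0.553 * (1 / t) := by ring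
  rw [e2]
  norm_num at *
  linarith

theorem sin_lb (x : ℝ) (c : ℝ) (hx : 0 < x) (hc : x ^ 2 / 6 ≤ c) (hc1 : c ≤ 1) :
    (x * (1 - c)) ^ 2 ≤ Real.sin x ^ 2 := by
  have h := Real.sin_gt_sub_cube hx
  have h1 : x * (1 - c) ≤ Real.sin x := by
    have : x - x ^ 3 / 6 = x * (1 - x ^ 2 / 6) := by ring
    have h2 : x * (1 - c) ≤ x * (1 - x ^ 2 / 6) := mul_le_mul_of_nonneg_left (by linarith) hx.le
    linarith
  exact pow_le_pow_left₀ (by apply mul_nonneg hx.le; linarith) h1 2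

theorem frac_le (c t D E : ℝ) (hc : 0 ≤ c) (ht : 0 < t) (hE : 0 < E) (hED : E ≤ 4 * D) :
    c * t / (4 * D) ≤ c * t / E := by
  apply div_le_div_of_nonneg_left (by positivity) hE hED

/-- region (b) -/
theorem reg_b (t φ : ℝ) (K : ℕ) (ht : 0 < t) (ht1 : t ≤ 1 / 180) (hφ1 : 3.5 * t ≤ φ) (hφ2 : φ ≤ 8 * t)
    (hK : Real.exp (-((2 * K : ℕ) * t)) ≤ t ^ 4)
    (hne : ∀ j ∈ Finset.range (2 * K), Zf ((2 : ℝ) : ℂ) (sp t φ) ((j : ℝ) + 1) ≠ 0) :
    GG 2 t φ (2 * K) + OG (-1) t φ K ≤ 0.553 / t := by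
  have hφ0 : 0 < φ := by norm_num at *; linarith
  have hφabs : |φ| = φ := abs_of_pos hφ0
  have hφs : φ ≤ 0.045 := by norm_num at *; linarith
  have hs1 := sin_lb (φ / 2) 0.0001 (by positivity) (by norm_num at *; nlinarith) (by norm_num)
  have hs2 := sin_lb φ 0.0004 (by positivity) (by norm_num at *; nlinarith) (by norm_num)
  have hφ2pos : 0 < φ ^ 2 := by positivity
  have hD1 : 0.999 * φ ^ 2 ≤ 4 * Real.sin (φ / 2) ^ 2 := by norm_num at *; nlinarith
  have hD2 : 3.99 * φ ^ 2 ≤ 4 * Real.sin φ ^ 2 := by norm_num at *; nlinarith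
  have hN := N_gen t φ K ht ht1 (by norm_num at *; nlinarith) (by norm_num at *; nlinarith) hK hne
  have h1 := (abs_le.1 (exact_1 t φ (2 * K) ht (by linarith) (by rw [hφabs]; exact hφ2) hK)).1
  have h3 := (abs_le.1 (OG_exact K t φ ht (by linarith) hK (fun j _ =>
    norm_ne_zero_iff.1 (lt_of_lt_of_le (by norm_num)
      (lower_a t φ ht (by rw [hφabs]; exact hφ2) _ (by positivity))).ne'))).2
  obtain ⟨ht4, ht3, ht2⟩ := t4_le t ht ht1
  have hA1 := A1c_bd
  have hlog := Real.log_two_lt_d9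
  have g1 := frac_le 1.225 t _ _ (by norm_num) ht (by positivity) hD1
  have g2 := frac_le 0.564 t _ _ (by norm_num) ht (by positivity) hD2
  set p := t / φ ^ 2 with hp
  have hp0 : 0 < p := by positivity
  have e1 : 1.225 * t / (0.999 * φ ^ 2) = (1.225 / 0.999) * p := by rw [hp]; field_simp
  have e2 : 0.564 * t / (3.99 * φ ^ 2) = (0.564 / 3.99) * p := by rw [hp]; field_simp
  rw [e1] at g1
  rw [e2] at g2
  have hp1 : p ≤ 1 / 12.25 * (1 / t) := by
    rw [hp, mul_one_div, div_le_div_iff₀ (by positivity) ht]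
    norm_num at *
    nlinarith
  set q := t / (t ^ 2 + φ ^ 2) with hq
  have hq0 : 0 < q := by positivity
  have hqp : 0.9245 * p ≤ q := by
    rw [hp, hq, mul_div_assoc', div_le_div_iff₀ (by positivity) (by positivity)]
    have h12 : 12.25 * t ^ 2 ≤ φ ^ 2 := by norm_num at *; nlinarith
    norm_num at *
    nlinarith
  have hs : 3.5 * (t ^ 2 + φ ^ 2) / t ≤ 227.5 * t := by
    rw [div_le_iff₀ ht]
    norm_num at *
    nlinarith
  have hqA : 0.82246 * q ≤ q * A1c := by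
    rw [mul_comm]
    exact mul_le_mul_of_nonneg_left hA1.1.le hq0.le
  have hi := inv_ge t ht ht1
  have e3 : 0.553 / t = 0.553 * (1 / t) := by ring
  have e4 : 0.4379 / t = 0.4379 * (1 / t) := by ring
  rw [e4] at hN
  rw [e3]
  norm_num at *
  linarith

/-- region (c) -/
theorem reg_c (t φ : ℝ) (K : ℕ) (ht : 0 < t) (ht1 : t ≤ 1 / 180) (hφ1 : 8 * t ≤ φ) (hφ2 : φ ≤ 0.3)
    (hK : Real.exp (-((2 * K : ℕ) * t)) ≤ t ^ 4)
    (hne : ∀ j ∈ Finset.range (2 * K), Zf ((2 : ℝ) : ℂ) (sp t φ) ((j : ℝ) + 1) ≠ 0) :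
    GG 2 t φ (2 * K) + OG (-1) t φ K ≤ 0.553 / t := by
  have hφ0 : 0 < φ := by linarith
  have hs1 := sin_lb (φ / 2) 0.00375 (by positivity) (by norm_num at *; nlinarith) (by norm_num)
  have hs2 := sin_lb φ 0.015 (by positivity) (by norm_num at *; nlinarith) (by norm_num)
  have hs4 := sin_lb (2 * φ) 0.06 (by positivity) (by norm_num at *; nlinarith) (by norm_num)
  have hφ2pos : 0 < φ ^ 2 := by positivity
  have hD1 : 0.9925 * φ ^ 2 ≤ 4 * Real.sin (φ / 2) ^ 2 := by norm_num at *; nlinarith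
  have hD2 : 3.88 * φ ^ 2 ≤ 4 * Real.sin φ ^ 2 := by norm_num at *; nlinarith
  have hD4 : 14.1 * φ ^ 2 ≤ 4 * Real.sin (2 * φ) ^ 2 := by norm_num at *; nlinarith
  have hN := N_gen t φ K ht ht1 (by norm_num at *; nlinarith) (by norm_num at *; nlinarith) hK hne
  have hO := O_gen1 t φ K ht ht1 (by norm_num at *; nlinarith) (by norm_num at *; nlinarith)
    (by norm_num at *; nlinarith) hK
  have g1 := frac_le 1.225 t _ _ (by norm_num) ht (by positivity) hD1
  have g2 := frac_le 0.564 t _ _ (by norm_num) ht (by positivity) hD2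
  have g3 := frac_le 0.667 t _ _ (by norm_num) ht (by positivity) hD1
  have g4 := frac_le 1.546 t _ _ (by norm_num) ht (by positivity) hD2
  have g5 := frac_le 0.404 t _ _ (by norm_num) ht (by positivity) hD4
  set p := t / φ ^ 2 with hp
  have hp0 : 0 < p := by positivity
  have e1 : 1.225 * t / (0.9925 * φ ^ 2) = (1.225 / 0.9925) * p := by rw [hp]; field_simp
  have e2 : 0.564 * t / (3.88 * φ ^ 2) = (0.564 / 3.88) * p := by rw [hp]; field_simp
  have e3 : 0.667 * t / (0.9925 * φ ^ 2) = (0.667 / 0.9925) * p := by rw [hp]; field_simp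
  have e4 : 1.546 * t / (3.88 * φ ^ 2) = (1.546 / 3.88) * p := by rw [hp]; field_simp
  have e5 : 0.404 * t / (14.1 * φ ^ 2) = (0.404 / 14.1) * p := by rw [hp]; field_simp
  rw [e1] at g1
  rw [e2] at g2
  rw [e3] at g3
  rw [e4] at g4
  rw [e5] at g5
  have hp1 : p ≤ 1 / 64 * (1 / t) := by
    rw [hp, mul_one_div, div_le_div_iff₀ (by positivity) ht]
    nlinarith
  have hi := inv_ge t ht ht1
  have e6 : 0.553 / t = 0.553 * (1 / t) := by ring
  have e7 : 0.4379 / t = 0.4379 * (1 / t) := by ring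
  have e8 : 0.06532 / t = 0.06532 * (1 / t) := by ring
  rw [e7] at hN
  rw [e8] at hO
  rw [e6]
  norm_num at *
  linarith

/-- region (d) -/
theorem reg_d (t φ : ℝ) (K : ℕ) (ht : 0 < t) (ht1 : t ≤ 1 / 180) (hφ1 : 0.3 ≤ φ) (hφ2 : φ ≤ Real.pi - 0.3)
    (hK : Real.exp (-((2 * K : ℕ) * t)) ≤ t ^ 4)
    (hne : ∀ j ∈ Finset.range (2 * K), Zf ((2 : ℝ) : ℂ) (sp t φ) ((j : ℝ) + 1) ≠ 0) :
    GG 2 t φ (2 * K) + OG (-1) t φ K ≤ 0.553 / t := by
  have hpi := Real.pi_gt_three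
  have hpi2 := Real.pi_lt_d2
  have hφ0 : 0 < φ := by norm_num at *; linarith
  have b1 : Real.sin 0.15 ≤ Real.sin (φ / 2) := by
    apply Real.sin_le_sin_of_le_of_le_pi_div_two <;> norm_num at * <;> linarith
  have c1 : 0.15 - 0.15 ^ 3 / 6 < Real.sin 0.15 := Real.sin_gt_sub_cube (by norm_num)
  have c2 : 0.3 - 0.3 ^ 3 / 6 < Real.sin 0.3 := Real.sin_gt_sub_cube (by norm_num)
  have b2 : Real.sin 0.3 ≤ Real.sin φ := by
    rcases le_or_gt φ (Real.pi / 2) with h | h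
    · apply Real.sin_le_sin_of_le_of_le_pi_div_two <;> norm_num at * <;> linarith
    · rw [← Real.sin_pi_sub φ]
      apply Real.sin_le_sin_of_le_of_le_pi_div_two <;> norm_num at * <;> linarith
  have hD1 : 0.089 ≤ 4 * Real.sin (φ / 2) ^ 2 := by
    have : (0.1494 : ℝ) ^ 2 ≤ Real.sin (φ / 2) ^ 2 := by
      apply pow_le_pow_left₀ (by norm_num)
      norm_num at *; linarith
    norm_num at *; linarith
  have hD2 : 0.34 ≤ 4 * Real.sin φ ^ 2 := by
    have : (0.295 : ℝ) ^ 2 ≤ Real.sin φ ^ 2 := by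
      apply pow_le_pow_left₀ (by norm_num)
      norm_num at *; linarith
    norm_num at *; linarith
  have hN := N_gen t φ K ht ht1 (by norm_num at *; linarith) (by norm_num at *; linarith) hK hne
  have hO := O_gen2 t φ K ht ht1 (by norm_num at *; linarith) (by norm_num at *; linarith) hK
  have g1 := frac_le 1.225 t _ _ (by norm_num) ht (by norm_num) hD1
  have g2 := frac_le 0.564 t _ _ (by norm_num) ht (by norm_num) hD2
  have g3 := frac_le 0.667 t _ _ (by norm_num) ht (by norm_num) hD1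
  have g4 := frac_le 1.346 t _ _ (by norm_num) ht (by norm_num) hD2
  have hi := inv_ge t ht ht1
  have e6 : 0.553 / t = 0.553 * (1 / t) := by ring
  have e7 : 0.4379 / t = 0.4379 * (1 / t) := by ring
  have e8 : 0.10282 / t = 0.10282 * (1 / t) := by ring
  rw [e7] at hN
  rw [e8] at hO
  rw [e6]
  norm_num at *
  linarith

/-- region (e), with `φ' = π - φ` -/
theorem reg_e (t φ : ℝ) (K : ℕ) (ht : 0 < t) (ht1 : t ≤ 1 / 180) (hφ1 : 3.5 * t ≤ φ) (hφ2 : φ ≤ 0.3)
    (hK : Real.exp (-((2 * K : ℕ) * t)) ≤ t ^ 4)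
    (hne : ∀ j ∈ Finset.range (2 * K), Zf ((2 : ℝ) : ℂ) (sp t (Real.pi - φ)) ((j : ℝ) + 1) ≠ 0) :
    GG 2 t (Real.pi - φ) (2 * K) + OG (-1) t (Real.pi - φ) K ≤ 0.553 / t := by
  have hφ0 : 0 < φ := by norm_num at *; linarith
  have hs2 := sin_lb φ 0.015 (by positivity) (by norm_num at *; nlinarith) (by norm_num)
  have hs4 := sin_lb (2 * φ) 0.06 (by positivity) (by norm_num at *; nlinarith) (by norm_num)
  have hφ2pos : 0 < φ ^ 2 := by positivity
  have r1 : Real.sin ((Real.pi - φ) / 2) = Real.cos (φ / 2) := by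
    rw [show (Real.pi - φ) / 2 = Real.pi / 2 - φ / 2 by ring, Real.sin_pi_div_two_sub]
  have r2 : Real.sin (Real.pi - φ) = Real.sin φ := Real.sin_pi_sub φ
  have r4 : Real.sin (2 * (Real.pi - φ)) ^ 2 = Real.sin (2 * φ) ^ 2 := by
    rw [show 2 * (Real.pi - φ) = 2 * Real.pi - 2 * φ by ring, Real.sin_two_pi_sub]
    ring
  have hcos : 0.98 ≤ Real.cos (φ / 2) := by
    have := Real.one_sub_sq_div_two_le_cos (x := φ / 2)
    norm_num at *
    nlinarith
  have hD1 : 3.8 ≤ 4 * Real.sin ((Real.pi - φ) / 2) ^ 2 := by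
    rw [r1]
    have : (0.98 : ℝ) ^ 2 ≤ Real.cos (φ / 2) ^ 2 := pow_le_pow_left₀ (by norm_num) hcos 2
    norm_num at *; linarith
  have hD2 : 3.88 * φ ^ 2 ≤ 4 * Real.sin (Real.pi - φ) ^ 2 := by rw [r2]; norm_num at *; nlinarith
  have hD4 : 14.1 * φ ^ 2 ≤ 4 * Real.sin (2 * (Real.pi - φ)) ^ 2 := by rw [r4]; norm_num at *; nlinarith
  have hN := N_gen t (Real.pi - φ) K ht ht1 (by norm_num at *; nlinarith) (by norm_num at *; nlinarith) hK hne
  have hO := O_gen1 t (Real.pi - φ) K ht ht1 (by norm_num at *; nlinarith) (by norm_num at *; nlinarith)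
    (by norm_num at *; nlinarith) hK
  have g1 := frac_le 1.225 t _ _ (by norm_num) ht (by norm_num) hD1
  have g2 := frac_le 0.564 t _ _ (by norm_num) ht (by positivity) hD2
  have g3 := frac_le 0.667 t _ _ (by norm_num) ht (by norm_num) hD1
  have g4 := frac_le 1.546 t _ _ (by norm_num) ht (by positivity) hD2
  have g5 := frac_le 0.404 t _ _ (by norm_num) ht (by positivity) hD4
  set p := t / φ ^ 2 with hp
  have hp0 : 0 < p := by positivity
  have e2 : 0.564 * t / (3.88 * φ ^ 2) = (0.564 / 3.88) * p := by rw [hp]; field_simp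
  have e4 : 1.546 * t / (3.88 * φ ^ 2) = (1.546 / 3.88) * p := by rw [hp]; field_simp
  have e5 : 0.404 * t / (14.1 * φ ^ 2) = (0.404 / 14.1) * p := by rw [hp]; field_simp
  rw [e2] at g2
  rw [e4] at g4
  rw [e5] at g5
  have hp1 : p ≤ 1 / 12.25 * (1 / t) := by
    rw [hp, mul_one_div, div_le_div_iff₀ (by positivity) ht]
    norm_num at *
    nlinarith
  have hi := inv_ge t ht ht1
  have e6 : 0.553 / t = 0.553 * (1 / t) := by ring
  have e7 : 0.4379 / t = 0.4379 * (1 / t) := by ring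
  have e8 : 0.06532 / t = 0.06532 * (1 / t) := by ring
  rw [e7] at hN
  rw [e8] at hO
  rw [e6]
  norm_num at *
  linarith

end Pool.Agent.Helper10.Miss
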