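import Pool.Agent.Helper10.Miss.Minor1

set_option autoImplicit false

namespace Pool.Agent.Helper10.Miss

open Set

/-- region (f), with `φ' = π - φ` -/
theorem reg_f (t φ : ℝ) (K : ℕ) (ht : 0 < t) (ht1 : t ≤ 1 / 180) (hφ1 : 0.4 * t ≤ φ) (hφ2 : φ ≤ 3.5 * t)
    (hK : Real.exp (-((2 * K : ℕ) * t)) ≤ t ^ 4) :
    GG 2 t (Real.pi - φ) (2 * K) + OG (-1) t (Real.pi - φ) K ≤ 0.553 / t := by
  have hφ0 : 0 < φ := by norm_num at *; linarith
  have hφabs : |φ| = φ := abs_of_pos hφ0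
  have hφ2abs : |2 * φ| = 2 * φ := abs_of_pos (by linarith)
  rw [GG_reflect, OG_reflect]
  have hKe := hK_half t K ht hK
  have s1 := GG_split (-2) t φ K
  have s2 := GG_split 1 t φ K
  have a1 := (abs_le.1 (exact_m2 t φ (2 * K) ht (by linarith) hφ1 hφ2 hK)).2
  have a2 := (abs_le.1 (exact_m2 (2 * t) (2 * φ) K (by linarith) (by linarith)
    (by norm_num at *; linarith) (by norm_num at *; linarith) hKe)).1
  have a3 := (abs_le.1 (exact_2 (2 * t) (2 * φ) K (by linarith) (by linarith)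
    (by rw [hφ2abs]; norm_num at *; linarith) hKe)).2
  have a4 := (abs_le.1 (exact_1 t φ (2 * K) ht (by linarith) (by rw [hφabs]; norm_num at *; linarith) hK)).2
  have a5 := (abs_le.1 (exact_1 (2 * t) (2 * φ) K (by linarith) (by linarith)
    (by rw [hφ2abs]; norm_num at *; linarith) hKe)).1
  have hq2 : 2 * t / ((2 * t) ^ 2 + (2 * φ) ^ 2) = (t / (t ^ 2 + φ ^ 2)) / 2 := by
    field_simp
  have hr : 2 * φ / (2 * t) = φ / t := by field_simp
  rw [hq2, hr] at a2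
  rw [hq2] at a3 a5
  set q := t / (t ^ 2 + φ ^ 2) with hq
  have hq0 : 0 < q := by positivity
  have b1 : 3.5 * (t ^ 2 + φ ^ 2) / t ≤ 46.5 * t := by
    rw [div_le_iff₀ ht]
    norm_num at *
    nlinarith
  have b2 : 3.5 * ((2 * t) ^ 2 + (2 * φ) ^ 2) / (2 * t) ≤ 93 * t := by
    rw [div_le_iff₀ (by positivity)]
    norm_num at *
    nlinarith
  have hlog3 : 0 ≤ Real.log 3 := Real.log_nonneg (by norm_num)
  -- the constant
  have hconst : q / 2 * (Am2c (φ / t) + A2c + A1c) ≤ 0.5 * (1 / t) := by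
    have h1 := pi_sq_bd
    have h2 := log2_sq_bd
    have h3 := Dl_half
    have h4 := Dl_mhalf
    have h5 : Real.pi * Real.log 2 ≤ 2.1776 := by
      have p1 := Real.pi_lt_d6
      have p2 := Real.log_two_lt_d9
      have p3 := Real.pi_pos
      have p4 := Real.log_two_gt_d9
      norm_num at *
      nlinarith
    have hθ : 0 < φ / t := by positivity
    have h6 : Am2c (φ / t) + A2c + A1c ≤ -0.208 + 2.1776 * (φ / t) := by
      unfold Am2c A2c A1c
      have h7 : Real.pi * (φ / t * Real.log 2) ≤ 2.1776 * (φ / t) := by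
        have : Real.pi * (φ / t * Real.log 2) = (Real.pi * Real.log 2) * (φ / t) := by ring
        rw [this]
        exact mul_le_mul_of_nonneg_right h5 hθ.le
      norm_num at *
      linarith [h1.1, h1.2, h2.1, h2.2, h3.1, h3.2, h4.1, h4.2]
    have h8 : q / 2 * (Am2c (φ / t) + A2c + A1c) ≤ q / 2 * (-0.208 + 2.1776 * (φ / t)) :=
      mul_le_mul_of_nonneg_left h6 (by positivity)
    refine h8.trans ?_
    have h9 : q = (1 / t) / (1 + (φ / t) ^ 2) := by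
      rw [hq]; field_simp
    rw [h9]
    have h10 : (1 / t) / (1 + (φ / t) ^ 2) / 2 * (-0.208 + 2.1776 * (φ / t)) =
        (1 / t) * ((-0.208 + 2.1776 * (φ / t)) / (2 * (1 + (φ / t) ^ 2))) := by
      field_simp
    rw [h10, mul_comm]
    apply mul_le_mul_of_nonneg_right _ (by positivity)
    rw [div_le_iff₀ (by positivity)]
    norm_num
    nlinarith [sq_nonneg (φ / t - 1.0888)]
  have hi := inv_ge t ht ht1
  have e6 : 0.553 / t = 0.553 * (1 / t) := by ring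
  rw [e6]
  norm_num at *
  linarith

theorem Zf_mul (t φ x : ℝ) : Zf ((-2 : ℝ) : ℂ) (sp t φ) x * Zf ((2 : ℝ) : ℂ) (sp t φ) x =
    Zf ((-4 : ℝ) : ℂ) (sp (2 * t) (2 * φ)) x := by
  unfold Zf
  have h : Complex.exp (-(x * sp (2 * t) (2 * φ))) = Complex.exp (-(x * sp t φ)) * Complex.exp (-(x * sp t φ)) := by
    rw [← Complex.exp_add]
    congr 1
    apply Complex.ext
    · simp; ring
    · simp; ring
  rw [h]
  push_cast
  ring

/-- the function `v^2 exp(-2v)` and its relatives -/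
theorem q_H (v : ℝ) : HasDerivAt (fun v : ℝ => -(v ^ 2 / 2 + v / 2 + 1 / 4) * Real.exp (-2 * v))
    (v ^ 2 * Real.exp (-2 * v)) v := by
  have h1 : HasDerivAt (fun v : ℝ => Real.exp (-2 * v)) (-2 * Real.exp (-2 * v)) v := by
    have := ((hasDerivAt_id v).const_mul (-2)).exp
    refine this.congr_deriv ?_
    simp; ring
  have h2 : HasDerivAt (fun v : ℝ => -(v ^ 2 / 2 + v / 2 + 1 / 4)) (-(v + 1 / 2)) v := by
    have := (((((hasDerivAt_id v).pow 2).div_const 2).add ((hasDerivAt_id v).div_const 2)).add_const (1 / 4)).neg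
    refine this.congr_deriv ?_
    simp
  refine (h2.mul h1).congr_deriv ?_
  ring

theorem q_G1 (v : ℝ) : HasDerivAt (fun v : ℝ => v ^ 2 * Real.exp (-2 * v))
    ((2 * v - 2 * v ^ 2) * Real.exp (-2 * v)) v := by
  have h1 : HasDerivAt (fun v : ℝ => Real.exp (-2 * v)) (-2 * Real.exp (-2 * v)) v := by
    have := ((hasDerivAt_id v).const_mul (-2)).exp
    refine this.congr_deriv ?_
    simp; ring
  refine (((hasDerivAt_id v).pow 2).mul h1).congr_deriv ?_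
  simp
  ring

theorem q_G2 (v : ℝ) : HasDerivAt (fun v : ℝ => (2 * v - 2 * v ^ 2) * Real.exp (-2 * v))
    ((2 - 8 * v + 4 * v ^ 2) * Real.exp (-2 * v)) v := by
  have h1 : HasDerivAt (fun v : ℝ => Real.exp (-2 * v)) (-2 * Real.exp (-2 * v)) v := by
    have := ((hasDerivAt_id v).const_mul (-2)).exp
    refine this.congr_deriv ?_
    simp; ring
  have h2 : HasDerivAt (fun v : ℝ => 2 * v - 2 * v ^ 2) (2 - 4 * v) v := by
    have := ((hasDerivAt_id v).const_mul 2).sub (((hasDerivAt_id v).pow 2).const_mul 2)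
    refine this.congr_deriv ?_
    simp; ring
  refine (h2.mul h1).congr_deriv ?_
  ring

theorem q_bd (v : ℝ) (hv : 0 ≤ v) : |(2 - 8 * v + 4 * v ^ 2) * Real.exp (-2 * v)| ≤ 8 * Real.exp (-v) := by
  have h1 : Real.exp (-2 * v) = Real.exp (-v) * Real.exp (-v) := by rw [← Real.exp_add]; ring_nf
  have h2 : 1 + v + v ^ 2 / 2 + v ^ 3 / 6 ≤ Real.exp v := exp_ge3 v hv
  have h3 : Real.exp v * Real.exp (-v) = 1 := by rw [← Real.exp_add]; simp
  have h4 := Real.exp_pos (-v)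
  have h5 : |2 - 8 * v + 4 * v ^ 2| ≤ 8 * Real.exp v := by
    have : 0 ≤ v ^ 3 := by positivity
    rw [abs_le]
    constructor <;> nlinarith [sq_nonneg v]
  rw [abs_mul, abs_of_pos (Real.exp_pos _), h1]
  calc |2 - 8 * v + 4 * v ^ 2| * (Real.exp (-v) * Real.exp (-v)) ≤
        (8 * Real.exp v) * (Real.exp (-v) * Real.exp (-v)) := by gcongr
    _ = 8 * (Real.exp v * Real.exp (-v)) * Real.exp (-v) := by ring
    _ = 8 * Real.exp (-v) := by rw [h3]; ring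

/-- quadratic exponential sum -/
noncomputable def QS (t : ℝ) (M : ℕ) : ℝ :=
  ∑ j ∈ Finset.range M, (((j + 1 : ℕ) : ℝ) * t) ^ 2 * Real.exp (-2 * (((j + 1 : ℕ) : ℝ) * t))

noncomputable def QO (t : ℝ) (K : ℕ) : ℝ :=
  ∑ i ∈ Finset.range K, (((2 * i + 1 : ℕ) : ℝ) * t) ^ 2 * Real.exp (-2 * (((2 * i + 1 : ℕ) : ℝ) * t))

theorem QS_split (t : ℝ) (K : ℕ) : QS t (2 * K) = QO t K + QS (2 * t) K := by
  unfold QS QO
  have h := sum_split (fun n : ℕ => ((n : ℝ) * t) ^ 2 * Real.exp (-2 * ((n : ℝ) * t))) K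
  rw [h]
  congr 1
  apply Finset.sum_congr rfl
  intro i _
  push_cast
  ring_nf

theorem QS_bd (t : ℝ) (M : ℕ) (ht : 0 < t) (ht1 : t ≤ 1) (hE : Real.exp (-(M * t)) ≤ t ^ 4) :
    |QS t M - 1 / (4 * t)| ≤ 2 / 3 * t * (1 + t) + 2 * t ^ 3 := by
  have h := riem (fun v : ℝ => v ^ 2 * Real.exp (-2 * v)) _ _ _ 8 t 0 ht (by norm_num)
    q_H q_G1 q_G2 (fun v hv => q_bd v (by simpa using hv)) M
  simp only [sub_zero, neg_zero, Real.exp_zero, mul_zero, mul_one] at h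
  have hv0 : 0 ≤ (M : ℝ) * t := by positivity
  set v := (M : ℝ) * t with hv
  have h1 : Real.exp (-2 * v) = Real.exp (-v) * Real.exp (-v) := by rw [← Real.exp_add]; ring_nf
  have h2 : 1 + v + v ^ 2 / 2 + v ^ 3 / 6 ≤ Real.exp v := exp_ge3 v hv0
  have h3 : Real.exp v * Real.exp (-v) = 1 := by rw [← Real.exp_add]; simp
  have h4 := Real.exp_pos (-v)
  have hv3 : 0 ≤ v ^ 3 := by positivity
  have c1 : (v ^ 2 / 2 + v / 2 + 1 / 4) * Real.exp (-2 * v) ≤ t ^ 4 := by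
    rw [h1]
    have : (v ^ 2 / 2 + v / 2 + 1 / 4) ≤ Real.exp v := by nlinarith
    calc (v ^ 2 / 2 + v / 2 + 1 / 4) * (Real.exp (-v) * Real.exp (-v)) ≤
          Real.exp v * (Real.exp (-v) * Real.exp (-v)) := by gcongr
      _ = (Real.exp v * Real.exp (-v)) * Real.exp (-v) := by ring
      _ ≤ t ^ 4 := by rw [h3, one_mul]; exact hE
  have c1' : 0 ≤ (v ^ 2 / 2 + v / 2 + 1 / 4) * Real.exp (-2 * v) := by positivity
  have c2 : v ^ 2 * Real.exp (-2 * v) ≤ 2 * t ^ 4 := by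
    have : v ^ 2 * Real.exp (-2 * v) ≤ 2 * ((v ^ 2 / 2 + v / 2 + 1 / 4) * Real.exp (-2 * v)) := by
      have := Real.exp_pos (-2 * v)
      nlinarith
    linarith
  have c2' : 0 ≤ v ^ 2 * Real.exp (-2 * v) := by positivity
  have e1 : (-(v ^ 2 / 2 + v / 2 + 1 / 4) * Real.exp (-2 * v) - -(0 ^ 2 / 2 + 0 / 2 + 1 / 4)) / t =
      1 / (4 * t) - ((v ^ 2 / 2 + v / 2 + 1 / 4) * Real.exp (-2 * v)) / t := by
    field_simp
    ring
  rw [e1] at h
  have c3 : ((v ^ 2 / 2 + v / 2 + 1 / 4) * Real.exp (-2 * v)) / t ≤ t ^ 3 := by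
    rw [div_le_iff₀ ht]
    have : t ^ 3 * t = t ^ 4 := by ring
    linarith
  have c3' : 0 ≤ ((v ^ 2 / 2 + v / 2 + 1 / 4) * Real.exp (-2 * v)) / t := by positivity
  have e2 : 8 * t * (1 + t) / 12 = 2 / 3 * t * (1 + t) := by ring
  rw [e2] at h
  have h5 := abs_le.1 h
  have h6 : t ^ 4 ≤ t ^ 3 := pow_le_pow_of_le_one ht.le ht1 (by norm_num)
  unfold QS
  rw [abs_le]
  constructor <;> nlinarith [h5.1, h5.2]

/-- the sech sum with parameter `2 log 2` -/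
theorem S4_bd (τ : ℝ) (M : ℕ) (hτ : 0 < τ) (hτ1 : τ ≤ 1) (hE : Real.exp (-(M * τ)) ≤ τ ^ 4) :
    |Sm 1 τ (2 * Real.log 2) 0 M + sc (-(2 * Real.log 2)) / 2 - (Real.pi - 2 * Real.arctan (1 / 4)) / τ| ≤
      2 / 3 * τ * (1 + τ) + 20 * τ ^ 3 := by
  have h := riem sc (fun v => -(sc v * ta v)) (fun v => sc v - 2 * sc v ^ 3) gd 2 τ (2 * Real.log 2) hτ
    (by norm_num) hasDerivAt_gd sc1_d1 sc1_d2 (fun v _ => bd1 v) M
  have he4 : Real.exp (2 * Real.log 2) = 4 := by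
    rw [show 2 * Real.log 2 = Real.log 2 + Real.log 2 by ring, Real.exp_add, exp_log2]; norm_num
  have e : Sm 1 τ (2 * Real.log 2) 0 M = ∑ j ∈ Finset.range M, sc (((j + 1 : ℕ) : ℝ) * τ - 2 * Real.log 2) := by
    unfold Sm; simp
  rw [← e, he4] at h
  have hg : gd (-(2 * Real.log 2)) = 2 * Real.arctan (1 / 4) := by
    unfold gd
    rw [Real.exp_neg, he4]; norm_num
  rw [hg] at h
  set v := (M : ℝ) * τ - 2 * Real.log 2 with hv
  have h1 : Real.exp (-v) = 4 * Real.exp (-(M * τ)) := by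
    rw [hv, ← he4, ← Real.exp_add]; ring_nf
  have h2 := gd_ge v
  have h3 := gd_le v
  have h4 := sc_le_exp v
  have h5 := sc_pos v
  rw [h1] at h2 h4
  have h6 : (gd v - 2 * Real.arctan (1 / 4)) / τ = (Real.pi - 2 * Real.arctan (1 / 4)) / τ - (Real.pi - gd v) / τ := by
    ring
  rw [h6] at h
  have c1 : (Real.pi - gd v) / τ ≤ 8 * τ ^ 3 := by
    rw [div_le_iff₀ hτ]
    have : 8 * τ ^ 3 * τ = 8 * τ ^ 4 := by ring
    linarith
  have c2 : 0 ≤ (Real.pi - gd v) / τ := div_nonneg (by linarith) hτ.le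
  have e2 : 2 * 4 * τ * (1 + τ) / 12 = 2 / 3 * τ * (1 + τ) := by ring
  rw [e2] at h
  have h7 := abs_le.1 h
  have h8 : τ ^ 4 ≤ τ ^ 3 := pow_le_pow_of_le_one hτ.le hτ1 (by norm_num)
  rw [abs_le]
  constructor <;> linarith [h7.1, h7.2]

/-- lower bound of the odd sech sum with a small frequency -/
theorem OS4_lower (t φ : ℝ) (K : ℕ) (ht : 0 < t) (ht1 : t ≤ 1 / 180) (hφ : 0 ≤ φ) (hφ2 : φ ≤ 0.4 * t)
    (hK : Real.exp (-((2 * K : ℕ) * t)) ≤ t ^ 4) :
    0.6603 / t - 2 * (φ / t) ^ 2 / t - 13 * t ≤ OS 1 (2 * t) (2 * Real.log 2) (2 * φ) K := by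
  obtain ⟨ht4, ht3, ht2⟩ := t4_le t ht ht1
  have he4 : Real.exp (2 * Real.log 2) = 4 := by
    rw [show 2 * Real.log 2 = Real.log 2 + Real.log 2 by ring, Real.exp_add, exp_log2]; norm_num
  -- reduce the frequency
  have h1 : OS 1 (2 * t) (2 * Real.log 2) 0 K - 16 * (φ / t) ^ 2 * QO t K ≤
      OS 1 (2 * t) (2 * Real.log 2) (2 * φ) K := by
    unfold OS QO
    rw [Finset.mul_sum, ← Finset.sum_sub_distrib]
    apply Finset.sum_le_sum
    intro i _
    rw [mul_zero, Real.cos_zero, pow_one, mul_one]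
    set x := ((2 * i + 1 : ℕ) : ℝ) with hx
    have hx0 : 0 ≤ x := by positivity
    have hcos := Real.one_sub_sq_div_two_le_cos (x := x * (2 * φ))
    have hs0 := sc_pos (x * (2 * t) - 2 * Real.log 2)
    have hs1 := sc_le_exp (x * (2 * t) - 2 * Real.log 2)
    have e1 : Real.exp (-(x * (2 * t) - 2 * Real.log 2)) = 4 * Real.exp (-2 * (x * t)) := by
      rw [← he4, ← Real.exp_add]; ring_nf
    rw [e1] at hs1
    have h2 : sc (x * (2 * t) - 2 * Real.log 2) * (1 - (x * (2 * φ)) ^ 2 / 2) ≤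
        sc (x * (2 * t) - 2 * Real.log 2) * Real.cos (x * (2 * φ)) := mul_le_mul_of_nonneg_left hcos hs0.le
    have h3 : 0 ≤ (x * φ) ^ 2 := by positivity
    have h4 : sc (x * (2 * t) - 2 * Real.log 2) * (x * φ) ^ 2 ≤ 2 * (4 * Real.exp (-2 * (x * t))) * (x * φ) ^ 2 :=
      mul_le_mul_of_nonneg_right hs1 h3
    have e2 : 16 * (φ / t) ^ 2 * ((x * t) ^ 2 * Real.exp (-2 * (x * t))) =
        16 * ((x * φ) ^ 2 * Real.exp (-2 * (x * t))) := by
      field_simp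
    rw [e2]
    nlinarith
  have hKe := hK_half t K ht hK
  have hK2 : Real.exp (-((2 * K : ℕ) * (2 * t))) ≤ (2 * t) ^ 4 := hK_scale t (2 * K) 2 (by norm_num) ht hK
  have hKe2 : Real.exp (-(K * (2 * (2 * t)))) ≤ (2 * (2 * t)) ^ 4 := hK_half (2 * t) K (by linarith) hK2
  have q0 := QS_split t K
  have q1 := abs_le.1 (QS_bd t (2 * K) ht (by linarith) hK)
  have q2 := abs_le.1 (QS_bd (2 * t) K (by linarith) (by linarith) hKe)
  have s0 := Sm_split 1 (2 * t) (2 * Real.log 2) 0 K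
  have s1 := abs_le.1 (S4_bd (2 * t) (2 * K) (by linarith) (by linarith) hK2)
  have s2 := abs_le.1 (S4_bd (2 * (2 * t)) K (by linarith) (by linarith) hKe2)
  rw [show 2 * (0 : ℝ) = 0 by norm_num] at s0
  have harc : Real.arctan (1 / 4) ≤ 1 / 4 := arctan_le_self' _ (by norm_num)
  have hpi := Real.pi_gt_d4
  have hQ : QO t K ≤ 1 / 8 * (1 / t) + 3 * t := by
    have e1 : 1 / (4 * t) = 1 / 4 * (1 / t) := by field_simp
    have e2 : 1 / (4 * (2 * t)) = 1 / 8 * (1 / t) := by field_simp; norm_num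
    rw [e1] at q1
    rw [e2] at q2
    have e3 : 2 / 3 * t * (1 + t) = 2 / 3 * t + 2 / 3 * t ^ 2 := by ring
    have e4 : 2 / 3 * (2 * t) * (1 + 2 * t) = 4 / 3 * t + 8 / 3 * t ^ 2 := by ring
    have e5 : (2 * t) ^ 3 = 8 * t ^ 3 := by ring
    rw [e3] at q1
    rw [e4, e5] at q2
    linarith [q1.1, q1.2, q2.1, q2.2]
  have hOS : 0.6603 * (1 / t) - 5 * t ≤ OS 1 (2 * t) (2 * Real.log 2) 0 K := by
    set P := Real.pi - 2 * Real.arctan (1 / 4) with hP
    have hP1 : 2.6414 ≤ P := by norm_num at *; linarith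
    have e1 : P / (2 * t) = P / 2 * (1 / t) := by field_simp
    have e2 : P / (2 * (2 * t)) = P / 4 * (1 / t) := by field_simp; ring
    rw [e1] at s1
    rw [e2] at s2
    have e3 : 2 / 3 * (2 * t) * (1 + 2 * t) = 4 / 3 * t + 8 / 3 * t ^ 2 := by ring
    have e4 : 2 / 3 * (2 * (2 * t)) * (1 + 2 * (2 * t)) = 8 / 3 * t + 32 / 3 * t ^ 2 := by ring
    have e5 : (2 * t) ^ 3 = 8 * t ^ 3 := by ring
    have e6 : (2 * (2 * t)) ^ 3 = 64 * t ^ 3 := by ring
    rw [e3, e5] at s1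
    rw [e4, e6] at s2
    have hi : 0 < 1 / t := by positivity
    have e7 : 2.6414 * (1 / t) ≤ P * (1 / t) := mul_le_mul_of_nonneg_right hP1 hi.le
    have e8 : P / 2 * (1 / t) = P * (1 / t) / 2 := by ring
    have e9 : P / 4 * (1 / t) = P * (1 / t) / 4 := by ring
    rw [e8] at s1
    rw [e9] at s2
    norm_num at e7 ⊢
    norm_num at s1 s2
    have hi2 : 0 < t⁻¹ := inv_pos.2 ht
    linarith [s1.1, s1.2, s2.1, s2.2]
  have hy0 : 0 ≤ (φ / t) ^ 2 := by positivity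
  have hy1 : (φ / t) ^ 2 ≤ 0.16 := by
    have h2 : φ / t ≤ 0.4 := by rw [div_le_iff₀ ht]; exact hφ2
    have h3 : 0 ≤ φ / t := by positivity
    norm_num at *
    nlinarith
  have h5 : 16 * (φ / t) ^ 2 * QO t K ≤ 16 * (φ / t) ^ 2 * (1 / 8 * (1 / t) + 3 * t) :=
    mul_le_mul_of_nonneg_left hQ (by positivity)
  have e1 : 2 * (φ / t) ^ 2 / t = 2 * (φ / t) ^ 2 * (1 / t) := by ring
  have e2 : 0.6603 / t = 0.6603 * (1 / t) := by ring
  rw [e1, e2]
  have h6 : 16 * (φ / t) ^ 2 * (1 / 8 * (1 / t) + 3 * t) = 2 * (φ / t) ^ 2 * (1 / t) + 48 * ((φ / t) ^ 2 * t) := by ring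
  have h7 : (φ / t) ^ 2 * t ≤ 0.16 * t := mul_le_mul_of_nonneg_right hy1 ht.le
  have h8 : OS 1 (2 * t) (2 * Real.log 2) 0 K - (2 * (φ / t) ^ 2 * (1 / t) + 48 * ((φ / t) ^ 2 * t)) ≤
      OS 1 (2 * t) (2 * Real.log 2) (2 * φ) K := by rw [← h6]; linarith
  norm_num at h7 h8 hOS ⊢
  linarith

end Pool.Agent.Helper10.Miss
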