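import Pool.Agent.Helper10.Miss.Minor2

set_option autoImplicit false

namespace Pool.Agent.Helper10.Miss

open Set

/-- region (g), with `φ' = π - φ` -/
theorem reg_g (t φ : ℝ) (K : ℕ) (ht : 0 < t) (ht1 : t ≤ 1 / 180) (hφ1 : 0 ≤ φ) (hφ2 : φ ≤ 0.4 * t)
    (hK : Real.exp (-((2 * K : ℕ) * t)) ≤ t ^ 4)
    (hne : ∀ j ∈ Finset.range (2 * K), Zf ((2 : ℝ) : ℂ) (sp t (Real.pi - φ)) ((j : ℝ) + 1) ≠ 0) :
    GG 2 t (Real.pi - φ) (2 * K) + OG (-1) t (Real.pi - φ) K ≤ 0.553 / t := by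
  obtain ⟨ht4, ht3, ht2⟩ := t4_le t ht ht1
  have hφabs : |φ| = φ := abs_of_nonneg hφ1
  have hφ2abs : |2 * φ| = 2 * φ := abs_of_nonneg (by linarith)
  rw [GG_reflect, OG_reflect]
  have hlowb := lower_b t φ ht (by rw [hφabs]; norm_num at *; linarith)
  -- splitting of the odd factors
  have h1 : OG (-2) t φ K = OG (-4) (2 * t) (2 * φ) K - OG 2 t φ K := by
    unfold OG
    rw [← Finset.sum_sub_distrib]
    apply Finset.sum_congr rfl
    intro i hi
    have hi2 : 2 * i ∈ Finset.range (2 * K) := by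
      rw [Finset.mem_range] at *; omega
    have hn := hne (2 * i) hi2
    have e : ((2 * i : ℕ) : ℝ) + 1 = ((2 * i + 1 : ℕ) : ℝ) := by push_cast; ring
    rw [e] at hn
    have hn2 : Zf ((-2 : ℝ) : ℂ) (sp t φ) ((2 * i + 1 : ℕ) : ℝ) ≠ 0 := by
      have h2 := norm_reflect 2 t φ (2 * i + 1)
      have e2 : (-1 : ℝ) ^ (2 * i + 1) * 2 = -2 := by
        rw [pow_succ, pow_mul]; norm_num
      rw [e2] at h2
      intro h0
      rw [h0, norm_zero, norm_eq_zero] at h2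
      exact hn h2
    have hn3 : Zf ((2 : ℝ) : ℂ) (sp t φ) ((2 * i + 1 : ℕ) : ℝ) ≠ 0 :=
      norm_ne_zero_iff.1 (lt_of_lt_of_le (by norm_num) (hlowb _ (by positivity))).ne'
    rw [← Zf_mul, norm_mul, Real.log_mul (norm_ne_zero_iff.2 hn2) (norm_ne_zero_iff.2 hn3)]
    ring
  have h2 : OG (-4) (2 * t) (2 * φ) K ≤ OG 16 (4 * t) 0 K / 2 - OS 1 (2 * t) (2 * Real.log 2) (2 * φ) K / 2 := by
    unfold OG OS
    rw [Finset.sum_div, Finset.sum_div, ← Finset.sum_sub_distrib]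
    apply Finset.sum_le_sum
    intro i hi
    have hi2 : 2 * i ∈ Finset.range (2 * K) := by
      rw [Finset.mem_range] at *; omega
    have hn := hne (2 * i) hi2
    have e : ((2 * i : ℕ) : ℝ) + 1 = ((2 * i + 1 : ℕ) : ℝ) := by push_cast; ring
    rw [e] at hn
    have hn2 : Zf ((-2 : ℝ) : ℂ) (sp t φ) ((2 * i + 1 : ℕ) : ℝ) ≠ 0 := by
      have h2 := norm_reflect 2 t φ (2 * i + 1)
      have e2 : (-1 : ℝ) ^ (2 * i + 1) * 2 = -2 := by
        rw [pow_succ, pow_mul]; norm_num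
      rw [e2] at h2
      intro h0
      rw [h0, norm_zero, norm_eq_zero] at h2
      exact hn h2
    have hn3 : Zf ((2 : ℝ) : ℂ) (sp t φ) ((2 * i + 1 : ℕ) : ℝ) ≠ 0 :=
      norm_ne_zero_iff.1 (lt_of_lt_of_le (by norm_num) (hlowb _ (by positivity))).ne'
    have := factor_4 t φ (((2 * i + 1 : ℕ) : ℝ)) (by rw [← Zf_mul]; exact mul_ne_zero hn2 hn3)
    rw [pow_one]
    exact this
  have h3 := OS4_lower t φ K ht ht1 hφ1 hφ2 hK
  -- the 16-sum
  have hKe := hK_half t K ht hK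
  have hK4 : Real.exp (-((2 * K : ℕ) * (4 * t))) ≤ (4 * t) ^ 4 := hK_scale t (2 * K) 4 (by norm_num) ht hK
  have hKe4 : Real.exp (-(K * (2 * (4 * t)))) ≤ (2 * (4 * t)) ^ 4 := hK_half (4 * t) K (by linarith) hK4
  have s16 := GG_split 16 (4 * t) 0 K
  rw [show 2 * (0 : ℝ) = 0 by norm_num] at s16
  have g1 := (abs_le.1 (exact_real 16 (Real.log 16) (4 * t) (2 * K) (Real.log_nonneg (by norm_num))
    (Real.exp_log (by norm_num)).symm le_rfl (by linarith) (by linarith) hK4)).2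
  have g2 := (abs_le.1 (exact_real 16 (Real.log 16) (2 * (4 * t)) K (Real.log_nonneg (by norm_num))
    (Real.exp_log (by norm_num)).symm le_rfl (by linarith) (by linarith) hKe4)).1
  have hA16 := A16c_bd
  have eA : Real.log 16 ^ 2 / 2 + Real.pi ^ 2 / 6 - Dl (1 / 16) = A16c := rfl
  rw [eA] at g1 g2
  have hO16 : OG 16 (4 * t) 0 K ≤ 0.6784 * (1 / t) + 19.2 * t := by
    have e1 : 1 / (4 * t) * A16c = A16c * (1 / t) / 4 := by field_simp
    have e2 : 1 / (2 * (4 * t)) * A16c = A16c * (1 / t) / 8 := by field_simp; ring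
    rw [e1] at g1
    rw [e2] at g2
    have hi : 0 < 1 / t := by positivity
    have e3 : A16c * (1 / t) ≤ 5.4272 * (1 / t) := mul_le_mul_of_nonneg_right hA16.le hi.le
    norm_num at g1 g2 e3 ⊢
    linarith
  -- the 2-sums and the 1-sums
  have s2 := GG_split 2 t φ K
  have s1 := GG_split 1 t φ K
  have a2 := (abs_le.1 (exact_2 t φ (2 * K) ht (by linarith) (by rw [hφabs]; norm_num at *; linarith) hK)).1
  have a3 := (abs_le.1 (exact_2 (2 * t) (2 * φ) K (by linarith) (by linarith)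
    (by rw [hφ2abs]; norm_num at *; linarith) hKe)).2
  have a4 := (abs_le.1 (exact_1 t φ (2 * K) ht (by linarith) (by rw [hφabs]; norm_num at *; linarith) hK)).2
  have a5 := (abs_le.1 (exact_1 (2 * t) (2 * φ) K (by linarith) (by linarith)
    (by rw [hφ2abs]; norm_num at *; linarith) hKe)).1
  have hq2 : 2 * t / ((2 * t) ^ 2 + (2 * φ) ^ 2) = (t / (t ^ 2 + φ ^ 2)) / 2 := by
    field_simp
  rw [hq2] at a3 a5
  set q := t / (t ^ 2 + φ ^ 2) with hq
  have hq0 : 0 < q := by positivity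
  have b1 : 3.5 * (t ^ 2 + φ ^ 2) / t ≤ 4.1 * t := by
    rw [div_le_iff₀ ht]
    norm_num at *
    nlinarith
  have b2 : 3.5 * ((2 * t) ^ 2 + (2 * φ) ^ 2) / (2 * t) ≤ 8.2 * t := by
    rw [div_le_iff₀ (by positivity)]
    norm_num at *
    nlinarith
  have hlog3 : 0 ≤ Real.log 3 := Real.log_nonneg (by norm_num)
  have hA1 := A1c_bd
  set y := (φ / t) ^ 2 with hy
  have hy0 : 0 ≤ y := by positivity
  have hy1 : y ≤ 0.16 := by
    have h2 : φ / t ≤ 0.4 := by rw [div_le_iff₀ ht]; exact hφ2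
    have h3 : 0 ≤ φ / t := by positivity
    rw [hy]
    norm_num at *
    nlinarith
  have hqy : q * A1c / 2 + y * (1 / t) ≤ 0.5146 * (1 / t) := by
    have h9 : q = (1 / t) / (1 + y) := by
      rw [hq, hy]; field_simp
    rw [h9]
    have hi : 0 < 1 / t := by positivity
    have h10 : (1 / t) / (1 + y) * A1c / 2 + y * (1 / t) = (A1c / (2 * (1 + y)) + y) * (1 / t) := by
      field_simp
    rw [h10]
    apply mul_le_mul_of_nonneg_right _ hi.le
    have h11 : A1c / (2 * (1 + y)) ≤ 0.5146 - y := by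
      rw [div_le_iff₀ (by positivity)]
      norm_num at *
      nlinarith
    linarith
  have hi := inv_ge t ht ht1
  have e1 : 2 * y / t = 2 * (y * (1 / t)) := by ring
  have e2 : 0.6603 / t = 0.6603 * (1 / t) := by ring
  have e6 : 0.553 / t = 0.553 * (1 / t) := by ring
  rw [e1, e2] at h3
  rw [e6]
  norm_num at *
  linarith

/-- the minor arcs -/
theorem minor (t φ : ℝ) (K : ℕ) (ht : 0 < t) (ht1 : t ≤ 1 / 180) (hφ1 : t / 2 ≤ φ) (hφ2 : φ ≤ Real.pi)
    (hK : Real.exp (-((2 * K : ℕ) * t)) ≤ t ^ 4) :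
    ‖PK K (Complex.exp (-(sp t φ)))‖ ≤ Real.exp (0.553 / t) := by
  by_cases hP : PK K (Complex.exp (-(sp t φ))) = 0
  · rw [hP, norm_zero]; exact (Real.exp_pos _).le
  obtain ⟨hl, hne⟩ := log_norm_PK K t φ hP
  rw [← Real.log_le_iff_le_exp (norm_pos_iff.2 hP), hl]
  rcases le_or_gt φ (3.5 * t) with h1 | h1
  · exact reg_a t φ K ht ht1 hφ1 h1 hK
  rcases le_or_gt φ (8 * t) with h2 | h2
  · exact reg_b t φ K ht ht1 h1.le h2 hK hne
  rcases le_or_gt φ 0.3 with h3 | h3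
  · exact reg_c t φ K ht ht1 h2.le h3 hK hne
  rcases le_or_gt φ (Real.pi - 0.3) with h4 | h4
  · exact reg_d t φ K ht ht1 h3.le h4 hK hne
  obtain ⟨ψ, hψ⟩ : ∃ ψ, φ = Real.pi - ψ := ⟨Real.pi - φ, by ring⟩
  subst hψ
  rcases le_or_gt (3.5 * t) ψ with h5 | h5
  · exact reg_e t ψ K ht ht1 h5 (by linarith) hK hne
  rcases le_or_gt (0.4 * t) ψ with h6 | h6
  · exact reg_f t ψ K ht ht1 h6 h5.le hK
  · exact reg_g t ψ K ht ht1 (by linarith) h6.le hK hne

end Pool.Agent.Helper10.Miss
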