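import Mathlib

set_option autoImplicit false

/-!
Missing integers of a partition.
-/

namespace Pool.Agent.Helper10.Miss

/-- The largest part of a partition (`0` for the empty partition). -/
def largest {n : ℕ} (p : n.Partition) : ℕ := p.parts.sup

/-- The number of missing integers of a partition: positive integers smaller than the
largest part that do not occur as a part. -/
def missing {n : ℕ} (p : n.Partition) : ℕ :=
  ((Finset.Ico 1 (largest p)).filter (fun i => i ∉ p.parts)).card

/-- The number of partitions of `n` with an even number of missing integers. -/
def Me (n : ℕ) : ℕ := (Finset.univ.filter (fun p : n.Partition => Even (missing p))).card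

/-- The number of partitions of `n` with an odd number of missing integers. -/
def Mo (n : ℕ) : ℕ := (Finset.univ.filter (fun p : n.Partition => Odd (missing p))).card

end Pool.Agent.Helper10.Miss
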