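import Pool.Agent.Helper10.Miss.Sums
import Pool.Agent.Helper10.Miss.Lower

set_option autoImplicit false

namespace Pool.Agent.Helper10.Miss

open Set

theorem log_53 : Real.log (5 / 3) ≤ 0.511 := by
  rw [Real.log_le_iff_le_exp (by norm_num)]
  have := Real.sum_le_exp_of_nonneg (show (0 : ℝ) ≤ 0.511 by norm_num) 6
  simp [Finset.sum_range_succ, Nat.factorial] at this
  norm_num at this ⊢
  linarith

theorem hasDerivAt_D (a b y : ℝ) (hy : -1 < y) :
    HasDerivAt (fun y : ℝ => y - a * y ^ 2 + b * y ^ 3 - Real.log (1 + y))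
      (1 - 2 * a * y + 3 * b * y ^ 2 - 1 / (1 + y)) y := by
  have h1 : HasDerivAt (fun y : ℝ => 1 + y) 1 y := (hasDerivAt_id y).const_add 1
  have h2 := h1.log (by linarith)
  have h3 := (((hasDerivAt_id y).sub (((hasDerivAt_id y).pow 2).const_mul a)).add
    (((hasDerivAt_id y).pow 3).const_mul b)).sub h2
  refine h3.congr_deriv ?_
  simp
  ring

theorem P1 (y : ℝ) (hy : -1 < y) (hy1 : y ≤ 1) :
    Real.log (1 + y) ≤ y - 0.45 * y ^ 2 + 0.15 * y ^ 3 := by
  have hd := fun (y : ℝ) (hy : -1 < y) => hasDerivAt_D 0.45 0.15 y hy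
  have hfac : ∀ y : ℝ, -1 < y → 1 - 2 * 0.45 * y + 3 * 0.15 * y ^ 2 - 1 / (1 + y) =
      y * (0.1 - 0.45 * y + 0.45 * y ^ 2) / (1 + y) := by
    intro y hy
    have : 1 + y ≠ 0 := by linarith
    field_simp
    ring
  have hcont : ∀ s : Set ℝ, (∀ y ∈ s, -1 < y) →
      ContinuousOn (fun y : ℝ => y - 0.45 * y ^ 2 + 0.15 * y ^ 3 - Real.log (1 + y)) s :=
    fun s hs y hy => (hd y (hs y hy)).continuousAt.continuousWithinAt
  suffices h : 0 ≤ y - 0.45 * y ^ 2 + 0.15 * y ^ 3 - Real.log (1 + y) by linarith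
  rcases le_or_gt y 0 with h0 | h0
  · have hanti : AntitoneOn (fun y : ℝ => y - 0.45 * y ^ 2 + 0.15 * y ^ 3 - Real.log (1 + y)) (Icc y 0) := by
      apply antitoneOn_of_deriv_nonpos (convex_Icc _ _) (hcont _ (fun z hz => by linarith [hz.1]))
      · intro z hz
        rw [interior_Icc] at hz
        exact (hd z (by linarith [hz.1])).differentiableAt.differentiableWithinAt
      · intro z hz
        rw [interior_Icc] at hz
        rw [(hd z (by linarith [hz.1])).deriv, hfac z (by linarith [hz.1])]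
        apply div_nonpos_of_nonpos_of_nonneg
        · apply mul_nonpos_of_nonpos_of_nonneg hz.2.le
          nlinarith [hz.2]
        · linarith [hz.1]
    have := hanti (show y ∈ Icc y 0 from ⟨le_rfl, h0⟩) (show (0 : ℝ) ∈ Icc y 0 from ⟨h0, le_rfl⟩) h0
    simpa using this
  · rcases le_or_gt y (1 / 3) with h1 | h1
    · have hmono : MonotoneOn (fun y : ℝ => y - 0.45 * y ^ 2 + 0.15 * y ^ 3 - Real.log (1 + y)) (Icc 0 (1 / 3)) := by
        apply monotoneOn_of_deriv_nonneg (convex_Icc _ _) (hcont _ (fun z hz => by linarith [hz.1]))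
        · intro z hz
          rw [interior_Icc] at hz
          exact (hd z (by linarith [hz.1])).differentiableAt.differentiableWithinAt
        · intro z hz
          rw [interior_Icc] at hz
          rw [(hd z (by linarith [hz.1])).deriv, hfac z (by linarith [hz.1])]
          apply div_nonneg
          · apply mul_nonneg hz.1.le
            nlinarith [hz.1, hz.2]
          · linarith [hz.1]
      have := hmono (show (0 : ℝ) ∈ Icc (0 : ℝ) (1 / 3) from ⟨le_rfl, by norm_num⟩)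
        (show y ∈ Icc (0 : ℝ) (1 / 3) from ⟨h0.le, h1⟩) h0.le
      simpa using this
    · have hval : (0 : ℝ) ≤ 2 / 3 - 0.45 * (2 / 3) ^ 2 + 0.15 * (2 / 3) ^ 3 - Real.log (1 + 2 / 3) := by
        rw [show (1 + 2 / 3 : ℝ) = 5 / 3 by norm_num]
        have := log_53
        norm_num at this ⊢
        linarith
      rcases le_or_gt y (2 / 3) with h2 | h2
      · have hanti : AntitoneOn (fun y : ℝ => y - 0.45 * y ^ 2 + 0.15 * y ^ 3 - Real.log (1 + y)) (Icc (1 / 3) (2 / 3)) := by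
          apply antitoneOn_of_deriv_nonpos (convex_Icc _ _) (hcont _ (fun z hz => by linarith [hz.1]))
          · intro z hz
            rw [interior_Icc] at hz
            exact (hd z (by linarith [hz.1])).differentiableAt.differentiableWithinAt
          · intro z hz
            rw [interior_Icc] at hz
            rw [(hd z (by linarith [hz.1])).deriv, hfac z (by linarith [hz.1])]
            apply div_nonpos_of_nonpos_of_nonneg
            · apply mul_nonpos_of_nonneg_of_nonpos (by linarith [hz.1])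
              nlinarith [mul_nonneg (sub_nonneg.2 hz.1.le) (sub_nonneg.2 hz.2.le)]
            · linarith [hz.1]
        have := hanti (show y ∈ Icc (1 / 3 : ℝ) (2 / 3) from ⟨h1.le, h2⟩)
          (show (2 / 3 : ℝ) ∈ Icc (1 / 3 : ℝ) (2 / 3) from ⟨by norm_num, le_rfl⟩) h2
        simp only at this
        linarith
      · have hmono : MonotoneOn (fun y : ℝ => y - 0.45 * y ^ 2 + 0.15 * y ^ 3 - Real.log (1 + y)) (Icc (2 / 3) 1) := by
          apply monotoneOn_of_deriv_nonneg (convex_Icc _ _) (hcont _ (fun z hz => by linarith [hz.1]))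
          · intro z hz
            rw [interior_Icc] at hz
            exact (hd z (by linarith [hz.1])).differentiableAt.differentiableWithinAt
          · intro z hz
            rw [interior_Icc] at hz
            rw [(hd z (by linarith [hz.1])).deriv, hfac z (by linarith [hz.1])]
            apply div_nonneg
            · apply mul_nonneg (by linarith [hz.1])
              nlinarith [hz.1, hz.2]
            · linarith [hz.1]
        have := hmono (show (2 / 3 : ℝ) ∈ Icc (2 / 3 : ℝ) 1 from ⟨le_rfl, by norm_num⟩)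
          (show y ∈ Icc (2 / 3 : ℝ) 1 from ⟨h2.le, hy1⟩) h2.le
        simp only at this
        linarith

theorem P2 (y : ℝ) (hy : -1 < y) (hy1 : y ≤ 1) :
    Real.log (1 + y) ≤ y - 0.3 * y ^ 2 := by
  have hd := fun (y : ℝ) (hy : -1 < y) => hasDerivAt_D 0.3 0 y hy
  have hfac : ∀ y : ℝ, -1 < y → 1 - 2 * 0.3 * y + 3 * 0 * y ^ 2 - 1 / (1 + y) =
      y * (0.4 - 0.6 * y) / (1 + y) := by
    intro y hy
    have : 1 + y ≠ 0 := by linarith
    field_simp
    ring
  have hcont : ∀ s : Set ℝ, (∀ y ∈ s, -1 < y) →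
      ContinuousOn (fun y : ℝ => y - 0.3 * y ^ 2 + 0 * y ^ 3 - Real.log (1 + y)) s :=
    fun s hs y hy => (hd y (hs y hy)).continuousAt.continuousWithinAt
  suffices h : 0 ≤ y - 0.3 * y ^ 2 + 0 * y ^ 3 - Real.log (1 + y) by linarith
  rcases le_or_gt y 0 with h0 | h0
  · have hanti : AntitoneOn (fun y : ℝ => y - 0.3 * y ^ 2 + 0 * y ^ 3 - Real.log (1 + y)) (Icc y 0) := by
      apply antitoneOn_of_deriv_nonpos (convex_Icc _ _) (hcont _ (fun z hz => by linarith [hz.1]))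
      · intro z hz
        rw [interior_Icc] at hz
        exact (hd z (by linarith [hz.1])).differentiableAt.differentiableWithinAt
      · intro z hz
        rw [interior_Icc] at hz
        rw [(hd z (by linarith [hz.1])).deriv, hfac z (by linarith [hz.1])]
        apply div_nonpos_of_nonpos_of_nonneg
        · apply mul_nonpos_of_nonpos_of_nonneg hz.2.le
          linarith [hz.2]
        · linarith [hz.1]
    have := hanti (show y ∈ Icc y 0 from ⟨le_rfl, h0⟩) (show (0 : ℝ) ∈ Icc y 0 from ⟨h0, le_rfl⟩) h0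
    simpa using this
  · rcases le_or_gt y (2 / 3) with h1 | h1
    · have hmono : MonotoneOn (fun y : ℝ => y - 0.3 * y ^ 2 + 0 * y ^ 3 - Real.log (1 + y)) (Icc 0 (2 / 3)) := by
        apply monotoneOn_of_deriv_nonneg (convex_Icc _ _) (hcont _ (fun z hz => by linarith [hz.1]))
        · intro z hz
          rw [interior_Icc] at hz
          exact (hd z (by linarith [hz.1])).differentiableAt.differentiableWithinAt
        · intro z hz
          rw [interior_Icc] at hz
          rw [(hd z (by linarith [hz.1])).deriv, hfac z (by linarith [hz.1])]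
          apply div_nonneg
          · apply mul_nonneg hz.1.le
            linarith [hz.2]
          · linarith [hz.1]
      have := hmono (show (0 : ℝ) ∈ Icc (0 : ℝ) (2 / 3) from ⟨le_rfl, by norm_num⟩)
        (show y ∈ Icc (0 : ℝ) (2 / 3) from ⟨h0.le, h1⟩) h0.le
      simpa using this
    · have hval : (0 : ℝ) ≤ 1 - 0.3 * 1 ^ 2 + 0 * 1 ^ 3 - Real.log (1 + 1) := by
        rw [show (1 + 1 : ℝ) = 2 by norm_num]
        have := Real.log_two_lt_d9
        norm_num at this ⊢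
        linarith
      have hanti : AntitoneOn (fun y : ℝ => y - 0.3 * y ^ 2 + 0 * y ^ 3 - Real.log (1 + y)) (Icc (2 / 3) 1) := by
        apply antitoneOn_of_deriv_nonpos (convex_Icc _ _) (hcont _ (fun z hz => by linarith [hz.1]))
        · intro z hz
          rw [interior_Icc] at hz
          exact (hd z (by linarith [hz.1])).differentiableAt.differentiableWithinAt
        · intro z hz
          rw [interior_Icc] at hz
          rw [(hd z (by linarith [hz.1])).deriv, hfac z (by linarith [hz.1])]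
          apply div_nonpos_of_nonpos_of_nonneg
          · apply mul_nonpos_of_nonneg_of_nonpos (by linarith [hz.1])
            linarith [hz.1]
          · linarith [hz.1]
      have := hanti (show y ∈ Icc (2 / 3 : ℝ) 1 from ⟨h1.le, hy1⟩)
        (show (1 : ℝ) ∈ Icc (2 / 3 : ℝ) 1 from ⟨by norm_num, le_rfl⟩) hy1
      simp only at this
      linarith

/-- `log ‖Z‖` from a product decomposition of the square -/
theorem log_norm_of_sq (N A y : ℝ) (hN : 0 < N) (hA : 0 < A) (h : N ^ 2 = A * (1 + y)) :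
    -1 < y ∧ Real.log N = (Real.log A + Real.log (1 + y)) / 2 := by
  have h1 : 0 < A * (1 + y) := by rw [← h]; positivity
  have h2 : 0 < 1 + y := (mul_pos_iff_of_pos_left hA).1 h1
  refine ⟨by linarith, ?_⟩
  rw [← Real.log_mul hA.ne' h2.ne', ← h, Real.log_pow]
  push_cast
  ring

theorem sc_formula (v ρ : ℝ) (hρ : Real.exp (-v) = ρ) : sc v = 2 * ρ / (1 + ρ ^ 2) := by
  have hpos : 0 < ρ := by rw [← hρ]; exact Real.exp_pos _
  have h2 : Real.exp v = ρ⁻¹ := by rw [← hρ, Real.exp_neg, inv_inv]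
  unfold sc
  rw [Real.cosh_eq, hρ, h2]
  field_simp

theorem norm_Z_real (c t x : ℝ) (hc : 0 ≤ c) : ‖Zf (c : ℂ) (sp t 0) x‖ = 1 + c * Real.exp (-(x * t)) := by
  have h := normsq_Zf c t 0 x
  rw [mul_zero, Real.cos_zero] at h
  have h1 : 0 ≤ 1 + c * Real.exp (-(x * t)) := by positivity
  have h2 : ‖Zf (c : ℂ) (sp t 0) x‖ ^ 2 = (1 + c * Real.exp (-(x * t))) ^ 2 := by rw [h]; ring
  exact (pow_left_inj₀ (norm_nonneg _) h1 two_ne_zero).1 h2

theorem factor_N (t φ x : ℝ) (h : Zf ((2 : ℝ) : ℂ) (sp t φ) x ≠ 0) :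
    Real.log ‖Zf ((2 : ℝ) : ℂ) (sp t φ) x‖ ≤ Real.log ‖Zf ((4 : ℝ) : ℂ) (sp (2 * t) 0) x‖ / 2 +
      (sc (x * t - Real.log 2) * Real.cos (x * φ)) / 2
      - 0.1125 * (sc (x * t - Real.log 2) ^ 2 * (1 + Real.cos (x * (2 * φ))))
      + 0.01875 * (sc (x * t - Real.log 2) ^ 3 * (3 * Real.cos (x * φ) + Real.cos (x * (3 * φ)))) := by
  set ρ := Real.exp (-(x * t)) with hρ
  have hρ0 : 0 < ρ := Real.exp_pos _
  have hsc : sc (x * t - Real.log 2) = 4 * ρ / (1 + 4 * ρ ^ 2) := by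
    rw [sc_formula _ (2 * ρ)]
    · ring
    · rw [hρ, ← exp_log2, ← Real.exp_add, exp_log2]; ring_nf
  have h4 : ‖Zf ((4 : ℝ) : ℂ) (sp (2 * t) 0) x‖ = 1 + 4 * ρ ^ 2 := by
    rw [norm_Z_real 4 (2 * t) x (by norm_num), hρ, ← Real.exp_nat_mul]
    congr 3
    push_cast; ring
  set κ := sc (x * t - Real.log 2) with hκ
  have hκ0 : 0 < κ := sc_pos _
  have hκ1 : κ ≤ 1 := sc_le_one _
  have hN : 0 < ‖Zf ((2 : ℝ) : ℂ) (sp t φ) x‖ := norm_pos_iff.2 h
  have hsq : ‖Zf ((2 : ℝ) : ℂ) (sp t φ) x‖ ^ 2 = (1 + 4 * ρ ^ 2) * (1 + κ * Real.cos (x * φ)) := by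
    rw [normsq_Zf, hsc, ← hρ]
    field_simp
    ring
  obtain ⟨hy, hlog⟩ := log_norm_of_sq _ _ _ hN (by positivity) hsq
  rw [hlog, h4]
  have hy1 : κ * Real.cos (x * φ) ≤ 1 := by
    have := Real.cos_le_one (x * φ)
    nlinarith
  have hP := P1 _ hy hy1
  have hc2 : Real.cos (x * (2 * φ)) = 2 * Real.cos (x * φ) ^ 2 - 1 := by
    rw [show x * (2 * φ) = 2 * (x * φ) by ring, Real.cos_two_mul]
  have hc3 : Real.cos (x * (3 * φ)) = 4 * Real.cos (x * φ) ^ 3 - 3 * Real.cos (x * φ) := by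
    rw [show x * (3 * φ) = 3 * (x * φ) by ring, Real.cos_three_mul]
  rw [hc2, hc3]
  have e1 : (κ * Real.cos (x * φ)) ^ 2 = κ ^ 2 * Real.cos (x * φ) ^ 2 := by ring
  have e2 : (κ * Real.cos (x * φ)) ^ 3 = κ ^ 3 * Real.cos (x * φ) ^ 3 := by ring
  rw [e1, e2] at hP
  norm_num at hP ⊢
  linarith

theorem factor_O (t φ x : ℝ) (h : Zf ((-1 : ℝ) : ℂ) (sp t φ) x ≠ 0) :
    Real.log ‖Zf ((-1 : ℝ) : ℂ) (sp t φ) x‖ ≤ Real.log ‖Zf ((1 : ℝ) : ℂ) (sp (2 * t) 0) x‖ / 2 -
      (sc (x * t) * Real.cos (x * φ)) / 2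
      - 0.075 * (sc (x * t) ^ 2 * (1 + Real.cos (x * (2 * φ)))) := by
  set ρ := Real.exp (-(x * t)) with hρ
  have hρ0 : 0 < ρ := Real.exp_pos _
  have hsc : sc (x * t) = 2 * ρ / (1 + ρ ^ 2) := sc_formula _ _ rfl
  have h4 : ‖Zf ((1 : ℝ) : ℂ) (sp (2 * t) 0) x‖ = 1 + ρ ^ 2 := by
    rw [norm_Z_real 1 (2 * t) x (by norm_num), hρ, ← Real.exp_nat_mul, one_mul]
    congr 2
    push_cast; ring
  set κ := sc (x * t) with hκ
  have hκ0 : 0 < κ := sc_pos _
  have hκ1 : κ ≤ 1 := sc_le_one _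
  have hN : 0 < ‖Zf ((-1 : ℝ) : ℂ) (sp t φ) x‖ := norm_pos_iff.2 h
  have hsq : ‖Zf ((-1 : ℝ) : ℂ) (sp t φ) x‖ ^ 2 = (1 + ρ ^ 2) * (1 + -(κ * Real.cos (x * φ))) := by
    rw [normsq_Zf, hsc, ← hρ]
    field_simp
    ring
  obtain ⟨hy, hlog⟩ := log_norm_of_sq _ _ _ hN (by positivity) hsq
  rw [hlog, h4]
  have hy1 : -(κ * Real.cos (x * φ)) ≤ 1 := by
    have := Real.neg_one_le_cos (x * φ)
    nlinarith
  have hP := P2 _ hy hy1
  have hc2 : Real.cos (x * (2 * φ)) = 2 * Real.cos (x * φ) ^ 2 - 1 := by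
    rw [show x * (2 * φ) = 2 * (x * φ) by ring, Real.cos_two_mul]
  rw [hc2]
  have e1 : (-(κ * Real.cos (x * φ))) ^ 2 = κ ^ 2 * Real.cos (x * φ) ^ 2 := by ring
  rw [e1] at hP
  norm_num at hP ⊢
  linarith

theorem factor_4 (t φ x : ℝ) (h : Zf ((-4 : ℝ) : ℂ) (sp (2 * t) (2 * φ)) x ≠ 0) :
    Real.log ‖Zf ((-4 : ℝ) : ℂ) (sp (2 * t) (2 * φ)) x‖ ≤ Real.log ‖Zf ((16 : ℝ) : ℂ) (sp (4 * t) 0) x‖ / 2 -
      (sc (x * (2 * t) - 2 * Real.log 2) * Real.cos (x * (2 * φ))) / 2 := by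
  set ρ := Real.exp (-(x * (2 * t))) with hρ
  have hρ0 : 0 < ρ := Real.exp_pos _
  have hsc : sc (x * (2 * t) - 2 * Real.log 2) = 8 * ρ / (1 + 16 * ρ ^ 2) := by
    rw [sc_formula _ (4 * ρ)]
    · ring
    · have : Real.exp (2 * Real.log 2) = 4 := by
        rw [show 2 * Real.log 2 = Real.log 2 + Real.log 2 by ring, Real.exp_add, exp_log2]; norm_num
      rw [hρ, ← this, ← Real.exp_add]; ring_nf
  have h4 : ‖Zf ((16 : ℝ) : ℂ) (sp (4 * t) 0) x‖ = 1 + 16 * ρ ^ 2 := by
    rw [norm_Z_real 16 (4 * t) x (by norm_num), hρ, ← Real.exp_nat_mul]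
    congr 3
    push_cast; ring
  set κ := sc (x * (2 * t) - 2 * Real.log 2) with hκ
  have hκ0 : 0 < κ := sc_pos _
  have hκ1 : κ ≤ 1 := sc_le_one _
  have hN : 0 < ‖Zf ((-4 : ℝ) : ℂ) (sp (2 * t) (2 * φ)) x‖ := norm_pos_iff.2 h
  have hsq : ‖Zf ((-4 : ℝ) : ℂ) (sp (2 * t) (2 * φ)) x‖ ^ 2 =
      (1 + 16 * ρ ^ 2) * (1 + -(κ * Real.cos (x * (2 * φ)))) := by
    rw [normsq_Zf, hsc, ← hρ]
    field_simp
    ring
  obtain ⟨hy, hlog⟩ := log_norm_of_sq _ _ _ hN (by positivity) hsq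
  rw [hlog, h4]
  have hP := Real.log_le_sub_one_of_pos (show 0 < 1 + -(κ * Real.cos (x * (2 * φ))) by linarith)
  linarith

end Pool.Agent.Helper10.Miss
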