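import Mathlib

set_option autoImplicit false

namespace Pool.Agent.Helper10.Miss

open MeasureTheory Set

/-- second order summation by parts -/
theorem sbp_identity (a : ℕ → ℝ) (ψ : ℝ) (M : ℕ) :
    4 * Real.sin (ψ / 2) ^ 2 * ((∑ j ∈ Finset.range M, a (j + 1) * Real.cos ((j + 1 : ℕ) * ψ)) + a 0 / 2)
      = -(a 1 - a 0) - (∑ j ∈ Finset.range M, (a (j + 2) + a j - 2 * a (j + 1)) * Real.cos ((j + 1 : ℕ) * ψ))
        + a (M + 1) * Real.cos (M * ψ) - a M * Real.cos ((M + 1 : ℕ) * ψ) := by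
  have h4 : 4 * Real.sin (ψ / 2) ^ 2 = 2 - 2 * Real.cos ψ := by
    have := Real.cos_sq' (ψ / 2)
    have h2 := Real.cos_two_mul (ψ / 2)
    rw [show 2 * (ψ / 2) = ψ by ring] at h2
    linarith
  rw [h4]
  induction M with
  | zero => simp; ring
  | succ M ih =>
    rw [Finset.sum_range_succ, Finset.sum_range_succ]
    have hc : Real.cos ((M + 1 + 1 : ℕ) * ψ) + Real.cos (M * ψ) =
        2 * Real.cos ψ * Real.cos ((M + 1 : ℕ) * ψ) := by
      have e1 : ((M + 1 + 1 : ℕ) : ℝ) * ψ = ((M + 1 : ℕ) : ℝ) * ψ + ψ := by push_cast; ring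
      have e2 : ((M : ℕ) : ℝ) * ψ = ((M + 1 : ℕ) : ℝ) * ψ - ψ := by push_cast; ring
      rw [e1, e2, Real.cos_add, Real.cos_sub]
      ring
    have e3 : M + 1 + 1 = M + 2 := rfl
    rw [e3] at *
    linear_combination ih + a (M + 1) * hc

theorem sbp_upper (a : ℕ → ℝ) (ψ : ℝ) (M : ℕ) (D B : ℝ)
    (hD : ∑ j ∈ Finset.range M, |a (j + 2) + a j - 2 * a (j + 1)| ≤ D)
    (hB : |a (M + 1)| + |a M| ≤ B) (hs : 0 < Real.sin (ψ / 2) ^ 2) :
    (∑ j ∈ Finset.range M, a (j + 1) * Real.cos ((j + 1 : ℕ) * ψ)) ≤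
      - a 0 / 2 + (-(a 1 - a 0) + D + B) / (4 * Real.sin (ψ / 2) ^ 2) := by
  have h := sbp_identity a ψ M
  have h1 : -(∑ j ∈ Finset.range M, (a (j + 2) + a j - 2 * a (j + 1)) * Real.cos ((j + 1 : ℕ) * ψ)) ≤ D := by
    refine le_trans (neg_le_abs _) ?_
    refine (Finset.abs_sum_le_sum_abs _ _).trans (le_trans ?_ hD)
    apply Finset.sum_le_sum
    intro i _
    rw [abs_mul]
    exact mul_le_of_le_one_right (abs_nonneg _) (Real.abs_cos_le_one _)
  have h2 : a (M + 1) * Real.cos (M * ψ) - a M * Real.cos ((M + 1 : ℕ) * ψ) ≤ B := by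
    refine le_trans ?_ hB
    have e1 : a (M + 1) * Real.cos (M * ψ) ≤ |a (M + 1)| := by
      refine (le_abs_self _).trans ?_
      rw [abs_mul]
      exact mul_le_of_le_one_right (abs_nonneg _) (Real.abs_cos_le_one _)
    have e2 : -(a M * Real.cos ((M + 1 : ℕ) * ψ)) ≤ |a M| := by
      refine (neg_le_abs _).trans ?_
      rw [abs_mul]
      exact mul_le_of_le_one_right (abs_nonneg _) (Real.abs_cos_le_one _)
    linarith
  have h3 : (∑ j ∈ Finset.range M, a (j + 1) * Real.cos ((j + 1 : ℕ) * ψ)) + a 0 / 2 ≤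
      (-(a 1 - a 0) + D + B) / (4 * Real.sin (ψ / 2) ^ 2) := by
    rw [le_div_iff₀ (by positivity)]
    linarith
  linarith

theorem sbp_lower (a : ℕ → ℝ) (ψ : ℝ) (M : ℕ) (D B : ℝ)
    (hD : ∑ j ∈ Finset.range M, |a (j + 2) + a j - 2 * a (j + 1)| ≤ D)
    (hB : |a (M + 1)| + |a M| ≤ B) (hs : 0 < Real.sin (ψ / 2) ^ 2) :
    - a 0 / 2 - ((a 1 - a 0) + D + B) / (4 * Real.sin (ψ / 2) ^ 2) ≤
    (∑ j ∈ Finset.range M, a (j + 1) * Real.cos ((j + 1 : ℕ) * ψ)) := by
  have := sbp_upper (fun j => - a j) ψ M D B (by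
    refine le_trans (le_of_eq ?_) hD
    apply Finset.sum_congr rfl
    intro i _
    rw [← abs_neg]
    congr 1; ring) (by simpa using hB) hs
  simp only [neg_mul, Finset.sum_neg_distrib] at this
  have e : (-(-a 1 - -a 0) + D + B) = ((a 1 - a 0) + D + B) := by ring
  rw [e] at this
  linarith

/-- bound for the sum of the absolute second differences -/
theorem dsum (G G' G'' W w : ℝ → ℝ) (t ℓ Wi : ℝ) (ht : 0 < t)
    (hG : ∀ v, HasDerivAt G (G' v) v) (hG' : ∀ v, HasDerivAt G' (G'' v) v)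
    (hW : ∀ v, HasDerivAt W (w v) v) (hw : ∀ v, |G'' v| ≤ w v) (hWi : ∀ v, W v ≤ Wi) (M : ℕ) :
    ∑ j ∈ Finset.range M, |G (((j + 2 : ℕ) : ℝ) * t - ℓ) + G ((j : ℝ) * t - ℓ) -
      2 * G (((j + 1 : ℕ) : ℝ) * t - ℓ)| ≤ t * (Wi - W (-ℓ)) := by
  have hWc : Continuous W := continuous_iff_continuousAt.2 fun v => (hW v).continuousAt
  have hW0 : ∀ v, 0 ≤ w v := fun v => (abs_nonneg _).trans (hw v)
  have hWm : Monotone W := monotone_of_hasDerivAt_nonneg hW hW0
  set H : ℝ → ℝ := fun v => ∫ x in (0 : ℝ)..v, W x with hH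
  have hHd : ∀ v, HasDerivAt H (W v) v := fun v =>
    intervalIntegral.integral_hasDerivAt_right (hWc.intervalIntegrable _ _)
      (hWc.stronglyMeasurableAtFilter _ _) hWc.continuousAt
  set I : ℝ → ℝ := fun v => H (v + t) - H v with hI
  have hId : ∀ v, HasDerivAt I (W (v + t) - W v) v := by
    intro v
    exact ((hHd (v + t)).comp_add_const v t).sub (hHd v)
  have hDd : ∀ v, HasDerivAt (fun v => G (v + t) - G v) (G' (v + t) - G' v) v := by
    intro v
    exact ((hG (v + t)).comp_add_const v t).sub (hG v)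
  have hm1 : Monotone (fun v => W v - G' v) := by
    apply monotone_of_hasDerivAt_nonneg (fun v => (hW v).sub (hG' v))
    intro v
    have := abs_le.1 (hw v)
    simp only [Pi.zero_apply]
    linarith [this.2]
  have hm2 : Monotone (fun v => W v + G' v) := by
    apply monotone_of_hasDerivAt_nonneg (fun v => (hW v).add (hG' v))
    intro v
    have := abs_le.1 (hw v)
    simp only [Pi.zero_apply]
    linarith [this.1]
  have hp : Monotone (fun v => I v - (G (v + t) - G v)) := by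
    apply monotone_of_hasDerivAt_nonneg (fun v => (hId v).sub (hDd v))
    intro v
    have := hm1 (show v ≤ v + t by linarith)
    simp only [Pi.zero_apply] at *
    linarith
  have hq : Monotone (fun v => I v + (G (v + t) - G v)) := by
    apply monotone_of_hasDerivAt_nonneg (fun v => (hId v).add (hDd v))
    intro v
    have := hm2 (show v ≤ v + t by linarith)
    simp only [Pi.zero_apply] at *
    linarith
  have hterm : ∀ j : ℕ, |G (((j + 2 : ℕ) : ℝ) * t - ℓ) + G ((j : ℝ) * t - ℓ) -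
      2 * G (((j + 1 : ℕ) : ℝ) * t - ℓ)| ≤
      I (((j + 1 : ℕ) : ℝ) * t - ℓ) - I ((j : ℝ) * t - ℓ) := by
    intro j
    have hle : (j : ℝ) * t - ℓ ≤ ((j + 1 : ℕ) : ℝ) * t - ℓ := by push_cast; nlinarith
    have h1 := hp hle
    have h2 := hq hle
    simp only at h1 h2
    have e1 : ((j + 1 : ℕ) : ℝ) * t - ℓ + t = ((j + 2 : ℕ) : ℝ) * t - ℓ := by push_cast; ring
    have e2 : (j : ℝ) * t - ℓ + t = ((j + 1 : ℕ) : ℝ) * t - ℓ := by push_cast; ring
    rw [e1, e2] at h1 h2
    rw [abs_le]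
    constructor <;> linarith
  have htel : ∑ j ∈ Finset.range M, (I (((j + 1 : ℕ) : ℝ) * t - ℓ) - I ((j : ℝ) * t - ℓ)) =
      I ((M : ℝ) * t - ℓ) - I (((0 : ℕ) : ℝ) * t - ℓ) :=
    Finset.sum_range_sub (fun j : ℕ => I ((j : ℝ) * t - ℓ)) M
  refine (Finset.sum_le_sum fun j _ => hterm j).trans ?_
  rw [htel]
  -- bounds for I
  have hIub : ∀ v, I v ≤ t * Wi := by
    intro v
    have : I v = ∫ x in v..(v + t), W x := by
      simp only [hI, hH]
      rw [intervalIntegral.integral_interval_sub_left (hWc.intervalIntegrable _ _)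
        (hWc.intervalIntegrable _ _)]
    rw [this]
    have h := intervalIntegral.integral_mono_on (μ := volume) (a := v) (b := v + t) (by linarith)
      (hWc.intervalIntegrable _ _) (intervalIntegrable_const (c := Wi)) (fun x _ => hWi x)
    rw [intervalIntegral.integral_const] at h
    simpa using h
  have hIlb : ∀ v, t * W v ≤ I v := by
    intro v
    have : I v = ∫ x in v..(v + t), W x := by
      simp only [hI, hH]
      rw [intervalIntegral.integral_interval_sub_left (hWc.intervalIntegrable _ _)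
        (hWc.intervalIntegrable _ _)]
    rw [this]
    have h := intervalIntegral.integral_mono_on (μ := volume) (a := v) (b := v + t) (by linarith)
      (intervalIntegrable_const (c := W v)) (hWc.intervalIntegrable _ _) (fun x hx => hWm hx.1)
    rw [intervalIntegral.integral_const] at h
    simpa using h
  have h1 := hIub ((M : ℝ) * t - ℓ)
  have h2 := hIlb (((0 : ℕ) : ℝ) * t - ℓ)
  simp only [Nat.cast_zero, zero_mul, zero_sub] at h2 ⊢
  linarith

end Pool.Agent.Helper10.Miss
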