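import Pool.Agent.Helper10.Miss.Sbp
import Pool.Agent.Helper10.Miss.Trap

set_option autoImplicit false

namespace Pool.Agent.Helper10.Miss

open MeasureTheory Set

noncomputable def sc (v : ℝ) : ℝ := (Real.cosh v)⁻¹
noncomputable def ta (v : ℝ) : ℝ := Real.sinh v / Real.cosh v

theorem sc_pos (v : ℝ) : 0 < sc v := inv_pos.2 (Real.cosh_pos v)

theorem sc_le_one (v : ℝ) : sc v ≤ 1 := inv_le_one_of_one_le₀ (Real.one_le_cosh v)

theorem sc_sq_add (v : ℝ) : sc v ^ 2 + ta v ^ 2 = 1 := by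
  have h := Real.cosh_pos v
  have := Real.cosh_sq v
  unfold sc ta
  field_simp
  linarith

theorem ta_abs (v : ℝ) : |ta v| ≤ 1 := by
  rw [← sq_le_one_iff_abs_le_one]
  have := sc_sq_add v
  nlinarith [sq_nonneg (sc v)]

theorem hasDerivAt_sc (v : ℝ) : HasDerivAt sc (-(sc v * ta v)) v := by
  have h := (Real.hasDerivAt_cosh v).inv (Real.cosh_pos v).ne'
  refine h.congr_deriv ?_
  unfold sc ta
  have := (Real.cosh_pos v).ne'
  field_simp

theorem hasDerivAt_ta (v : ℝ) : HasDerivAt ta (sc v ^ 2) v := by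
  have h := (Real.hasDerivAt_sinh v).div (Real.hasDerivAt_cosh v) (Real.cosh_pos v).ne'
  refine h.congr_deriv ?_
  have h2 := Real.cosh_sq v
  unfold sc
  have := (Real.cosh_pos v).ne'
  field_simp
  linarith

/-- `sech ≤ 2 exp(-v)` -/
theorem sc_le_exp (v : ℝ) : sc v ≤ 2 * Real.exp (-v) := by
  unfold sc
  rw [Real.cosh_eq, Real.exp_neg]
  have h := Real.exp_pos v
  have h2 := inv_pos.2 h
  rw [inv_div, div_le_iff₀ (by positivity)]
  have : Real.exp v * (Real.exp v)⁻¹ = 1 := mul_inv_cancel₀ h.ne'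
  nlinarith [sq_nonneg ((Real.exp v)⁻¹)]

/-! derivatives of powers of sech -/

theorem sc1_d1 (v : ℝ) : HasDerivAt sc (-(sc v * ta v)) v := hasDerivAt_sc v

theorem sc1_d2 (v : ℝ) : HasDerivAt (fun v => -(sc v * ta v)) (sc v - 2 * sc v ^ 3) v := by
  refine ((hasDerivAt_sc v).mul (hasDerivAt_ta v)).neg.congr_deriv ?_
  have := sc_sq_add v
  linear_combination (sc v) * this

theorem sc2_d1 (v : ℝ) : HasDerivAt (fun v => sc v ^ 2) (-(2 * sc v ^ 2 * ta v)) v := by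
  refine ((hasDerivAt_sc v).pow 2).congr_deriv ?_
  norm_num
  ring

theorem sc2_d2 (v : ℝ) : HasDerivAt (fun v => -(2 * sc v ^ 2 * ta v)) (4 * sc v ^ 2 - 6 * sc v ^ 4) v := by
  refine (((sc2_d1 v).const_mul 2).mul (hasDerivAt_ta v)).neg.congr_deriv ?_
  have := sc_sq_add v
  linear_combination (4 * sc v ^ 2) * this

theorem sc3_d1 (v : ℝ) : HasDerivAt (fun v => sc v ^ 3) (-(3 * sc v ^ 3 * ta v)) v := by
  refine ((hasDerivAt_sc v).pow 3).congr_deriv ?_
  norm_num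
  ring

theorem sc3_d2 (v : ℝ) : HasDerivAt (fun v => -(3 * sc v ^ 3 * ta v)) (9 * sc v ^ 3 - 12 * sc v ^ 5) v := by
  refine (((sc3_d1 v).const_mul 3).mul (hasDerivAt_ta v)).neg.congr_deriv ?_
  have := sc_sq_add v
  linear_combination (9 * sc v ^ 3) * this

/-! the variation majorants -/

noncomputable def W1 (v : ℝ) : ℝ := -(sc v * ta v) + 2 * ta v - 2 / 3 * ta v ^ 3
noncomputable def W2 (v : ℝ) : ℝ := 2 * ta v + 2 / 3 * ta v ^ 3
noncomputable def W3 (v : ℝ) : ℝ := 3 * ta v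

theorem W1_d (v : ℝ) : HasDerivAt W1 (sc v - 2 * sc v ^ 3 + 2 * sc v ^ 4) v := by
  have h := ((sc1_d2 v).add ((hasDerivAt_ta v).const_mul 2)).sub (((hasDerivAt_ta v).pow 3).const_mul (2 / 3))
  refine h.congr_deriv ?_
  have := sc_sq_add v
  norm_num
  linear_combination (-2 * sc v ^ 2) * this

theorem W2_d (v : ℝ) : HasDerivAt W2 (4 * sc v ^ 2 - 2 * sc v ^ 4) v := by
  have h := ((hasDerivAt_ta v).const_mul 2).add (((hasDerivAt_ta v).pow 3).const_mul (2 / 3))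
  refine h.congr_deriv ?_
  have := sc_sq_add v
  norm_num
  linear_combination (2 * sc v ^ 2) * this

theorem W3_d (v : ℝ) : HasDerivAt W3 (3 * sc v ^ 2) v := (hasDerivAt_ta v).const_mul 3

theorem w1_bd (v : ℝ) : |sc v - 2 * sc v ^ 3| ≤ sc v - 2 * sc v ^ 3 + 2 * sc v ^ 4 := by
  have h0 := (sc_pos v).le
  have h1 := sc_le_one v
  rw [abs_le]
  constructor
  · have : 0 ≤ 2 * sc v * ((1 - sc v) * (1 + sc v - sc v ^ 2)) := by
      have h2 : 0 ≤ 1 + sc v - sc v ^ 2 := by nlinarith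
      have h3 : 0 ≤ 1 - sc v := by linarith
      positivity
    nlinarith
  · have : 0 ≤ sc v ^ 4 := by positivity
    linarith

theorem w2_bd (v : ℝ) : |4 * sc v ^ 2 - 6 * sc v ^ 4| ≤ 4 * sc v ^ 2 - 2 * sc v ^ 4 := by
  have h0 := (sc_pos v).le
  have h1 := sc_le_one v
  have h2 : sc v ^ 2 ≤ 1 := pow_le_one₀ h0 h1
  have h3 : 0 ≤ sc v ^ 2 := by positivity
  rw [abs_le]
  constructor <;> nlinarith

theorem w3_bd (v : ℝ) : |9 * sc v ^ 3 - 12 * sc v ^ 5| ≤ 3 * sc v ^ 2 := by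
  have h0 := (sc_pos v).le
  have h1 := sc_le_one v
  have h2 : 0 ≤ sc v ^ 2 := by positivity
  rw [abs_le]
  constructor
  · have : 0 ≤ sc v ^ 2 * (3 * ((1 - sc v) * (1 + 2 * sc v) ^ 2)) := by
      have h3 : 0 ≤ 1 - sc v := by linarith
      positivity
    nlinarith
  · have : 0 ≤ sc v ^ 2 * (3 * ((sc v + 1) * (2 * sc v - 1) ^ 2)) := by positivity
    nlinarith

theorem W1_le (v : ℝ) : W1 v ≤ 4 / 3 := by
  have h0 := sc_pos v
  have h1 := sc_le_one v
  have h2 := sc_sq_add v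
  have h3 := abs_le.1 (ta_abs v)
  unfold W1
  rcases le_or_gt 0 (ta v) with h | h
  · have : 0 ≤ sc v * ta v := mul_nonneg h0.le h
    have h4 : 0 ≤ (1 - ta v) ^ 2 * (ta v + 2) := by
      have : 0 ≤ ta v + 2 := by linarith
      positivity
    nlinarith
  · have h4 : -(sc v * ta v) ≤ 1 / 2 := by nlinarith [sq_nonneg (sc v + ta v)]
    have h5 : 0 ≤ ta v ^ 2 := sq_nonneg _
    have h6 : ta v ^ 3 = ta v * ta v ^ 2 := by ring
    nlinarith

theorem W2_le (v : ℝ) : W2 v ≤ 8 / 3 := by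
  have h3 := abs_le.1 (ta_abs v)
  unfold W2
  have h4 : ta v ^ 3 ≤ 1 := by
    have : ta v ^ 3 = ta v * ta v ^ 2 := by ring
    have h5 : ta v ^ 2 ≤ 1 := by nlinarith [sc_sq_add v, sq_nonneg (sc v)]
    have h6 : 0 ≤ ta v ^ 2 := sq_nonneg _
    nlinarith
  linarith

theorem W3_le (v : ℝ) : W3 v ≤ 3 := by
  have h3 := abs_le.1 (ta_abs v)
  unfold W3
  linarith

/-! values at `-log 2` -/

theorem cosh_log2 : Real.cosh (-Real.log 2) = 5 / 4 := by
  rw [Real.cosh_neg, Real.cosh_eq, Real.exp_neg, Real.exp_log (by norm_num)]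
  norm_num

theorem sinh_log2 : Real.sinh (-Real.log 2) = -(3 / 4) := by
  rw [Real.sinh_neg, Real.sinh_eq, Real.exp_neg, Real.exp_log (by norm_num)]
  norm_num

theorem sc_log2 : sc (-Real.log 2) = 4 / 5 := by
  rw [sc, cosh_log2]; norm_num

theorem ta_log2 : ta (-Real.log 2) = -(3 / 5) := by
  rw [ta, cosh_log2, sinh_log2]; norm_num

theorem sc_zero : sc 0 = 1 := by simp [sc]
theorem ta_zero : ta 0 = 0 := by simp [ta]

/-- Riemann sums -/
theorem riem (G G' G'' H : ℝ → ℝ) (C τ ℓ : ℝ) (hτ : 0 < τ) (hC : 0 ≤ C)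
    (hH : ∀ v, HasDerivAt H (G v) v)
    (hG : ∀ v, HasDerivAt G (G' v) v) (hG' : ∀ v, HasDerivAt G' (G'' v) v)
    (hb : ∀ v, -ℓ ≤ v → |G'' v| ≤ C * Real.exp (-v)) (K : ℕ) :
    |(∑ j ∈ Finset.range K, G (((j + 1 : ℕ) : ℝ) * τ - ℓ)) + G (-ℓ) / 2 - G (K * τ - ℓ) / 2 -
      (H (K * τ - ℓ) - H (-ℓ)) / τ| ≤ C * Real.exp ℓ * τ * (1 + τ) / 12 := by
  have hlin : ∀ x : ℝ, HasDerivAt (fun x : ℝ => x * τ - ℓ) τ x := by
    intro x
    simpa using ((hasDerivAt_id x).mul_const τ).sub_const ℓ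
  have h1 := trap_sum (fun x => G (x * τ - ℓ)) (fun x => G' (x * τ - ℓ) * τ)
    (fun x => G'' (x * τ - ℓ) * τ * τ) K (τ ^ 2 * C * Real.exp ℓ) τ hτ (by positivity)
    (by
      have : Continuous G := continuous_iff_continuousAt.2 fun v => (hG v).continuousAt
      apply Continuous.aestronglyMeasurable
      fun_prop)
    (fun x _ => (hG _).comp x (hlin x))
    (fun x _ => ((hG' _).comp x (hlin x)).mul_const τ)
    (fun x hx => by
      rw [Real.norm_eq_abs, abs_mul, abs_mul, abs_of_pos hτ]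
      have := hb (x * τ - ℓ) (by nlinarith)
      have e : Real.exp (-(x * τ - ℓ)) = Real.exp ℓ * Real.exp (-(τ * x)) := by
        rw [← Real.exp_add]; ring_nf
      rw [e] at this
      calc |G'' (x * τ - ℓ)| * τ * τ ≤ (C * (Real.exp ℓ * Real.exp (-(τ * x)))) * τ * τ := by gcongr
        _ = _ := by ring)
  have hint : ∫ x in (0 : ℝ)..K, G (x * τ - ℓ) = (H (K * τ - ℓ) - H (-ℓ)) / τ := by
    have hd : ∀ x ∈ uIcc (0 : ℝ) K, HasDerivAt (fun x => H (x * τ - ℓ) / τ) (G (x * τ - ℓ)) x := by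
      intro x _
      refine (((hH _).comp x (hlin x)).div_const τ).congr_deriv ?_
      field_simp
    rw [intervalIntegral.integral_eq_sub_of_hasDerivAt hd]
    · simp
      ring
    · apply Continuous.intervalIntegrable
      have : Continuous G := continuous_iff_continuousAt.2 fun v => (hG v).continuousAt
      fun_prop
  rw [hint] at h1
  simp only [smul_eq_mul, Real.norm_eq_abs, zero_mul, zero_sub] at h1
  have e1 : τ ^ 2 * C * Real.exp ℓ * (1 + τ) / (12 * τ) = C * Real.exp ℓ * τ * (1 + τ) / 12 := by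
    field_simp
  rw [e1] at h1
  have e2 : (∑ j ∈ Finset.range K, G (((j + 1 : ℕ) : ℝ) * τ - ℓ)) =
      ∑ j ∈ Finset.range K, G (((j : ℝ) + 1) * τ - ℓ) := by
    apply Finset.sum_congr rfl
    intro j _
    push_cast; rfl
  rw [e2]
  convert! h1 using 2
  ring

theorem exp_log2 : Real.exp (Real.log 2) = 2 := Real.exp_log (by norm_num)

theorem bd1 (v : ℝ) : |sc v - 2 * sc v ^ 3| ≤ 2 * Real.exp (-v) := by
  have h0 := (sc_pos v).le
  have h1 := sc_le_one v
  have h2 := sc_le_exp v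
  have h3 : sc v ^ 2 ≤ 1 := pow_le_one₀ h0 h1
  have h4 : sc v ^ 3 = sc v * sc v ^ 2 := by ring
  have h5 : 0 ≤ sc v * sc v ^ 2 := by positivity
  have h6 : sc v * sc v ^ 2 ≤ sc v := mul_le_of_le_one_right h0 h3
  rw [abs_le, h4]
  constructor <;> linarith

theorem bd2 (v : ℝ) : |4 * sc v ^ 2 - 6 * sc v ^ 4| ≤ 8 * Real.exp (-v) := by
  have h0 := (sc_pos v).le
  have h1 := sc_le_one v
  have h2 := sc_le_exp v
  have h3 : sc v ^ 2 ≤ sc v := by nlinarith
  have h4 := w2_bd v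
  have h5 : 0 ≤ sc v ^ 4 := by positivity
  linarith

theorem bd3 (v : ℝ) : |9 * sc v ^ 3 - 12 * sc v ^ 5| ≤ 6 * Real.exp (-v) := by
  have h0 := (sc_pos v).le
  have h1 := sc_le_one v
  have h2 := sc_le_exp v
  have h3 : sc v ^ 2 ≤ sc v := by nlinarith
  have h4 := w3_bd v
  linarith

end Pool.Agent.Helper10.Miss
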