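import Pool.Agent.Helper10.Miss.Exact
import Pool.Agent.Helper10.Miss.Pointwise

set_option autoImplicit false

namespace Pool.Agent.Helper10.Miss

open Set

theorem sum_split (f : ℕ → ℝ) (K : ℕ) :
    ∑ j ∈ Finset.range (2 * K), f (j + 1) =
      (∑ i ∈ Finset.range K, f (2 * i + 1)) + ∑ i ∈ Finset.range K, f (2 * i + 2) := by
  induction K with
  | zero => simp
  | succ K ih =>
    rw [show 2 * (K + 1) = 2 * K + 1 + 1 by ring, Finset.sum_range_succ, Finset.sum_range_succ, ih,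
      Finset.sum_range_succ, Finset.sum_range_succ]
    ring

theorem Zf_scale (c : ℂ) (t φ x : ℝ) : Zf c (sp (2 * t) (2 * φ)) x = Zf c (sp t φ) (2 * x) := by
  unfold Zf
  congr 3
  apply Complex.ext
  · simp; ring
  · simp; ring

/-- odd part of the sum of logs -/
noncomputable def OG (c t φ : ℝ) (K : ℕ) : ℝ :=
  ∑ i ∈ Finset.range K, Real.log ‖Zf (c : ℂ) (sp t φ) (((2 * i + 1 : ℕ) : ℝ))‖

theorem GG_split (c t φ : ℝ) (K : ℕ) :
    GG c t φ (2 * K) = OG c t φ K + GG c (2 * t) (2 * φ) K := by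
  unfold GG OG
  have h := sum_split (fun n : ℕ => Real.log ‖Zf (c : ℂ) (sp t φ) (n : ℝ)‖) K
  have e1 : ∑ j ∈ Finset.range (2 * K), Real.log ‖Zf (c : ℂ) (sp t φ) ((j : ℝ) + 1)‖ =
      ∑ j ∈ Finset.range (2 * K), Real.log ‖Zf (c : ℂ) (sp t φ) ((j + 1 : ℕ) : ℝ)‖ := by
    apply Finset.sum_congr rfl
    intro j _
    push_cast; rfl
  rw [e1, h]
  congr 1
  apply Finset.sum_congr rfl
  intro i _
  rw [Zf_scale]
  push_cast
  ring_nf

/-- odd weighted cosine sums -/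
noncomputable def OS (m : ℕ) (t ℓ ψ : ℝ) (K : ℕ) : ℝ :=
  ∑ i ∈ Finset.range K, sc (((2 * i + 1 : ℕ) : ℝ) * t - ℓ) ^ m * Real.cos (((2 * i + 1 : ℕ) : ℝ) * ψ)

theorem Sm_split (m : ℕ) (t ℓ ψ : ℝ) (K : ℕ) :
    Sm m t ℓ ψ (2 * K) = OS m t ℓ ψ K + Sm m (2 * t) ℓ (2 * ψ) K := by
  unfold Sm OS
  have h := sum_split (fun n : ℕ => sc ((n : ℝ) * t - ℓ) ^ m * Real.cos ((n : ℝ) * ψ)) K
  rw [h]
  congr 1
  apply Finset.sum_congr rfl
  intro i _
  push_cast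
  ring_nf

/-- the truncated product -/
noncomputable def PK (K : ℕ) (z : ℂ) : ℂ :=
  (∏ j ∈ Finset.range (2 * K), (1 + 2 * z ^ (j + 1))) * ∏ i ∈ Finset.range K, (1 - z ^ (2 * i + 1))

theorem pow_exp (s : ℂ) (n : ℕ) : Complex.exp (-s) ^ n = Complex.exp (-(((n : ℝ) : ℂ) * s)) := by
  rw [← Complex.exp_nat_mul]
  push_cast
  ring_nf

theorem PK_eq (K : ℕ) (t φ : ℝ) : PK K (Complex.exp (-(sp t φ))) =
    (∏ j ∈ Finset.range (2 * K), Zf ((2 : ℝ) : ℂ) (sp t φ) ((j + 1 : ℕ) : ℝ)) *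
      ∏ i ∈ Finset.range K, Zf ((-1 : ℝ) : ℂ) (sp t φ) ((2 * i + 1 : ℕ) : ℝ) := by
  unfold PK Zf
  congr 1
  · apply Finset.prod_congr rfl
    intro j _
    rw [pow_exp]
    push_cast
    ring_nf
  · apply Finset.prod_congr rfl
    intro j _
    rw [pow_exp]
    push_cast
    ring_nf

theorem log_norm_PK (K : ℕ) (t φ : ℝ) (h : PK K (Complex.exp (-(sp t φ))) ≠ 0) :
    Real.log ‖PK K (Complex.exp (-(sp t φ)))‖ = GG 2 t φ (2 * K) + OG (-1) t φ K ∧
    (∀ j ∈ Finset.range (2 * K), Zf ((2 : ℝ) : ℂ) (sp t φ) ((j : ℝ) + 1) ≠ 0) := by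
  rw [PK_eq] at h ⊢
  have h1 := left_ne_zero_of_mul h
  have h2 := right_ne_zero_of_mul h
  rw [Finset.prod_ne_zero_iff] at h1 h2
  refine ⟨?_, ?_⟩
  · rw [norm_mul, Real.log_mul, norm_prod, norm_prod, Real.log_prod, Real.log_prod]
    · unfold GG OG
      congr 1
      apply Finset.sum_congr rfl
      intro j _
      push_cast
      rfl
    · intro i hi
      exact norm_ne_zero_iff.2 (h2 i hi)
    · intro i hi
      exact norm_ne_zero_iff.2 (h1 i hi)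
    · exact norm_ne_zero_iff.2 (Finset.prod_ne_zero_iff.2 h1)
    · exact norm_ne_zero_iff.2 (Finset.prod_ne_zero_iff.2 h2)
  · intro j hj
    have := h1 j hj
    push_cast at this ⊢
    exact this

theorem Zm1_ne (t φ x : ℝ) (ht : 0 < t) (hx : 0 < x) : Zf ((-1 : ℝ) : ℂ) (sp t φ) x ≠ 0 := by
  have : 1 - Real.exp (-(x * t)) ≤ ‖Zf ((-1 : ℝ) : ℂ) (sp t φ) x‖ := by
    apply lb_small
    simp
  have h2 : Real.exp (-(x * t)) < 1 := by
    rw [Real.exp_lt_one_iff]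
    have := mul_pos hx ht
    linarith
  intro h
  rw [h, norm_zero] at this
  linarith

/-- reflection at `π`: `φ = π - φ'` -/
theorem norm_reflect (c t φ : ℝ) (n : ℕ) :
    ‖Zf (c : ℂ) (sp t (Real.pi - φ)) n‖ = ‖Zf (((-1) ^ n * c : ℝ) : ℂ) (sp t φ) n‖ := by
  have h1 := normsq_Zf c t (Real.pi - φ) n
  have h2 := normsq_Zf ((-1) ^ n * c) t φ n
  have h3 : Real.cos (n * (Real.pi - φ)) = (-1) ^ n * Real.cos (n * φ) := by
    rw [mul_sub, Real.cos_nat_mul_pi_sub]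
  rw [h3] at h1
  have h4 : ((-1 : ℝ) ^ n * c) ^ 2 = c ^ 2 := by
    rw [mul_pow, ← pow_mul, mul_comm n 2, pow_mul]; simp
  rw [h4] at h2
  have h5 : ‖Zf (c : ℂ) (sp t (Real.pi - φ)) n‖ ^ 2 = ‖Zf (((-1) ^ n * c : ℝ) : ℂ) (sp t φ) n‖ ^ 2 := by
    rw [h1, h2]; ring
  exact (pow_left_inj₀ (norm_nonneg _) (norm_nonneg _) two_ne_zero).1 h5

theorem GG_reflect (t φ : ℝ) (K : ℕ) :
    GG 2 t (Real.pi - φ) (2 * K) = OG (-2) t φ K + GG 2 (2 * t) (2 * φ) K := by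
  unfold GG OG
  have h := sum_split (fun n : ℕ => Real.log ‖Zf ((2 : ℝ) : ℂ) (sp t (Real.pi - φ)) (n : ℝ)‖) K
  have e1 : ∑ j ∈ Finset.range (2 * K), Real.log ‖Zf ((2 : ℝ) : ℂ) (sp t (Real.pi - φ)) ((j : ℝ) + 1)‖ =
      ∑ j ∈ Finset.range (2 * K), Real.log ‖Zf ((2 : ℝ) : ℂ) (sp t (Real.pi - φ)) ((j + 1 : ℕ) : ℝ)‖ := by
    apply Finset.sum_congr rfl
    intro j _
    push_cast; rfl
  rw [e1, h]
  congr 1
  · apply Finset.sum_congr rfl
    intro i _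
    rw [norm_reflect]
    congr 3
    rw [pow_succ, pow_mul]
    norm_num
  · apply Finset.sum_congr rfl
    intro i _
    rw [norm_reflect, Zf_scale]
    have : (-1 : ℝ) ^ (2 * i + 2) * 2 = 2 := by
      rw [show 2 * i + 2 = 2 * (i + 1) by ring, pow_mul]; norm_num
    rw [this]
    push_cast
    ring_nf

theorem OG_reflect (t φ : ℝ) (K : ℕ) :
    OG (-1) t (Real.pi - φ) K = OG 1 t φ K := by
  unfold OG
  apply Finset.sum_congr rfl
  intro i _
  rw [norm_reflect]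
  congr 3
  rw [pow_succ, pow_mul]
  norm_num

/-- the identity `∏ (1 - z^odd) ∏ (1+z^j) = ∏ (1 - z^(2(K+i+1)))` -/
theorem odd_identity (K : ℕ) (z : ℂ) :
    (∏ i ∈ Finset.range K, (1 - z ^ (2 * i + 1))) * (∏ j ∈ Finset.range (2 * K), (1 + z ^ (j + 1))) *
      (∏ i ∈ Finset.range K, (1 - z ^ (2 * i + 2))) = ∏ i ∈ Finset.range (2 * K), (1 - z ^ (2 * i + 2)) := by
  have h1 : ∀ M : ℕ, (∏ j ∈ Finset.range M, (1 + z ^ (j + 1))) * (∏ j ∈ Finset.range M, (1 - z ^ (j + 1))) =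
      ∏ i ∈ Finset.range M, (1 - z ^ (2 * i + 2)) := by
    intro M
    rw [← Finset.prod_mul_distrib]
    apply Finset.prod_congr rfl
    intro i _
    ring
  have h2 : ∀ K : ℕ, ∏ j ∈ Finset.range (2 * K), (1 - z ^ (j + 1)) =
      (∏ i ∈ Finset.range K, (1 - z ^ (2 * i + 1))) * ∏ i ∈ Finset.range K, (1 - z ^ (2 * i + 2)) := by
    intro K
    induction K with
    | zero => simp
    | succ K ih =>
      rw [show 2 * (K + 1) = 2 * K + 1 + 1 by ring, Finset.prod_range_succ, Finset.prod_range_succ, ih,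
        Finset.prod_range_succ, Finset.prod_range_succ]
      ring
  rw [← h1 (2 * K), h2 K]
  ring


theorem odd_identity2 (K : ℕ) (z : ℂ) (hz : ‖z‖ < 1) :
    (∏ i ∈ Finset.range K, (1 - z ^ (2 * i + 1))) * (∏ j ∈ Finset.range (2 * K), (1 + z ^ (j + 1))) =
      ∏ i ∈ Finset.Ico K (2 * K), (1 - z ^ (2 * i + 2)) := by
  have hne : (∏ i ∈ Finset.range K, (1 - z ^ (2 * i + 2))) ≠ 0 := by
    rw [Finset.prod_ne_zero_iff]
    intro i _ h
    have h1 : z ^ (2 * i + 2) = 1 := by linear_combination -h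
    have h2 : ‖z ^ (2 * i + 2)‖ < 1 := by
      rw [norm_pow]
      exact pow_lt_one₀ (norm_nonneg _) hz (by omega)
    rw [h1, norm_one] at h2
    exact lt_irrefl _ h2
  apply mul_right_cancel₀ hne
  rw [odd_identity, mul_comm (∏ i ∈ Finset.Ico K (2 * K), (1 - z ^ (2 * i + 2)))]
  rw [Finset.prod_range_mul_prod_Ico _ (by omega)]

theorem norm_exp_sp (t φ : ℝ) : ‖Complex.exp (-(sp t φ))‖ = Real.exp (-t) := by
  rw [Complex.norm_exp]; simp

theorem tail_log_sum (K : ℕ) (t φ : ℝ) (ht : 0 < t) (ht1 : t ≤ 1 / 20)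
    (hK : Real.exp (-((2 * K : ℕ) * t)) ≤ t ^ 4) :
    ‖∑ i ∈ Finset.Ico K (2 * K), Complex.log (1 - Complex.exp (-(sp t φ)) ^ (2 * i + 2))‖ ≤ 2 * t ^ 3 := by
  set r := Real.exp (-t) with hr
  have hr0 : 0 < r := Real.exp_pos _
  have hr1 : r < 1 := by rw [hr, Real.exp_lt_one_iff]; linarith
  have hrK : r ^ (2 * K) ≤ t ^ 4 := by
    rw [hr, ← Real.exp_nat_mul]
    refine le_trans (le_of_eq ?_) hK
    congr 1; ring
  have ht4 : t ^ 4 ≤ 1 / 2 := by
    have : t ^ 4 ≤ (1 / 20) ^ 4 := pow_le_pow_left₀ ht.le ht1 4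
    norm_num at this ⊢
    linarith
  have h1 : ∀ i ∈ Finset.Ico K (2 * K), ‖Complex.log (1 - Complex.exp (-(sp t φ)) ^ (2 * i + 2))‖ ≤
      3 / 2 * (r ^ (2 * K) * r ^ (i - K)) := by
    intro i hi
    rw [Finset.mem_Ico] at hi
    have e : r ^ (2 * i + 2) ≤ r ^ (2 * K) * r ^ (i - K) := by
      rw [← pow_add]
      exact pow_le_pow_of_le_one hr0.le hr1.le (by omega)
    have h2 : ‖-(Complex.exp (-(sp t φ)) ^ (2 * i + 2))‖ = r ^ (2 * i + 2) := by
      rw [norm_neg, norm_pow, norm_exp_sp]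
    have h3 : r ^ (2 * K) * r ^ (i - K) ≤ r ^ (2 * K) :=
      mul_le_of_le_one_right (by positivity) (pow_le_one₀ hr0.le hr1.le)
    have h4 := Complex.norm_log_one_add_half_le_self (z := -(Complex.exp (-(sp t φ)) ^ (2 * i + 2)))
      (by rw [h2]; linarith)
    rw [h2, ← sub_eq_add_neg] at h4
    linarith
  refine (norm_sum_le _ _).trans ((Finset.sum_le_sum h1).trans ?_)
  rw [← Finset.mul_sum, ← Finset.mul_sum]
  have h5 : ∑ i ∈ Finset.Ico K (2 * K), r ^ (i - K) ≤ (1 - r)⁻¹ := by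
    rw [Finset.sum_Ico_eq_sum_range]
    simp only [add_tsub_cancel_left]
    rw [← tsum_geometric_of_lt_one hr0.le hr1]
    exact (summable_geometric_of_lt_one hr0.le hr1).sum_le_tsum _ (fun i _ => pow_nonneg hr0.le i)
  have h6 : (1 - r)⁻¹ ≤ (1 + t) / t := by
    rw [inv_le_comm₀ (by linarith) (by positivity), inv_div]
    have h7 : r ≤ 1 / (1 + t) := by
      rw [hr, Real.exp_neg, inv_eq_one_div]
      apply one_div_le_one_div_of_le (by linarith)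
      linarith [Real.add_one_le_exp t]
    have : t / (1 + t) = 1 - 1 / (1 + t) := by field_simp; ring
    linarith
  have h7 : 0 ≤ r ^ (2 * K) := by positivity
  have h8 : 0 ≤ ∑ i ∈ Finset.Ico K (2 * K), r ^ (i - K) := Finset.sum_nonneg fun i _ => by positivity
  calc 3 / 2 * (r ^ (2 * K) * ∑ i ∈ Finset.Ico K (2 * K), r ^ (i - K)) ≤ 3 / 2 * (t ^ 4 * ((1 + t) / t)) := by
        have := h5.trans h6
        gcongr
    _ = 3 / 2 * t ^ 3 * (1 + t) := by field_simp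
    _ ≤ _ := by
        have : 0 ≤ t ^ 3 := by positivity
        nlinarith

theorem tail_ne (t φ : ℝ) (ht : 0 < t) (i : ℕ) :
    1 - Complex.exp (-(sp t φ)) ^ (2 * i + 2) ≠ 0 := by
  intro h
  have h1 : Complex.exp (-(sp t φ)) ^ (2 * i + 2) = 1 := by linear_combination -h
  have h2 : ‖Complex.exp (-(sp t φ)) ^ (2 * i + 2)‖ < 1 := by
    rw [norm_pow, norm_exp_sp]
    exact pow_lt_one₀ (Real.exp_pos _).le (by rw [Real.exp_lt_one_iff]; linarith) (by omega)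
  rw [h1, norm_one] at h2
  exact lt_irrefl _ h2

theorem OG_exact (K : ℕ) (t φ : ℝ) (ht : 0 < t) (ht1 : t ≤ 1 / 20)
    (hK : Real.exp (-((2 * K : ℕ) * t)) ≤ t ^ 4)
    (hne : ∀ j ∈ Finset.range (2 * K), Zf ((1 : ℝ) : ℂ) (sp t φ) ((j + 1 : ℕ) : ℝ) ≠ 0) :
    |OG (-1) t φ K + GG 1 t φ (2 * K)| ≤ 2 * t ^ 3 := by
  have hz : ‖Complex.exp (-(sp t φ))‖ < 1 := by
    rw [norm_exp_sp, Real.exp_lt_one_iff]; linarith
  have hid := odd_identity2 K (Complex.exp (-(sp t φ))) hz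
  have e1 : ∏ i ∈ Finset.range K, (1 - Complex.exp (-(sp t φ)) ^ (2 * i + 1)) =
      ∏ i ∈ Finset.range K, Zf ((-1 : ℝ) : ℂ) (sp t φ) ((2 * i + 1 : ℕ) : ℝ) := by
    apply Finset.prod_congr rfl
    intro j _
    unfold Zf
    rw [pow_exp]
    push_cast
    ring_nf
  have e2 : ∏ j ∈ Finset.range (2 * K), (1 + Complex.exp (-(sp t φ)) ^ (j + 1)) =
      ∏ j ∈ Finset.range (2 * K), Zf ((1 : ℝ) : ℂ) (sp t φ) ((j + 1 : ℕ) : ℝ) := by
    apply Finset.prod_congr rfl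
    intro j _
    unfold Zf
    rw [pow_exp]
    push_cast
    ring_nf
  rw [e1, e2] at hid
  have h1 : ∀ i ∈ Finset.range K, Zf ((-1 : ℝ) : ℂ) (sp t φ) ((2 * i + 1 : ℕ) : ℝ) ≠ 0 := by
    intro i _
    apply Zm1_ne t φ _ ht
    positivity
  have hl := congrArg (fun w => Real.log ‖w‖) hid
  beta_reduce at hl
  rw [norm_mul, Real.log_mul, norm_prod, norm_prod, Real.log_prod, Real.log_prod] at hl
  · have e3 : OG (-1) t φ K + GG 1 t φ (2 * K) =
        Real.log ‖∏ i ∈ Finset.Ico K (2 * K), (1 - Complex.exp (-(sp t φ)) ^ (2 * i + 2))‖ := by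
      rw [← hl]
      unfold OG GG
      congr 1
      apply Finset.sum_congr rfl
      intro j _
      push_cast
      rfl
    rw [e3, norm_prod, Real.log_prod]
    · have e4 : ∑ i ∈ Finset.Ico K (2 * K), Real.log ‖1 - Complex.exp (-(sp t φ)) ^ (2 * i + 2)‖ =
          (∑ i ∈ Finset.Ico K (2 * K), Complex.log (1 - Complex.exp (-(sp t φ)) ^ (2 * i + 2))).re := by
        rw [Complex.re_sum]
        simp only [Complex.log_re]
      rw [e4]
      exact (Complex.abs_re_le_norm _).trans (tail_log_sum K t φ ht ht1 hK)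
    · intro i _
      exact norm_ne_zero_iff.2 (tail_ne t φ ht i)
  · intro i hi
    exact norm_ne_zero_iff.2 (hne i hi)
  · intro i hi
    exact norm_ne_zero_iff.2 (h1 i hi)
  · exact norm_ne_zero_iff.2 (Finset.prod_ne_zero_iff.2 h1)
  · exact norm_ne_zero_iff.2 (Finset.prod_ne_zero_iff.2 hne)

end Pool.Agent.Helper10.Miss
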