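import Pool.Agent.Helper10.Miss.Sech

set_option autoImplicit false

namespace Pool.Agent.Helper10.Miss

open MeasureTheory Set

/-- weighted cosine sums -/
noncomputable def Sm (m : ℕ) (t ℓ ψ : ℝ) (M : ℕ) : ℝ :=
  ∑ j ∈ Finset.range M, sc (((j + 1 : ℕ) : ℝ) * t - ℓ) ^ m * Real.cos (((j + 1 : ℕ) : ℝ) * ψ)

theorem sc_neg (v : ℝ) : sc (-v) = sc v := by simp [sc]

theorem sc_anti (u v : ℝ) (h : |u| ≤ |v|) : sc v ≤ sc u := by
  unfold sc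
  exact inv_anti₀ (Real.cosh_pos u) (Real.cosh_le_cosh.2 h)

theorem sc_end (m : ℕ) (hm : 1 ≤ m) (v : ℝ) : |sc v ^ m| ≤ 2 * Real.exp (-v) := by
  have h0 := (sc_pos v).le
  have h1 := sc_le_one v
  rw [abs_of_nonneg (by positivity)]
  calc sc v ^ m ≤ sc v ^ 1 := pow_le_pow_of_le_one h0 h1 hm
    _ = sc v := pow_one _
    _ ≤ _ := sc_le_exp v

theorem end_bd (m : ℕ) (hm : 1 ≤ m) (t ℓ : ℝ) (ht : 0 < t) (M : ℕ)
    (hE : Real.exp (-(M * t)) ≤ t ^ 4) :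
    |sc (((M + 1 : ℕ) : ℝ) * t - ℓ) ^ m| + |sc ((M : ℝ) * t - ℓ) ^ m| ≤ 4 * Real.exp ℓ * t ^ 4 := by
  have h1 := sc_end m hm (((M + 1 : ℕ) : ℝ) * t - ℓ)
  have h2 := sc_end m hm ((M : ℝ) * t - ℓ)
  have e1 : Real.exp (-((M : ℝ) * t - ℓ)) = Real.exp ℓ * Real.exp (-(M * t)) := by
    rw [← Real.exp_add]; ring_nf
  have e2 : Real.exp (-(((M + 1 : ℕ) : ℝ) * t - ℓ)) ≤ Real.exp (-((M : ℝ) * t - ℓ)) := by
    apply Real.exp_le_exp.2
    push_cast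
    linarith
  have h3 : Real.exp ℓ * Real.exp (-(M * t)) ≤ Real.exp ℓ * t ^ 4 :=
    mul_le_mul_of_nonneg_left hE (Real.exp_pos _).le
  rw [e1] at h2 e2
  linarith

theorem abs_sub_log2 (t : ℝ) (ht : 0 < t) (ht1 : t ≤ 1) : |t - Real.log 2| ≤ |(-Real.log 2 : ℝ)| := by
  have := Real.log_two_gt_d9
  rw [abs_neg, abs_of_pos (show 0 < Real.log 2 by linarith), abs_le]
  constructor <;> linarith

theorem S1_upper (t ψ : ℝ) (M : ℕ) (ht : 0 < t) (ht1 : t ≤ 1) (hs : 0 < Real.sin (ψ / 2) ^ 2)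
    (hE : Real.exp (-(M * t)) ≤ t ^ 4) :
    Sm 1 t (Real.log 2) ψ M ≤ -2 / 5 + (1.9094 * t + 8 * t ^ 4) / (4 * Real.sin (ψ / 2) ^ 2) := by
  have hD := dsum sc (fun v => -(sc v * ta v)) (fun v => sc v - 2 * sc v ^ 3) W1
    (fun v => sc v - 2 * sc v ^ 3 + 2 * sc v ^ 4) t (Real.log 2) (4 / 3) ht sc1_d1 sc1_d2 W1_d w1_bd W1_le M
  have hB := end_bd 1 le_rfl t (Real.log 2) ht M hE
  simp only [pow_one] at hB
  have h := sbp_upper (fun j : ℕ => sc ((j : ℝ) * t - Real.log 2)) ψ M _ _ hD hB hs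
  have hV : t * (4 / 3 - W1 (-Real.log 2)) ≤ 1.9094 * t := by
    rw [W1, sc_log2, ta_log2]; norm_num; linarith
  have ha0 : sc (((0 : ℕ) : ℝ) * t - Real.log 2) = 4 / 5 := by
    rw [Nat.cast_zero, zero_mul, zero_sub, sc_log2]
  have ha1 : 4 / 5 ≤ sc (((1 : ℕ) : ℝ) * t - Real.log 2) := by
    rw [← sc_log2]
    apply sc_anti
    simpa using abs_sub_log2 t ht ht1
  rw [exp_log2] at h
  rw [ha0] at h
  have e : Sm 1 t (Real.log 2) ψ M = ∑ j ∈ Finset.range M, sc (((j + 1 : ℕ) : ℝ) * t - Real.log 2) *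
      Real.cos (((j + 1 : ℕ) : ℝ) * ψ) := by
    unfold Sm; simp only [pow_one]
  rw [e]
  refine h.trans ?_
  have h2 : (-(sc (((1 : ℕ) : ℝ) * t - Real.log 2) - 4 / 5) + t * (4 / 3 - W1 (-Real.log 2)) + 4 * 2 * t ^ 4) /
      (4 * Real.sin (ψ / 2) ^ 2) ≤ (1.9094 * t + 8 * t ^ 4) / (4 * Real.sin (ψ / 2) ^ 2) := by
    apply div_le_div_of_nonneg_right _ (by positivity)
    linarith
  linarith

theorem S3_upper (t ψ : ℝ) (M : ℕ) (ht : 0 < t) (ht1 : t ≤ 1) (hs : 0 < Real.sin (ψ / 2) ^ 2)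
    (hE : Real.exp (-(M * t)) ≤ t ^ 4) :
    Sm 3 t (Real.log 2) ψ M ≤ -0.256 + (4.8 * t + 8 * t ^ 4) / (4 * Real.sin (ψ / 2) ^ 2) := by
  have hD := dsum (fun v => sc v ^ 3) (fun v => -(3 * sc v ^ 3 * ta v)) (fun v => 9 * sc v ^ 3 - 12 * sc v ^ 5) W3
    (fun v => 3 * sc v ^ 2) t (Real.log 2) 3 ht sc3_d1 sc3_d2 W3_d w3_bd W3_le M
  have hB := end_bd 3 (by norm_num) t (Real.log 2) ht M hE
  have h := sbp_upper (fun j : ℕ => sc ((j : ℝ) * t - Real.log 2) ^ 3) ψ M _ _ hD hB hs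
  have hV : t * (3 - W3 (-Real.log 2)) ≤ 4.8 * t := by
    rw [W3, ta_log2]; norm_num; linarith
  have ha0 : sc (((0 : ℕ) : ℝ) * t - Real.log 2) = 4 / 5 := by
    rw [Nat.cast_zero, zero_mul, zero_sub, sc_log2]
  have ha1 : 4 / 5 ≤ sc (((1 : ℕ) : ℝ) * t - Real.log 2) := by
    rw [← sc_log2]
    apply sc_anti
    simpa using abs_sub_log2 t ht ht1
  have ha1' : (4 / 5 : ℝ) ^ 3 ≤ sc (((1 : ℕ) : ℝ) * t - Real.log 2) ^ 3 := pow_le_pow_left₀ (by norm_num) ha1 3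
  rw [exp_log2] at h
  rw [ha0] at h
  refine h.trans ?_
  have h2 : (-(sc (((1 : ℕ) : ℝ) * t - Real.log 2) ^ 3 - (4 / 5) ^ 3) + t * (3 - W3 (-Real.log 2)) + 4 * 2 * t ^ 4) /
      (4 * Real.sin (ψ / 2) ^ 2) ≤ (4.8 * t + 8 * t ^ 4) / (4 * Real.sin (ψ / 2) ^ 2) := by
    apply div_le_div_of_nonneg_right _ (by positivity)
    linarith
  norm_num at h2 ⊢
  linarith

/-- first difference of `sech^2` -/
theorem sc2_diff (t ℓ : ℝ) (ht : 0 < t) : sc (((1 : ℕ) : ℝ) * t - ℓ) ^ 2 - sc (((0 : ℕ) : ℝ) * t - ℓ) ^ 2 ≤ t := by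
  have hlip : ∀ v, |-(2 * sc v ^ 2 * ta v)| ≤ 1 := by
    intro v
    have h1 := sc_sq_add v
    have h2 : 0 ≤ sc v ^ 2 := sq_nonneg _
    have h3 : 0 ≤ ta v ^ 2 := sq_nonneg _
    rw [abs_neg, abs_mul, abs_mul, abs_of_nonneg h2]
    have h4 : 2 * |ta v| ≤ 1 + ta v ^ 2 := by
      have := sq_nonneg (1 - |ta v|)
      rw [← sq_abs (ta v)]
      nlinarith
    have : |(2 : ℝ)| = 2 := by norm_num
    rw [this]
    nlinarith
  have hm : Monotone (fun v : ℝ => v - sc v ^ 2) := by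
    apply monotone_of_hasDerivAt_nonneg (fun v => (hasDerivAt_id v).sub (sc2_d1 v))
    intro v
    have := abs_le.1 (hlip v)
    simp only [Pi.zero_apply]
    linarith [this.2]
  have h := hm (show ((0 : ℕ) : ℝ) * t - ℓ ≤ ((1 : ℕ) : ℝ) * t - ℓ by push_cast; linarith)
  push_cast at h ⊢
  linarith

theorem S2_lower (t ψ : ℝ) (M : ℕ) (ht : 0 < t) (hs : 0 < Real.sin (ψ / 2) ^ 2)
    (hE : Real.exp (-(M * t)) ≤ t ^ 4) :
    -0.32 - (5.011 * t + 8 * t ^ 4) / (4 * Real.sin (ψ / 2) ^ 2) ≤ Sm 2 t (Real.log 2) ψ M := by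
  have hD := dsum (fun v => sc v ^ 2) (fun v => -(2 * sc v ^ 2 * ta v)) (fun v => 4 * sc v ^ 2 - 6 * sc v ^ 4) W2
    (fun v => 4 * sc v ^ 2 - 2 * sc v ^ 4) t (Real.log 2) (8 / 3) ht sc2_d1 sc2_d2 W2_d w2_bd W2_le M
  have hB := end_bd 2 (by norm_num) t (Real.log 2) ht M hE
  have h := sbp_lower (fun j : ℕ => sc ((j : ℝ) * t - Real.log 2) ^ 2) ψ M _ _ hD hB hs
  have hV : t * (8 / 3 - W2 (-Real.log 2)) ≤ 4.0108 * t := by
    rw [W2, ta_log2]; norm_num; linarith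
  have ha0 : sc (((0 : ℕ) : ℝ) * t - Real.log 2) = 4 / 5 := by
    rw [Nat.cast_zero, zero_mul, zero_sub, sc_log2]
  have ha1 := sc2_diff t (Real.log 2) ht
  rw [exp_log2] at h
  rw [ha0] at h ha1
  refine le_trans ?_ h
  have h2 : ((sc (((1 : ℕ) : ℝ) * t - Real.log 2) ^ 2 - (4 / 5) ^ 2) + t * (8 / 3 - W2 (-Real.log 2)) + 4 * 2 * t ^ 4) /
      (4 * Real.sin (ψ / 2) ^ 2) ≤ (5.011 * t + 8 * t ^ 4) / (4 * Real.sin (ψ / 2) ^ 2) := by
    apply div_le_div_of_nonneg_right _ (by positivity)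
    norm_num at *
    linarith
  norm_num at h2 ⊢
  linarith

theorem sc_decr (m : ℕ) (t : ℝ) : sc (((1 : ℕ) : ℝ) * t - 0) ^ m - sc (((0 : ℕ) : ℝ) * t - 0) ^ m ≤ 0 := by
  have : sc (((1 : ℕ) : ℝ) * t - 0) ≤ 1 := sc_le_one _
  have h0 := (sc_pos (((1 : ℕ) : ℝ) * t - 0)).le
  have h2 : sc (((0 : ℕ) : ℝ) * t - 0) = 1 := by simp [sc_zero]
  rw [h2, one_pow]
  have := pow_le_one₀ (n := m) h0 this
  linarith

theorem cosh_le (t : ℝ) (h0 : 0 ≤ t) (ht : t ≤ 1) : Real.cosh t ≤ 1 + t ^ 2 := by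
  have h1 := Real.cosh_le_exp_half_sq t
  have h2 : Real.exp (t ^ 2 / 2) ≤ 1 + t ^ 2 := by
    have h3 : |t ^ 2 / 2| ≤ 1 := by
      rw [abs_of_nonneg (by positivity)]
      nlinarith
    have := Real.abs_exp_sub_one_sub_id_le h3
    have h4 := (abs_le.1 this).2
    have h5 : (t ^ 2 / 2) ^ 2 ≤ t ^ 2 / 2 := by
      have : 0 ≤ t ^ 2 / 2 := by positivity
      have : t ^ 2 / 2 ≤ 1 := by nlinarith
      nlinarith
    linarith
  linarith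

theorem sc_ge (t : ℝ) (ht : 0 ≤ t) (ht1 : t ≤ 1) : 1 - t ^ 2 ≤ sc t := by
  have h1 := cosh_le t ht ht1
  have h2 : 1 / (1 + t ^ 2) ≤ sc t := by
    unfold sc
    rw [← one_div]
    exact one_div_le_one_div_of_le (Real.cosh_pos t) h1
  have h3 : 1 - t ^ 2 ≤ 1 / (1 + t ^ 2) := by
    rw [le_div_iff₀ (by positivity)]
    nlinarith [sq_nonneg (t ^ 2)]
  linarith

theorem O1_lower (t ψ : ℝ) (M : ℕ) (ht : 0 < t) (hs : 0 < Real.sin (ψ / 2) ^ 2)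
    (hE : Real.exp (-(M * t)) ≤ t ^ 4) :
    -1 / 2 - (4 / 3 * t + 4 * t ^ 4) / (4 * Real.sin (ψ / 2) ^ 2) ≤ Sm 1 t 0 ψ M := by
  have hD := dsum sc (fun v => -(sc v * ta v)) (fun v => sc v - 2 * sc v ^ 3) W1
    (fun v => sc v - 2 * sc v ^ 3 + 2 * sc v ^ 4) t 0 (4 / 3) ht sc1_d1 sc1_d2 W1_d w1_bd W1_le M
  have hB := end_bd 1 le_rfl t 0 ht M hE
  simp only [pow_one] at hB
  have h := sbp_lower (fun j : ℕ => sc ((j : ℝ) * t - 0)) ψ M _ _ hD hB hs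
  have hV : t * (4 / 3 - W1 (-0)) = 4 / 3 * t := by
    rw [W1, neg_zero, ta_zero]; norm_num; ring
  have ha0 : sc (((0 : ℕ) : ℝ) * t - 0) = 1 := by simp [sc_zero]
  have ee : ((1 : ℕ) : ℝ) * t - 0 = t := by simp
  have ha1 := sc_decr 1 t
  simp only [pow_one] at ha1
  rw [ha0] at h ha1
  rw [ee] at h ha1
  rw [hV, Real.exp_zero] at h
  have e : Sm 1 t 0 ψ M = ∑ j ∈ Finset.range M, sc (((j + 1 : ℕ) : ℝ) * t - 0) *
      Real.cos (((j + 1 : ℕ) : ℝ) * ψ) := by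
    unfold Sm; simp only [pow_one]
  rw [e]
  refine le_trans ?_ h
  have h2 : ((sc t - 1) + 4 / 3 * t + 4 * 1 * t ^ 4) /
      (4 * Real.sin (ψ / 2) ^ 2) ≤ (4 / 3 * t + 4 * t ^ 4) / (4 * Real.sin (ψ / 2) ^ 2) := by
    apply div_le_div_of_nonneg_right _ (by positivity)
    linarith
  linarith

theorem O1_upper (t ψ : ℝ) (M : ℕ) (ht : 0 < t) (ht1 : t ≤ 1) (hs : 0 < Real.sin (ψ / 2) ^ 2)
    (hE : Real.exp (-(M * t)) ≤ t ^ 4) :
    Sm 1 t 0 ψ M ≤ -1 / 2 + (t ^ 2 + 4 / 3 * t + 4 * t ^ 4) / (4 * Real.sin (ψ / 2) ^ 2) := by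
  have hD := dsum sc (fun v => -(sc v * ta v)) (fun v => sc v - 2 * sc v ^ 3) W1
    (fun v => sc v - 2 * sc v ^ 3 + 2 * sc v ^ 4) t 0 (4 / 3) ht sc1_d1 sc1_d2 W1_d w1_bd W1_le M
  have hB := end_bd 1 le_rfl t 0 ht M hE
  simp only [pow_one] at hB
  have h := sbp_upper (fun j : ℕ => sc ((j : ℝ) * t - 0)) ψ M _ _ hD hB hs
  have hV : t * (4 / 3 - W1 (-0)) = 4 / 3 * t := by
    rw [W1, neg_zero, ta_zero]; norm_num; ring
  have ha0 : sc (((0 : ℕ) : ℝ) * t - 0) = 1 := by simp [sc_zero]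
  have ee : ((1 : ℕ) : ℝ) * t - 0 = t := by simp
  have ha1 : 1 - t ^ 2 ≤ sc t := sc_ge t ht.le ht1
  rw [ha0] at h
  rw [ee] at h
  rw [hV, Real.exp_zero] at h
  have e : Sm 1 t 0 ψ M = ∑ j ∈ Finset.range M, sc (((j + 1 : ℕ) : ℝ) * t - 0) *
      Real.cos (((j + 1 : ℕ) : ℝ) * ψ) := by
    unfold Sm; simp only [pow_one]
  rw [e]
  refine h.trans ?_
  have h2 : (-(sc t - 1) + 4 / 3 * t + 4 * 1 * t ^ 4) /
      (4 * Real.sin (ψ / 2) ^ 2) ≤ (t ^ 2 + 4 / 3 * t + 4 * t ^ 4) / (4 * Real.sin (ψ / 2) ^ 2) := by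
    apply div_le_div_of_nonneg_right _ (by positivity)
    linarith
  linarith

theorem O2_lower (t ψ : ℝ) (M : ℕ) (ht : 0 < t) (hs : 0 < Real.sin (ψ / 2) ^ 2)
    (hE : Real.exp (-(M * t)) ≤ t ^ 4) :
    -1 / 2 - (8 / 3 * t + 4 * t ^ 4) / (4 * Real.sin (ψ / 2) ^ 2) ≤ Sm 2 t 0 ψ M := by
  have hD := dsum (fun v => sc v ^ 2) (fun v => -(2 * sc v ^ 2 * ta v)) (fun v => 4 * sc v ^ 2 - 6 * sc v ^ 4) W2
    (fun v => 4 * sc v ^ 2 - 2 * sc v ^ 4) t 0 (8 / 3) ht sc2_d1 sc2_d2 W2_d w2_bd W2_le M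
  have hB := end_bd 2 (by norm_num) t 0 ht M hE
  have h := sbp_lower (fun j : ℕ => sc ((j : ℝ) * t - 0) ^ 2) ψ M _ _ hD hB hs
  have hV : t * (8 / 3 - W2 (-0)) = 8 / 3 * t := by
    rw [W2, neg_zero, ta_zero]; norm_num; ring
  have ha0 : sc (((0 : ℕ) : ℝ) * t - 0) = 1 := by simp [sc_zero]
  have ee : ((1 : ℕ) : ℝ) * t - 0 = t := by simp
  have ha1 := sc_decr 2 t
  rw [ha0] at h ha1
  rw [ee] at h ha1
  rw [hV, Real.exp_zero] at h
  refine le_trans ?_ h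
  have h2 : ((sc t ^ 2 - 1 ^ 2) + 8 / 3 * t + 4 * 1 * t ^ 4) /
      (4 * Real.sin (ψ / 2) ^ 2) ≤ (8 / 3 * t + 4 * t ^ 4) / (4 * Real.sin (ψ / 2) ^ 2) := by
    apply div_le_div_of_nonneg_right _ (by positivity)
    linarith
  linarith

theorem O2_upper (t ψ : ℝ) (M : ℕ) (ht : 0 < t) (ht1 : t ≤ 1) (hs : 0 < Real.sin (ψ / 2) ^ 2)
    (hE : Real.exp (-(M * t)) ≤ t ^ 4) :
    Sm 2 t 0 ψ M ≤ -1 / 2 + (2 * t ^ 2 + 8 / 3 * t + 4 * t ^ 4) / (4 * Real.sin (ψ / 2) ^ 2) := by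
  have hD := dsum (fun v => sc v ^ 2) (fun v => -(2 * sc v ^ 2 * ta v)) (fun v => 4 * sc v ^ 2 - 6 * sc v ^ 4) W2
    (fun v => 4 * sc v ^ 2 - 2 * sc v ^ 4) t 0 (8 / 3) ht sc2_d1 sc2_d2 W2_d w2_bd W2_le M
  have hB := end_bd 2 (by norm_num) t 0 ht M hE
  have h := sbp_upper (fun j : ℕ => sc ((j : ℝ) * t - 0) ^ 2) ψ M _ _ hD hB hs
  have hV : t * (8 / 3 - W2 (-0)) = 8 / 3 * t := by
    rw [W2, neg_zero, ta_zero]; norm_num; ring
  have ha0 : sc (((0 : ℕ) : ℝ) * t - 0) = 1 := by simp [sc_zero]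
  have ee : ((1 : ℕ) : ℝ) * t - 0 = t := by simp
  have ha1 : 1 - 2 * t ^ 2 ≤ sc t ^ 2 := by
    have h1 : 1 - t ^ 2 ≤ sc t := sc_ge t ht.le ht1
    have h2 : 0 ≤ 1 - t ^ 2 := by nlinarith
    have h3 := pow_le_pow_left₀ h2 h1 2
    nlinarith [sq_nonneg (t ^ 2)]
  rw [ha0] at h
  rw [ee] at h
  rw [hV, Real.exp_zero] at h
  refine h.trans ?_
  have h2 : (-(sc t ^ 2 - 1 ^ 2) + 8 / 3 * t + 4 * 1 * t ^ 4) /
      (4 * Real.sin (ψ / 2) ^ 2) ≤ (2 * t ^ 2 + 8 / 3 * t + 4 * t ^ 4) / (4 * Real.sin (ψ / 2) ^ 2) := by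
    apply div_le_div_of_nonneg_right _ (by positivity)
    linarith
  linarith

/-- `1 - tanh v` is small -/
theorem ta_ge (v : ℝ) : 1 - 2 * Real.exp (-v) ≤ ta v := by
  have h1 := sc_le_exp v
  have h2 := sc_sq_add v
  have h3 := abs_le.1 (ta_abs v)
  have h4 := sc_pos v
  rcases le_or_gt (ta v) 0 with h | h
  · -- v <= 0
    have h5 : v ≤ 0 := by
      by_contra hv
      push Not at hv
      have : 0 < ta v := div_pos (Real.sinh_pos_iff.2 hv) (Real.cosh_pos v)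
      linarith
    have h6 : 1 ≤ Real.exp (-v) := Real.one_le_exp (by linarith)
    linarith
  · -- (1 - ta)(1+ta) = sc^2 <= sc
    have h5 := sc_le_one v
    have h6 : (1 - ta v) * (1 + ta v) = sc v ^ 2 := by linarith
    have h7 : (1 - ta v) ≤ sc v ^ 2 := by nlinarith
    have h8 : sc v ^ 2 ≤ sc v := by nlinarith
    linarith

theorem S20_lower (t : ℝ) (M : ℕ) (ht : 0 < t) (hE : Real.exp (-(M * t)) ≤ t ^ 4) :
    1.6 / t - 0.32 - 1.4 * t * (1 + t) ≤ Sm 2 t (Real.log 2) 0 M + 4 * t ^ 3 := by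
  have h := riem (fun v => sc v ^ 2) (fun v => -(2 * sc v ^ 2 * ta v)) (fun v => 4 * sc v ^ 2 - 6 * sc v ^ 4)
    ta 8 t (Real.log 2) ht (by norm_num) hasDerivAt_ta sc2_d1 sc2_d2 (fun v _ => bd2 v) M
  have e : Sm 2 t (Real.log 2) 0 M = ∑ j ∈ Finset.range M, sc (((j + 1 : ℕ) : ℝ) * t - Real.log 2) ^ 2 := by
    unfold Sm; simp
  rw [e]
  rw [exp_log2, sc_log2, ta_log2] at h
  have h1 := (abs_le.1 h).1
  have h2 := ta_ge ((M : ℝ) * t - Real.log 2)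
  have e1 : Real.exp (-((M : ℝ) * t - Real.log 2)) = 2 * Real.exp (-(M * t)) := by
    rw [← exp_log2, ← Real.exp_add, exp_log2]; ring_nf
  rw [e1] at h2
  have h3 : 0 ≤ sc ((M : ℝ) * t - Real.log 2) ^ 2 := sq_nonneg _
  have h4 : 1.6 / t - 4 * t ^ 3 ≤ (ta ((M : ℝ) * t - Real.log 2) - -(3 / 5)) / t := by
    rw [le_div_iff₀ ht]
    have : (1.6 / t - 4 * t ^ 3) * t = 1.6 - 4 * t ^ 4 := by field_simp
    rw [this]
    norm_num
    linarith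
  have h5 : 0 ≤ t * (1 + t) := by positivity
  norm_num at h4 h1 ⊢
  nlinarith

/-- lower bound for arctan(1/2) -/
theorem arctan_lower (x : ℝ) (hx : 0 ≤ x) : x - x ^ 3 / 3 ≤ Real.arctan x := by
  have hm : MonotoneOn (fun y : ℝ => Real.arctan y - (y - y ^ 3 / 3)) (Ici 0) := by
    apply monotoneOn_of_deriv_nonneg (convex_Ici 0)
    · fun_prop
    · intro y _
      apply DifferentiableAt.differentiableWithinAt
      exact (Real.hasDerivAt_arctan y).differentiableAt.sub (by fun_prop)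
    · intro y _
      have hd : HasDerivAt (fun y : ℝ => Real.arctan y - (y - y ^ 3 / 3)) (1 / (1 + y ^ 2) - (1 - y ^ 2)) y := by
        refine ((Real.hasDerivAt_arctan y).sub ((hasDerivAt_id y).sub (((hasDerivAt_id y).pow 3).div_const 3))).congr_deriv ?_
        simp
      rw [hd.deriv]
      have : 1 / (1 + y ^ 2) - (1 - y ^ 2) = y ^ 4 / (1 + y ^ 2) := by
        field_simp
        ring
      rw [this]
      positivity
  have := hm (show (0 : ℝ) ∈ Ici (0 : ℝ) from self_mem_Ici) hx hx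
  simp at this
  linarith

noncomputable def gd (v : ℝ) : ℝ := 2 * Real.arctan (Real.exp v)

theorem hasDerivAt_gd (v : ℝ) : HasDerivAt gd (sc v) v := by
  have h := ((Real.hasDerivAt_exp v).arctan).const_mul 2
  refine h.congr_deriv ?_
  unfold sc
  rw [Real.cosh_eq, Real.exp_neg]
  have := (Real.exp_pos v).ne'
  field_simp
  ring

noncomputable def H3 (v : ℝ) : ℝ := (sc v * ta v + gd v) / 2

theorem hasDerivAt_H3 (v : ℝ) : HasDerivAt H3 (sc v ^ 3) v := by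
  have h := ((hasDerivAt_sc v).mul (hasDerivAt_ta v)).add (hasDerivAt_gd v)
  refine (h.div_const 2).congr_deriv ?_
  have := sc_sq_add v
  linear_combination (-(sc v) / 2) * this

theorem gd_le (v : ℝ) : gd v ≤ Real.pi := by
  unfold gd
  have := Real.arctan_lt_pi_div_two (Real.exp v)
  linarith

theorem S30_upper (t : ℝ) (M : ℕ) (ht : 0 < t) (ht1 : t ≤ 1) (hE : Real.exp (-(M * t)) ≤ t ^ 4) :
    Sm 3 t (Real.log 2) 0 M ≤ 1.3526 / t - 0.256 + t * (1 + t) + 4 * t ^ 3 := by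
  have h := riem (fun v => sc v ^ 3) (fun v => -(3 * sc v ^ 3 * ta v)) (fun v => 9 * sc v ^ 3 - 12 * sc v ^ 5)
    H3 6 t (Real.log 2) ht (by norm_num) hasDerivAt_H3 sc3_d1 sc3_d2 (fun v _ => bd3 v) M
  have e : Sm 3 t (Real.log 2) 0 M = ∑ j ∈ Finset.range M, sc (((j + 1 : ℕ) : ℝ) * t - Real.log 2) ^ 3 := by
    unfold Sm; simp
  rw [e]
  rw [exp_log2, sc_log2] at h
  have h1 := (abs_le.1 h).2
  have h0 : H3 (-Real.log 2) = -(6 / 25) + Real.arctan (1 / 2) := by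
    unfold H3 gd
    rw [sc_log2, ta_log2, Real.exp_neg, Real.exp_log (by norm_num)]
    norm_num
    ring
  have harc := arctan_lower (1 / 2) (by norm_num)
  have hpi := Real.pi_lt_d4
  have e1 : Real.exp (-((M : ℝ) * t - Real.log 2)) = 2 * Real.exp (-(M * t)) := by
    rw [← exp_log2, ← Real.exp_add, exp_log2]; ring_nf
  have hsv := sc_le_exp ((M : ℝ) * t - Real.log 2)
  rw [e1] at hsv
  have hsp := sc_pos ((M : ℝ) * t - Real.log 2)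
  have hs1 := sc_le_one ((M : ℝ) * t - Real.log 2)
  have hH : H3 ((M : ℝ) * t - Real.log 2) ≤ 2 * t ^ 4 + Real.pi / 2 := by
    unfold H3
    have h2 := gd_le ((M : ℝ) * t - Real.log 2)
    have h3 : sc ((M : ℝ) * t - Real.log 2) * ta ((M : ℝ) * t - Real.log 2) ≤ sc ((M : ℝ) * t - Real.log 2) := by
      have := (abs_le.1 (ta_abs ((M : ℝ) * t - Real.log 2))).2
      nlinarith
    linarith
  have h4 : (H3 ((M : ℝ) * t - Real.log 2) - H3 (-Real.log 2)) / t ≤ 1.3526 / t + 2 * t ^ 3 := by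
    have : 1.3526 / t + 2 * t ^ 3 = (1.3526 + 2 * t ^ 4) / t := by field_simp
    rw [this]
    apply div_le_div_of_nonneg_right _ ht.le
    rw [h0]
    norm_num at *
    linarith
  have h5 : sc ((M : ℝ) * t - Real.log 2) ^ 3 ≤ 4 * t ^ 4 := by
    have : sc ((M : ℝ) * t - Real.log 2) ^ 3 ≤ sc ((M : ℝ) * t - Real.log 2) ^ 1 :=
      pow_le_pow_of_le_one hsp.le hs1 (by norm_num)
    rw [pow_one] at this
    linarith
  have h6 : 6 * 2 * t * (1 + t) / 12 = t * (1 + t) := by ring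
  rw [h6] at h1
  have h7 : t ^ 4 ≤ t ^ 3 := pow_le_pow_of_le_one ht.le ht1 (by norm_num)
  norm_num at *
  linarith


theorem O20 (t : ℝ) (M : ℕ) (ht : 0 < t) (hE : Real.exp (-(M * t)) ≤ t ^ 4) :
    1 / t - 1 / 2 - 2 / 3 * t * (1 + t) - 2 * t ^ 3 ≤ Sm 2 t 0 0 M ∧
    Sm 2 t 0 0 M ≤ 1 / t - 1 / 2 + 2 / 3 * t * (1 + t) + t ^ 4 := by
  have h := riem (fun v => sc v ^ 2) (fun v => -(2 * sc v ^ 2 * ta v)) (fun v => 4 * sc v ^ 2 - 6 * sc v ^ 4)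
    ta 8 t 0 ht (by norm_num) hasDerivAt_ta sc2_d1 sc2_d2 (fun v _ => bd2 v) M
  have e : Sm 2 t 0 0 M = ∑ j ∈ Finset.range M, sc (((j + 1 : ℕ) : ℝ) * t - 0) ^ 2 := by
    unfold Sm; simp
  rw [e]
  rw [Real.exp_zero, neg_zero, sc_zero, ta_zero] at h
  have h1 := abs_le.1 h
  have h2 := ta_ge ((M : ℝ) * t - 0)
  have hb := (abs_le.1 (ta_abs ((M : ℝ) * t - 0))).2
  have e1 : Real.exp (-((M : ℝ) * t - 0)) = Real.exp (-(M * t)) := by ring_nf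
  rw [e1] at h2
  have h3 : 0 ≤ sc ((M : ℝ) * t - 0) ^ 2 := sq_nonneg _
  have hsv := sc_le_exp ((M : ℝ) * t - 0)
  rw [e1] at hsv
  have hsp := sc_pos ((M : ℝ) * t - 0)
  have hs1 := sc_le_one ((M : ℝ) * t - 0)
  have h5 : sc ((M : ℝ) * t - 0) ^ 2 ≤ 2 * t ^ 4 := by
    have : sc ((M : ℝ) * t - 0) ^ 2 ≤ sc ((M : ℝ) * t - 0) ^ 1 :=
      pow_le_pow_of_le_one hsp.le hs1 (by norm_num)
    rw [pow_one] at this
    linarith
  have h4 : 1 / t - 2 * t ^ 3 ≤ (ta ((M : ℝ) * t - 0) - 0) / t := by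
    rw [le_div_iff₀ ht]
    have : (1 / t - 2 * t ^ 3) * t = 1 - 2 * t ^ 4 := by field_simp
    rw [this]
    linarith
  have h6 : (ta ((M : ℝ) * t - 0) - 0) / t ≤ 1 / t := by
    apply div_le_div_of_nonneg_right _ ht.le
    linarith
  have h7 : 8 * 1 * t * (1 + t) / 12 = 2 / 3 * t * (1 + t) := by ring
  rw [h7] at h1
  obtain ⟨h1a, h1b⟩ := h1
  constructor
  · linarith
  · linarith

theorem arctan_le_self' (x : ℝ) (hx : 0 ≤ x) : Real.arctan x ≤ x := by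
  rcases hx.lt_or_eq with h | h
  · have h1 : 0 < Real.arctan x := Real.arctan_pos.2 h
    have := Real.lt_tan h1 (Real.arctan_lt_pi_div_two x)
    rw [Real.tan_arctan] at this
    exact this.le
  · rw [← h, Real.arctan_zero]

theorem gd_ge (v : ℝ) : Real.pi - 2 * Real.exp (-v) ≤ gd v := by
  unfold gd
  have h := Real.arctan_inv_of_pos (Real.exp_pos (-v))
  have e : (Real.exp (-v))⁻¹ = Real.exp v := by rw [Real.exp_neg, inv_inv]
  rw [e] at h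
  rw [h]
  have h2 := arctan_le_self' _ (Real.exp_pos (-v)).le
  linarith

end Pool.Agent.Helper10.Miss
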